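import Mathlib.Combinatorics.SimpleGraph.Acyclic
import Mathlib.Algebra.Group.Action.Basic
import Mathlib.Tactic

/-!
# The core of the bimarked case: a product of tokens with at least one `x` does not fix the vertex `vH`

Abstract form of helper97's note HEIGHT, sections 1 and 2: a group `F` acts on a tree `G` with two
classes of vertices (translates of `vQ` and of `vH`).  Tokens fix `vQ` or `vH`; `A p` (`B p`) is the
connected set of the vertices with the out-letter (the in-letter) of `x` at the point `p`.
-/

set_option autoImplicit false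

namespace D0L.Tr

open SimpleGraph

/-! ### Links: walks with all vertices in a set -/

section Lk

variable {V : Type*} {G : SimpleGraph V}

/-- `a` and `b` are joined by a walk with all vertices in `P`. -/
def Lk (G : SimpleGraph V) (P : V → Prop) (a b : V) : Prop :=
  ∃ p : G.Walk a b, ∀ v ∈ p.support, P v

theorem Lk.refl {P : V → Prop} {a : V} (h : P a) : Lk G P a a :=
  ⟨Walk.nil, by simpa using h⟩

theorem Lk.symm {P : V → Prop} {a b : V} (h : Lk G P a b) : Lk G P b a := by
  obtain ⟨p, hp⟩ := h
  exact ⟨p.reverse, by simpa using hp⟩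

theorem Lk.trans {P : V → Prop} {a b c : V} (h : Lk G P a b) (h' : Lk G P b c) : Lk G P a c := by
  obtain ⟨p, hp⟩ := h
  obtain ⟨q, hq⟩ := h'
  refine ⟨p.append q, fun v hv => ?_⟩
  rcases (Walk.mem_support_append_iff _ _).1 hv with h1 | h1
  · exact hp v h1
  · exact hq v h1

theorem Lk.adj {P : V → Prop} {a b : V} (h : G.Adj a b) (ha : P a) (hb : P b) : Lk G P a b := by
  refine ⟨Walk.cons h Walk.nil, fun v hv => ?_⟩
  simp only [Walk.support_cons, Walk.support_nil, List.mem_cons, List.not_mem_nil,
    or_false] at hv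
  rcases hv with rfl | rfl
  · exact ha
  · exact hb

theorem Lk.mono {P P' : V → Prop} {a b : V} (h : Lk G P a b) (hP : ∀ v, P v → P' v) :
    Lk G P' a b := by
  obtain ⟨p, hp⟩ := h
  exact ⟨p, fun v hv => hP v (hp v hv)⟩

theorem Lk.of_walk {S : Set V} {a b : S} (p : (G.induce S).Walk a b) :
    Lk G (· ∈ S) (a : V) (b : V) := by
  induction p with
  | nil => exact Lk.refl (Subtype.coe_prop _)
  | cons h p ih => exact Lk.trans (Lk.adj h (Subtype.coe_prop _) (Subtype.coe_prop _)) ih

theorem Lk.of_pre {S : Set V} (h : (G.induce S).Preconnected) {a b : V} (ha : a ∈ S)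
    (hb : b ∈ S) : Lk G (· ∈ S) a b := by
  obtain ⟨p⟩ := h ⟨a, ha⟩ ⟨b, hb⟩
  exact Lk.of_walk p

/-- The path is contained in every link. -/
theorem Lk.path (hG : G.IsAcyclic) {P : V → Prop} {a b : V} (h : Lk G P a b) {q : G.Walk a b}
    (hq : q.IsPath) : ∀ v ∈ q.support, P v := by
  classical
  obtain ⟨p, hp⟩ := h
  have := hG.subsingleton_path a b
  have h1 : (⟨q, hq⟩ : G.Path a b) = p.toPath := Subsingleton.elim _ _
  have h2 : q = p.toPath.1 := congrArg Subtype.val h1
  intro v hv
  rw [h2] at hv
  exact hp v (p.support_toPath_subset_support hv)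

/-- Two paths form a path if the second one does not turn back. -/
theorem append_path (hG : G.IsAcyclic) {a b c : V} {q : G.Walk a b} {p : G.Walk b c}
    (hq : q.IsPath) (hp : p.IsPath) (h : p.snd ∉ q.support) : (q.append p).IsPath := by
  classical
  rw [Walk.isPath_def, Walk.support_append]
  have h1 : p.support = b :: p.support.tail := (p.cons_tail_support).symm
  refine List.Nodup.append hq.support_nodup ?_ ?_
  · have h2 := hp.support_nodup
    rw [h1] at h2
    exact (List.nodup_cons.1 h2).2
  · intro v hv hv'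
    have hb : v ≠ b := by
      rintro rfl
      have h2 := hp.support_nodup
      rw [h1] at h2
      exact (List.nodup_cons.1 h2).1 hv'
    have hvp : v ∈ p.support := by
      rw [h1]
      exact List.mem_cons_of_mem _ hv'
    have h3 : Lk G (· ∈ q.support) b v :=
      ⟨(q.dropUntil v hv).reverse, fun u hu => by
        rw [Walk.support_reverse, List.mem_reverse] at hu
        exact q.support_dropUntil_subset_support hv hu⟩
    have h4 := h3.path hG (hp.takeUntil hvp)
    refine h (h4 p.snd ?_)
    have h5 : (p.takeUntil v hvp).snd = p.snd := Walk.snd_takeUntil hb p hvp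
    rw [← h5]
    exact Walk.getVert_mem_support _ _

end Lk

/-! ### Group actions on trees with two classes of vertices -/

/-- A group acts on a tree, the vertices are the translates of the ends of one edge; `η` is a height
on the first class. -/
structure TreeAct {F V : Type*} [Group F] [MulAction F V] (G : SimpleGraph V) (vQ vH : V)
    (η : F → ℤ) : Prop where
  conn : G.Connected
  acyc : G.IsAcyclic
  smul : ∀ (g : F) (u v : V), G.Adj u v → G.Adj (g • u) (g • v)
  base : G.Adj vQ vH
  excl : ∀ g g' : F, g • vQ ≠ g' • vH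
  bipQ : ∀ (g : F) (v : V), G.Adj (g • vQ) v → ∃ g' : F, v = g' • vH
  bipH : ∀ (g : F) (v : V), G.Adj (g • vH) v → ∃ g' : F, v = g' • vQ
  mul : ∀ g h : F, η (g * h) = η g + η h
  stab : ∀ g : F, g • vQ = vQ → η g = 0

section Act

variable {F V : Type*} [Group F] [MulAction F V] {G : SimpleGraph V} {vQ vH : V} {η : F → ℤ}

/-- `v` is in the first class with height `k`. -/
def Ht (vQ : V) (η : F → ℤ) (v : V) (k : ℤ) : Prop := ∃ g : F, v = g • vQ ∧ η g = k

theorem TreeAct.one (T : TreeAct G vQ vH η) : η 1 = 0 := by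
  have h := T.mul 1 1
  rw [mul_one] at h
  omega

theorem TreeAct.inv (T : TreeAct G vQ vH η) (g : F) : η g⁻¹ = - η g := by
  have h := T.mul g g⁻¹
  rw [mul_inv_cancel, T.one] at h
  omega

theorem Ht.unique (T : TreeAct G vQ vH η) {v : V} {k k' : ℤ} (h : Ht vQ η v k)
    (h' : Ht vQ η v k') : k = k' := by
  obtain ⟨g, hg, rfl⟩ := h
  obtain ⟨g', hg', rfl⟩ := h'
  have h1 : (g⁻¹ * g') • vQ = vQ := by
    rw [mul_smul, ← hg', hg, inv_smul_smul]
  have h2 := T.stab _ h1
  rw [T.mul, T.inv] at h2
  omega

theorem Ht.smul (T : TreeAct G vQ vH η) {v : V} {k : ℤ} (h : Ht vQ η v k) (g : F) :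
    Ht vQ η (g • v) (η g + k) := by
  obtain ⟨g', rfl, rfl⟩ := h
  exact ⟨g * g', by rw [mul_smul], T.mul _ _⟩

theorem TreeAct.not_ht (T : TreeAct G vQ vH η) {k : ℤ} (g : F) : ¬ Ht vQ η (g • vH) k := by
  rintro ⟨g', h, _⟩
  exact T.excl g' g h.symm

/-- Translation of walks. -/
def TreeAct.hom (T : TreeAct G vQ vH η) (g : F) : G →g G where
  toFun v := g • v
  map_rel' {u v} h := T.smul g u v h

theorem TreeAct.hom_path (T : TreeAct G vQ vH η) (g : F) {a b : V} {p : G.Walk a b}
    (hp : p.IsPath) : (p.map (T.hom g)).IsPath :=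
  Walk.IsPath.map (fun u v h => by
    change g • u = g • v at h
    exact (MulAction.injective g) h) hp

theorem TreeAct.mem_hom (T : TreeAct G vQ vH η) (g : F) {a b : V} {p : G.Walk a b} {v : V}
    (hv : v ∈ (p.map (T.hom g)).support) : ∃ u ∈ p.support, v = g • u := by
  rw [Walk.support_map] at hv
  obtain ⟨w, hw, rfl⟩ := List.mem_map.1 hv
  exact ⟨w, hw, rfl⟩

theorem TreeAct.hom_mem (T : TreeAct G vQ vH η) (g : F) {a b : V} {p : G.Walk a b} {u : V}
    (hu : u ∈ p.support) : g • u ∈ (p.map (T.hom g)).support := by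
  rw [Walk.support_map]
  exact List.mem_map.2 ⟨u, hu, rfl⟩

theorem max_ht (T : TreeAct G vQ vH η) (s : List V) :
    (∀ v ∈ s, ∀ k, ¬ Ht vQ η v k) ∨
      ∃ M, (∃ v ∈ s, Ht vQ η v M) ∧ ∀ v ∈ s, ∀ k, Ht vQ η v k → k ≤ M := by
  classical
  induction s with
  | nil => exact Or.inl (by simp)
  | cons u s ih =>
    by_cases hu : ∃ k, Ht vQ η u k
    · obtain ⟨k, hk⟩ := hu
      rcases ih with h | ⟨M, ⟨v, hv, hM⟩, h⟩
      · refine Or.inr ⟨k, ⟨u, by simp, hk⟩, ?_⟩
        intro v hv k' hk'
        rcases List.mem_cons.1 hv with rfl | hv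
        · exact (Ht.unique T hk' hk).le
        · exact absurd hk' (h v hv k')
      · refine Or.inr ⟨max k M, ?_, ?_⟩
        · rcases le_total k M with h1 | h1
          · exact ⟨v, by simp [hv], by rw [max_eq_right h1]; exact hM⟩
          · exact ⟨u, by simp, by rw [max_eq_left h1]; exact hk⟩
        · intro v hv k' hk'
          rcases List.mem_cons.1 hv with rfl | hv
          · rw [Ht.unique T hk' hk]
            exact le_max_left _ _
          · exact (h v hv k' hk').trans (le_max_right _ _)
    · push Not at hu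
      rcases ih with h | ⟨M, ⟨v, hv, hM⟩, h⟩
      · refine Or.inl ?_
        intro v hv k hk
        rcases List.mem_cons.1 hv with rfl | hv
        · exact hu k hk
        · exact h v hv k hk
      · refine Or.inr ⟨M, ⟨v, by simp [hv], hM⟩, ?_⟩
        intro v hv k' hk'
        rcases List.mem_cons.1 hv with rfl | hv
        · exact absurd hk' (hu k')
        · exact h v hv k' hk'

/-- The products `m_1 x m_2 x .. m_k x`. -/
def runE (x : F) (L : List F) : F := L.foldl (fun g m => g * m * x) 1

theorem runE_concat (x : F) (L : List F) (m : F) : runE x (L ++ [m]) = runE x L * m * x := by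
  simp [runE]

/-- Sections: a nontrivial path contains a vertex of the first class. -/
theorem TreeAct.snd_Q (T : TreeAct G vQ vH η) {g : F} {b : V} {p : G.Walk (g • vH) b}
    (hp : ¬ p.Nil) : ∃ g' : F, p.snd = g' • vQ :=
  T.bipH g _ (p.adj_snd hp)

/-- HEIGHT: a run `m_1 x m_2 x .. m_k x` does not fix `vH`. -/
theorem TreeAct.run (T : TreeAct G vQ vH η) {x : F} (hx : x • vH ≠ vH) (hη : 0 < η x)
    {L : List F} (hL : L ≠ []) (h1 : ∀ m ∈ L, m • vH = vH) (h2 : ∀ m ∈ L, 0 ≤ η m) :
    runE x L • vH ≠ vH := by
  classical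
  obtain ⟨σ⟩ := T.conn.preconnected vH (x • vH)
  set s : G.Path vH (x • vH) := σ.toPath with hs
  -- the path has a vertex of the first class
  obtain ⟨M, ⟨ua, hua, hM⟩, hmax⟩ : ∃ M, (∃ v ∈ s.1.support, Ht vQ η v M) ∧
      ∀ v ∈ s.1.support, ∀ k, Ht vQ η v k → k ≤ M := by
    rcases max_ht T s.1.support with h | h
    · exfalso
      have hnil : ¬ s.1.Nil := fun hn => hx (hn.eq).symm
      have h3 := s.1.adj_snd hnil
      obtain ⟨g, hg⟩ := T.bipH 1 s.1.snd (by rw [one_smul]; exact h3)
      exact h s.1.snd (Walk.getVert_mem_support _ _) (η g) ⟨g, hg, rfl⟩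
    · exact h
  -- heights along the run
  have key : ∀ L : List F, (∀ m ∈ L, m • vH = vH) → (∀ m ∈ L, 0 ≤ η m) →
      Lk G (fun v => ∀ k, Ht vQ η v k → k ≤ η (runE x L) - η x + M) vH (runE x L • vH) := by
    intro L
    induction L using List.reverseRecOn with
    | nil =>
      intro _ _
      have h3 : runE x ([] : List F) = 1 := rfl
      rw [h3, one_smul]
      refine Lk.refl ?_
      intro k hk
      rw [← one_smul F vH] at hk
      exact absurd hk (T.not_ht 1)
    | append_singleton L m ih =>
      intro h1 h2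
      have hm1 : m • vH = vH := h1 m (by simp)
      have hm2 : 0 ≤ η m := h2 m (by simp)
      have h3 := ih (fun m' h => h1 m' (by simp [h])) (fun m' h => h2 m' (by simp [h]))
      have h4 : η (runE x (L ++ [m])) = η (runE x L) + η m + η x := by
        rw [runE_concat, T.mul, T.mul]
      have h5 : Lk G (fun v => ∀ k, Ht vQ η v k → k ≤ η (runE x (L ++ [m])) - η x + M)
          ((runE x L * m) • vH) ((runE x L * m) • (x • vH)) := by
        refine ⟨s.1.map (T.hom (runE x L * m)), fun v hv => ?_⟩
        obtain ⟨u, hu, rfl⟩ := T.mem_hom _ hv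
        intro k hk
        have h6 := Ht.smul T hk (runE x L * m)⁻¹
        rw [inv_smul_smul] at h6
        have h7 := hmax u hu _ h6
        rw [T.inv, T.mul] at h7
        omega
      rw [← mul_smul] at h5
      have h6 : (runE x L * m) • vH = runE x L • vH := by rw [mul_smul, hm1]
      rw [h6, ← runE_concat] at h5
      refine Lk.trans (h3.mono ?_) h5
      intro v hv k hk
      have h7 := hv k hk
      omega
  -- the last section
  intro hfix
  obtain ⟨L', m, rfl⟩ : ∃ L' m, L = L' ++ [m] := by
    rcases List.eq_nil_or_concat L with h | ⟨L', m, h⟩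
    · exact absurd h hL
    · exact ⟨L', m, by simpa using h⟩
  have hm1 : m • vH = vH := h1 m (by simp)
  have hm2 : 0 ≤ η m := h2 m (by simp)
  have h3 := (key L' (fun m' h => h1 m' (by simp [h])) (fun m' h => h2 m' (by simp [h]))).symm
  have h6 : (runE x L' * m) • vH = runE x L' • vH := by rw [mul_smul, hm1]
  have h7 : (runE x L' * m) • (x • vH) = vH := by
    rw [← mul_smul, ← runE_concat]
    exact hfix
  have h8 : Lk G (fun v => ∀ k, Ht vQ η v k → k ≤ η (runE x L') - η x + M)
      ((runE x L' * m) • vH) ((runE x L' * m) • (x • vH)) := by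
    rw [h6, h7]
    exact h3
  have h9 := h8.path T.acyc (T.hom_path (runE x L' * m) s.2) _ (T.hom_mem _ hua)
  have h10 := h9 _ (Ht.smul T hM _)
  rw [T.mul] at h10
  omega

/-! ### Blocks of tokens -/

variable {ι : Type*} (z : ι → F) (x : F)

/-- The value of a product of tokens and `x` (`none` is `x`). -/
def val (l : List (Option ι)) : F := (l.map fun o => o.elim x z).prod

theorem val_nil : val z x ([] : List (Option ι)) = 1 := rfl

theorem val_append (l l' : List (Option ι)) : val z x (l ++ l') = val z x l * val z x l' := by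
  simp [val]

theorem val_none (l : List (Option ι)) : val z x (none :: l) = x * val z x l := by
  simp [val]

theorem val_some (j : ι) (l : List (Option ι)) : val z x (some j :: l) = z j * val z x l := by
  simp [val]

/-- The value of a block of tokens. -/
def bv (m : List ι) : F := (m.map z).prod

theorem bv_nil : bv z ([] : List ι) = 1 := rfl

theorem bv_cons (j : ι) (m : List ι) : bv z (j :: m) = z j * bv z m := by
  simp [bv]

theorem bv_append (m m' : List ι) : bv z (m ++ m') = bv z m * bv z m' := by
  simp [bv]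

theorem val_map (m : List ι) : val z x (m.map some) = bv z m := by
  simp [val, bv, Function.comp_def]

variable {z x}

/-- The path of a block: its vertices of the first class are the vertices of the tokens `q`. -/
theorem TreeAct.token (T : TreeAct G vQ vH η) {q : ι → Prop}
    (hq : ∀ j, q j → z j • vQ = vQ) (hH : ∀ j, ¬ q j → z j • vH = vH) (m : List ι) :
    ∀ c : F, Lk G (fun v => ∀ g : F, v = g • vQ → ∃ m1 j m2, m = m1 ++ j :: m2 ∧ q j ∧
      v = (c * bv z m1) • vQ) (c • vH) ((c * bv z m) • vH) := by
  induction m with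
  | nil =>
    intro c
    rw [bv_nil, mul_one]
    refine Lk.refl ?_
    intro g hg
    exact absurd hg.symm (T.excl g c)
  | cons j m ih =>
    intro c
    have h1 := ih (c * z j)
    rw [mul_assoc, ← bv_cons] at h1
    have h2 : Lk G (fun v => ∀ g : F, v = g • vQ → ∃ m1 j' m2, j :: m = m1 ++ j' :: m2 ∧ q j' ∧
        v = (c * bv z m1) • vQ) ((c * z j) • vH) ((c * bv z (j :: m)) • vH) := by
      refine h1.mono ?_
      intro v hv g hg
      obtain ⟨m1, j', m2, h3, h4, h5⟩ := hv g hg
      exact ⟨j :: m1, j', m2, by rw [h3]; rfl, h4, by rw [h5, bv_cons, mul_assoc]⟩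
    by_cases hj : q j
    · refine Lk.trans ?_ h2
      have hP : ∀ a : V, a = c • vQ → (fun v => ∀ g : F, v = g • vQ → ∃ m1 j' m2,
          j :: m = m1 ++ j' :: m2 ∧ q j' ∧ v = (c * bv z m1) • vQ) a := by
        intro a ha g _
        exact ⟨[], j, m, rfl, hj, by rw [bv_nil, mul_one, ha]⟩
      have hP' : ∀ (a : V) (g' : F), a = g' • vH → (fun v => ∀ g : F, v = g • vQ → ∃ m1 j' m2,
          j :: m = m1 ++ j' :: m2 ∧ q j' ∧ v = (c * bv z m1) • vQ) a := by
        intro a g' ha g hg
        exact absurd (hg.symm.trans ha) (T.excl g g')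
      refine Lk.trans (b := c • vQ) (Lk.adj (T.smul c _ _ T.base).symm (hP' _ c rfl) (hP _ rfl)) ?_
      have h3 : c • vQ = (c * z j) • vQ := by rw [mul_smul, hq j hj]
      rw [h3]
      exact Lk.adj (T.smul (c * z j) _ _ T.base) (hP _ h3.symm) (hP' _ _ rfl)
    · have h3 : (c * z j) • vH = c • vH := by rw [mul_smul, hH j hj]
      rw [h3] at h2
      exact h2

/-- The data of the core theorem. -/
structure CoreData (T : TreeAct G vQ vH η) (z : ι → F) (x : F) (q small : ι → Prop)
    (A B : F → Set V) (l : List (Option ι)) : Prop where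
  hq : ∀ j, q j → z j • vQ = vQ
  hH : ∀ j, ¬ q j → z j • vH = vH
  hx : x • vH ≠ vH
  ηx : 0 < η x
  ηz : ∀ j, 0 ≤ η (z j)
  preA : ∀ g, (G.induce (A g)).Preconnected
  preB : ∀ g, (G.induce (B g)).Preconnected
  memA : ∀ g, g • vH ∈ A g
  memB : ∀ g, g • vH ∈ B g
  /-- after a block of small tokens beginning with a token of `vQ` the out-letter is missing -/
  nro : ∀ g j m, q j → (∀ i ∈ m, small i) → g • vQ ∉ A (g * bv z (j :: m))
  /-- before a block of small tokens ending with a token of `vQ` the in-letter is missing -/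
  nri : ∀ g j m, q j → (∀ i ∈ m, small i) → (g * bv z m) • vQ ∉ B g
  /-- tokens which are not small begin at cuts in `vH` -/
  big : ∀ l1 j l2, l = l1 ++ some j :: l2 → val z x l1 • vH ≠ vH → small j
  /-- `vH` has the out-letter and the in-letter of all factors `x` -/
  cut : ∀ l1 l2, l = l1 ++ none :: l2 → vH ∈ A (val z x l1) ∧ vH ∈ B (val z x l1 * x)

variable {T : TreeAct G vQ vH η} {q small : ι → Prop} {A B : F → Set V} {l : List (Option ι)}

/-- The end of a block which begins at a cut in `vH` and is followed by `x` is in `vH`. -/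
theorem CoreData.out (D : CoreData T z x q small A B l) (n : ℕ) :
    ∀ (l0 : List (Option ι)) (m : List ι) (l2 : List (Option ι)), m.length ≤ n →
      l = l0 ++ m.map some ++ none :: l2 → val z x l0 • vH = vH →
      (val z x l0 * bv z m) • vH = vH := by
  induction n with
  | zero =>
    intro l0 m l2 hm _ h0
    have h1 : m = [] := List.length_eq_zero_iff.1 (by omega)
    rw [h1, bv_nil, mul_one]
    exact h0
  | succ n ih =>
    intro l0 m l2 hm hl h0
    by_contra hne
    -- a later cut in `vH`
    by_cases hcut : ∃ m1 m2, m = m1 ++ m2 ∧ m1 ≠ [] ∧ (val z x l0 * bv z m1) • vH = vH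
    · obtain ⟨m1, m2, rfl, h1, h2⟩ := hcut
      refine hne ?_
      have h3 := ih (l0 ++ m1.map some) m2 l2 ?_ ?_ ?_
      · rw [val_append, val_map] at h3
        rw [bv_append, ← mul_assoc]
        exact h3
      · have h4 := List.length_pos_of_ne_nil h1
        rw [List.length_append] at hm
        omega
      · rw [hl]
        simp
      · rw [val_append, val_map]
        exact h2
    · push Not at hcut
      set c := val z x l0 * bv z m with hc
      have hA := (D.cut (l0 ++ m.map some) l2 hl).1
      rw [val_append, val_map, ← hc] at hA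
      have h1 := Lk.of_pre (D.preA c) hA (D.memA c)
      obtain ⟨p0⟩ := T.conn.preconnected vH (c • vH)
      obtain ⟨p, hp⟩ : ∃ p : G.Walk vH (c • vH), p.IsPath := by
        classical
        exact ⟨p0.toPath.1, p0.toPath.2⟩
      have hnil : ¬ p.Nil := fun hn => hne (hn.eq).symm
      have h2 := h1.path T.acyc hp _ (Walk.getVert_mem_support p 1)
      obtain ⟨g, hg⟩ := T.bipH 1 p.snd (by rw [one_smul]; exact p.adj_snd hnil)
      have h3 := T.token D.hq D.hH m (val z x l0)
      rw [h0, ← hc] at h3
      obtain ⟨m1, j, m2, h4, h5, h6⟩ :=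
        h3.path T.acyc hp p.snd (Walk.getVert_mem_support p 1) g hg
      change p.snd ∈ A c at h2
      rw [h6] at h2
      have h7 : c = val z x l0 * bv z m1 * bv z (j :: m2) := by
        rw [hc, h4, bv_append, mul_assoc]
      rw [h7] at h2
      refine D.nro _ j m2 h5 ?_ h2
      intro i hi
      obtain ⟨m3, m4, h8⟩ := List.append_of_mem hi
      refine D.big (l0 ++ (m1 ++ j :: m3).map some) i (m4.map some ++ none :: l2) ?_ ?_
      · rw [hl, h4, h8]
        simp
      · rw [val_append, val_map]
        exact hcut (m1 ++ j :: m3) (i :: m4) (by rw [h4, h8]; simp) (by simp)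

/-- The begin of a block which ends at a cut in `vH` and is preceded by `x` is in `vH`. -/
theorem CoreData.inn (D : CoreData T z x q small A B l) (n : ℕ) :
    ∀ (l1 : List (Option ι)) (m : List ι) (l2 : List (Option ι)), m.length ≤ n →
      l = l1 ++ none :: (m.map some ++ l2) → (val z x l1 * x * bv z m) • vH = vH →
      (val z x l1 * x) • vH = vH := by
  induction n with
  | zero =>
    intro l1 m l2 hm _ h0
    have h1 : m = [] := List.length_eq_zero_iff.1 (by omega)
    rw [h1, bv_nil, mul_one] at h0
    exact h0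
  | succ n ih =>
    intro l1 m l2 hm hl h0
    by_contra hne
    by_cases hcut : ∃ m1 m2, m = m1 ++ m2 ∧ m2 ≠ [] ∧ (val z x l1 * x * bv z m1) • vH = vH
    · obtain ⟨m1, m2, rfl, h1, h2⟩ := hcut
      refine hne ?_
      refine ih l1 m1 (m2.map some ++ l2) ?_ ?_ h2
      · have h4 := List.length_pos_of_ne_nil h1
        rw [List.length_append] at hm
        omega
      · rw [hl]
        simp
    · push Not at hcut
      set c := val z x l1 * x with hc
      have hB := (D.cut l1 (m.map some ++ l2) hl).2
      rw [← hc] at hB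
      have h1 := Lk.of_pre (D.preB c) (D.memB c) hB
      obtain ⟨p0⟩ := T.conn.preconnected (c • vH) vH
      obtain ⟨p, hp⟩ : ∃ p : G.Walk (c • vH) vH, p.IsPath := by
        classical
        exact ⟨p0.toPath.1, p0.toPath.2⟩
      have hnil : ¬ p.Nil := fun hn => hne hn.eq
      have h2 := h1.path T.acyc hp _ (Walk.getVert_mem_support p 1)
      obtain ⟨g, hg⟩ := T.bipH c p.snd (p.adj_snd hnil)
      have h3 := T.token D.hq D.hH m c
      rw [h0] at h3
      obtain ⟨m1, j, m2, h4, h5, h6⟩ :=
        h3.path T.acyc hp p.snd (Walk.getVert_mem_support p 1) g hg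
      change p.snd ∈ B c at h2
      rw [h6] at h2
      refine D.nri _ j m1 h5 ?_ h2
      intro i hi
      obtain ⟨m3, m4, h8⟩ := List.append_of_mem hi
      refine D.big (l1 ++ none :: m3.map some) i (m4.map some ++ some j :: (m2.map some ++ l2))
        ?_ ?_
      · rw [hl, h4, h8]
        simp
      · rw [val_append, val_none, val_map, ← mul_assoc, ← hc]
        exact hcut m3 (i :: m4 ++ j :: m2) (by rw [h4, h8]; simp) (by simp)

/-- A block between two factors `x` fixes `vH`. -/
theorem CoreData.mid (D : CoreData T z x q small A B l) (l1 : List (Option ι)) (m : List ι)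
    (l2 : List (Option ι)) (hl : l = l1 ++ none :: (m.map some ++ none :: l2)) :
    (val z x l1 * x * bv z m) • vH = (val z x l1 * x) • vH := by
  by_cases hcut : ∃ m1 m2, m = m1 ++ m2 ∧ (val z x l1 * x * bv z m1) • vH = vH
  · obtain ⟨m1, m2, rfl, h1⟩ := hcut
    have h2 := D.inn m1.length l1 m1 (m2.map some ++ none :: l2) le_rfl (by rw [hl]; simp) h1
    have h3 := D.out (m1 ++ m2).length (l1 ++ [none]) (m1 ++ m2) l2 le_rfl (by rw [hl]; simp)
      (by rw [val_append, val_none, val_nil, mul_one]; exact h2)
    rw [val_append, val_none, val_nil, mul_one] at h3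
    rw [h2, h3]
  · push Not at hcut
    by_contra hne
    set c1 := val z x l1 * x with hc1
    set c := c1 * bv z m with hc
    have hB := (D.cut l1 (m.map some ++ none :: l2) hl).2
    rw [← hc1] at hB
    have hA := (D.cut (l1 ++ none :: m.map some) l2 (by rw [hl]; simp)).1
    rw [val_append, val_none, val_map, ← mul_assoc, ← hc1, ← hc] at hA
    have hsm : ∀ m1 i m2, m = m1 ++ i :: m2 → small i := by
      intro m1 i m2 h1
      refine D.big (l1 ++ none :: m1.map some) i (m2.map some ++ none :: l2) ?_ ?_
      · rw [hl, h1]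
        simp
      · rw [val_append, val_none, val_map, ← mul_assoc, ← hc1]
        exact hcut m1 (i :: m2) h1
    obtain ⟨p, hp⟩ : ∃ p : G.Walk (c1 • vH) (c • vH), p.IsPath := by
      classical
      obtain ⟨p0⟩ := T.conn.preconnected (c1 • vH) (c • vH)
      exact ⟨p0.toPath.1, p0.toPath.2⟩
    obtain ⟨r, hr⟩ : ∃ r : G.Walk vH (c1 • vH), r.IsPath := by
      classical
      obtain ⟨p0⟩ := T.conn.preconnected vH (c1 • vH)
      exact ⟨p0.toPath.1, p0.toPath.2⟩
    have hnil : ¬ p.Nil := fun hn => hne hn.eq.symm
    have htok := (T.token D.hq D.hH m c1).path T.acyc hp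
    -- the first vertex of the path
    have h1 : p.snd ∉ r.support := by
      intro h1
      have h2 := (Lk.of_pre (D.preB c1) hB (D.memB c1)).path T.acyc hr _ h1
      obtain ⟨g, hg⟩ := T.bipH c1 p.snd (p.adj_snd hnil)
      obtain ⟨m1, j, m2, h4, h5, h6⟩ := htok p.snd (Walk.getVert_mem_support p 1) g hg
      change p.snd ∈ B c1 at h2
      rw [h6] at h2
      refine D.nri _ j m1 h5 ?_ h2
      intro i hi
      obtain ⟨m3, m4, h8⟩ := List.append_of_mem hi
      exact hsm m3 i (m4 ++ j :: m2) (by rw [h4, h8]; simp)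
    have h2 := append_path T.acyc hr hp h1
    have h3 := (Lk.of_pre (D.preA c) hA (D.memA c)).path T.acyc h2 p.penultimate
      ((Walk.mem_support_append_iff _ _).2 (Or.inr (Walk.getVert_mem_support p _)))
    obtain ⟨g, hg⟩ := T.bipH c p.penultimate (p.adj_penultimate hnil).symm
    obtain ⟨m1, j, m2, h4, h5, h6⟩ := htok p.penultimate (Walk.getVert_mem_support p _) g hg
    change p.penultimate ∈ A c at h3
    rw [h6] at h3
    have h7 : c = c1 * bv z m1 * bv z (j :: m2) := by
      rw [hc, h4, bv_append]
      exact (mul_assoc c1 _ _).symm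
    rw [h7] at h3
    refine D.nro _ j m2 h5 ?_ h3
    intro i hi
    obtain ⟨m3, m4, h8⟩ := List.append_of_mem hi
    exact hsm (m1 ++ j :: m3) i m4 (by rw [h4, h8]; simp)

theorem split_last (l : List (Option ι)) :
    (∃ m : List ι, l = m.map some) ∨ ∃ l1, ∃ m : List ι, l = l1 ++ none :: m.map some := by
  induction l using List.reverseRecOn with
  | nil => exact Or.inl ⟨[], rfl⟩
  | append_singleton l o ih =>
    cases o with
    | none => exact Or.inr ⟨l, [], rfl⟩
    | some j =>
      rcases ih with ⟨m, rfl⟩ | ⟨l1, m, rfl⟩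
      · exact Or.inl ⟨m ++ [j], by simp⟩
      · exact Or.inr ⟨l1, m ++ [j], by simp⟩

theorem eta_bv (T : TreeAct G vQ vH η) {z : ι → F} (hz : ∀ j, 0 ≤ η (z j)) (m : List ι) :
    0 ≤ η (bv z m) := by
  induction m with
  | nil => rw [bv_nil, T.one]
  | cons j m ih =>
    rw [bv_cons, T.mul]
    have := hz j
    omega

/-- All blocks up to an `x` fix `vH`. -/
theorem CoreData.pre (D : CoreData T z x q small A B l) (n : ℕ) :
    ∀ l1 l2, l1.length ≤ n → l = l1 ++ none :: l2 → ∃ L : List F, L ≠ [] ∧
      (∀ m ∈ L, m • vH = vH) ∧ (∀ m ∈ L, 0 ≤ η m) ∧ val z x l1 * x = runE x L := by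
  induction n with
  | zero =>
    intro l1 l2 hn _
    have h1 : l1 = [] := List.length_eq_zero_iff.1 (by omega)
    refine ⟨[1], by simp, by simp, ?_, ?_⟩
    · intro m hm
      rw [List.mem_singleton] at hm
      rw [hm, T.one]
    · rw [h1, val_nil]
      simp [runE]
  | succ n ih =>
    intro l1 l2 hn hl
    rcases split_last l1 with ⟨m, rfl⟩ | ⟨l1', m, rfl⟩
    · have h1 := D.out m.length [] m l2 le_rfl (by rw [hl]; simp) (by rw [val_nil, one_smul])
      rw [val_nil, one_mul] at h1
      refine ⟨[bv z m], by simp, ?_, ?_, ?_⟩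
      · intro m' hm'
        rw [List.mem_singleton] at hm'
        rw [hm', h1]
      · intro m' hm'
        rw [List.mem_singleton] at hm'
        rw [hm']
        exact eta_bv T D.ηz m
      · rw [val_map]
        simp [runE]
    · have hlen : l1'.length ≤ n := by
        simp only [List.length_append, List.length_cons] at hn
        omega
      obtain ⟨L, h1, h2, h3, h4⟩ := ih l1' (m.map some ++ none :: l2) hlen (by rw [hl]; simp)
      have h5 := D.mid l1' m l2 (by rw [hl]; simp)
      refine ⟨L ++ [bv z m], by simp, ?_, ?_, ?_⟩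
      · intro m' hm'
        rcases List.mem_append.1 hm' with h | h
        · exact h2 m' h
        · rw [List.mem_singleton] at h
          rw [h]
          rw [mul_smul] at h5
          exact (MulAction.injective _) h5
      · intro m' hm'
        rcases List.mem_append.1 hm' with h | h
        · exact h3 m' h
        · rw [List.mem_singleton] at h
          rw [h]
          exact eta_bv T D.ηz m
      · rw [runE_concat, ← h4, val_append, val_none, val_map]
        simp only [mul_assoc]

/-- CORE: a product of tokens with at least one `x` does not fix `vH`. -/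
theorem CoreData.ne (D : CoreData T z x q small A B l) (hx : none ∈ l) :
    val z x l • vH ≠ vH := by
  intro h
  rcases split_last l with ⟨m, hm⟩ | ⟨l1, m, hm⟩
  · rw [hm] at hx
    simp at hx
  · obtain ⟨L, h1, h2, h3, h4⟩ := D.pre l1.length l1 (m.map some) le_rfl hm
    have h5 : val z x l = val z x l1 * x * bv z m := by
      rw [hm, val_append, val_none, val_map, mul_assoc]
    have h6 := D.inn m.length l1 m [] le_rfl (by rw [hm]; simp) (by rw [← h5]; exact h)
    rw [h4] at h6
    exact T.run D.hx D.ηx h1 h2 h3 h6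

end Act

end D0L.Tr
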