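import Pool.Agent.H.MP_374efc_lc.Tr.Push5
import Pool.Agent.H.MP_374efc_lc.Tr.Core

/-!
# The last stage of the chain for malnormal `H` (BIMFULL 10.2), in word form

`last_step`: a product of tokens and of `x`, which is read in `H` from the base to the base, has no
factor `x`.  The proof applies the core theorem `CoreData.ne` to the coset tree of two roses.
-/

set_option autoImplicit false

namespace D0L.Tr

open SimpleGraph

variable {α : Type*}

/-! ### Heights -/

/-- The height of an element of the free group for letter weights `c`. -/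
noncomputable def wt (c : α → ℤ) (g : FreeGroup α) : ℤ :=
  Multiplicative.toAdd (FreeGroup.lift (fun a => Multiplicative.ofAdd (c a)) g)

theorem wt_mul (c : α → ℤ) (g h : FreeGroup α) : wt c (g * h) = wt c g + wt c h := by
  unfold wt
  rw [map_mul, toAdd_mul]

theorem wt_one (c : α → ℤ) : wt c 1 = 0 := by
  unfold wt
  rw [map_one, toAdd_one]

theorem wt_inv (c : α → ℤ) (g : FreeGroup α) : wt c g⁻¹ = - wt c g := by
  unfold wt
  rw [map_inv, toAdd_inv]

theorem wt_wel (c : α → ℤ) (u : List α) : wt c (wel u) = (u.map c).sum := by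
  induction u with
  | nil => rw [wel_nil, wt_one]; rfl
  | cons a u ih =>
    rw [wel_cons, wt_mul, ih, List.map_cons, List.sum_cons]
    congr 1
    unfold wt
    rw [FreeGroup.lift_apply_of, toAdd_ofAdd]

variable [DecidableEq α] {Q H : Rose α}

theorem wt_grp {R : Rose α} {hR : Bim R} {c : α → ℤ}
    (hc : ∀ a l, R a = some l → ((a :: l).map c).sum = 0) {g : FreeGroup α}
    (hg : g ∈ (paut R hR).grp) : wt c g = 0 := by
  rw [grp_paut] at hg
  induction hg using Subgroup.closure_induction with
  | mem x hx =>
    obtain ⟨a, l, h1, rfl⟩ := hx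
    rw [wt_wel]
    exact hc a l h1
  | one => exact wt_one c
  | mul x y _ _ hx hy => rw [wt_mul, hx, hy, add_zero]
  | inv x _ hx => rw [wt_inv, hx, neg_zero]

/-! ### The tree -/

omit [DecidableEq α] in
theorem smul_vt_one (b : Bool) {P K : Subgroup (FreeGroup α)} (g : FreeGroup α) :
    g • vt P K b 1 = vt P K b g := by
  rw [smul_vt, mul_one]

/-- The coset tree of two roses. -/
theorem treeAct_rose [Finite α] (hp : Pr Q H) (hh : Hull Q H) (hm : Mal H) {c : α → ℤ}
    (hc : ∀ a l, Q a = some l → ((a :: l).map c).sum = 0) :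
    TreeAct (KG (gQ hp) (gH hp)) (vt (gQ hp) (gH hp) true 1) (vt (gQ hp) (gH hp) false 1)
      (wt c) where
  conn := (KG_isTree_rose hp hh hm).1
  acyc := (KG_isTree_rose hp hh hm).2
  smul g u v h := smul_adj g h
  base := adj_vt true 1
  excl g g' := by
    rw [smul_vt_one, smul_vt_one]
    exact vt_ne (by simp) _ _
  bipQ g v h := by
    rw [smul_vt_one] at h
    obtain ⟨b, g', h1, h2⟩ := h
    have hb : b = true := by
      by_contra hne
      exact vt_ne (fun h => hne h.symm) _ _ h1
    subst hb
    exact ⟨g', by rw [smul_vt_one]; exact h2⟩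
  bipH g v h := by
    rw [smul_vt_one] at h
    obtain ⟨b, g', h1, h2⟩ := h
    have hb : b = false := by
      by_contra hne
      exact vt_ne (fun h => hne h.symm) _ _ h1
    subst hb
    exact ⟨g', by rw [smul_vt_one]; exact h2⟩
  mul := wt_mul c
  stab g h := by
    rw [smul_vt_one, vt_eq, mul_one] at h
    have h1 : g⁻¹ ∈ gQ hp := h
    exact wt_grp hc ((Subgroup.inv_mem_iff _).1 h1)

/-! ### Reading in the rose `Q` -/

theorem last_out {ι : Type*} {z : ι → List α} {a : α} (ha : Q a = none) {m : List ι}
    (hs : ∀ j ∈ m, run Q [] (z j) = some [] ∨ run Q [] (z j) = none) :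
    run Q [] ((m.map z).flatten ++ [a]) = none := by
  induction m with
  | nil => simp [ha]
  | cons i m ih =>
    have h1 := ih (fun j hj => hs j (List.mem_cons_of_mem _ hj))
    rw [List.map_cons, List.flatten_cons, List.append_assoc, run_append]
    rcases hs i List.mem_cons_self with h | h
    · rw [h]
      exact h1
    · rw [h]
      rfl

theorem last_in (hQ : Bim Q) {ι : Type*} {z : ι → List α} {b : α}
    (hb : ∀ s, IsSt Q s → step Q s b ≠ some []) {m : List ι}
    (hs : ∀ j ∈ m, run Q [] (z j) = some [] ∨ ∀ s, IsSt Q s → run Q s (z j) ≠ some []) :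
    ∀ s, IsSt Q s → run Q s (b :: (m.map z).flatten) ≠ some [] := by
  induction m using List.reverseRecOn with
  | nil =>
    intro s hs' h
    rw [List.map_nil, List.flatten_nil, run_cons, Option.bind_eq_some_iff] at h
    obtain ⟨t, h1, h2⟩ := h
    rw [run_nil] at h2
    rw [Option.some.inj h2] at h1
    exact hb s hs' h1
  | append_singleton m i ih =>
    intro s hs' h
    have h0 : b :: ((m ++ [i]).map z).flatten = (b :: (m.map z).flatten) ++ z i := by
      simp
    rw [h0, run_append, Option.bind_eq_some_iff] at h
    obtain ⟨t, h1, h2⟩ := h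
    have ht := run_isSt hs' h1
    rcases hs i (by simp) with h3 | h3
    · have h4 := run_inj hQ ht (isSt_nil Q) h2 h3
      rw [h4] at h1
      exact ih (fun j hj => hs j (by simp [hj])) s hs' h1
    · exact h3 t ht h2

/-- Every letter is the last letter of a petal of a full bimarked rose. -/
theorem last_letter [Finite α] (hp : Pr Q H) (b : α) :
    ∃ s, IsSt H s ∧ step H s b = some [] := by
  choose f hf using hp.full
  have h1 : Function.Injective fun a => (a :: f a).getLast (by simp) := by
    intro a a' h
    refine hp.h a a' _ _ (hf a) (hf a') ?_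
    rw [List.getLast?_eq_some_getLast (by simp), List.getLast?_eq_some_getLast (by simp)]
    exact congrArg some h
  obtain ⟨a, ha⟩ := (Finite.injective_iff_surjective.1 h1) b
  rcases List.eq_nil_or_concat (f a) with h | ⟨l', e, h⟩
  · have h2 : a = b := by
      simp only [h, List.getLast_singleton] at ha
      exact ha
    refine ⟨[], isSt_nil H, ?_⟩
    rw [step_nil, ← h2, hf, h]
  · have h2 : e = b := by
      rw [← ha]
      simp [h]
    refine ⟨[b], Or.inr ⟨a, f a, hf a, ?_⟩, by simp⟩
    rw [h, h2]
    exact ⟨l', by simp⟩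

/-! ### The last stage -/

omit [DecidableEq α] in
theorem bv_wel {ι : Type*} (z : ι → List α) (m : List ι) :
    bv (fun j => wel (z j)) m = wel (m.map z).flatten := by
  induction m with
  | nil => rfl
  | cons j m ih => rw [bv_cons, ih, List.map_cons, List.flatten_cons, wel_append]

omit [DecidableEq α] in
theorem val_wel {ι : Type*} (z : ι → List α) (x : List α) (l : List (Option ι)) :
    val (fun j => wel (z j)) (wel x) l = wel (l.map fun o => o.elim x z).flatten := by
  induction l with
  | nil => rfl
  | cons o l ih =>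
    rw [List.map_cons, List.flatten_cons, wel_append, ← ih]
    cases o with
    | none => rw [val_none]; rfl
    | some j => rw [val_some]; rfl

/-- **BIMFULL (10.2) for malnormal `H`.** -/
theorem last_step [Finite α] (hp : Pr Q H) (hh : Hull Q H) (hm : Mal H) {c : α → ℤ}
    (hc : ∀ a l, Q a = some l → ((a :: l).map c).sum = 0)
    {ι : Type*} {z : ι → List α} {x x1 x2 : List α} {a b : α} (hxa : x = a :: x1)
    (hxb : x = x2 ++ [b]) (hx : run H [] x ≠ some []) (hcx : 0 < (x.map c).sum)
    (hcz : ∀ j, 0 ≤ ((z j).map c).sum)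
    (hz : ∀ j, run Q [] (z j) = some [] ∨ run H [] (z j) = some [])
    (ha : Q a = none) (hb : ∀ s, IsSt Q s → step Q s b ≠ some [])
    {small : ι → Prop}
    (hso : ∀ j, small j → run Q [] (z j) = some [] ∨ run Q [] (z j) = none)
    (hsi : ∀ j, small j → run Q [] (z j) = some [] ∨ ∀ s, IsSt Q s → run Q s (z j) ≠ some [])
    (hbig : ∀ j, ¬ small j → ∀ s, IsSt H s → run H s (z j) ≠ none → s = [])
    {l : List (Option ι)}
    (hl : run H [] (l.map fun o => o.elim x z).flatten = some []) : none ∉ l := by
  classical
  intro hn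
  have T := treeAct_rose hp hh hm hc
  -- reading of prefixes
  have hpre : ∀ u v w : List α, (l.map fun o => o.elim x z).flatten = u ++ v ++ w →
      ∃ s t, run H [] u = some s ∧ IsSt H s ∧ run H s v = some t := by
    intro u v w h
    rw [h, run_append, Option.bind_eq_some_iff] at hl
    obtain ⟨t, h1, _⟩ := hl
    rw [run_append, Option.bind_eq_some_iff] at h1
    obtain ⟨s, h2, h3⟩ := h1
    exact ⟨s, t, h2, run_isSt (isSt_nil H) h2, h3⟩
  have D : CoreData T (fun j => wel (z j)) (wel x) (fun j => run Q [] (z j) = some []) small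
      (fun g => efibre hp g a) (fun g => efibre hp (g * (wel [b])⁻¹) b) l := by
    constructor
    · -- `hq`
      intro j hj
      rw [smul_vt_one]
      rw [vt_eq, mul_one]
      exact Subgroup.inv_mem _ (wel_mem_grp.2 hj)
    · -- `hH`
      intro j hj
      rw [smul_vt_one]
      rw [vt_eq, mul_one]
      exact Subgroup.inv_mem _ (wel_mem_grp.2 ((hz j).resolve_left hj))
    · -- `hx`
      intro h
      rw [smul_vt_one, vt_eq, mul_one] at h
      exact hx (wel_mem_grp.1 ((Subgroup.inv_mem_iff _).1 h))
    · rw [wt_wel]
      exact hcx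
    · intro j
      rw [wt_wel]
      exact hcz j
    · intro g
      exact efibre_preconnected hp hh g a
    · intro g
      exact efibre_preconnected hp hh _ b
    · -- `memA`
      intro g
      rw [smul_vt_one]
      have h1 := (vtH_mem_efibre hp (g := g) (u := []) (a := a)).2 (by
        obtain ⟨t, ht⟩ := hp.full a
        exact ⟨t, by simp [ht]⟩)
      rw [wel_nil, mul_one] at h1
      exact h1
    · -- `memB`
      intro g
      rw [smul_vt_one]
      rw [vt_mem_Ke]
      obtain ⟨s, h1, h2⟩ := last_letter hp b
      refine ⟨⟨s, h1⟩, ⟨[], isSt_nil H⟩, ?_, paut_step.2 h2⟩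
      rw [inv_mul_cancel_left]
      refine rdG_inv_wel.2 ?_
      rw [run_cons, h2]
      rfl
    · -- `nro`
      intro g j m hj hsm h
      rw [smul_vt_one, bv_wel, vtQ_mem_efibre] at h
      obtain ⟨t, ht⟩ := h
      rw [last_out ha] at ht
      · cases ht
      · intro i hi
        rcases List.mem_cons.1 hi with rfl | hi
        · exact Or.inl hj
        · exact hso i (hsm i hi)
    · -- `nri`
      intro g j m hj hsm h
      rw [smul_vt_one, bv_wel, vt_mem_Ke] at h
      obtain ⟨s, s', h1, h2⟩ := h
      have h3 : (g * wel (m.map z).flatten)⁻¹ * (g * (wel [b])⁻¹) =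
          (wel (b :: (m.map z).flatten))⁻¹ := by
        have h4 : b :: (m.map z).flatten = [b] ++ (m.map z).flatten := rfl
        rw [h4, wel_append]
        group
      rw [h3] at h1
      exact last_in hp.q hb (fun i hi => hsi i (hsm i hi)) s.1 s.2 (rdG_inv_wel.1 h1)
    · -- `big`
      intro l1 j l2 h1 h2
      by_contra h3
      obtain ⟨s, t, h4, h5, h6⟩ := hpre (l1.map fun o => o.elim x z).flatten (z j)
        (l2.map fun o => o.elim x z).flatten (by rw [h1]; simp)
      have h7 := hbig j h3 s h5 (by rw [h6]; simp)
      refine h2 ?_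
      rw [val_wel, smul_vt_one, vt_eq, mul_one]
      refine Subgroup.inv_mem _ (wel_mem_grp.2 ?_)
      rw [h4, h7]
    · -- `cut`
      intro l1 l2 h1
      constructor
      · rw [val_wel]
        have h2 := (vtH_mem_efibre hp (g := 1)
          (u := (l1.map fun o => o.elim x z).flatten) (a := a)).2
        rw [one_mul] at h2
        refine h2 ?_
        obtain ⟨s, t, h4, h5, h6⟩ := hpre (l1.map fun o => o.elim x z).flatten [a]
          (x1 ++ (l2.map fun o => o.elim x z).flatten) (by
            rw [h1]
            simp [hxa])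
        exact ⟨t, run_append_some h4 h6⟩
      · have h3 : val (fun j => wel (z j)) (wel x) l1 * wel x * (wel [b])⁻¹ =
            wel ((l1.map fun o => o.elim x z).flatten ++ x2) := by
          rw [val_wel, wel_append, hxb, wel_append]
          group
        have h2 := (vtH_mem_efibre hp (g := 1)
          (u := (l1.map fun o => o.elim x z).flatten ++ x2) (a := b)).2
        rw [one_mul] at h2
        change _ ∈ efibre hp (val (fun j => wel (z j)) (wel x) l1 * wel x * (wel [b])⁻¹) b
        rw [h3]
        refine h2 ?_
        obtain ⟨s, t, h4, h5, h6⟩ := hpre (l1.map fun o => o.elim x z).flatten (x2 ++ [b])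
          (l2.map fun o => o.elim x z).flatten (by
            rw [h1]
            simp [hxb])
        exact ⟨t, by rw [List.append_assoc]; exact run_append_some h4 h6⟩
  refine D.ne hn ?_
  rw [val_wel, smul_vt_one, vt_eq, mul_one]
  exact Subgroup.inv_mem _ (wel_mem_grp.2 hl)

end D0L.Tr
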