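import Pool.Agent.H.MP_374efc_lc.Tr.Core2
import Pool.Agent.H.MP_374efc_lc.Tr.Last

/-!
# The last stage of the chain for every `H` (BIMFULL 10.2, 10.3), in word form

`last_step2`: as `last_step`, but `H` need not be malnormal: the fibre graph is acyclic, and at the
ends of big tokens there is a state of `Q`, different from the base, which is joined to the state of
`H` and to the base of `H`.
-/

set_option autoImplicit false

namespace D0L.Tr

open SimpleGraph

variable {α : Type*} [DecidableEq α] {Q H : Rose α}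

/-! ### The tree of an acyclic pair -/

theorem amalg_ac [Finite α] (hp : Pr Q H) (hh : Hull Q H) (hk : (KK Q H).IsAcyclic) :
    Amalg (gQ hp) (gH hp) := by
  refine amalg_of_fib ?_ (outS_pre hp hh)
  rw [fib_eq hp]
  have : Nonempty (Vx Q H) := ⟨bQ Q H⟩
  exact ⟨⟨kk_conn hp hh⟩, hk⟩

theorem KG_isTree_ac [Finite α] (hp : Pr Q H) (hh : Hull Q H) (hk : (KK Q H).IsAcyclic) :
    (KG (gQ hp) (gH hp)).IsTree := KG_isTree (amalg_ac hp hh hk) (sup_eq_top hp hh)

/-- The coset tree of two roses. -/
theorem treeAct_ac [Finite α] (hp : Pr Q H) (hh : Hull Q H) (hk : (KK Q H).IsAcyclic) {c : α → ℤ}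
    (hc : ∀ a l, Q a = some l → ((a :: l).map c).sum = 0) :
    TreeAct (KG (gQ hp) (gH hp)) (vt (gQ hp) (gH hp) true 1) (vt (gQ hp) (gH hp) false 1)
      (wt c) where
  conn := (KG_isTree_ac hp hh hk).1
  acyc := (KG_isTree_ac hp hh hk).2
  smul g u v h := smul_adj g h
  base := adj_vt true 1
  excl g g' := by
    rw [smul_vt_one, smul_vt_one]
    exact vt_ne (by simp) _ _
  bipQ g v h := by
    rw [smul_vt_one] at h
    obtain ⟨b, g', h1, h2⟩ := h
    have hb : b = true := by
      by_contra hne
      exact vt_ne (fun h => hne h.symm) _ _ h1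
    subst hb
    exact ⟨g', by rw [smul_vt_one]; exact h2⟩
  bipH g v h := by
    rw [smul_vt_one] at h
    obtain ⟨b, g', h1, h2⟩ := h
    have hb : b = false := by
      by_contra hne
      exact vt_ne (fun h => hne h.symm) _ _ h1
    subst hb
    exact ⟨g', by rw [smul_vt_one]; exact h2⟩
  mul := wt_mul c
  stab g h := by
    rw [smul_vt_one, vt_eq, mul_one] at h
    have h1 : g⁻¹ ∈ gQ hp := h
    exact wt_grp hc ((Subgroup.inv_mem_iff _).1 h1)

/-! ### Blocks -/

theorem first_big {ι : Type*} {z : ι → List α} {small : ι → Prop} {a : α} (ha : Q a = none)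
    (hso : ∀ j, small j → run Q [] (z j) = some [] ∨ run Q [] (z j) = none) {m : List ι}
    (h : run Q [] ((m.map z).flatten ++ [a]) ≠ none) :
    ∃ m1 i m2, m = m1 ++ i :: m2 ∧ ¬ small i ∧ run Q [] (m1.map z).flatten = some [] := by
  induction m with
  | nil => exact (h (by simp [ha])).elim
  | cons i m ih =>
    rw [List.map_cons, List.flatten_cons, List.append_assoc, run_append] at h
    by_cases h1 : run Q [] (z i) = some []
    · rw [h1, Option.bind_some] at h
      obtain ⟨m1, i', m2, rfl, h2, h3⟩ := ih h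
      refine ⟨i :: m1, i', m2, rfl, h2, ?_⟩
      rw [List.map_cons, List.flatten_cons]
      exact run_append_some h1 h3
    · refine ⟨[], i, m, rfl, fun hs => ?_, by simp⟩
      rcases hso i hs with h2 | h2
      · exact h1 h2
      · rw [h2] at h
        exact h rfl

theorem last_big (hQ : Bim Q) {ι : Type*} {z : ι → List α} {small : ι → Prop} {b : α}
    (hb : ∀ s, IsSt Q s → step Q s b ≠ some [])
    (hsi : ∀ j, small j → run Q [] (z j) = some [] ∨ ∀ s, IsSt Q s → run Q s (z j) ≠ some [])
    {m : List ι} {s : List α} (hs : IsSt Q s) (h : run Q s (b :: (m.map z).flatten) = some []) :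
    ∃ m1 i m2, m = m1 ++ i :: m2 ∧ ¬ small i ∧ run Q [] (m2.map z).flatten = some [] := by
  induction m using List.reverseRecOn with
  | nil =>
    exfalso
    rw [List.map_nil, List.flatten_nil, run_cons, Option.bind_eq_some_iff] at h
    obtain ⟨t, h1, h2⟩ := h
    rw [run_nil] at h2
    rw [Option.some.inj h2] at h1
    exact hb s hs h1
  | append_singleton m i ih =>
    have h0 : b :: ((m ++ [i]).map z).flatten = (b :: (m.map z).flatten) ++ z i := by simp
    rw [h0, run_append, Option.bind_eq_some_iff] at h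
    obtain ⟨t, h1, h2⟩ := h
    have ht := run_isSt hs h1
    by_cases h3 : run Q [] (z i) = some []
    · have h4 := run_inj hQ ht (isSt_nil Q) h2 h3
      rw [h4] at h1
      obtain ⟨m1, i', m2, rfl, h5, h6⟩ := ih h1
      refine ⟨m1, i', m2 ++ [i], by simp, h5, ?_⟩
      rw [List.map_append, List.flatten_append]
      exact run_append_some h6 (by simpa using h3)
    · refine ⟨m, i, [], rfl, fun hs' => ?_, by simp⟩
      rcases hsi i hs' with h4 | h4
      · exact h3 h4
      · exact h4 t ht h2

/-- A state of `Q` joined to two states of `H` gives a vertex of the tree. -/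
theorem exists_X (hp : Pr Q H) {w s q : List α} (hw : run H [] w = some s) (hq : IsSt Q q)
    (hne : q ≠ []) (h1 : Rel Q H q s) (h2 : Rel Q H q []) :
    ∃ X, (KG (gQ hp) (gH hp)).Adj (vt (gQ hp) (gH hp) false 1) X ∧
      (KG (gQ hp) (gH hp)).Adj X (vt (gQ hp) (gH hp) false (wel w)) ∧
      X ≠ vt (gQ hp) (gH hp) true (wel w) := by
  have key : ∀ v, run Q [] v = some q →
      vt (gQ hp) (gH hp) true (wel w * wel q) = vt (gQ hp) (gH hp) true (wel w * (wel v)⁻¹) := by
    intro v hv
    rw [vt_eq]
    have h3 : (wel w * wel q)⁻¹ * (wel w * (wel v)⁻¹) = (wel (v ++ q))⁻¹ := by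
      rw [wel_append]
      group
    rw [h3]
    exact Subgroup.inv_mem _ (wel_mem_grp.2 (run_append_some hv (run_self Q q)))
  refine ⟨vt (gQ hp) (gH hp) true (wel w * wel q), ?_, ?_, ?_⟩
  · obtain ⟨v, h3, h4⟩ := h1
    rw [key v h3]
    have h5 : vt (gQ hp) (gH hp) false 1 = vt (gQ hp) (gH hp) false (wel w * (wel v)⁻¹) := by
      rw [vt_eq, inv_one, one_mul]
      have hs : IsSt H s := run_isSt (isSt_nil H) hw
      have e1 : (paut H hp.h).RdG (paut H hp.h).base (wel w) ⟨s, hs⟩ := rdG_wel.2 hw
      have e2 : (paut H hp.h).RdG (paut H hp.h).base (wel v) ⟨s, hs⟩ := rdG_wel.2 h4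
      exact e1.mul e2.inv
    rw [h5]
    exact adj_vt false _
  · obtain ⟨v, h3, h4⟩ := h2
    rw [key v h3]
    have h5 : vt (gQ hp) (gH hp) false (wel w) =
        vt (gQ hp) (gH hp) false (wel w * (wel v)⁻¹) := by
      rw [vt_eq, inv_mul_cancel_left]
      exact Subgroup.inv_mem _ (wel_mem_grp.2 h4)
    rw [h5]
    exact adj_vt true _
  · intro h3
    rw [vt_eq] at h3
    have h4 : (wel w * wel q)⁻¹ * wel w = (wel q)⁻¹ := by group
    rw [h4] at h3
    have h5 : run Q [] q = some [] := wel_mem_grp.1 ((Subgroup.inv_mem_iff _).1 h3)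
    exact hne (run_inj hp.q hq (isSt_nil Q) (run_self Q q) h5)

theorem fixH (hp : Pr Q H) (w : List α) :
    wel w • vt (gQ hp) (gH hp) false 1 = vt (gQ hp) (gH hp) false 1 ↔ run H [] w = some [] := by
  rw [smul_vt_one, vt_eq, mul_one]
  exact (Subgroup.inv_mem_iff _).trans wel_mem_grp

theorem fixQ (hp : Pr Q H) (w : List α) :
    wel w • vt (gQ hp) (gH hp) true 1 = vt (gQ hp) (gH hp) true 1 ↔ run Q [] w = some [] := by
  rw [smul_vt_one, vt_eq, mul_one]
  exact (Subgroup.inv_mem_iff _).trans wel_mem_grp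

/-- **BIMFULL (10.2), (10.3) for every `H`.** -/
theorem last_step2 [Finite α] (hp : Pr Q H) (hh : Hull Q H) (hk : (KK Q H).IsAcyclic) {c : α → ℤ}
    (hc : ∀ a l, Q a = some l → ((a :: l).map c).sum = 0)
    {ι : Type*} {z : ι → List α} {x x1 x2 : List α} {a b : α} (hxa : x = a :: x1)
    (hxb : x = x2 ++ [b]) (hx : run H [] x ≠ some []) (hcx : 0 < (x.map c).sum)
    (hcz : ∀ j, 0 ≤ ((z j).map c).sum)
    (hz : ∀ j, run Q [] (z j) = some [] ∨ run H [] (z j) = some [])
    (ha : Q a = none) (hb : ∀ s, IsSt Q s → step Q s b ≠ some [])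
    {small : ι → Prop}
    (hso : ∀ j, small j → run Q [] (z j) = some [] ∨ run Q [] (z j) = none)
    (hsi : ∀ j, small j → run Q [] (z j) = some [] ∨ ∀ s, IsSt Q s → run Q s (z j) ≠ some [])
    (hbig : ∀ j, ¬ small j → ∀ s, IsSt H s → s ≠ [] → run H s (z j) ≠ none →
      ∃ q, IsSt Q q ∧ q ≠ [] ∧ Rel Q H q s ∧ Rel Q H q [])
    (hbig' : ∀ j, ¬ small j → ∀ s0 s, IsSt H s0 → s ≠ [] → run H s0 (z j) = some s →
      ∃ q, IsSt Q q ∧ q ≠ [] ∧ Rel Q H q s ∧ Rel Q H q [])
    {l : List (Option ι)}
    (hl : run H [] (l.map fun o => o.elim x z).flatten = some []) : none ∉ l := by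
  classical
  intro hn
  have T := treeAct_ac hp hh hk hc
  -- all words of `Q` as additional tokens
  obtain ⟨z', hz'⟩ : ∃ z' : ι ⊕ {u : List α // run Q [] u = some []} → List α,
    z' = Sum.elim z fun u => u.1 := ⟨_, rfl⟩
  obtain ⟨small', hsm'⟩ : ∃ small' : ι ⊕ {u : List α // run Q [] u = some []} → Prop,
    small' = Sum.elim small fun _ => True := ⟨_, rfl⟩
  have zl : ∀ j, z' (Sum.inl j) = z j := fun j => by rw [hz']; rfl
  have zr : ∀ u, z' (Sum.inr u) = u.1 := fun u => by rw [hz']; rfl
  have sl : ∀ j, small' (Sum.inl j) = small j := fun j => by rw [hsm']; rfl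
  have sr : ∀ u, small' (Sum.inr u) = True := fun u => by rw [hsm']; rfl
  have hz2 : ∀ j, run Q [] (z' j) = some [] ∨ run H [] (z' j) = some [] := by
    rintro (j | u)
    · rw [zl]; exact hz j
    · rw [zr]; exact Or.inl u.2
  have hso2 : ∀ j, small' j → run Q [] (z' j) = some [] ∨ run Q [] (z' j) = none := by
    rintro (j | u) h
    · rw [sl] at h; rw [zl]; exact hso j h
    · rw [zr]; exact Or.inl u.2
  have hsi2 : ∀ j, small' j → run Q [] (z' j) = some [] ∨
      ∀ s, IsSt Q s → run Q s (z' j) ≠ some [] := by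
    rintro (j | u) h
    · rw [sl] at h; rw [zl]; exact hsi j h
    · rw [zr]; exact Or.inl u.2
  have hb1 : ∀ j, ¬ small' j → ∀ s, IsSt H s → s ≠ [] → run H s (z' j) ≠ none →
      ∃ q, IsSt Q q ∧ q ≠ [] ∧ Rel Q H q s ∧ Rel Q H q [] := by
    rintro (j | u) h
    · rw [sl] at h; rw [zl]; exact hbig j h
    · rw [sr] at h; exact (h trivial).elim
  have hb2 : ∀ j, ¬ small' j → ∀ s0 s, IsSt H s0 → s ≠ [] → run H s0 (z' j) = some s →
      ∃ q, IsSt Q q ∧ q ≠ [] ∧ Rel Q H q s ∧ Rel Q H q [] := by
    rintro (j | u) h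
    · rw [sl] at h; rw [zl]; exact hbig' j h
    · rw [sr] at h; exact (h trivial).elim
  -- a decomposition with the minimal number of pieces
  obtain ⟨cn, hcn⟩ : ∃ cn : List (Option (ι ⊕ {u : List α // run Q [] u = some []})) → ℕ,
    cn = fun l => l.countP fun o => decide (∃ j, o = some j ∧ run H [] (z' j) ≠ some []) :=
      ⟨_, rfl⟩
  have cn_app : ∀ l1 l2, cn (l1 ++ l2) = cn l1 + cn l2 := by
    intro l1 l2
    rw [hcn]
    exact List.countP_append
  have cn_pc : ∀ j l2, run H [] (z' j) ≠ some [] → cn (some j :: l2) = cn l2 + 1 := by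
    intro j l2 hj
    rw [hcn]
    exact List.countP_cons_of_pos (by simpa using hj)
  have cn_le : ∀ o l2, cn (o :: l2) ≤ cn l2 + 1 := by
    intro o l2
    rw [hcn]
    change List.countP _ (o :: l2) ≤ _
    rw [List.countP_cons]
    split_ifs
    · exact le_rfl
    · exact Nat.le_succ _
  obtain ⟨W0, hW0⟩ : ∃ W0, W0 = (l.map fun o => o.elim x z).flatten := ⟨_, rfl⟩
  rw [← hW0] at hl
  have hex : ∃ n, ∃ l' : List (Option (ι ⊕ {u : List α // run Q [] u = some []})),
      cn l' = n ∧ none ∈ l' ∧ (l'.map fun o => o.elim x z').flatten = W0 := by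
    refine ⟨_, l.map (Option.map Sum.inl), rfl, ?_, ?_⟩
    · exact List.mem_map.2 ⟨none, hn, rfl⟩
    · rw [hW0, List.map_map]
      congr 2
      funext o
      cases o with
      | none => rfl
      | some j => exact zl j
  obtain ⟨l', h0, hn', hw'⟩ := Nat.find_spec hex
  have hmin : ∀ l'' : List (Option (ι ⊕ {u : List α // run Q [] u = some []})), none ∈ l'' →
      (l''.map fun o => o.elim x z').flatten = W0 → cn l' ≤ cn l'' := by
    intro l'' h1 h2
    rw [h0]
    exact Nat.find_min' hex ⟨l'', rfl, h1, h2⟩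
  -- reading of prefixes
  have hpre : ∀ u v w : List α, (l'.map fun o => o.elim x z').flatten = u ++ v ++ w →
      ∃ s t, run H [] u = some s ∧ IsSt H s ∧ run H s v = some t := by
    intro u v w h
    rw [hw'] at h
    rw [h, run_append, Option.bind_eq_some_iff] at hl
    obtain ⟨t, h1, _⟩ := hl
    rw [run_append, Option.bind_eq_some_iff] at h1
    obtain ⟨s, h2, h3⟩ := h1
    exact ⟨s, t, h2, run_isSt (isSt_nil H) h2, h3⟩
  have D : Core2 T (fun j => wel (z' j)) (wel x) small'
      (fun g => efibre hp g a) (fun g => efibre hp (g * (wel [b])⁻¹) b) l' := by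
    constructor
    · -- `hQ`
      intro j hj
      rw [Ne, fixH] at hj
      rw [fixQ]
      exact (hz2 j).resolve_right hj
    · -- `hx`
      rw [Ne, fixH]
      exact hx
    · rw [wt_wel]
      exact hcx
    · rintro (j | u)
      · rw [zl, wt_wel]
        exact hcz j
      · rw [zr, wt_grp (hR := hp.q) hc (wel_mem_grp.2 u.2)]
    · intro g
      exact efibre_preconnected hp hh g a
    · intro g
      exact efibre_preconnected hp hh _ b
    · -- `memA`
      intro g
      rw [smul_vt_one]
      have h1 := (vtH_mem_efibre hp (g := g) (u := []) (a := a)).2 (by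
        obtain ⟨t, ht⟩ := hp.full a
        exact ⟨t, by simp [ht]⟩)
      rw [wel_nil, mul_one] at h1
      exact h1
    · -- `memB`
      intro g
      rw [smul_vt_one]
      rw [vt_mem_Ke]
      obtain ⟨s, h1, h2⟩ := last_letter hp b
      refine ⟨⟨s, h1⟩, ⟨[], isSt_nil H⟩, ?_, paut_step.2 h2⟩
      rw [inv_mul_cancel_left]
      refine rdG_inv_wel.2 ?_
      rw [run_cons, h2]
      rfl
    · -- `nro`
      intro g m _ h
      rw [smul_vt_one, bv_wel, vtQ_mem_efibre] at h
      obtain ⟨t, ht⟩ := h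
      obtain ⟨m1, i, m2, h1, h2, h3⟩ := first_big ha hso2 (m := m) (by rw [ht]; simp)
      exact ⟨m1, i, m2, h1, h2, by rw [bv_wel, fixQ]; exact h3⟩
    · -- `nri`
      intro g m _ h
      rw [smul_vt_one, bv_wel, vt_mem_Ke] at h
      obtain ⟨s, s', h1, h2⟩ := h
      have h3 : (g * wel (m.map z').flatten)⁻¹ * (g * (wel [b])⁻¹) =
          (wel (b :: (m.map z').flatten))⁻¹ := by
        have h4 : b :: (m.map z').flatten = [b] ++ (m.map z').flatten := rfl
        rw [h4, wel_append]
        group
      rw [h3] at h1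
      obtain ⟨m1, i, m2, h4, h5, h6⟩ := last_big hp.q hb hsi2 s.2 (rdG_inv_wel.1 h1)
      exact ⟨m1, i, m2, h4, h5, by rw [bv_wel, fixQ]; exact h6⟩
    · -- `big`
      intro l1 j l2 h1 h2 h3
      obtain ⟨s, t, h4, h5, h6⟩ := hpre (l1.map fun o => o.elim x z').flatten (z' j)
        (l2.map fun o => o.elim x z').flatten (by rw [h1]; simp)
      rw [val_wel, Ne, fixH, h4] at h3
      have h7 : s ≠ [] := fun h => h3 (by rw [h])
      obtain ⟨q, h8, h9, h10, h11⟩ := hb1 j h2 s h5 h7 (by rw [h6]; simp)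
      rw [val_wel, smul_vt_one, smul_vt_one]
      exact exists_X hp h4 h8 h9 h10 h11
    · -- `big'`
      intro l1 j l2 h1 h2 h3
      obtain ⟨s, t, h4, h5, h6⟩ := hpre (l1.map fun o => o.elim x z').flatten (z' j)
        (l2.map fun o => o.elim x z').flatten (by rw [h1]; simp)
      have h12 := run_append_some h4 h6
      rw [val_wel, ← wel_append, Ne, fixH, h12] at h3
      have h7 : t ≠ [] := fun h => h3 (by rw [h])
      obtain ⟨q, h8, h9, h10, h11⟩ := hb2 j h2 s t h5 h7 h6
      rw [val_wel, ← wel_append, smul_vt_one, smul_vt_one]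
      exact exists_X hp h12 h8 h9 h10 h11
    · -- `cut`
      intro l1 l2 h1
      constructor
      · rw [val_wel]
        have h2 := (vtH_mem_efibre hp (g := 1)
          (u := (l1.map fun o => o.elim x z').flatten) (a := a)).2
        rw [one_mul] at h2
        refine h2 ?_
        obtain ⟨s, t, h4, h5, h6⟩ := hpre (l1.map fun o => o.elim x z').flatten [a]
          (x1 ++ (l2.map fun o => o.elim x z').flatten) (by
            rw [h1]
            simp [hxa])
        exact ⟨t, run_append_some h4 h6⟩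
      · have h3 : val (fun j => wel (z' j)) (wel x) l1 * wel x * (wel [b])⁻¹ =
            wel ((l1.map fun o => o.elim x z').flatten ++ x2) := by
          rw [val_wel, wel_append, hxb, wel_append]
          group
        have h2 := (vtH_mem_efibre hp (g := 1)
          (u := (l1.map fun o => o.elim x z').flatten ++ x2) (a := b)).2
        rw [one_mul] at h2
        change _ ∈ efibre hp (val (fun j => wel (z' j)) (wel x) l1 * wel x * (wel [b])⁻¹) b
        rw [h3]
        refine h2 ?_
        obtain ⟨s, t, h4, h5, h6⟩ := hpre (l1.map fun o => o.elim x z').flatten (x2 ++ [b])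
          (l2.map fun o => o.elim x z').flatten (by
            rw [h1]
            simp [hxb])
        exact ⟨t, by rw [List.append_assoc]; exact run_append_some h4 h6⟩
    · -- `merge`
      intro l1 j m j' l2 h1 h2 h3 h4 h5
      rw [Ne, fixH] at h2 h3
      rw [bv_wel, fixQ] at h5
      have e1 := (hz2 j).resolve_right h2
      have e2 := (hz2 j').resolve_right h3
      have e3 : run Q [] (z' j ++ (m.map z').flatten ++ z' j') = some [] :=
        run_append_some (run_append_some e1 h5) e2
      have h6 := hmin (l1 ++ some (Sum.inr ⟨_, e3⟩) :: l2) (by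
        rw [h1] at hn'
        simpa using hn') (by
        rw [← hw', h1]
        simp [zr, Function.comp_def])
      rw [h1, cn_app, cn_app, cn_pc j _ h2, cn_app, cn_pc j' _ h3] at h6
      have h7 := cn_le (some (Sum.inr ⟨_, e3⟩)) l2
      omega
  refine D.ne hn' ?_
  rw [val_wel, hw', fixH]
  exact hl

end D0L.Tr
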