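import Pool.Agent.H.MP_374efc_lc.Tr.Push5

/-!
# Chain stages without functional (BIMFULL 10.1)

`mem_of_sup`: in an amalgam of `Q` and `H` let `Wm ⊆ Q`, `B ⊆ H` be submonoids with
`Wm ∩ H ⊆ B` and `B ∩ Q ⊆ Wm`. Then an element of the monoid generated by `Wm` and `B` which is
in `H` is in `B`. `chain_step` is the form for words and roses.
-/

set_option autoImplicit false

namespace D0L.Tr

section abstract

variable {F : Type*} [Group F] {Q H : Subgroup F}

/-- The normal forms used in `mem_of_sup`. -/
def NfW (Q H : Subgroup F) (Wm B : Submonoid F) (z : F) : Prop :=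
  ∃ b ∈ B, ∃ l : List (Bool × F), IsAlt Q H l ∧
    (∀ x ∈ l, (x.1 = true → x.2 ∈ Wm) ∧ (x.1 = false → x.2 ∈ B)) ∧
    (∀ x ∈ l.head?, x.1 = true) ∧ z = b * aprod F l

theorem NfW.mul_B {Wm B : Submonoid F} (hB : B ≤ H.toSubmonoid)
    (h2 : ∀ b ∈ B, b ∈ Q → b ∈ Wm) {z b' : F} (hz : NfW Q H Wm B z) (hb' : b' ∈ B) :
    NfW Q H Wm B (z * b') := by
  obtain ⟨b, hb, l, hl, hm, hh, rfl⟩ := hz
  have hb'H : b' ∈ H := hB hb'
  rcases List.eq_nil_or_concat' l with rfl | ⟨l', ⟨c, x⟩, rfl⟩
  · exact ⟨b * b', B.mul_mem hb hb', [], isAlt_nil, by simp, by simp, by simp [aprod]⟩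
  · rw [isAlt_concat] at hl
    obtain ⟨hl', ⟨hx1, hx2⟩, hx3⟩ := hl
    have hmx := hm (c, x) (by simp)
    have hm' : ∀ y ∈ l', (y.1 = true → y.2 ∈ Wm) ∧ (y.1 = false → y.2 ∈ B) :=
      fun y hy => hm y (by simp [hy])
    cases c
    · -- last element in `H`
      have hxB : x ∈ B := hmx.2 rfl
      by_cases hq : x * b' ∈ Q
      · rcases List.eq_nil_or_concat' l' with rfl | ⟨l'', ⟨d, y⟩, rfl⟩
        · exfalso
          have := hh (false, x) (by simp)
          simp at this
        · have hd := hx3 (d, y) (by simp)
          obtain rfl : d = true := by simpa using hd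
          rw [isAlt_concat] at hl'
          obtain ⟨hl'', ⟨hy1, hy2⟩, hy3⟩ := hl'
          have hmy := hm' (true, y) (by simp)
          have hxb : x * b' ∈ Wm := h2 _ (B.mul_mem hxB hb') hq
          refine ⟨b, hb, l'' ++ [(true, y * (x * b'))], ?_, ?_, ?_, ?_⟩
          · rw [isAlt_concat]
            refine ⟨hl'', ⟨Subgroup.mul_mem _ hy1 hq, ?_⟩, hy3⟩
            intro h
            apply hy2
            change y * (x * b') ∈ H at h
            change y ∈ H
            exact (Subgroup.mul_mem_cancel_right _ (H.mul_mem hx1 hb'H)).1 h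
          · intro w hw
            rcases List.mem_append.1 hw with hw | hw
            · exact hm' w (by simp [hw])
            · rw [List.mem_singleton] at hw
              subst hw
              exact ⟨fun _ => Wm.mul_mem (hmy.1 rfl) hxb, by simp⟩
          · intro w hw
            cases l'' with
            | nil => simp at hw; rw [← hw]
            | cons u l'' => exact hh w (by simpa using hw)
          · rw [aprod_concat, aprod_concat, aprod_concat]
            simp only
            group
      · refine ⟨b, hb, l' ++ [(false, x * b')], ?_, ?_, ?_, ?_⟩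
        · rw [isAlt_concat]
          exact ⟨hl', ⟨Subgroup.mul_mem _ hx1 hb'H, hq⟩, hx3⟩
        · intro w hw
          rcases List.mem_append.1 hw with hw | hw
          · exact hm' w hw
          · rw [List.mem_singleton] at hw
            subst hw
            exact ⟨by simp, fun _ => B.mul_mem hxB hb'⟩
        · intro w hw
          cases l' with
          | nil => exfalso; have := hh (false, x) (by simp); simp at this
          | cons u l' => exact hh w (by simpa using hw)
        · rw [aprod_concat, aprod_concat]
          simp only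
          group
    · -- last element in `Q`
      have hxW : x ∈ Wm := hmx.1 rfl
      by_cases hq : b' ∈ Q
      · refine ⟨b, hb, l' ++ [(true, x * b')], ?_, ?_, ?_, ?_⟩
        · rw [isAlt_concat]
          refine ⟨hl', ⟨Subgroup.mul_mem _ hx1 hq, ?_⟩, hx3⟩
          intro h
          apply hx2
          exact (Subgroup.mul_mem_cancel_right H hb'H).1 h
        · intro w hw
          rcases List.mem_append.1 hw with hw | hw
          · exact hm' w hw
          · rw [List.mem_singleton] at hw
            subst hw
            exact ⟨fun _ => Wm.mul_mem hxW (h2 _ hb' hq), by simp⟩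
        · intro w hw
          cases l' with
          | nil => simp at hw; rw [← hw]
          | cons u l' => exact hh w (by simpa using hw)
        · rw [aprod_concat, aprod_concat]
          simp only
          group
      · refine ⟨b, hb, (l' ++ [(true, x)]) ++ [(false, b')], ?_, ?_, ?_, ?_⟩
        · rw [isAlt_concat, isAlt_concat]
          refine ⟨⟨hl', ⟨hx1, hx2⟩, hx3⟩, ⟨hb'H, hq⟩, ?_⟩
          intro w hw
          simp only [List.getLast?_append, List.getLast?_singleton, Option.some_or,
            Option.mem_def, Option.some.injEq] at hw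
          rw [← hw]
          simp
        · intro w hw
          rcases List.mem_append.1 hw with hw | hw
          · exact hm w hw
          · rw [List.mem_singleton] at hw
            subst hw
            exact ⟨by simp, fun _ => hb'⟩
        · intro w hw
          cases l' with
          | nil => exact hh w (by simpa using hw)
          | cons u l' => exact hh w (by simpa using hw)
        · rw [aprod_concat _ (false, b')]
          simp only
          group

theorem NfW.mul_W {Wm B : Submonoid F} (hW : Wm ≤ Q.toSubmonoid)
    (h1 : ∀ p ∈ Wm, p ∈ H → p ∈ B) {z w : F} (hz : NfW Q H Wm B z) (hw : w ∈ Wm) :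
    NfW Q H Wm B (z * w) := by
  obtain ⟨b, hb, l, hl, hm, hh, rfl⟩ := hz
  have hwQ : w ∈ Q := hW hw
  rcases List.eq_nil_or_concat' l with rfl | ⟨l', ⟨c, x⟩, rfl⟩
  · by_cases hwH : w ∈ H
    · exact ⟨b * w, B.mul_mem hb (h1 _ hw hwH), [], isAlt_nil, by simp, by simp,
        by simp [aprod]⟩
    · refine ⟨b, hb, [] ++ [(true, w)], ?_, ?_, ?_, ?_⟩
      · rw [isAlt_concat]
        exact ⟨isAlt_nil, ⟨hwQ, hwH⟩, by simp⟩
      · intro y hy
        simp only [List.nil_append, List.mem_singleton] at hy
        subst hy
        exact ⟨fun _ => hw, by simp⟩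
      · intro y hy
        simp at hy
        rw [← hy]
      · simp [aprod]
  · rw [isAlt_concat] at hl
    obtain ⟨hl', ⟨hx1, hx2⟩, hx3⟩ := hl
    have hmx := hm (c, x) (by simp)
    have hm' : ∀ y ∈ l', (y.1 = true → y.2 ∈ Wm) ∧ (y.1 = false → y.2 ∈ B) :=
      fun y hy => hm y (by simp [hy])
    cases c
    · -- last element in `H`
      have hxB : x ∈ B := hmx.2 rfl
      have hne : l' ≠ [] := by
        rintro rfl
        have := hh (false, x) (by simp)
        simp at this
      by_cases hwH : w ∈ H
      · refine ⟨b, hb, l' ++ [(false, x * w)], ?_, ?_, ?_, ?_⟩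
        · rw [isAlt_concat]
          refine ⟨hl', ⟨Subgroup.mul_mem _ hx1 hwH, ?_⟩, hx3⟩
          intro h
          exact hx2 ((Subgroup.mul_mem_cancel_right Q hwQ).1 h)
        · intro y hy
          rcases List.mem_append.1 hy with hy | hy
          · exact hm' y hy
          · rw [List.mem_singleton] at hy
            subst hy
            exact ⟨by simp, fun _ => B.mul_mem hxB (h1 _ hw hwH)⟩
        · intro y hy
          cases l' with
          | nil => exact absurd rfl hne
          | cons u l' => exact hh y (by simpa using hy)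
        · rw [aprod_concat, aprod_concat]
          simp only
          group
      · refine ⟨b, hb, (l' ++ [(false, x)]) ++ [(true, w)], ?_, ?_, ?_, ?_⟩
        · rw [isAlt_concat, isAlt_concat]
          refine ⟨⟨hl', ⟨hx1, hx2⟩, hx3⟩, ⟨hwQ, hwH⟩, ?_⟩
          intro y hy
          simp only [List.getLast?_append, List.getLast?_singleton, Option.some_or,
            Option.mem_def, Option.some.injEq] at hy
          rw [← hy]
          simp
        · intro y hy
          rcases List.mem_append.1 hy with hy | hy
          · exact hm y hy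
          · rw [List.mem_singleton] at hy
            subst hy
            exact ⟨fun _ => hw, by simp⟩
        · intro y hy
          cases l' with
          | nil => exact absurd rfl hne
          | cons u l' => exact hh y (by simpa using hy)
        · rw [aprod_concat _ (true, w)]
          simp only
          group
    · -- last element in `Q`
      have hxW : x ∈ Wm := hmx.1 rfl
      by_cases hH : x * w ∈ H
      · have hxwB : x * w ∈ B := h1 _ (Wm.mul_mem hxW hw) hH
        rcases List.eq_nil_or_concat' l' with rfl | ⟨l'', ⟨d, y⟩, rfl⟩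
        · refine ⟨b * (x * w), B.mul_mem hb hxwB, [], isAlt_nil, by simp, by simp, ?_⟩
          simp only [aprod, List.nil_append, List.map_cons, List.map_nil, List.prod_cons,
            List.prod_nil]
          group
        · have hd := hx3 (d, y) (by simp)
          obtain rfl : d = false := by simpa using hd
          rw [isAlt_concat] at hl'
          obtain ⟨hl'', ⟨hy1, hy2⟩, hy3⟩ := hl'
          have hmy := hm' (false, y) (by simp)
          have hne : l'' ≠ [] := by
            rintro rfl
            have := hh (false, y) (by simp)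
            simp at this
          refine ⟨b, hb, l'' ++ [(false, y * (x * w))], ?_, ?_, ?_, ?_⟩
          · rw [isAlt_concat]
            refine ⟨hl'', ⟨Subgroup.mul_mem _ hy1 hH, ?_⟩, hy3⟩
            intro h
            exact hy2 ((Subgroup.mul_mem_cancel_right Q (Q.mul_mem hx1 hwQ)).1 h)
          · intro u hu
            rcases List.mem_append.1 hu with hu | hu
            · exact hm' u (by simp [hu])
            · rw [List.mem_singleton] at hu
              subst hu
              exact ⟨by simp, fun _ => B.mul_mem (hmy.2 rfl) hxwB⟩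
          · intro u hu
            cases l'' with
            | nil => exact absurd rfl hne
            | cons v l'' => exact hh u (by simpa using hu)
          · rw [aprod_concat, aprod_concat, aprod_concat]
            simp only
            group
      · refine ⟨b, hb, l' ++ [(true, x * w)], ?_, ?_, ?_, ?_⟩
        · rw [isAlt_concat]
          exact ⟨hl', ⟨Subgroup.mul_mem _ hx1 hwQ, hH⟩, hx3⟩
        · intro y hy
          rcases List.mem_append.1 hy with hy | hy
          · exact hm' y hy
          · rw [List.mem_singleton] at hy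
            subst hy
            exact ⟨fun _ => Wm.mul_mem hxW hw, by simp⟩
        · intro y hy
          cases l' with
          | nil => simp at hy; rw [← hy]
          | cons u l' => exact hh y (by simpa using hy)
        · rw [aprod_concat, aprod_concat]
          simp only
          group

/-- **Chain lemma.** -/
theorem mem_of_list (hA : Amalg Q H) {Wm B : Submonoid F} (hW : Wm ≤ Q.toSubmonoid)
    (hB : B ≤ H.toSubmonoid) (h1 : ∀ p ∈ Wm, p ∈ H → p ∈ B) (h2 : ∀ b ∈ B, b ∈ Q → b ∈ Wm)
    {L : List F} (hL : ∀ x ∈ L, x ∈ Wm ∨ x ∈ B) (hz : L.prod ∈ H) : L.prod ∈ B := by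
  have key : ∀ (L : List F) (z : F), (∀ x ∈ L, x ∈ Wm ∨ x ∈ B) → NfW Q H Wm B z →
      NfW Q H Wm B (z * L.prod) := by
    intro L
    induction L with
    | nil => intro z _ hz; simpa using hz
    | cons x L ih =>
      intro z hL hz
      rw [List.prod_cons, ← mul_assoc]
      apply ih _ (fun y hy => hL y (List.mem_cons_of_mem _ hy))
      rcases hL x List.mem_cons_self with hx | hx
      · exact hz.mul_W hW h1 hx
      · exact hz.mul_B hB h2 hx
  have h0 : NfW Q H Wm B 1 :=
    ⟨1, B.one_mem, [], isAlt_nil, by simp, by simp, by simp [aprod]⟩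
  obtain ⟨b, hb, l, hl, hm, hh, he⟩ := key L 1 hL h0
  rw [one_mul] at he
  have hlH : aprod F l ∈ H := by
    rw [he] at hz
    exact (Subgroup.mul_mem_cancel_left H (hB hb)).1 hz
  match l, hl, hm, hh, he, hlH with
  | [], _, _, _, he, _ =>
    rw [he]
    simpa [aprod] using hb
  | [x], hl, _, hh, _, hlH =>
    exfalso
    have hx := hh x (by simp)
    have h3 := (hl.1 x (by simp)).2
    apply h3
    rw [hx]
    change x.2 ∈ H
    simpa [aprod] using hlH
  | x :: y :: l, hl, _, _, _, hlH =>
    exact absurd hlH (hl.prod_notMem_side hA (by simp) false)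

end abstract

section words

variable {α : Type*} [DecidableEq α] {Q H : Rose α}

omit [DecidableEq α] in
theorem wel_flatten (L : List (List α)) : wel L.flatten = (L.map wel).prod := by
  induction L with
  | nil => rfl
  | cons x L ih => rw [List.flatten_cons, wel_append, ih, List.map_cons, List.prod_cons]

omit [DecidableEq α] in
theorem wel_inj {u v : List α} (h : wel u = wel v) : u = v := by
  have h1 := red_wel (L := u.map fun a => (a, true)) (v := v) h
  have hred : FreeGroup.IsReduced (u.map fun a => (a, true)) := by
    unfold FreeGroup.IsReduced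
    rw [List.isChain_map]
    refine (List.pairwise_of_forall ?_).isChain
    intro x y _
    rfl
  rw [hred.red_iff_eq] at h1
  have h2 := congrArg (List.map Prod.fst) h1
  simpa [Function.comp_def] using h2.symm

/-- **BIMFULL (10.1), one step.** `h` is an injective morphism of words with `H^* = h(Σ^*)`; `B` is a
submonoid which contains every `u` with `h(u)` in `Q^*`. A product of words of `Q^*` and of words
`h(b)`, `b` in `B`, which is of the form `h(z)`, has `z` in `B`. -/
theorem chain_step (hp : Pr Q H) (hA : Amalg (gQ hp) (gH hp)) {h : List α → List α}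
    (hnil : h [] = []) (happ : ∀ u v, h (u ++ v) = h u ++ h v) (hinj : Function.Injective h)
    (hD : ∀ u, run H [] (h u) = some []) {B : List α → Prop} (B0 : B [])
    (Bm : ∀ u v, B u → B v → B (u ++ v)) (hD' : ∀ v, run H [] v = some [] → ∃ u, v = h u)
    (hi : ∀ u, run Q [] (h u) = some [] → B u) {L : List (List α)}
    (hL : ∀ x ∈ L, run Q [] x = some [] ∨ ∃ b, B b ∧ x = h b) {z : List α}
    (hz : L.flatten = h z) : B z := by
  let Wm : Submonoid (FreeGroup α) :=
    { carrier := {g | ∃ v, run Q [] v = some [] ∧ g = wel v}
      mul_mem' := by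
        rintro _ _ ⟨u, hu, rfl⟩ ⟨v, hv, rfl⟩
        exact ⟨u ++ v, run_append_some hu hv, (wel_append u v).symm⟩
      one_mem' := ⟨[], run_nil _ _, rfl⟩ }
  let Bm' : Submonoid (FreeGroup α) :=
    { carrier := {g | ∃ v, B v ∧ g = wel (h v)}
      mul_mem' := by
        rintro _ _ ⟨u, hu, rfl⟩ ⟨v, hv, rfl⟩
        exact ⟨u ++ v, Bm u v hu hv, by rw [happ, wel_append]⟩
      one_mem' := ⟨[], B0, by rw [hnil]; rfl⟩ }
  have hmem : (L.map wel).prod ∈ Bm' := by
    apply mem_of_list hA (Wm := Wm) (B := Bm')
    · rintro _ ⟨v, hv, rfl⟩
      exact wel_mem_grp.2 hv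
    · rintro _ ⟨v, hv, rfl⟩
      exact wel_mem_grp.2 (hD v)
    · rintro _ ⟨v, hv, rfl⟩ hvH
      obtain ⟨u, rfl⟩ := hD' v (wel_mem_grp.1 hvH)
      exact ⟨u, hi u hv, rfl⟩
    · rintro _ ⟨v, hv, rfl⟩ hvQ
      exact ⟨h v, wel_mem_grp.1 hvQ, rfl⟩
    · intro x hx
      obtain ⟨y, hy, rfl⟩ := List.mem_map.1 hx
      rcases hL y hy with h1 | ⟨b, hb, rfl⟩
      · exact Or.inl ⟨y, h1, rfl⟩
      · exact Or.inr ⟨b, hb, rfl⟩
    · rw [← wel_flatten, hz]
      exact wel_mem_grp.2 (hD z)
  obtain ⟨v, hv, he⟩ := hmem
  rw [← wel_flatten, hz] at he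
  have := hinj (wel_inj he)
  rwa [this]

end words

end D0L.Tr
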