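import Pool.Agent.H.MP_374efc_lc.Tr.Rot

/-!
# Circle combinatorics (BIMFULL 4.3)

`circ`: `T = z :: T'` a token word which ends with `z`; `pR z T'` the rose of the petals `T` and `[a]`,
`a ≠ z`. There is one primitive token word `X = x ++ u`, `T = X ^ (k - 1) ++ x`, `k ≥ 2`, such that
every token word with two different parses of its infinite power is a power of a rotation of `X`.
-/

set_option autoImplicit false

namespace D0L.Tr

variable {τ : Type*}

/-! ### Commuting words -/

theorem wpow_zero (z : List τ) : wpow z 0 = [] := by simp [wpow]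

theorem wpow_nil (d : ℕ) : wpow ([] : List τ) d = [] := by simp [wpow]

theorem wpow_succ' (z : List τ) (d : ℕ) : wpow z (d + 1) = wpow z d ++ z := by
  rw [wpow_add, wpow_one]

theorem wpow_prefix (z : List τ) {c d : ℕ} (h : c ≤ d) : wpow z c <+: wpow z d := by
  obtain ⟨e, rfl⟩ := Nat.exists_eq_add_of_le h
  exact ⟨_, (wpow_add z c e).symm⟩

/-- Commuting words are powers of the same word. -/
theorem comm_pow {X Y : List τ} (h : X ++ Y = Y ++ X) :
    ∃ z i j, X = wpow z i ∧ Y = wpow z j := by
  obtain ⟨N, hN⟩ : ∃ N, N = X.length + Y.length := ⟨_, rfl⟩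
  induction N using Nat.strong_induction_on generalizing X Y with
  | _ N ih =>
  rcases Nat.eq_zero_or_pos X.length with hX | hX
  · rw [List.length_eq_zero_iff] at hX
    subst hX
    exact ⟨Y, 0, 1, (wpow_zero Y).symm, (wpow_one Y).symm⟩
  rcases Nat.eq_zero_or_pos Y.length with hY | hY
  · rw [List.length_eq_zero_iff] at hY
    subst hY
    exact ⟨X, 1, 0, (wpow_one X).symm, (wpow_zero X).symm⟩
  rcases Nat.le_total X.length Y.length with hl | hl
  · have h1 : X <+: Y := by
      have h2 : X <+: Y ++ X := h ▸ List.prefix_append X Y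
      exact List.prefix_of_prefix_length_le h2 (List.prefix_append Y X) hl
    obtain ⟨Y', rfl⟩ := h1
    have h3 : X ++ Y' = Y' ++ X := by
      rw [List.append_assoc] at h
      exact List.append_cancel_left h
    obtain ⟨z, i, j, hi, hj⟩ := ih (X.length + Y'.length)
      (by rw [hN, List.length_append]; omega) h3 rfl
    exact ⟨z, i, i + j, hi, by rw [wpow_add, ← hi, ← hj]⟩
  · have h1 : Y <+: X := by
      have h2 : Y <+: X ++ Y := h ▸ List.prefix_append Y X
      exact List.prefix_of_prefix_length_le h2 (List.prefix_append X Y) hl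
    obtain ⟨X', rfl⟩ := h1
    have h3 : X' ++ Y = Y ++ X' := by
      rw [List.append_assoc] at h
      exact List.append_cancel_left h
    obtain ⟨z, i, j, hi, hj⟩ := ih (X'.length + Y.length)
      (by rw [hN, List.length_append]; omega) h3 rfl
    exact ⟨z, j + i, j, by rw [wpow_add, ← hi, ← hj], hj⟩

theorem prefix_wpow_base {Y W : List τ} {b : ℕ} (h : W <+: wpow Y b) (hl : Y.length ≤ W.length) :
    Y <+: W := by
  rcases Nat.eq_zero_or_pos b with hb | hb
  · subst hb
    rw [wpow_zero, List.prefix_nil] at h
    subst h
    rw [List.length_nil, Nat.le_zero, List.length_eq_zero_iff] at hl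
    rw [hl]
  · have h1 : Y <+: wpow Y b := by
      have := wpow_prefix Y hb
      rwa [wpow_one] at this
    exact List.prefix_of_prefix_length_le h1 h hl

theorem fw_aux {X Y W : List τ} {a b : ℕ} (h1 : W <+: wpow X a) (h2 : W <+: wpow Y b)
    (h : X.length + Y.length ≤ W.length) : X ++ Y <+: W := by
  have hX := prefix_wpow_base h1 (by omega)
  have hY := prefix_wpow_base h2 (by omega)
  obtain ⟨W', rfl⟩ := hX
  have h3 : W' <+: wpow X a := by
    rcases Nat.eq_zero_or_pos a with ha | ha
    · subst ha
      rw [wpow_zero, List.prefix_nil, List.append_eq_nil_iff] at h1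
      rw [h1.2]
      exact List.nil_prefix
    · obtain ⟨c, rfl⟩ : ∃ c, a = c + 1 := ⟨a - 1, by omega⟩
      rw [wpow_succ, List.prefix_append_right_inj] at h1
      exact h1.trans (wpow_prefix X (Nat.le_succ c))
  have h4 : W' <+: X ++ W' :=
    List.prefix_of_prefix_length_le h3 h1 (by rw [List.length_append]; omega)
  have h5 : Y <+: W' := by
    refine List.prefix_of_prefix_length_le hY h4 ?_
    rw [List.length_append] at h
    omega
  exact (List.prefix_append_right_inj X).2 h5

/-- A weak form of the theorem of Fine and Wilf. -/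
theorem fw {X Y W : List τ} {a b : ℕ} (h1 : W <+: wpow X a) (h2 : W <+: wpow Y b)
    (h : X.length + Y.length ≤ W.length) : X ++ Y = Y ++ X := by
  have h3 := fw_aux h1 h2 h
  have h4 := fw_aux h2 h1 (by omega)
  have hl : (X ++ Y).length = (Y ++ X).length := by
    rw [List.length_append, List.length_append, Nat.add_comm]
  exact (List.prefix_of_prefix_length_le h3 h4 hl.le).eq_of_length hl

theorem Prim.of_comm {X Y : List τ} (hX : Prim X) (h : X ++ Y = Y ++ X) : ∃ e, Y = wpow X e := by
  obtain ⟨z, i, j, hi, hj⟩ := comm_pow h
  have h1 := hX z i hi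
  rw [h1, wpow_one] at hi
  exact ⟨j, hi ▸ hj⟩

theorem Prim.eq_of_comm {X Y : List τ} (hX : Prim X) (hY : Prim Y) (h : X ++ Y = Y ++ X) :
    X = Y := by
  obtain ⟨z, i, j, hi, hj⟩ := comm_pow h
  have h1 := hX z i hi
  have h2 := hY z j hj
  rw [h1, wpow_one] at hi
  rw [h2, wpow_one] at hj
  rw [hi, hj]

/-! ### Rotations of powers -/

theorem cons_wpow (a : τ) (Y : List τ) (e : ℕ) :
    a :: wpow (Y ++ [a]) e = wpow (a :: Y) e ++ [a] := by
  induction e with
  | zero => rw [wpow_zero, wpow_zero]; rfl
  | succ e ih =>
    rw [wpow_succ, wpow_succ, List.append_assoc, List.append_assoc, ← ih]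
    simp

theorem wpow_rotate_one (Y : List τ) (e : ℕ) : (wpow Y e).rotate 1 = wpow (Y.rotate 1) e := by
  cases Y with
  | nil => rw [List.rotate_nil, wpow_nil, List.rotate_nil]
  | cons a Y =>
    cases e with
    | zero => rw [wpow_zero, wpow_zero, List.rotate_nil]
    | succ e =>
      rw [wpow_succ, wpow_succ, List.cons_append, List.rotate_cons_succ, List.rotate_cons_succ,
        List.rotate_zero, List.rotate_zero, List.append_assoc, ← cons_wpow]
      simp

theorem wpow_rotate (X : List τ) (e r : ℕ) : (wpow X e).rotate r = wpow (X.rotate r) e := by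
  induction r with
  | zero => rw [List.rotate_zero, List.rotate_zero]
  | succ r ih => rw [← List.rotate_rotate, ih, wpow_rotate_one, List.rotate_rotate]

/-! ### Euclid -/

theorem euclid_ge {z : τ} (N : ℕ) : ∀ {β β' u v : List τ}, β.length + β'.length = N →
    β'.length ≤ β.length → z ∉ u → z ∉ v → β.head? = some z → β.getLast? = some z →
    β'.head? = some z → β'.getLast? = some z → β ++ u ++ β' = β' ++ v ++ β →
    u = v ∧ ∃ x i j, x.head? = some z ∧ x.getLast? = some z ∧ β = wpow (x ++ u) i ++ x ∧
      β' = wpow (x ++ u) j ++ x := by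
  induction N using Nat.strong_induction_on with
  | _ N ih =>
  intro β β' u v hN hge hu hv hh hla hh' hla' h
  have h1 : β' <+: β := by
    have h2 : β' <+: β ++ (u ++ β') := by
      rw [← List.append_assoc, h, List.append_assoc]
      exact List.prefix_append _ _
    exact List.prefix_of_prefix_length_le h2 (List.prefix_append _ _) hge
  obtain ⟨β2, rfl⟩ := h1
  rcases List.eq_nil_or_concat β2 with h0 | ⟨L, b, hL⟩
  · subst h0
    rw [List.append_nil] at h ⊢
    rw [List.append_assoc, List.append_assoc] at h
    have h2 := List.append_cancel_right (List.append_cancel_left h)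
    subst h2
    exact ⟨rfl, β', 0, 0, hh', hla', by rw [wpow_zero]; rfl, by rw [wpow_zero]; rfl⟩
  · rw [List.append_assoc, List.append_assoc, List.append_assoc] at h
    have h2 := List.append_cancel_left h
    have hb : b = z := by
      rw [hL, List.concat_eq_append, ← List.append_assoc, List.getLast?_concat] at hla
      exact Option.some.inj hla
    subst hb
    have hzb : b ∈ β2 := by rw [hL]; simp
    rcases List.append_eq_append_iff.1 h2 with ⟨a, ha, _⟩ | ⟨c, hc, hc'⟩
    · exact absurd (by rw [ha]; exact List.mem_append_left _ hzb) hv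
    · have hcne : c ≠ [] := by
        intro h0
        rw [h0, List.append_nil] at hc
        rw [hc] at hzb
        exact hv hzb
      have hch : c.head? = some b := by
        have h3 : (c ++ (u ++ β')).head? = some b := by rw [← hc']; exact hh
        rw [List.head?_append] at h3
        cases c with
        | nil => exact absurd rfl hcne
        | cons d c => simpa using h3
      have hcl : c.getLast? = some b := by
        have h3 : (β' ++ v ++ c).getLast? = some b := by
          rw [List.append_assoc, ← hc]
          exact hla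
        rw [List.getLast?_append] at h3
        cases hc2 : c.getLast? with
        | none => exact absurd (List.getLast?_eq_none_iff.1 hc2) hcne
        | some d => rw [hc2] at h3; simpa using h3
      have hlen : c.length + β'.length < N := by
        have hp : 0 < β'.length := by
          cases β' with
          | nil => simp at hh'
          | cons d β' => simp
        rw [hc, List.length_append, List.length_append] at hN
        omega
      have heq : c ++ u ++ β' = β' ++ v ++ c := by
        rw [List.append_assoc, ← hc', hc, List.append_assoc]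
      have hfin : u = v ∧ ∃ x i j, x.head? = some b ∧ x.getLast? = some b ∧
          c = wpow (x ++ u) i ++ x ∧ β' = wpow (x ++ u) j ++ x := by
        rcases Nat.le_total β'.length c.length with hle | hle
        · exact ih _ hlen rfl hle hu hv hch hcl hh' hla' heq
        · obtain ⟨h5, x, i, j, hx1, hx2, hx3, hx4⟩ :=
            ih _ hlen (Nat.add_comm _ _) hle hv hu hh' hla' hch hcl heq.symm
          subst h5
          exact ⟨rfl, x, j, i, hx1, hx2, hx4, hx3⟩
      obtain ⟨h5, x, i, j, hx1, hx2, hx3, hx4⟩ := hfin
      refine ⟨h5, x, i + (j + 1), j, hx1, hx2, ?_, hx4⟩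
      rw [hc', Nat.add_comm j 1, wpow_add, wpow_add, wpow_one]
      conv_lhs => rw [hx3, hx4]
      simp only [List.append_assoc]

theorem euclid {z : τ} {β β' u v : List τ} (hu : z ∉ u) (hv : z ∉ v) (hh : β.head? = some z)
    (hla : β.getLast? = some z) (hh' : β'.head? = some z) (hla' : β'.getLast? = some z)
    (h : β ++ u ++ β' = β' ++ v ++ β) :
    u = v ∧ ∃ x i j, x.head? = some z ∧ x.getLast? = some z ∧ β = wpow (x ++ u) i ++ x ∧
      β' = wpow (x ++ u) j ++ x := by
  rcases Nat.le_total β'.length β.length with hle | hle
  · exact euclid_ge _ rfl hle hu hv hh hla hh' hla' h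
  · obtain ⟨h5, x, i, j, hx1, hx2, hx3, hx4⟩ :=
      euclid_ge _ rfl hle hv hu hh' hla' hh hla h.symm
    subst h5
    exact ⟨rfl, x, j, i, hx1, hx2, hx4, hx3⟩

/-! ### Representations of `T` -/

/-- `T = (x u) ^ (k - 1) x`. -/
structure Rep (z : τ) (T x u : List τ) (k : ℕ) : Prop where
  two : 2 ≤ k
  eq : T = wpow (x ++ u) (k - 1) ++ x
  head : x.head? = some z
  last : x.getLast? = some z
  nmem : z ∉ u

theorem mem_of_wpow {z : τ} {y : List τ} {d : ℕ} (h : z ∈ wpow y d) : z ∈ y := by
  induction d with
  | zero => rw [wpow_zero] at h; simp at h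
  | succ d ih =>
    rw [wpow_succ, List.mem_append] at h
    rcases h with h | h
    · exact h
    · exact ih h

theorem Rep.mem {z : τ} {T x u : List τ} {k : ℕ} (h : Rep z T x u k) : z ∈ x :=
  List.mem_of_mem_head? h.head

theorem Rep.append {z : τ} {T x u : List τ} {k : ℕ} (h : Rep z T x u k) :
    T ++ u = wpow (x ++ u) k := by
  obtain ⟨c, hc⟩ : ∃ c, k = c + 1 := ⟨k - 1, by have := h.two; omega⟩
  have h1 := h.eq
  rw [hc, Nat.add_sub_cancel] at h1
  rw [hc, wpow_succ', h1, List.append_assoc]

theorem Rep.prim {z : τ} {T u : List τ} (N : ℕ) : ∀ {x : List τ} {k : ℕ}, x.length = N →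
    Rep z T x u k → ∃ x1 k1, Rep z T x1 u k1 ∧ Prim (x1 ++ u) := by
  induction N using Nat.strong_induction_on with
  | _ N ih =>
  intro x k hN h
  by_cases hp : Prim (x ++ u)
  · exact ⟨x, k, h, hp⟩
  unfold Prim at hp
  push Not at hp
  obtain ⟨y, d, hd, hd1⟩ := hp
  have hd0 : d ≠ 0 := by
    rintro rfl
    rw [wpow_zero, List.append_eq_nil_iff] at hd
    have := h.mem
    rw [hd.1] at this
    simp at this
  obtain ⟨c, rfl⟩ : ∃ c, d = c + 2 := ⟨d - 2, by omega⟩
  have hd' := hd
  rw [wpow_succ'] at hd'
  rcases List.append_eq_append_iff.1 hd' with ⟨a, ha, ha'⟩ | ⟨c', hc, hc'⟩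
  · exfalso
    have h1 : z ∉ y := fun h1 => h.nmem (by rw [ha']; exact List.mem_append_right _ h1)
    have h2 : z ∈ wpow y (c + 1) := by rw [ha]; exact List.mem_append_left _ h.mem
    exact h1 (mem_of_wpow h2)
  · have hne : c' ≠ [] := by
      rintro rfl
      rw [List.nil_append] at hc'
      rw [List.append_nil] at hc
      have h1 := h.mem
      rw [hc] at h1
      exact h.nmem (hc' ▸ mem_of_wpow h1)
    have hhead : c'.head? = some z := by
      have h1 := h.head
      rw [hc, wpow_succ, hc'] at h1
      cases c' with
      | nil => exact absurd rfl hne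
      | cons b c' => simpa using h1
    have hlast : c'.getLast? = some z := by
      have h1 := h.last
      rw [hc, List.getLast?_append] at h1
      cases h2 : c'.getLast? with
      | none => exact absurd (List.getLast?_eq_none_iff.1 h2) hne
      | some b => rw [h2] at h1; simpa using h1
    have hyl : 0 < y.length := by
      rw [hc', List.length_append]
      have := List.length_pos_of_ne_nil hne
      omega
    have hlt : c'.length < N := by
      rw [← hN, hc, List.length_append, wpow_length]
      have : 0 < (c + 1) * y.length := Nat.mul_pos (by omega) hyl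
      omega
    have h2 := h.two
    have hrep : Rep z T c' u ((c + 2) * k) := by
      refine ⟨?_, ?_, hhead, hlast, h.nmem⟩
      · have : 2 * 1 ≤ (c + 2) * k := Nat.mul_le_mul (by omega) (by omega)
        omega
      · obtain ⟨e, rfl⟩ : ∃ e, k = e + 1 := ⟨k - 1, by omega⟩
        have h3 := h.eq
        rw [Nat.add_sub_cancel, hd, wpow_wpow, hc, ← List.append_assoc, ← wpow_add] at h3
        have e5 : (c + 2) * e + (c + 1) = (c + 2) * (e + 1) - 1 := by
          rw [Nat.mul_succ]; omega
        rw [← hc', h3, e5]
    exact ih _ hlt rfl hrep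

section Count

variable [DecidableEq τ]

theorem count_wpow (z : τ) (y : List τ) (d : ℕ) : (wpow y d).count z = d * y.count z := by
  induction d with
  | zero => rw [wpow_zero]; simp
  | succ d ih => rw [wpow_succ, List.count_append, ih, Nat.succ_mul, Nat.add_comm]

theorem suf_eq_aux {z : τ} {L β β' : List τ} (h : β <:+ L) (h' : β' <:+ L)
    (hh' : β'.head? = some z) (hc : β.count z = β'.count z) (hl : β.length ≤ β'.length) :
    β = β' := by
  obtain ⟨c, rfl⟩ := List.suffix_of_suffix_length_le h h' hl
  cases c with
  | nil => rfl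
  | cons a c =>
    exfalso
    rw [List.cons_append] at hh'
    have ha : a = z := by simpa using hh'
    rw [List.count_append, ha, List.count_cons_self] at hc
    omega

/-- Borders are determined by the number of `z`. -/
theorem suf_eq {z : τ} {L β β' : List τ} (h : β <:+ L) (h' : β' <:+ L)
    (hh : β.head? = some z) (hh' : β'.head? = some z) (hc : β.count z = β'.count z) :
    β = β' := by
  rcases Nat.le_total β.length β'.length with hl | hl
  · exact suf_eq_aux h h' hh' hc hl
  · exact (suf_eq_aux h' h hh hc.symm hl).symm

theorem Rep.count {z : τ} {T x u : List τ} {k : ℕ} (h : Rep z T x u k) :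
    T.count z = k * x.count z := by
  have h1 : (T ++ u).count z = k * (x ++ u).count z := by rw [h.append, count_wpow]
  rw [List.count_append, List.count_append, List.count_eq_zero_of_not_mem h.nmem] at h1
  simpa using h1

omit [DecidableEq τ] in
theorem Rep.suffix {z : τ} {T x u : List τ} {k : ℕ} (h : Rep z T x u k) : x <:+ T :=
  ⟨_, h.eq.symm⟩

omit [DecidableEq τ] in
theorem Rep.isPre {z : τ} {T x u : List τ} {k : ℕ} (h : Rep z T x u k) :
    T <+: wpow (x ++ u) k :=
  ⟨u, h.append⟩

omit [DecidableEq τ] in
theorem Rep.length {z : τ} {T x u : List τ} {k : ℕ} (h : Rep z T x u k) :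
    T.length + u.length = k * (x.length + u.length) := by
  have := congrArg List.length h.append
  rwa [List.length_append, wpow_length, List.length_append] at this

theorem Rep.big {z : τ} {T x u x' u' : List τ} {k k' : ℕ} (h : Rep z T x u k)
    (h' : Rep z T x' u' k') (hk : 3 ≤ k') :
    (x ++ u).length + (x' ++ u').length ≤ T.length := by
  rw [List.length_append, List.length_append]
  have hl := h.length
  have hl' := h'.length
  rcases Nat.lt_or_ge k 3 with h2 | h3
  · have hk2 : k = 2 := by have := h.two; omega
    subst hk2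
    -- `x` is longer than `x' u'`
    have hx : x'.length + u'.length ≤ x.length := by
      by_contra hlt
      push Not at hlt
      have h4 : u' ++ x' <:+ T := by
        have h5 := h'.eq
        obtain ⟨c, rfl⟩ : ∃ c, k' = c + 2 := ⟨k' - 2, by omega⟩
        have h6 : c + 2 - 1 = c + 1 := by omega
        rw [h6, wpow_succ', List.append_assoc, List.append_assoc] at h5
        exact ⟨wpow (x' ++ u') c ++ x', by rw [h5]; simp⟩
      have h7 : x <:+ u' ++ x' :=
        List.suffix_of_suffix_length_le h.suffix h4 (by rw [List.length_append]; omega)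
      have h8 : x.count z ≤ (u' ++ x').count z := h7.sublist.count_le z
      rw [List.count_append, List.count_eq_zero_of_not_mem h'.nmem] at h8
      have h9 := h.count
      have h10 := h'.count
      have h11 : 0 < x'.count z := List.count_pos_iff.2 h'.mem
      have h12 : 3 * x'.count z ≤ k' * x'.count z := Nat.mul_le_mul_right _ hk
      omega
    omega
  · have h4 : 3 * (x.length + u.length) ≤ k * (x.length + u.length) := Nat.mul_le_mul_right _ h3
    have h5 : 3 * (x'.length + u'.length) ≤ k' * (x'.length + u'.length) :=
      Nat.mul_le_mul_right _ hk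
    omega

/-- The primitive representation is unique. -/
theorem Rep.unique {z : τ} {T x u x' u' : List τ} {k k' : ℕ} (h : Rep z T x u k)
    (h' : Rep z T x' u' k') (hp : Prim (x ++ u)) (hp' : Prim (x' ++ u')) :
    x ++ u = x' ++ u' := by
  rcases Nat.lt_or_ge k' 3 with hk' | hk'
  · rcases Nat.lt_or_ge k 3 with hk | hk
    · have e1 : k = 2 := by have := h.two; omega
      have e2 : k' = 2 := by have := h'.two; omega
      subst e1
      subst e2
      have hx : x = x' := by
        refine suf_eq h.suffix h'.suffix h.head h'.head ?_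
        have h1 := h.count
        have h2 := h'.count
        omega
      subst hx
      have h1 := h.eq
      rw [h'.eq] at h1
      have e3 : 2 - 1 = 1 := rfl
      rw [e3, wpow_one, wpow_one] at h1
      exact (List.append_cancel_right h1).symm
    · have h1 := h'.big h hk
      exact (hp'.eq_of_comm hp (fw h'.isPre h.isPre h1)).symm
  · have h1 := h.big h' hk'
    exact hp.eq_of_comm hp' (fw h.isPre h'.isPre h1)

end Count

/-! ### The rose -/

variable [DecidableEq τ]

/-- The petals `z :: T'` and `[a]`, `a ≠ z`. -/
def pR (z : τ) (T' : List τ) : Rose τ := fun a => if a = z then some T' else some []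

theorem pR_self (z : τ) (T' : List τ) : pR z T' z = some T' := by simp [pR]

theorem pR_ne {z a : τ} (T' : List τ) (h : a ≠ z) : pR z T' a = some [] := by simp [pR, h]

theorem pR_isSt {z : τ} {T' p : List τ} : IsSt (pR z T') p ↔ p <:+ T' := by
  constructor
  · rintro (rfl | ⟨a, l, hl, hp⟩)
    · exact List.nil_suffix
    · by_cases ha : a = z
      · subst ha
        rw [pR_self] at hl
        obtain rfl := Option.some.inj hl
        exact hp
      · rw [pR_ne _ ha] at hl
        obtain rfl := Option.some.inj hl
        rw [List.suffix_nil] at hp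
        rw [hp]
        exact List.nil_suffix
  · intro h
    exact Or.inr ⟨z, T', pR_self z T', h⟩

theorem pR_bim {z : τ} {T' : List τ} (hl : T'.getLast? = some z) : Bim (pR z T') := by
  have key : ∀ a l, pR z T' a = some l → (a :: l).getLast? = some a := by
    intro a l h
    by_cases ha : a = z
    · subst ha
      rw [pR_self] at h
      obtain rfl := Option.some.inj h
      rw [List.getLast?_cons, hl]
      simp
    · rw [pR_ne _ ha] at h
      obtain rfl := Option.some.inj h
      simp
  intro a a' l l' h h' hh
  rw [key a l h, key a' l' h'] at hh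
  exact Option.some.inj hh

theorem pR_run_nil {z : τ} {T' v : List τ} (h : z ∉ v) : run (pR z T') [] v = some [] := by
  induction v with
  | nil => rw [run_nil]
  | cons a v ih =>
    rw [List.mem_cons, not_or] at h
    rw [run_cons, step_nil, pR_ne _ (Ne.symm h.1)]
    simpa using ih h.2

theorem run_short {R : Rose τ} {s l t : List τ} (h : run R s l = some t)
    (hl : l.length ≤ s.length) : s = l ++ t := by
  induction l generalizing s with
  | nil => rw [run_nil] at h; simpa using h
  | cons a l ih =>
    cases s with
    | nil => simp at hl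
    | cons b r =>
      rw [run_cons] at h
      cases h1 : step R (b :: r) a with
      | none => rw [h1] at h; simp at h
      | some r' =>
        obtain ⟨rfl, rfl⟩ := step_unique h1
        rw [h1] at h
        rw [List.cons_append, ← ih (by simpa using h) (by simpa using hl)]

theorem run_take {R : Rose τ} {s w t : List τ} (n : ℕ) (h : run R s w = some t) :
    ∃ t', run R s (w.take n) = some t' := by
  rw [← List.take_append_drop n w, run_append] at h
  cases h1 : run R s (w.take n) with
  | none => rw [h1] at h; simp at h
  | some t' => exact ⟨t', rfl⟩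

/-- The word is read from both states. -/
def RdW (R : Rose τ) (q q' w : List τ) : Prop := (∃ t, run R q w = some t) ∧ ∃ t, run R q' w = some t

/-- There are arbitrarily long words which are read from both states. -/
def InfR (R : Rose τ) (q q' : List τ) : Prop := ∀ n, ∃ w : List τ, w.length = n ∧ RdW R q q' w

theorem InfR.symm {R : Rose τ} {q q' : List τ} (h : InfR R q q') : InfR R q' q := by
  intro n
  obtain ⟨w, hw, h1, h2⟩ := h n
  exact ⟨w, hw, h2, h1⟩

theorem InfR.step {R : Rose τ} {q l r : List τ} (h : InfR R q (l ++ r)) :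
    ∃ q1, run R q l = some q1 ∧ InfR R q1 r := by
  have key : ∀ n, ∃ w : List τ, w.length = n ∧ RdW R q (l ++ r) (l ++ w) := by
    intro n
    obtain ⟨w, hw, h1, t, h2⟩ := h (l.length + n)
    obtain ⟨t', h3⟩ := run_take l.length h2
    have h4 := run_short h3 (by rw [List.length_take, List.length_append]; omega)
    have h5 : w.take l.length = l := by
      have h6 := List.append_inj_left h4 (by rw [List.length_take]; omega)
      exact h6.symm
    refine ⟨w.drop l.length, by rw [List.length_drop]; omega, ?_⟩
    have h7 : l ++ w.drop l.length = w := by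
      conv_lhs => rw [← h5]
      rw [h5]
      conv_rhs => rw [← List.take_append_drop l.length w, h5]
    rw [h7]
    exact ⟨h1, t, h2⟩
  have h0 : ∃ q1, run R q l = some q1 := by
    obtain ⟨w, -, ⟨t, h1⟩, -⟩ := key 0
    rw [run_append] at h1
    cases h2 : run R q l with
    | none => rw [h2] at h1; simp at h1
    | some q1 => exact ⟨q1, rfl⟩
  obtain ⟨q1, hq1⟩ := h0
  refine ⟨q1, hq1, fun n => ?_⟩
  obtain ⟨w, hw, ⟨t, h1⟩, t', h2⟩ := key n
  rw [run_append, hq1] at h1
  rw [run_append, run_self_append] at h2
  exact ⟨w, hw, ⟨t, by simpa using h1⟩, t', by simpa using h2⟩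

theorem rd_det {R : Rose τ} (hR : Bim R) {q q' w w2 : List τ} (hq : IsSt R q) (hq' : IsSt R q')
    (hne : q ≠ q') (h : RdW R q q' w) (h2 : RdW R q q' w2) (hl : w.length ≤ w2.length) :
    w <+: w2 := by
  induction w generalizing q q' w2 with
  | nil => exact List.nil_prefix
  | cons a w ih =>
    cases w2 with
    | nil => simp at hl
    | cons b w2 =>
      obtain ⟨⟨t, h3⟩, t', h4⟩ := h
      obtain ⟨⟨s, h5⟩, s', h6⟩ := h2
      rw [run_cons] at h3 h4 h5 h6
      cases g3 : step R q a with
      | none => rw [g3] at h3; simp at h3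
      | some q1 =>
      cases g4 : step R q' a with
      | none => rw [g4] at h4; simp at h4
      | some q1' =>
      have hab : b = a := by
        cases q with
        | cons c q =>
          have e1 := (step_unique g3).1
          cases g5 : step R (c :: q) b with
          | none => rw [g5] at h5; simp at h5
          | some r =>
            have e2 := (step_unique g5).1
            rw [e1, e2]
        | nil =>
          cases q' with
          | nil => exact absurd rfl hne
          | cons c q' =>
            have e1 := (step_unique g4).1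
            cases g6 : step R (c :: q') b with
            | none => rw [g6] at h6; simp at h6
            | some r =>
              have e2 := (step_unique g6).1
              rw [e1, e2]
      subst hab
      rw [g3] at h3 h5
      rw [g4] at h4 h6
      have hne' : q1 ≠ q1' := by
        rintro rfl
        exact hne (step_inj hR hq hq' g3 g4)
      have h7 := ih (step_isSt hq g3) (step_isSt hq' g4) hne'
        ⟨⟨t, by simpa using h3⟩, t', by simpa using h4⟩
        ⟨⟨s, by simpa using h5⟩, s', by simpa using h6⟩ (by simpa using hl)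
      exact (List.prefix_cons_inj b).2 h7

/-- If no block begins, the state only gets shorter. -/
theorem no_start {z : τ} {T' : List τ} {p q w : List τ} (h : run (pR z T') p w = some q)
    (hno : ¬ ∃ a b, w = a ++ z :: b ∧ run (pR z T') p a = some []) : q = p.drop w.length := by
  induction w generalizing p with
  | nil => rw [run_nil] at h; simpa using (Option.some.inj h).symm
  | cons c w ih =>
    rw [run_cons] at h
    cases h1 : step (pR z T') p c with
    | none => rw [h1] at h; simp at h
    | some r =>
      rw [h1] at h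
      have h2 : run (pR z T') r w = some q := by simpa using h
      have hno' : ¬ ∃ a b, w = a ++ z :: b ∧ run (pR z T') r a = some [] := by
        rintro ⟨a, b, hab, hra⟩
        refine hno ⟨c :: a, b, by rw [hab]; rfl, ?_⟩
        rw [run_cons, h1]
        simpa using hra
      have h3 := ih h2 hno'
      cases p with
      | nil =>
        have hcz : c ≠ z := by
          rintro rfl
          exact hno ⟨[], w, rfl, by rw [run_nil]⟩
        rw [step_nil, pR_ne _ hcz] at h1
        obtain rfl := Option.some.inj h1
        rw [h3]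
        simp
      | cons b p =>
        obtain ⟨rfl, rfl⟩ := step_unique h1
        rw [h3]
        simp

/-- The overlap of a block of the first parse and a block of the second. -/
structure GoodW (z : τ) (T' β : List τ) : Prop where
  head : β.head? = some z
  suf : β <:+ T'
  inf : InfR (pR z T') [] β

theorem GoodW.last {z : τ} {T' β : List τ} (hl : T'.getLast? = some z) (h : GoodW z T' β) :
    β.getLast? = some z := by
  obtain ⟨c, hc⟩ := h.suf
  rw [← hc, List.getLast?_append] at hl
  cases h2 : β.getLast? with
  | none =>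
    have h3 := List.getLast?_eq_none_iff.1 h2
    have h4 := h.head
    rw [h3] at h4
    simp at h4
  | some b => rw [h2] at hl; simpa using hl

theorem GoodW.next {z : τ} {T' β : List τ} (hl : T'.getLast? = some z) (h : GoodW z T' β) :
    ∃ v β', z ∉ v ∧ z :: T' = β ++ v ++ β' ∧ GoodW z T' β' := by
  obtain ⟨β1, rfl⟩ : ∃ β1, β = z :: β1 := by
    have h1 := h.head
    cases β with
    | nil => simp at h1
    | cons a β => exact ⟨β, by simpa using h1⟩
  have hsl : (z :: β1).length ≤ T'.length := h.suf.length_le
  rw [List.length_cons] at hsl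
  have h1 : InfR (pR z T') [] ([z] ++ β1) := h.inf
  obtain ⟨q1, hq1, h2⟩ := h1.step
  have e1 : q1 = T' := by
    rw [run_cons, step_nil, pR_self] at hq1
    simpa using hq1.symm
  subst e1
  have h3 : InfR (pR z q1) q1 (β1 ++ []) := by rwa [List.append_nil]
  obtain ⟨s, hs, h4⟩ := h3.step
  have h5 : q1 = β1 ++ s := run_short hs (by omega)
  have hsne : s ≠ [] := by
    rintro rfl
    rw [List.append_nil] at h5
    rw [h5] at hsl
    omega
  have hsl2 : s.getLast? = some z := by
    rw [h5, List.getLast?_append] at hl
    cases h6 : s.getLast? with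
    | none => exact absurd (List.getLast?_eq_none_iff.1 h6) hsne
    | some b => rw [h6] at hl; simpa using hl
  have hzs : z ∈ s := List.mem_of_getLast? hsl2
  obtain ⟨v, b, hvb, hv⟩ := List.eq_append_cons_of_mem hzs
  refine ⟨v, z :: b, hv, ?_, rfl, ?_, ?_⟩
  · conv_lhs => rw [h5, hvb]
    simp
  · refine ⟨β1 ++ v, ?_⟩
    rw [List.append_assoc, ← hvb, ← h5]
  · have h7 : InfR (pR z q1) [] (v ++ z :: b) := by
      rw [← hvb]
      exact h4.symm
    obtain ⟨q2, hq2, h8⟩ := h7.step
    rw [pR_run_nil hv] at hq2
    obtain rfl := Option.some.inj hq2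
    exact h8

theorem run_petal_prefix {z : τ} {T' l r : List τ} (h : z :: T' = l ++ r) (hl : l ≠ []) :
    run (pR z T') [] l = some r := by
  cases l with
  | nil => exact absurd rfl hl
  | cons a l =>
    rw [List.cons_append, List.cons.injEq] at h
    obtain ⟨rfl, rfl⟩ := h
    rw [run_cons, step_nil, pR_self]
    simpa using run_self_append (pR z (l ++ r)) l r

theorem GoodW.rep {z : τ} {T' β : List τ} (hl : T'.getLast? = some z) (h : GoodW z T' β) :
    ∃ x u k, Rep z (z :: T') x u k ∧ run (pR z T') [] (z :: T' ++ u) = some [] ∧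
      run (pR z T') β (z :: T' ++ u) = some β := by
  obtain ⟨u, β', hu, h1, hg⟩ := h.next hl
  obtain ⟨v, β'', hv, h2, hg'⟩ := hg.next hl
  have e1 : β = β'' := by
    refine suf_eq h.suf hg'.suf h.head hg'.head ?_
    have c1 := congrArg (List.count z) h1
    have c2 := congrArg (List.count z) h2
    rw [c1] at c2
    simp only [List.count_append, List.count_eq_zero_of_not_mem hu,
      List.count_eq_zero_of_not_mem hv] at c2
    omega
  subst e1
  obtain ⟨rfl, x, i, j, hx1, hx2, hx3, hx4⟩ :=
    euclid hu hv h.head (h.last hl) hg.head (hg.last hl) (h1.symm.trans h2)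
  have hβ' : β' ≠ [] := by
    rintro h0
    have := hg.head
    rw [h0] at this
    simp at this
  refine ⟨x, u, i + j + 2, ⟨by omega, ?_, hx1, hx2, hu⟩, ?_, ?_⟩
  · have e2 : i + j + 2 - 1 = i + (1 + j) := by omega
    rw [e2, wpow_add, wpow_add, wpow_one, h1]
    conv_lhs => rw [hx3, hx4]
    simp only [List.append_assoc]
  · exact run_append_some (run_petal (pR_self z T')) (pR_run_nil hu)
  · have e3 : z :: T' ++ u = β ++ (u ++ (β' ++ u)) := by
      rw [h1]
      simp only [List.append_assoc]
    rw [e3]
    refine run_append_some (run_self _ β) (run_append_some (pR_run_nil hu) ?_)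
    exact run_petal_prefix h2 (by simp [hβ'])

/-- Two different parses of the infinite power of a token word. -/
structure BadW (z : τ) (T' tau p p' : List τ) : Prop where
  ne : tau ≠ []
  st : p <:+ T'
  st' : p' <:+ T'
  pp : p ≠ p'
  run : run (pR z T') p tau = some p
  run' : D0L.Tr.run (pR z T') p' tau = some p'

theorem run_wpow_self {R : Rose τ} {q y : List τ} (h : run R q y = some q) (d : ℕ) :
    run R q (wpow y d) = some q := by
  induction d with
  | zero => rw [wpow_zero, run_nil]
  | succ d ih => rw [wpow_succ]; exact run_append_some h ih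

theorem bad_rep_aux {z : τ} {T' : List τ} (hl : T'.getLast? = some z) {tau p p' : List τ}
    (h : BadW z T' tau p p') (hp : p ≠ []) :
    ∃ x u k, Rep z (z :: T') x u k ∧ Prim (x ++ u) ∧
      ∃ r e, r < (x ++ u).length ∧ 1 ≤ e ∧ tau = wpow ((x ++ u).rotate r) e := by
  have hB := pR_bim hl
  have hst : IsSt (pR z T') p := pR_isSt.2 h.st
  have hst' : IsSt (pR z T') p' := pR_isSt.2 h.st'
  have hstart : ∃ a b, tau = a ++ z :: b ∧ run (pR z T') p a = some [] := by
    by_contra hno
    have h1 := no_start h.run hno
    have h2 := congrArg List.length h1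
    rw [List.length_drop] at h2
    have h3 := List.length_pos_of_ne_nil hp
    have h4 := List.length_pos_of_ne_nil h.ne
    omega
  obtain ⟨a, b, rfl, hra⟩ := hstart
  have h1 := h.run
  have h2 := h.run'
  rw [run_append, hra] at h1
  have h3 : run (pR z T') [] (z :: b) = some p := by simpa using h1
  rw [run_append] at h2
  cases hra' : run (pR z T') p' a with
  | none => rw [hra'] at h2; simp at h2
  | some β =>
  rw [hra'] at h2
  have h4 : run (pR z T') β (z :: b) = some p' := by simpa using h2
  have hβne : [] ≠ β := by
    rintro rfl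
    exact h.pp (run_inj hB hst hst' hra hra')
  have hβst := run_isSt hst' hra'
  have hβh : β.head? = some z := by
    cases β with
    | nil => exact absurd rfl hβne
    | cons c β =>
      rw [run_cons] at h4
      cases h5 : step (pR z T') (c :: β) z with
      | none => rw [h5] at h4; simp at h4
      | some r =>
        rw [(step_unique h5).1]
        rfl
  -- the loop
  have hL : run (pR z T') [] (z :: b ++ a) = some [] := run_append_some h3 hra
  have hL' : run (pR z T') β (z :: b ++ a) = some β := run_append_some h4 hra'
  obtain ⟨τ0, hτ0⟩ : ∃ τ0, τ0 = z :: b ++ a := ⟨_, rfl⟩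
  have hτl : 0 < τ0.length := by rw [hτ0]; simp
  rw [← hτ0] at hL hL'
  have hgood : GoodW z T' β := by
    refine ⟨hβh, pR_isSt.1 hβst, fun n => ⟨(wpow τ0 n).take n, ?_, ?_, ?_⟩⟩
    · rw [List.length_take, wpow_length]
      exact Nat.min_eq_left (Nat.le_mul_of_pos_right n hτl)
    · exact run_take n (run_wpow_self hL n)
    · exact run_take n (run_wpow_self hL' n)
  obtain ⟨x0, u, k0, hrep0, hr1, hr2⟩ := hgood.rep hl
  obtain ⟨x, k, hrep, hprim⟩ := Rep.prim _ rfl hrep0
  refine ⟨x, u, k, hrep, hprim, ?_⟩
  rw [hrep.append] at hr1 hr2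
  have hXl : 0 < (x ++ u).length := List.length_pos_of_ne_nil hprim.ne_nil
  have hcomm : (x ++ u) ++ τ0 = τ0 ++ (x ++ u) := by
    obtain ⟨M, hM⟩ : ∃ M, M = (x ++ u).length + 1 := ⟨_, rfl⟩
    obtain ⟨M', hM'⟩ : ∃ M', M' = M * τ0.length := ⟨_, rfl⟩
    have hk := hrep.two
    have h5 : wpow τ0 M <+: wpow (x ++ u) (k * M') := by
      refine rd_det hB (isSt_nil _) hβst hβne ⟨⟨_, run_wpow_self hL M⟩, _, run_wpow_self hL' M⟩
        ⟨⟨[], ?_⟩, β, ?_⟩ ?_
      · rw [← wpow_wpow]; exact run_wpow_self hr1 M'
      · rw [← wpow_wpow]; exact run_wpow_self hr2 M'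
      · rw [wpow_length, wpow_length, ← hM']
        calc M' = 1 * M' * 1 := by ring
          _ ≤ k * M' * (x ++ u).length :=
            Nat.mul_le_mul (Nat.mul_le_mul (by omega) le_rfl) hXl
    refine fw h5 (List.prefix_refl _) ?_
    rw [wpow_length, hM, Nat.succ_mul]
    have := Nat.le_mul_of_pos_right (x ++ u).length hτl
    omega
  obtain ⟨e, he⟩ := hprim.of_comm hcomm
  have he1 : 1 ≤ e := by
    rcases Nat.eq_zero_or_pos e with h0 | h0
    · rw [h0, wpow_zero] at he
      rw [he] at hτl
      simp at hτl
    · exact h0
  refine ⟨(z :: b).length % (x ++ u).length, e, Nat.mod_lt _ hXl, he1, ?_⟩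
  rw [List.rotate_mod, ← wpow_rotate, ← he, hτ0, List.rotate_append_length_eq]

theorem BadW.swap {z : τ} {T' tau p p' : List τ} (h : BadW z T' tau p p') :
    BadW z T' tau p' p :=
  ⟨h.ne, h.st', h.st, h.pp.symm, h.run', h.run⟩

theorem bad_rep {z : τ} {T' : List τ} (hl : T'.getLast? = some z) {tau p p' : List τ}
    (h : BadW z T' tau p p') :
    ∃ x u k, Rep z (z :: T') x u k ∧ Prim (x ++ u) ∧
      ∃ r e, r < (x ++ u).length ∧ 1 ≤ e ∧ tau = wpow ((x ++ u).rotate r) e := by
  by_cases hp : p = []
  · have hp' : p' ≠ [] := fun h0 => h.pp (hp.trans h0.symm)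
    exact bad_rep_aux hl h.swap hp'
  · exact bad_rep_aux hl h hp

/-- **Circle combinatorics.** -/
theorem circ {z : τ} {T' : List τ} (hl : T'.getLast? = some z) :
    (∀ tau p p', ¬ BadW z T' tau p p') ∨
    ∃ x u k, Rep z (z :: T') x u k ∧ Prim (x ++ u) ∧ ∀ tau p p', BadW z T' tau p p' →
      ∃ r e, r < (x ++ u).length ∧ 1 ≤ e ∧ tau = wpow ((x ++ u).rotate r) e := by
  by_cases h : ∃ tau p p', BadW z T' tau p p'
  · obtain ⟨tau, p, p', hb⟩ := h
    obtain ⟨x, u, k, hrep, hprim, -⟩ := bad_rep hl hb
    refine Or.inr ⟨x, u, k, hrep, hprim, fun tau1 p1 p1' hb1 => ?_⟩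
    obtain ⟨x1, u1, k1, hrep1, hprim1, r, e, hr, he, ht⟩ := bad_rep hl hb1
    have hX := hrep.unique hrep1 hprim hprim1
    exact ⟨r, e, hX ▸ hr, he, hX ▸ ht⟩
  · push Not at h
    exact Or.inl h

end D0L.Tr
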