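import Pool.Agent.H.MP_374efc_lc.Tr.Brg
import Pool.Agent.H.MP_374efc_lc.Tr.Core

/-!
# Exactness without malnormality, and the star lemma (helper66's NM note, part A)

`Key Q H`: two states of `Q` which both have two different neighbours in the fibre graph, all read along
the same closed word, are equal.  `kk_acyclic_key`: then the fibre graph is a forest.  `star_key`: two
different states of `H` which are read along the same closed word have a common neighbour.
-/

set_option autoImplicit false

namespace D0L.Tr

open SimpleGraph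

section abstract

variable {V A : Type*} {G : SimpleGraph V} {st : V → A → Option V} {p q : V}

/-- **Persistence.** If the fibre graph has a cycle then there is a tuple of vertices with the
property `R`, all read along the same closed word; `R` is a property which is preserved by reading and
holds for some tuple of vertices of every cycle. -/
theorem persist {ι : Type*} [Finite ι] [Finite V] (h : FibreGraph G st p q) (R : (ι → V) → Prop)
    (hR : ∀ x y a, R x → (∀ i, st (x i) a = some (y i)) → R y)
    (hini : ∀ (z : V) (c : G.Walk z z), c.IsCycle → ∃ x, R x ∧ ∀ i, x i ∈ c.support)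
    (hac : ¬ G.IsAcyclic) :
    ∃ (x : ι → V) (v : List A), R x ∧ v ≠ [] ∧ ∀ i, runO st (x i) v = some (x i) := by
  classical
  unfold SimpleGraph.IsAcyclic at hac
  push Not at hac
  obtain ⟨z0, c0, hc0⟩ := hac
  have hex : ∃ m : ℕ, ∃ (z : V) (c : G.Walk z z), c.IsCycle ∧ c.length = m := ⟨_, z0, c0, hc0, rfl⟩
  let m := Nat.find hex
  obtain ⟨z, c, hc, hcm⟩ := Nat.find_spec hex
  have hmin : ∀ (z' : V) (c' : G.Walk z' z'), c'.IsCycle → m ≤ c'.length :=
    fun z' c' hc' => Nat.find_min' hex ⟨z', c', hc', rfl⟩
  let P : (ι → V) → Prop := fun x => R x ∧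
    ∃ (z : V) (c : G.Walk z z), c.IsCycle ∧ c.length = m ∧ ∀ i, x i ∈ c.support
  have hP0 : ∃ x, P x := by
    obtain ⟨x, hx, hxs⟩ := hini z c hc
    exact ⟨x, hx, z, c, hc, hcm, hxs⟩
  have hstep : ∀ x : {x : ι → V // P x}, ∃ (a : A) (y : {x : ι → V // P x}),
      ∀ i, st (x.1 i) a = some (y.1 i) := by
    rintro ⟨x, hx, z1, c1, hc1, hc1m, hs⟩
    obtain ⟨a, ha⟩ := exists_letter h c1 hc1 (fun z' c' hc' => hc1m ▸ hmin z' c' hc')
    obtain ⟨z2, c2, hc2, hl2, hsup⟩ := shift h c1 hc1 a ha
    have h1 : ∀ i, ∃ y, st (x i) a = some y := fun i =>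
      Option.isSome_iff_exists.1 (ha (x i) (hs i))
    choose y hy using h1
    exact ⟨a, ⟨y, hR x y a hx hy, z2, c2, hc2, hl2.trans hc1m,
      fun i => hsup (x i) (hs i) (y i) (hy i)⟩, hy⟩
  choose l g hg using hstep
  let word : ℕ → {x : ι → V // P x} → List A := fun n =>
    Nat.rec (fun _ => []) (fun _ w x => l x :: w (g x)) n
  have hword0 : ∀ x, word 0 x = [] := fun _ => rfl
  have hwordS : ∀ n x, word (n + 1) x = l x :: word n (g x) := fun _ _ => rfl
  have hrun : ∀ n x i, runO st (x.1 i) (word n x) = some ((g^[n] x).1 i) := by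
    intro n
    induction n with
    | zero =>
      intro x i
      rw [hword0]
      rfl
    | succ n ih =>
      intro x i
      rw [hwordS, Function.iterate_succ_apply]
      change (st (x.1 i) (l x)).bind (fun t => runO st t (word n (g x))) = _
      rw [hg x i, Option.bind_some]
      exact ih (g x) i
  obtain ⟨x0, hx0⟩ := hP0
  obtain ⟨i, j, hij, heq⟩ := Finite.exists_ne_map_eq_of_infinite (fun n : ℕ => g^[n] ⟨x0, hx0⟩)
  wlog hlt : i < j generalizing i j
  · exact this j i hij.symm heq.symm (by omega)
  have heq2 : g^[j - i] (g^[i] ⟨x0, hx0⟩) = g^[i] ⟨x0, hx0⟩ := by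
    rw [← Function.iterate_add_apply]
    have : j - i + i = j := by omega
    rw [this]
    exact heq.symm
  generalize hy : g^[i] ⟨x0, hx0⟩ = y at heq2
  refine ⟨y.1, word (j - i) y, y.2.1, ?_, ?_⟩
  · obtain ⟨k, hk⟩ : ∃ k, j - i = k + 1 := ⟨j - i - 1, by omega⟩
    rw [hk, hwordS]
    exact List.cons_ne_nil _ _
  · intro k
    have h1 := hrun (j - i) y k
    rw [heq2] at h1
    exact h1

/-- A walk all of whose vertices have the letter `a` moves with the letter. -/
theorem move_letter (h : FibreGraph G st p q) {a : A} : ∀ {x y x' y' : V} (w : G.Walk x y),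
    (∀ u ∈ w.support, (st u a).isSome) → st x a = some x' → st y a = some y' →
    ∃ w' : G.Walk x' y', w'.length = w.length ∧
      ∀ i ≤ w.length, st (w.getVert i) a = some (w'.getVert i) := by
  intro x y x' y' w
  induction w generalizing x' with
  | nil =>
    intro _ h1 h2
    rw [h1] at h2
    obtain rfl := Option.some.inj h2
    refine ⟨Walk.nil, rfl, ?_⟩
    intro i _
    simpa using h1
  | @cons x u y hxu w ih =>
    intro hs h1 h2
    obtain ⟨u', hu'⟩ := Option.isSome_iff_exists.1
      (hs u (by rw [Walk.support_cons]; exact List.mem_cons_of_mem _ w.start_mem_support))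
    obtain ⟨w', hl, hw'⟩ := ih (fun v hv => hs v (by
      rw [Walk.support_cons]
      exact List.mem_cons_of_mem _ hv)) hu' h2
    refine ⟨Walk.cons (h.hom x u a x' u' hxu h1 hu') w', ?_, ?_⟩
    · rw [Walk.length_cons, Walk.length_cons, hl]
    · intro i hi
      cases i with
      | zero =>
        rw [Walk.getVert_zero, Walk.getVert_zero]
        exact h1
      | succ i =>
        rw [Walk.getVert_cons_succ, Walk.getVert_cons_succ]
        rw [Walk.length_cons] at hi
        exact hw' i (by omega)

/-- Paths move with words. -/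
theorem move_word (h : FibreGraph G st p q) (hG : G.IsAcyclic)
    (hcon : ∀ a, (G.induce {x | (st x a).isSome}).Preconnected) : ∀ (v : List A)
    {x y x' y' : V} (w : G.Walk x y), w.IsPath → runO st x v = some x' → runO st y v = some y' →
    ∃ w' : G.Walk x' y', w'.IsPath ∧ w'.length = w.length ∧
      ∀ i ≤ w.length, runO st (w.getVert i) v = some (w'.getVert i) := by
  intro v
  induction v with
  | nil =>
    intro x y x' y' w hw h1 h2
    obtain rfl : x = x' := Option.some.inj h1
    obtain rfl : y = y' := Option.some.inj h2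
    exact ⟨w, hw, rfl, fun i _ => rfl⟩
  | cons a v ih =>
    intro x y x' y' w hw h1 h2
    have h1' : (st x a).bind (fun t => runO st t v) = some x' := h1
    have h2' : (st y a).bind (fun t => runO st t v) = some y' := h2
    rw [Option.bind_eq_some_iff] at h1' h2'
    obtain ⟨x1, k1, h1'⟩ := h1'
    obtain ⟨y1, k2, h2'⟩ := h2'
    have hs : ∀ u ∈ w.support, (st u a).isSome :=
      (Lk.of_pre (S := {x | (st x a).isSome}) (hcon a) (Option.isSome_iff_exists.2 ⟨x1, k1⟩)
        (Option.isSome_iff_exists.2 ⟨y1, k2⟩)).path hG hw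
    obtain ⟨w1, hl1, hw1⟩ := move_letter h w hs k1 k2
    have hp1 : w1.IsPath := by
      rw [← Walk.IsPath.getVert_injOn_iff]
      intro i hi j hj hij
      rw [Set.mem_ofPred_eq, hl1] at hi hj
      have e1 := hw1 i hi
      have e2 := hw1 j hj
      rw [← hij] at e2
      exact hw.getVert_injOn hi hj (h.inj _ _ a _ e1 e2)
    obtain ⟨w2, hp2, hl2, hw2⟩ := ih w1 hp1 h1' h2'
    refine ⟨w2, hp2, hl2.trans hl1, ?_⟩
    intro i hi
    change (st (w.getVert i) a).bind (fun t => runO st t v) = _
    rw [hw1 i hi, Option.bind_some]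
    exact hw2 i (by omega)

/-- A path between two vertices which are fixed by a word is fixed by the word. -/
theorem fixed_path (h : FibreGraph G st p q) (hG : G.IsAcyclic)
    (hcon : ∀ a, (G.induce {x | (st x a).isSome}).Preconnected) {v : List A}
    {x y : V} (w : G.Walk x y) (hw : w.IsPath) (h1 : runO st x v = some x)
    (h2 : runO st y v = some y) :
    ∀ i ≤ w.length, runO st (w.getVert i) v = some (w.getVert i) := by
  obtain ⟨w', hw', _, h3⟩ := move_word h hG hcon v w hw h1 h2
  have := hG.subsingleton_path x y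
  have h4 : (⟨w', hw'⟩ : G.Path x y) = ⟨w, hw⟩ := Subsingleton.elim _ _
  have h5 : w' = w := congrArg Subtype.val h4
  rw [h5] at h3
  exact h3

end abstract

variable {α : Type*} [DecidableEq α] {Q H : Rose α}

/-- Two states of `Q` with two different neighbours each, all read along the same closed word, are
equal. -/
def Key (Q H : Rose α) : Prop := ∀ {q q' s t s' t' v : List α}, v ≠ [] → IsSt Q q → IsSt Q q' →
  IsSt H s → IsSt H t → IsSt H s' → IsSt H t' → Rel Q H q s → Rel Q H q t → s ≠ t →
  Rel Q H q' s' → Rel Q H q' t' → s' ≠ t' → run Q q v = some q → run Q q' v = some q' →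
  run H s v = some s → run H t v = some t → run H s' v = some s' → run H t' v = some t' → q = q'

theorem runO_inl {s s' : {s : List α // IsSt Q s}} {u : List α}
    (h : runO (stv Q H) (Sum.inl s) u = some (Sum.inl s')) : run Q s.1 u = some s'.1 := by
  induction u generalizing s with
  | nil =>
    have h1 : (some (Sum.inl s) : Option (Vx Q H)) = some (Sum.inl s') := h
    have h2 : s = s' := by simpa using h1
    rw [h2, run_nil]
  | cons a u ih =>
    have h1 : (stv Q H (Sum.inl s) a).bind (fun t => runO (stv Q H) t u) = some (Sum.inl s') := h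
    cases h2 : stv Q H (Sum.inl s) a with
    | none => rw [h2] at h1; simp at h1
    | some w =>
      rw [h2, Option.bind_some] at h1
      rcases w with w | w
      · have h3 : step Q s.1 a = some w.1 := stv_some.1 h2
        rw [run_cons, h3, Option.bind_some]
        exact ih h1
      · exact (stv_some.1 h2).elim

theorem runO_of_run {s s' : {s : List α // IsSt H s}} {u : List α}
    (h : run H s.1 u = some s'.1) : runO (stv Q H) (Sum.inr s) u = some (Sum.inr s') := by
  induction u generalizing s with
  | nil =>
    rw [run_nil] at h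
    have h1 : s = s' := Subtype.ext (Option.some.inj h)
    rw [h1]
    rfl
  | cons a u ih =>
    rw [run_cons, Option.bind_eq_some_iff] at h
    obtain ⟨t, h1, h2⟩ := h
    have h3 : stv Q H (Sum.inr s) a = some (Sum.inr ⟨t, step_isSt s.2 h1⟩) :=
      stv_some.2 h1
    change (stv Q H (Sum.inr s) a).bind (fun t => runO (stv Q H) t u) = some (Sum.inr s')
    rw [h3, Option.bind_some]
    exact ih h2

/-- The sides alternate along an edge. -/
theorem kk_side {u v : Vx Q H} (h : (KK Q H).Adj u v) : u.isRight = !v.isRight := by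
  rcases u with u | u <;> rcases v with v | v
  · exact h.elim
  · rfl
  · rfl
  · exact h.elim

/-- A letter preserves the side. -/
theorem stv_side {u v : Vx Q H} {a : α} (h : stv Q H u a = some v) : u.isRight = v.isRight := by
  have h1 := stv_some.1 h
  rcases u with u | u <;> rcases v with v | v
  · rfl
  · exact h1.elim
  · exact h1.elim
  · rfl

/-- A property of five vertices: `t - q - s - q' - s'`, `t ≠ s`, `s ≠ s'`, `q ≠ q'`. -/
def Five (Q H : Rose α) (x : Fin 5 → Vx Q H) : Prop :=
  (x 0).isRight = true ∧ (KK Q H).Adj (x 0) (x 1) ∧ (KK Q H).Adj (x 1) (x 2) ∧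
    (KK Q H).Adj (x 2) (x 3) ∧ (KK Q H).Adj (x 3) (x 4) ∧ x 0 ≠ x 2 ∧ x 2 ≠ x 4 ∧ x 1 ≠ x 3

/-- Five fixed vertices contradict `Key`. -/
theorem five_false (hkey : Key Q H) {x : Fin 5 → Vx Q H} (hx : Five Q H x) {v : List α}
    (hv : v ≠ []) (h : ∀ i, runO (stv Q H) (x i) v = some (x i)) : False := by
  obtain ⟨h0, a1, a2, a3, a4, n1, n2, n3⟩ := hx
  have k0 := h 0
  have k1 := h 1
  have k2 := h 2
  have k3 := h 3
  have k4 := h 4
  generalize x 0 = x0 at *
  generalize x 1 = x1 at *
  generalize x 2 = x2 at *
  generalize x 3 = x3 at *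
  generalize x 4 = x4 at *
  rcases x0 with x0 | x0
  · simp at h0
  · rcases x1 with x1 | x1
    · rcases x2 with x2 | x2
      · exact a2.elim
      · rcases x3 with x3 | x3
        · rcases x4 with x4 | x4
          · exact a4.elim
          · have b1 : Rel Q H x1.1 x0.1 := a1
            have b2 : Rel Q H x1.1 x2.1 := a2
            have b3 : Rel Q H x3.1 x2.1 := a3
            have b4 : Rel Q H x3.1 x4.1 := a4
            have e := hkey hv x1.2 x3.2 x0.2 x2.2 x2.2 x4.2 b1 b2
              (fun e => n1 (by rw [Subtype.ext e])) b3 b4 (fun e => n2 (by rw [Subtype.ext e]))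
              (runO_inl k1) (runO_inl k3) (runO_inr k0) (runO_inr k2) (runO_inr k2) (runO_inr k4)
            exact n3 (by rw [Subtype.ext e])
        · exact a3.elim
    · exact a1.elim

/-- **Exactness from `Key`** (BIMFULL 3.4). -/
theorem kk_acyclic_key [Finite α] (hp : Pr Q H) (hkey : Key Q H) : (KK Q H).IsAcyclic := by
  classical
  by_contra hac
  have hR : ∀ (x y : Fin 5 → Vx Q H) (a : α), Five Q H x →
      (∀ i, stv Q H (x i) a = some (y i)) → Five Q H y := by
    rintro x y a ⟨h0, a1, a2, a3, a4, n1, n2, n3⟩ hxy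
    have hadj : ∀ i j, (KK Q H).Adj (x i) (x j) → (KK Q H).Adj (y i) (y j) := fun i j h1 =>
      (fibreGraph hp).hom _ _ a _ _ h1 (hxy i) (hxy j)
    have hne : ∀ i j, x i ≠ x j → y i ≠ y j := by
      intro i j h1 h2
      have h3 := hxy j
      rw [← h2] at h3
      exact h1 ((fibreGraph hp).inj _ _ a _ (hxy i) h3)
    exact ⟨(stv_side (hxy 0)).symm.trans h0, hadj _ _ a1, hadj _ _ a2, hadj _ _ a3, hadj _ _ a4,
      hne _ _ n1, hne _ _ n2, hne _ _ n3⟩
  have hini : ∀ (z : Vx Q H) (c : (KK Q H).Walk z z), c.IsCycle →
      ∃ x, Five Q H x ∧ ∀ i, x i ∈ c.support := by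
    have key : ∀ (z : Vx Q H) (c : (KK Q H).Walk z z), c.IsCycle → z.isRight = true →
        ∃ x : Fin 5 → Vx Q H, Five Q H x ∧ ∀ i, x i ∈ c.support := by
      intro z c hc hz
      have h3 := hc.three_le_length
      have hs : ∀ i, i < c.length → (c.getVert (i + 1)).isRight = !(c.getVert i).isRight := by
        intro i hi
        have := kk_side (c.adj_getVert_succ hi)
        rw [this]
        simp
      have h4 : 4 ≤ c.length := by
        by_contra h5
        have h6 : c.length = 3 := by omega
        have e0 : c.getVert 0 = z := c.getVert_zero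
        have e3 : c.getVert 3 = z := by
          rw [← h6]
          exact c.getVert_length
        have s0 := hs 0 (by omega)
        have s1 := hs 1 (by omega)
        have s2 := hs 2 (by omega)
        simp only [Nat.zero_add, Nat.reduceAdd] at s0 s1 s2
        rw [e3, s1, s0, e0, hz] at s2
        simp at s2
      refine ⟨fun i => c.getVert i, ⟨?_, ?_, ?_, ?_, ?_, ?_, ?_, ?_⟩,
        fun i => c.getVert_mem_support _⟩
      · change (c.getVert 0).isRight = true
        rw [c.getVert_zero]
        exact hz
      · exact c.adj_getVert_succ (i := 0) (by omega)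
      · exact c.adj_getVert_succ (i := 1) (by omega)
      · exact c.adj_getVert_succ (i := 2) (by omega)
      · exact c.adj_getVert_succ (i := 3) (by omega)
      · intro e
        have e0 : c.getVert 0 = z := c.getVert_zero
        have e' : c.getVert 0 = c.getVert 2 := e
        rw [e0] at e'
        have := (hc.getVert_endpoint_iff (i := 2) (by omega)).1 e'.symm
        omega
      · intro e
        have e' : c.getVert 2 = c.getVert 4 := e
        have := hc.getVert_injOn (by rw [Set.mem_ofPred_eq]; omega)
          (by rw [Set.mem_ofPred_eq]; omega) e'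
        omega
      · intro e
        have e' : c.getVert 1 = c.getVert 3 := e
        have := hc.getVert_injOn (by rw [Set.mem_ofPred_eq]; omega)
          (by rw [Set.mem_ofPred_eq]; omega) e'
        omega
    intro z c hc
    by_cases hz : z.isRight = true
    · exact key z c hc hz
    · have h3 := hc.three_le_length
      have hm : c.getVert 1 ∈ c.support := c.getVert_mem_support 1
      have ha := kk_side (c.adj_getVert_succ (i := 0) (by omega))
      rw [c.getVert_zero] at ha
      have hz' : (c.getVert 1).isRight = true := by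
        have h5 : z.isRight = false := by simpa using hz
        rw [h5] at ha
        simpa using ha.symm
      obtain ⟨x, hx, hxs⟩ := key _ (c.rotate _ hm) (hc.rotate _) hz'
      exact ⟨x, hx, fun i => (c.mem_support_rotate_iff _ hm).1 (hxs i)⟩
  obtain ⟨x, v, hx, hv, h⟩ := persist (ι := Fin 5) (fibreGraph hp) (Five Q H) hR hini hac
  exact five_false hkey hx hv h

/-- **The star lemma**: two different states of `H` which are read along the same closed word have a
common neighbour. -/
theorem star_key [Finite α] (hp : Pr Q H) (hh : Hull Q H) (hk : (KK Q H).IsAcyclic)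
    (hkey : Key Q H) {s s' v : List α} (hs : IsSt H s) (hs' : IsSt H s') (hne : s ≠ s')
    (hv : v ≠ []) (h : run H s v = some s) (h' : run H s' v = some s') :
    ∃ q, IsSt Q q ∧ Rel Q H q s ∧ Rel Q H q s' ∧ run Q q v = some q := by
  classical
  have hcon : ∀ a, ((KK Q H).induce {x | (stv Q H x a).isSome}).Preconnected := by
    intro a
    have h1 : {x | (stv Q H x a).isSome} = {x | has Q H x a} := by
      ext x
      exact stv_isSome
    rw [h1]
    exact kka_pre hp hh a
  obtain ⟨w0⟩ := kk_conn hp hh (Sum.inr ⟨s, hs⟩) (Sum.inr ⟨s', hs'⟩)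
  obtain ⟨w, hw⟩ : ∃ w : (KK Q H).Walk (Sum.inr ⟨s, hs⟩) (Sum.inr ⟨s', hs'⟩), w.IsPath :=
    ⟨w0.toPath.1, w0.toPath.2⟩
  have hfix := fixed_path (fibreGraph hp) hk hcon w hw (v := v) (runO_of_run h) (runO_of_run h')
  have hs : ∀ i, i < w.length → (w.getVert (i + 1)).isRight = !(w.getVert i).isRight := by
    intro i hi
    have := kk_side (w.adj_getVert_succ hi)
    rw [this]
    simp
  have e0 : w.getVert 0 = Sum.inr ⟨s, ‹_›⟩ := w.getVert_zero
  have el : w.getVert w.length = Sum.inr ⟨s', hs'⟩ := w.getVert_length
  have hl0 : w.length ≠ 0 := by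
    intro h0
    rw [h0, e0] at el
    exact hne (congrArg (fun x : {s : List α // IsSt H s} => x.1) (Sum.inr.inj el))
  have hl1 : w.length ≠ 1 := by
    intro h0
    have h1 := hs 0 (by omega)
    rw [h0] at el
    simp only [Nat.zero_add] at h1
    rw [el, e0] at h1
    simp at h1
  have hl3 : w.length ≠ 3 := by
    intro h0
    have s0 := hs 0 (by omega)
    have s1 := hs 1 (by omega)
    have s2 := hs 2 (by omega)
    simp only [Nat.zero_add, Nat.reduceAdd] at s0 s1 s2
    rw [h0] at el
    rw [el, s1, s0, e0] at s2
    simp at s2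
  have hl4 : ¬ 4 ≤ w.length := by
    intro h4
    have hinj := hw.getVert_injOn
    refine five_false hkey (x := fun i => w.getVert i) ⟨?_, ?_, ?_, ?_, ?_, ?_, ?_, ?_⟩ hv ?_
    · change (w.getVert 0).isRight = true
      rw [e0]
      rfl
    · exact w.adj_getVert_succ (i := 0) (by omega)
    · exact w.adj_getVert_succ (i := 1) (by omega)
    · exact w.adj_getVert_succ (i := 2) (by omega)
    · exact w.adj_getVert_succ (i := 3) (by omega)
    · intro e
      have e' : w.getVert 0 = w.getVert 2 := e
      have := hinj (by rw [Set.mem_ofPred_eq]; omega) (by rw [Set.mem_ofPred_eq]; omega) e'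
      omega
    · intro e
      have e' : w.getVert 2 = w.getVert 4 := e
      have := hinj (by rw [Set.mem_ofPred_eq]; omega) (by rw [Set.mem_ofPred_eq]; omega) e'
      omega
    · intro e
      have e' : w.getVert 1 = w.getVert 3 := e
      have := hinj (by rw [Set.mem_ofPred_eq]; omega) (by rw [Set.mem_ofPred_eq]; omega) e'
      omega
    · intro i
      exact hfix i (by have := i.2; omega)
  have hl2 : w.length = 2 := by omega
  have a1 := w.adj_getVert_succ (i := 0) (by omega)
  have a2 := w.adj_getVert_succ (i := 1) (by omega)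
  have k1 := hfix 1 (by omega)
  rw [hl2] at el
  simp only [Nat.zero_add, Nat.reduceAdd] at a1 a2
  rw [e0] at a1
  rw [el] at a2
  generalize w.getVert 1 = x1 at a1 a2 k1
  rcases x1 with x1 | x1
  · exact ⟨x1.1, x1.2, a1, a2, runO_inl k1⟩
  · exact a1.elim

end D0L.Tr
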