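import Pool.Agent.H.MP_374efc_lc.Tr.Bad
import Pool.Agent.H.MP_374efc_lc.Tr.Circ
import Pool.Agent.H.MP_374efc_lc.Tr.Star5

/-!
# The key lemma (STAR-KEY) from the circle combinatorics and root closure

`key_of_circ : Key W H`: two states of the full rose `W`, each joined to two states of `H`, which are
all fixed by one word, are equal.
-/

set_option autoImplicit false

namespace D0L.Tr

section words

variable {α : Type*}

theorem Prim.rotate {X : List α} (h : Prim X) (n : ℕ) : Prim (X.rotate n) := by
  intro y k hy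
  have h1 : X = wpow (y.rotate (X.length - n % X.length)) k := by
    rw [← wpow_rotate, ← hy, List.rotate_rotate]
    have h0 : 0 < X.length := List.length_pos_of_ne_nil h.ne_nil
    have h2 : n % X.length < X.length := Nat.mod_lt _ h0
    have h3 : n + (X.length - n % X.length) = X.length * (n / X.length + 1) := by
      have := Nat.div_add_mod n X.length
      rw [Nat.mul_add, Nat.mul_one]
      omega
    rw [h3, List.rotate_length_mul]
  exact h _ _ h1

/-- Two rotations of one word are `a ++ b` and `b ++ a`. -/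
theorem rotate_split {X : List α} (hX : X ≠ []) (r r' : ℕ) :
    ∃ a b, b ≠ [] ∧ X.rotate r = a ++ b ∧ X.rotate r' = b ++ a := by
  have h0 : 0 < X.length := List.length_pos_of_ne_nil hX
  obtain ⟨i, hi⟩ : ∃ i, i = (r' + (X.length - r % X.length)) % X.length := ⟨_, rfl⟩
  have hi' : i < X.length := hi ▸ Nat.mod_lt _ h0
  refine ⟨(X.rotate r).take i, (X.rotate r).drop i, ?_, (List.take_append_drop _ _).symm, ?_⟩
  · intro h
    have := congrArg List.length h
    rw [List.length_drop, List.length_rotate, List.length_nil] at this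
    omega
  · rw [← List.rotate_eq_drop_append_take (by rw [List.length_rotate]; omega), List.rotate_rotate,
      ← List.rotate_mod X (r + i), ← List.rotate_mod X r']
    congr 1
    rw [hi, Nat.add_mod_mod]
    have h2 : r % X.length < X.length := Nat.mod_lt _ h0
    have h3 : r + (r' + (X.length - r % X.length)) = r' + X.length * (r / X.length + 1) := by
      have := Nat.div_add_mod r X.length
      rw [Nat.mul_add, Nat.mul_one]
      omega
    rw [h3, Nat.add_mul_mod_self_left]

end words

variable {α : Type*} [DecidableEq α] {W H : Rose α} {z : α} {T' : List α}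

/-- Two different states of the token rose with the same loop. -/
def BadT (z : α) (T' τ p p' : List α) : Prop := τ ≠ [] ∧ p <:+ T' ∧ p' <:+ T' ∧ p ≠ p' ∧
  run (P0 z T') p τ = some p ∧ run (P0 z T') p' τ = some p'

/-- The circle combinatorics: all loops of two different states are powers of rotations of `ω`. -/
def CircS (z : α) (T' ω : List α) : Prop := Prim ω ∧ ∀ τ p p', BadT z T' τ p p' →
  ∃ r e, r < ω.length ∧ 1 ≤ e ∧ τ = wpow (ω.rotate r) e

theorem run_fix {R : Rose α} {s v t : List α} (h : run R s v = some s) (hv : v ≠ []) (_ : t = t) :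
    ∃ w, v = s ++ w ∧ run R [] w = some s := by
  rcases run_split h with ⟨w, h1, h2⟩ | h1
  · exfalso
    rw [← h2] at h1
    have := congrArg List.length h1
    rw [List.length_append] at this
    have h3 := List.length_pos_of_ne_nil hv
    omega
  · exact h1

/-- A state of `W` joined to two states of `H`, all fixed by `v`. -/
theorem rot_of_bad (hT : TD W H z T') (hH : Bim H) {ω : List α}
    (hc : ∀ τ p p', BadT z T' τ p p' → ∃ r e, r < ω.length ∧ 1 ≤ e ∧ τ = wpow (ω.rotate r) e)
    {q s t v : List α} (hv : v ≠ []) (hs : IsSt H s) (ht : IsSt H t) (h1 : Rel W H q s)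
    (h2 : Rel W H q t) (hne : s ≠ t) (hq : run W q v = some q) (h3 : run H s v = some s)
    (h4 : run H t v = some t) : ∃ u r e, v = q ++ u ∧ r < ω.length ∧ 1 ≤ e ∧
      u ++ q = flat W (wpow (ω.rotate r) e) ∧ Tok W (wpow (ω.rotate r) e) := by
  obtain ⟨u, h5, h6⟩ := run_fix hq hv (t := []) rfl
  have move : ∀ s, IsSt H s → Rel W H q s → run H s v = some s →
      ∃ s1, run H s q = some s1 ∧ IsSt H s1 ∧ Rel W H [] s1 ∧ run H s1 (u ++ q) = some s1 := by
    intro s hs h1 h3
    rw [h5, run_append, Option.bind_eq_some_iff] at h3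
    obtain ⟨s1, h7, h8⟩ := h3
    refine ⟨s1, h7, run_isSt hs h7, ?_, run_append_some h8 h7⟩
    obtain ⟨w, h9, h10⟩ := h1
    exact ⟨w ++ q, run_append_some h9 (run_self W q), run_append_some h10 h7⟩
  obtain ⟨s1, a1, a2, a3, a4⟩ := move s hs h1 h3
  obtain ⟨t1, b1, b2, b3, b4⟩ := move t ht h2 h4
  have hne' : s1 ≠ t1 := by
    rintro rfl
    exact hne (run_inj hH hs ht a1 b1)
  have huq : u ++ q ≠ [] := by
    intro h7
    have h8 := congrArg List.length h7
    rw [List.length_append, List.length_nil] at h8
    have h9 := congrArg List.length h5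
    rw [List.length_append] at h9
    have h10 := List.length_pos_of_ne_nil hv
    omega
  obtain ⟨τ, p, p', c1, c2, c3, c4, c5, c6, c7, c8, -⟩ := hT.bad_of hH huq a2 b2 a3 b3 hne'
    (run_append_some h6 (run_self W q)) a4 b4
  obtain ⟨r, e, d1, d2, d3⟩ := hc τ p p' ⟨c3, c4, c5, c6, c7, c8⟩
  rw [d3] at c1 c2
  exact ⟨u, r, e, h5, d1, d2, c1, c2⟩

/-- **The key lemma.** -/
theorem key_of_circ [Fintype α] (hW : Bim W) (hfull : ∀ a, ∃ l, W a = some l)
    (hspan : ∀ p : ℕ, p.Prime → ∀ c : α → ZMod p,
      (∀ a l, W a = some l → ((a :: l).map c).sum = 0) → c = 0)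
    (hH : Bim H) (hT : TD W H z T')
    (hc : (∀ τ p p', ¬ BadT z T' τ p p') ∨ ∃ ω, CircS z T' ω) : Key W H := by
  -- one inequality of the lengths
  have key : ∀ {q q' s t s' t' v : List α}, v ≠ [] → IsSt W q → IsSt W q' →
      IsSt H s → IsSt H t → IsSt H s' → IsSt H t' → Rel W H q s → Rel W H q t → s ≠ t →
      Rel W H q' s' → Rel W H q' t' → s' ≠ t' → run W q v = some q → run W q' v = some q' →
      run H s v = some s → run H t v = some t → run H s' v = some s' → run H t' v = some t' →
      q.length ≤ q'.length → q = q' := by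
    intro q q' s t s' t' v hv hq hq' hs ht hs' ht' r1 r2 hne r3 r4 hne' l1 l2 l3 l4 l5 l6 hle
    obtain ⟨ω, hω, hc⟩ : ∃ ω, CircS z T' ω := by
      rcases hc with hc | hc
      · exfalso
        obtain ⟨u, h5, h6⟩ := run_fix l1 hv (t := []) rfl
        -- no bad words at all: use the empty word `ω`
        obtain ⟨u', r, e, -, h7, -⟩ := rot_of_bad (ω := ([] : List α)) hT hH
          (fun τ p p' hb => absurd hb (hc τ p p')) hv hs ht r1 r2 hne l1 l3 l4
        simp at h7
      · exact hc
    obtain ⟨u1, i1, e1, a1, a2, a3, a4, a5⟩ := rot_of_bad hT hH hc hv hs ht r1 r2 hne l1 l3 l4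
    obtain ⟨u2, i2, e2, b1, b2, b3, b4, b5⟩ := rot_of_bad hT hH hc hv hs' ht' r3 r4 hne' l2 l5 l6
    obtain ⟨d, hd⟩ : q <+: q' := by
      refine List.prefix_of_prefix_length_le (l₃ := v) ?_ ?_ hle
      · exact ⟨u1, a1.symm⟩
      · exact ⟨u2, b1.symm⟩
    have hu : u1 = d ++ u2 := by
      rw [a1, ← hd, List.append_assoc] at b1
      exact List.append_cancel_left b1
    obtain ⟨a, b, hb, c1, c2⟩ := rotate_split hω.ne_nil i1 i2
    rw [c1, flat_wpow, flat_append] at a4
    rw [c2, flat_wpow, flat_append] at b4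
    rw [hu, List.append_assoc] at a4
    rw [← hd, ← List.append_assoc] at b4
    have tok : Tok W (a ++ b) := by
      intro x hx
      refine a5 x ?_
      rw [c1]
      obtain ⟨e, rfl⟩ : ∃ e, e1 = e + 1 := ⟨e1 - 1, by omega⟩
      rw [wpow_succ]
      exact List.mem_append_left _ hx
    have hprim : Prim (flat W a ++ flat W b) := by
      rw [← flat_append]
      intro y k hy
      have hk : 1 ≤ k := by
        rcases Nat.eq_zero_or_pos k with h0 | h0
        · exfalso
          rw [h0] at hy
          have h1 : wpow y 0 = [] := by simp [wpow]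
          rw [h1] at hy
          have h2 : a ++ b ≠ [] := by simp [hb]
          exact flat_ne_nil h2 hy
        · exact h0
      have h1 : run W [] (wpow y k) = some [] := by
        rw [← hy]
        exact run_flat tok
      obtain ⟨τy, h2, h3⟩ := exists_tok (root_closure hW hfull hspan hk h1)
      rw [h2, ← flat_wpow] at hy
      have h4 := flat_inj hy
      exact hω.rotate i1 τy k (c1.trans h4)
    obtain ⟨i, hi⟩ := rot_split hprim (flat_ne_nil hb) (by omega) a4 b4
    have hd2 : run W [] d = some [] := by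
      rw [hi, ← flat_append, ← flat_wpow, ← flat_append]
      refine run_flat ?_
      intro x hx
      rcases List.mem_append.1 hx with hx | hx
      · refine tok x ?_
        unfold wpow at hx
        rw [List.mem_flatten] at hx
        obtain ⟨l, h1, h2⟩ := hx
        rw [(List.mem_replicate.1 h1).2] at h2
        exact h2
      · exact tok x (List.mem_append_left _ hx)
    have hd3 : IsSt W d := by
      have h1 : run W q' q = some d := by
        rw [← hd]
        exact run_self_append W q d
      exact run_isSt hq' h1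
    have hd4 : d = [] := run_inj hW hd3 (isSt_nil W) (run_self W d) hd2
    rw [← hd, hd4, List.append_nil]
  intro q q' s t s' t' v hv hq hq' hs ht hs' ht' r1 r2 hne r3 r4 hne' l1 l2 l3 l4 l5 l6
  rcases Nat.le_total q.length q'.length with h | h
  · exact key hv hq hq' hs ht hs' ht' r1 r2 hne r3 r4 hne' l1 l2 l3 l4 l5 l6 h
  · exact (key hv hq' hq hs' ht' hs ht r3 r4 hne' r1 r2 hne l2 l1 l5 l6 l3 l4 h).symm

theorem badW_of {τ p p' : List α} (h : BadT z T' τ p p') : BadW z T' τ p p' :=
  ⟨h.1, h.2.1, h.2.2.1, h.2.2.2.1, h.2.2.2.2.1, h.2.2.2.2.2⟩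

/-- **The key lemma** for the tokens of a pair. -/
theorem key_pair [Fintype α] (hW : Bim W) (hfull : ∀ a, ∃ l, W a = some l)
    (hspan : ∀ p : ℕ, p.Prime → ∀ c : α → ZMod p,
      (∀ a l, W a = some l → ((a :: l).map c).sum = 0) → c = 0)
    (hH : Bim H) (hT : TD W H z T') (hl : T'.getLast? = some z) : Key W H := by
  refine key_of_circ hW hfull hspan hH hT ?_
  rcases circ hl with h | ⟨x, u, k, -, h1, h2⟩
  · exact Or.inl fun τ p p' hb => h τ p p' (badW_of hb)
  · exact Or.inr ⟨x ++ u, h1, fun τ p p' hb => h2 τ p p' (badW_of hb)⟩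

end D0L.Tr
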