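import Pool.Agent.H.MP_374efc_lc.Tr.Star5

/-!
# Subroses
-/

set_option autoImplicit false

namespace D0L.Tr

variable {α : Type*}

/-- A subrose. -/
def SubR (Q W : Rose α) : Prop := ∀ a l, Q a = some l → W a = some l

theorem IsSt.mono {Q W : Rose α} (h : SubR Q W) {s : List α} (hs : IsSt Q s) : IsSt W s := by
  rcases hs with rfl | ⟨a, l, h1, h2⟩
  · exact isSt_nil W
  · exact Or.inr ⟨a, l, h a l h1, h2⟩

variable [DecidableEq α] {Q W H : Rose α}

theorem step_mono (h : SubR Q W) {s t : List α} {a : α} (hs : step Q s a = some t) :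
    step W s a = some t := by
  cases s with
  | nil => exact h a t hs
  | cons b r => exact hs

theorem run_mono (h : SubR Q W) {s t v : List α} (hs : run Q s v = some t) :
    run W s v = some t := by
  induction v generalizing s with
  | nil => rw [run_nil] at hs ⊢; exact hs
  | cons a v ih =>
    rw [run_cons, Option.bind_eq_some_iff] at hs
    obtain ⟨r, h1, h2⟩ := hs
    rw [run_cons, step_mono h h1]
    exact ih h2

theorem Rel.mono (h : SubR Q W) {q s : List α} (hr : Rel Q H q s) : Rel W H q s := by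
  obtain ⟨v, h1, h2⟩ := hr
  exact ⟨v, run_mono h h1, h2⟩

theorem Key.mono (h : SubR Q W) (hk : Key W H) : Key Q H := by
  intro q q' s t s' t' v hv hq hq' hs ht hs' ht' r1 r2 hne r3 r4 hne' l1 l2 l3 l4 l5 l6
  exact hk hv (hq.mono h) (hq'.mono h) hs ht hs' ht' (r1.mono h) (r2.mono h) hne (r3.mono h)
    (r4.mono h) hne' (run_mono h l1) (run_mono h l2) l3 l4 l5 l6

end D0L.Tr
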