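import Pool.Agent.H.MP_374efc_lc.Tr.Mn

/-!
# Counting: the arithmetic of exactness

`occ R a` = number of occurrences of the letter `a` in the petals of `R` = number of states with
out-letter `a`. The edges of the fibre graph over the letter `a` correspond to the states of the rose
`P` of first returns with out-letter `a`. If the fibre graph over `a` is a tree then
`occ Q a + occ H a = occ P a + 1`.
-/

set_option autoImplicit false

namespace D0L.Tr

open Finset

variable {α : Type*} [DecidableEq α] {Q H : Rose α}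

/-- Number of occurrences of `a` in a petal. -/
def pc (R : Rose α) (b a : α) : ℕ := (R b).elim 0 fun l => (b :: l).count a

/-- Number of occurrences of `a` in the petals. -/
def occ [Fintype α] (R : Rose α) (a : α) : ℕ := ∑ b, pc R b a

/-- The ends of `l` with first letter `a`. -/
def tl (l : List α) (a : α) : Finset (List α) := l.tails.toFinset.filter fun s => s.head? = some a

theorem mem_tl {l s : List α} {a : α} : s ∈ tl l a ↔ s <:+ l ∧ s.head? = some a := by
  unfold tl
  rw [Finset.mem_filter, List.mem_toFinset, List.mem_tails]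

theorem card_tl (l : List α) (a : α) : (tl l a).card = l.count a := by
  induction l with
  | nil =>
    rw [List.count_nil, Finset.card_eq_zero, Finset.eq_empty_iff_forall_notMem]
    intro s hs
    obtain ⟨h1, h2⟩ := mem_tl.1 hs
    rw [List.suffix_nil] at h1
    subst h1
    simp at h2
  | cons c l ih =>
    have hsub : tl (c :: l) a = if c = a then insert (c :: l) (tl l a) else tl l a := by
      ext s
      rw [mem_tl, List.suffix_cons_iff]
      split_ifs with hca
      · rw [Finset.mem_insert, mem_tl]
        constructor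
        · rintro ⟨h1 | h1, h2⟩
          · exact Or.inl h1
          · exact Or.inr ⟨h1, h2⟩
        · rintro (h1 | ⟨h1, h2⟩)
          · exact ⟨Or.inl h1, by rw [h1, hca]; rfl⟩
          · exact ⟨Or.inr h1, h2⟩
      · rw [mem_tl]
        constructor
        · rintro ⟨h1 | h1, h2⟩
          · rw [h1] at h2
            exact (hca (by simpa using h2)).elim
          · exact ⟨h1, h2⟩
        · rintro ⟨h1, h2⟩
          exact ⟨Or.inr h1, h2⟩
    rw [hsub, List.count_cons]
    split_ifs with hca h2 h2
    · rw [Finset.card_insert_of_notMem, ih]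
      intro hmem
      have h3 := (mem_tl.1 hmem).1.length_le
      rw [List.length_cons] at h3
      omega
    · exact (h2 (by simpa using hca)).elim
    · exact (hca (by simpa using h2)).elim
    · rw [ih, Nat.add_zero]

/-- The states with out-letter `a`. -/
def outF [Fintype α] (R : Rose α) (a : α) : Finset (List α) :=
  (if (R a).isSome then {[]} else ∅) ∪
    Finset.univ.biUnion fun b => (R b).elim ∅ fun l => tl l a

theorem mem_outF [Fintype α] {R : Rose α} {a : α} {s : List α} :
    s ∈ outF R a ↔ IsSt R s ∧ ∃ t, step R s a = some t := by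
  unfold outF
  rw [Finset.mem_union, Finset.mem_biUnion]
  constructor
  · rintro (h | ⟨b, -, h⟩)
    · split_ifs at h with h1
      · rw [Finset.mem_singleton] at h
        subst h
        exact ⟨isSt_nil R, Option.isSome_iff_exists.1 h1⟩
      · simp at h
    · cases hb : R b with
      | none => rw [hb] at h; simp at h
      | some l =>
        rw [hb] at h
        obtain ⟨h1, h2⟩ := mem_tl.1 (show s ∈ tl l a from h)
        cases s with
        | nil => simp at h2
        | cons c r =>
          obtain rfl : c = a := by simpa using h2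
          exact ⟨Or.inr ⟨b, l, hb, h1⟩, r, step_cons_self _ _ _⟩
  · rintro ⟨h1, t, h2⟩
    cases s with
    | nil =>
      left
      rw [step_nil] at h2
      rw [if_pos (by rw [h2]; rfl)]
      exact Finset.mem_singleton_self _
    | cons c r =>
      right
      obtain ⟨rfl, rfl⟩ := step_unique h2
      rcases h1 with h1 | ⟨b, l, hb, hl⟩
      · simp at h1
      · refine ⟨b, Finset.mem_univ _, ?_⟩
        rw [hb]
        exact mem_tl.2 ⟨hl, rfl⟩

theorem card_outF [Fintype α] {R : Rose α} (hR : Bim R) (a : α) : (outF R a).card = occ R a := by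
  unfold outF
  rw [Finset.card_union_of_disjoint, Finset.card_biUnion]
  · have h1 : ∀ b, pc R b a = ((R b).elim (∅ : Finset (List α)) fun l => tl l a).card +
        if b = a then (if (R a).isSome then 1 else 0) else 0 := by
      intro b
      unfold pc
      cases hb : R b with
      | none =>
        by_cases hba : b = a
        · subst hba
          simp [hb]
        · simp [hba]
      | some l =>
        simp only [Option.elim_some]
        rw [card_tl, List.count_cons]
        by_cases hba : b = a
        · subst hba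
          simp [hb]
        · have : ¬ (b == a) = true := by simpa using hba
          simp [hba]
    unfold occ
    rw [Finset.sum_congr rfl fun b _ => h1 b, Finset.sum_add_distrib,
      Finset.sum_ite_eq' Finset.univ a, if_pos (Finset.mem_univ a), Nat.add_comm]
    congr 1
    split_ifs <;> simp
  · intro b _ b' _ hbb'
    rw [Function.onFun, Finset.disjoint_left]
    intro s hs hs'
    cases hb : R b with
    | none => rw [hb] at hs; simp at hs
    | some l =>
    cases hb' : R b' with
    | none => rw [hb'] at hs'; simp at hs'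
    | some l' =>
    rw [hb] at hs
    rw [hb'] at hs'
    obtain ⟨h1, h2⟩ := mem_tl.1 (show s ∈ tl l a from hs)
    obtain ⟨h3, -⟩ := mem_tl.1 (show s ∈ tl l' a from hs')
    have hne : s ≠ [] := by
      rintro rfl
      simp at h2
    refine hbb' (hR b b' l l' hb hb' ?_)
    rw [← getLast?_suffix (h1.trans (List.suffix_cons b l)) hne,
      ← getLast?_suffix (h3.trans (List.suffix_cons b' l')) hne]
  · rw [Finset.disjoint_left]
    intro s hs hs'
    split_ifs at hs with h1
    · rw [Finset.mem_singleton] at hs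
      subst hs
      rw [Finset.mem_biUnion] at hs'
      obtain ⟨b, -, h⟩ := hs'
      cases hb : R b with
      | none => rw [hb] at h; simp at h
      | some l =>
        rw [hb] at h
        have h2 := (mem_tl.1 (show [] ∈ tl l a from h)).2
        simp at h2
    · simp at hs

/-- The fibre graph over the letter `a`, on the vertices with out-letter `a`. -/
def Ga (Q H : Rose α) (a : α) : SimpleGraph {v : Vx Q H // has Q H v a} :=
  (KK Q H).induce {v | has Q H v a}

theorem ga_conn (hp : Pr Q H) (hh : Hull Q H) (a : α) : (Ga Q H a).Connected := by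
  haveI : Nonempty {v : Vx Q H // has Q H v a} := ⟨⟨bH Q H, has_bH hp a⟩⟩
  refine ⟨fun v w => ?_⟩
  have h1 := kka_conn hp hh a v.1 w.1 v.2 w.2
  obtain ⟨v, hv⟩ := v
  obtain ⟨w, hw⟩ := w
  have key : ∀ w', (KKa Q H a).Reachable v w' → ∀ hw' : has Q H w' a,
      (Ga Q H a).Reachable ⟨v, hv⟩ ⟨w', hw'⟩ := by
    intro w' h
    rw [SimpleGraph.reachable_iff_reflTransGen] at h
    induction h with
    | refl => intro _; exact SimpleGraph.Reachable.refl _
    | @tail x y _ hadj ih =>
      intro hw'
      exact (ih hadj.2.1).trans (SimpleGraph.Adj.reachable hadj.1)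
  exact key w h1 hw

theorem ga_tree (hp : Pr Q H) (hh : Hull Q H) (hac : (KK Q H).IsAcyclic) (a : α) :
    (Ga Q H a).IsTree :=
  ⟨ga_conn hp hh a, hac.induce _⟩

/-- The vertices with out-letter `a`. -/
def vEquiv [Fintype α] (Q H : Rose α) (a : α) :
    {v : Vx Q H // has Q H v a} ≃ {q // q ∈ outF Q a} ⊕ {s // s ∈ outF H a} where
  toFun v := match v with
    | ⟨Sum.inl q, h⟩ => Sum.inl ⟨q.1, mem_outF.2 ⟨q.2, h⟩⟩
    | ⟨Sum.inr s, h⟩ => Sum.inr ⟨s.1, mem_outF.2 ⟨s.2, h⟩⟩
  invFun v := match v with
    | Sum.inl q => ⟨Sum.inl ⟨q.1, (mem_outF.1 q.2).1⟩, (mem_outF.1 q.2).2⟩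
    | Sum.inr s => ⟨Sum.inr ⟨s.1, (mem_outF.1 s.2).1⟩, (mem_outF.1 s.2).2⟩
  left_inv v := by rcases v with ⟨q | s, h⟩ <;> rfl
  right_inv v := by rcases v with q | s <;> rfl

theorem card_vert [Fintype α] (hp : Pr Q H) (a : α) :
    Nat.card {v : Vx Q H // has Q H v a} = occ Q a + occ H a := by
  rw [Nat.card_congr (vEquiv Q H a), Nat.card_sum, Nat.card_eq_fintype_card,
    Nat.card_eq_fintype_card, Fintype.card_coe, Fintype.card_coe, card_outF hp.q, card_outF hp.h]

/-- The pairs of states joined over `a`. -/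
abbrev Pa (Q H : Rose α) (a : α) :=
  {p : List α × List α // Rel Q H p.1 p.2 ∧ (∃ t, step Q p.1 a = some t) ∧
    ∃ t, step H p.2 a = some t}

/-- A pair gives an edge. -/
def toEdge (Q H : Rose α) (a : α) (p : Pa Q H a) : (Ga Q H a).edgeSet :=
  ⟨s(⟨Sum.inl ⟨p.1.1, p.2.1.stQ⟩, p.2.2.1⟩, ⟨Sum.inr ⟨p.1.2, p.2.1.stH⟩, p.2.2.2⟩), p.2.1⟩

theorem toEdge_bij (Q H : Rose α) (a : α) : Function.Bijective (toEdge Q H a) := by
  constructor
  · rintro ⟨⟨q, s⟩, h⟩ ⟨⟨q', s'⟩, h'⟩ he
    have h1 := congrArg Subtype.val he
    simp only [toEdge, Sym2.eq_iff] at h1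
    rcases h1 with ⟨h2, h3⟩ | ⟨h2, -⟩
    · have e1 : q = q' := by simpa using h2
      have e2 : s = s' := by simpa using h3
      subst e1
      subst e2
      rfl
    · simp at h2
  · rintro ⟨e, he⟩
    induction e using Sym2.ind with
    | _ v w =>
      rcases v with ⟨q | s, hv⟩ <;> rcases w with ⟨q' | s', hw⟩
      · exact (show False from he).elim
      · exact ⟨⟨(q.1, s'.1), he, hv, hw⟩, rfl⟩
      · exact ⟨⟨(q'.1, s.1), he, hw, hv⟩, Subtype.ext Sym2.eq_swap⟩
      · exact (show False from he).elim

theorem card_pairs [Fintype α] (hp : Pr Q H) (hP : Bim (Ps Q H)) (a : α) :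
    Nat.card (Pa Q H a) = occ (Ps Q H) a := by
  rw [← card_outF hP, ← Fintype.card_coe, ← Nat.card_eq_fintype_card]
  have hex : ∀ p : Pa Q H a, ∃ r, Mn Q H p.1.1 p.1.2 r := by
    intro p
    obtain ⟨u, h1, h2⟩ := p.2.1
    obtain ⟨r, -, hr⟩ := ps_run hp h1 h2
    exact ⟨r, hr⟩
  choose f hf using hex
  have hmem : ∀ p, f p ∈ outF (Ps Q H) a := fun p =>
    mem_outF.2 ⟨(isSt_ps hp).2 ⟨_, _, p.2.1, hf p⟩, ((hf p).out hp a).2 p.2.2⟩
  refine Nat.card_congr (Equiv.ofBijective (fun p => ⟨f p, hmem p⟩) ⟨?_, ?_⟩)
  · intro p p' he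
    have h1 : f p = f p' := congrArg Subtype.val he
    have h2 := hf p'
    rw [← h1] at h2
    obtain ⟨e1, e2⟩ := (hf p).inj hp p.2.1.stQ p.2.1.stH p'.2.1.stQ p'.2.1.stH h2
    exact Subtype.ext (Prod.ext e1 e2)
  · rintro ⟨r, hr⟩
    obtain ⟨h1, h2⟩ := mem_outF.1 hr
    obtain ⟨q, s, h3, h4⟩ := (isSt_ps hp).1 h1
    refine ⟨⟨(q, s), h3, (h4.out hp a).1 h2⟩, Subtype.ext ?_⟩
    exact (hf _).unique h4

/-- **Exactness.** -/
theorem exact_count [Fintype α] (hp : Pr Q H) (hh : Hull Q H) (hac : (KK Q H).IsAcyclic)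
    (hP : Bim (Ps Q H)) (a : α) : occ Q a + occ H a = occ (Ps Q H) a + 1 := by
  classical
  haveI : Finite {v : Vx Q H // has Q H v a} := Finite.of_equiv _ (vEquiv Q H a).symm
  haveI := Fintype.ofFinite {v : Vx Q H // has Q H v a}
  haveI : Fintype (Ga Q H a).edgeSet := Fintype.ofFinite _
  have h1 := (ga_tree hp hh hac a).card_edgeFinset
  rw [← card_vert hp a, ← card_pairs hp hP a, Nat.card_congr (Equiv.ofBijective _ (toEdge_bij Q H a)),
    Nat.card_eq_fintype_card, Nat.card_eq_fintype_card, ← SimpleGraph.edgeFinset_card]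
  omega

end D0L.Tr
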