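import Pool.Agent.H.MP_374efc_lc.Tr.Z1
import Pool.Agent.H.MP_374efc_lc.Tr.Count

/-!
# Lemma Z, part 2: counting and the statement

`lemmaZ`: if a word `u` is read from two different states `s ≠ s'` of the rose `H` and the pair
`s, s'` does not lie on a loop, then `u.count a ≤ 2 * (occ H a - 1)` for every letter `a`.
-/

set_option autoImplicit false

namespace D0L.Tr

open Relation Finset

variable {α : Type*} [DecidableEq α] {H : Rose α} {m : ℕ} {z : ℕ → α} {x y : ℕ → List α}

/-- The place `t` is redundant. -/
def Rdt (m : ℕ) (z : ℕ → α) (x y : ℕ → List α) (t : ℕ) : Prop :=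
  ReflTransGen (Ed m z x y t 0) (x t) (y t)

/-- The pairs at the places `≥ T` with letter `a`. -/
def zpr (m : ℕ) (z : ℕ → α) (x y : ℕ → List α) (a : α) (V : Finset (List α)) (T : ℕ) (v w : V) :
    Prop := ∃ j, T ≤ j ∧ j < m ∧ z j = a ∧ v.1 = x j ∧ w.1 = y j

omit [DecidableEq α] in
theorem eqv_rtg {V : Finset (List α)} {a : α} {t : ℕ} (hz : z t = a) {v w : V}
    (h : EqvGen (zpr m z x y a V (t + 1)) v w) : ReflTransGen (Ed m z x y t 0) v.1 w.1 := by
  induction h with
  | rel v w h =>
    obtain ⟨j, h1, h2, h3, h4, h5⟩ := h
    refine ReflTransGen.single ⟨j - t, by omega, by omega, ?_, ?_⟩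
    · intro i hi
      obtain rfl : i = 0 := by omega
      have e : t + (j - t) + 0 = j := by omega
      rw [e, h3, Nat.add_zero, hz]
    · have e : t + (j - t) = j := by omega
      rw [e]
      exact Or.inl ⟨h4, h5⟩
  | refl v => exact ReflTransGen.refl
  | symm v w _ ih => exact rtg_symm (fun _ _ h => h.symm) ih
  | trans v w u _ _ ih1 ih2 => exact ih1.trans ih2

theorem kruskal [DecidablePred (Rdt m z x y)] (V : Finset (List α)) (a : α) (hx : ∀ t, t < m → z t = a → x t ∈ V)
    (hy : ∀ t, t < m → z t = a → y t ∈ V) (k T : ℕ) (hT : T + k = m) :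
    Nat.card (Quotient (EqvGen.setoid (zpr m z x y a V T))) +
      ((Finset.Ico T m).filter fun t => z t = a ∧ ¬ Rdt m z x y t).card ≤ V.card := by
  classical
  induction k generalizing T with
  | zero =>
    obtain rfl : T = m := by omega
    rw [Finset.Ico_self, Finset.filter_empty, Finset.card_empty, Nat.add_zero]
    rw [Nat.card_eq_fintype_card, ← Fintype.card_coe V]
    exact Fintype.card_quotient_le _
  | succ k ih =>
    have ih1 := ih (T + 1) (by omega)
    have hle : ∀ v w : V, EqvGen (zpr m z x y a V (T + 1)) v w →
        EqvGen (zpr m z x y a V T) v w := by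
      intro v w h
      induction h with
      | rel v w h =>
        obtain ⟨j, h1, h2⟩ := h
        exact EqvGen.rel _ _ ⟨j, by omega, h2⟩
      | refl v => exact EqvGen.refl _
      | symm v w _ ih => exact EqvGen.symm _ _ ih
      | trans v w u _ _ ih1 ih2 => exact EqvGen.trans _ _ _ ih1 ih2
    let f : Quotient (EqvGen.setoid (zpr m z x y a V (T + 1))) →
        Quotient (EqvGen.setoid (zpr m z x y a V T)) :=
      Quotient.map' id fun v w h => hle v w h
    have hf : Function.Surjective f := by
      intro q
      induction q using Quotient.inductionOn' with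
      | h v => exact ⟨Quotient.mk'' v, rfl⟩
    have hIco : Finset.Ico T m = insert T (Finset.Ico (T + 1) m) := by
      ext i
      simp only [Finset.mem_Ico, Finset.mem_insert]
      omega
    rw [hIco, Finset.filter_insert]
    split_ifs with hc
    · rw [Finset.card_insert_of_notMem (by simp)]
      have hlt : Nat.card (Quotient (EqvGen.setoid (zpr m z x y a V T))) <
          Nat.card (Quotient (EqvGen.setoid (zpr m z x y a V (T + 1)))) := by
        rw [Nat.card_eq_fintype_card, Nat.card_eq_fintype_card]
        refine Fintype.card_lt_of_surjective_not_injective f hf ?_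
        intro hinj
        have h1 : f (Quotient.mk'' ⟨x T, hx T (by omega) hc.1⟩) =
            f (Quotient.mk'' ⟨y T, hy T (by omega) hc.1⟩) := by
          refine Quotient.sound' (EqvGen.rel _ _ ⟨T, le_rfl, by omega, hc.1, rfl, rfl⟩)
        have h2 := Quotient.exact' (hinj h1)
        exact hc.2 (eqv_rtg hc.1 h2)
      omega
    · have hle2 : Nat.card (Quotient (EqvGen.setoid (zpr m z x y a V T))) ≤
          Nat.card (Quotient (EqvGen.setoid (zpr m z x y a V (T + 1)))) := by
        rw [Nat.card_eq_fintype_card, Nat.card_eq_fintype_card]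
        exact Fintype.card_le_of_surjective f hf
      omega

omit [DecidableEq α] in
theorem wd_add (z : ℕ → α) (i n k : ℕ) : wd z i (n + k) = wd z i n ++ wd z (i + n) k := by
  unfold wd
  rw [List.range_add, List.map_append, List.map_map]
  congr 1
  refine List.map_congr_left fun j _ => ?_
  simp [Nat.add_assoc]

theorem wd_count (z : ℕ → α) (n : ℕ) (a : α) :
    (wd z 0 n).count a = ((Finset.range n).filter fun k => z k = a).card := by
  induction n with
  | zero => simp [wd]
  | succ n ih =>
    rw [wd_succ, List.count_append, ih, Finset.range_add_one, Finset.filter_insert, Nat.zero_add]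
    by_cases h : z n = a
    · rw [if_pos h, Finset.card_insert_of_notMem (by simp), h, List.count_singleton_self]
    · rw [if_neg h, List.count_singleton, if_neg (by simpa using h), Nat.add_zero]

theorem lemmaZ_par [Fintype α] (hB : Bim H) (hP : Par H m z x y)
    (hF : ∀ v, v ≠ [] → run H (x 0) v = some (x 0) → run H (y 0) v = some (y 0) → False)
    (a : α) (hpos : 0 < (wd z 0 m).count a) : (wd z 0 m).count a + 2 ≤ 2 * occ H a := by
  classical
  have hxV : ∀ t, t < m → z t = a → x t ∈ outF H a := fun t ht hz =>
    mem_outF.2 ⟨hP.xs t ht.le, _, by rw [← hz]; exact hP.xst t ht⟩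
  have hyV : ∀ t, t < m → z t = a → y t ∈ outF H a := fun t ht hz =>
    mem_outF.2 ⟨hP.ys t ht.le, _, by rw [← hz]; exact hP.yst t ht⟩
  have hk := kruskal (outF H a) a hxV hyV m 0 (by omega)
  rw [card_outF hB, Nat.Ico_zero_eq_range] at hk
  rw [wd_count] at hpos ⊢
  obtain ⟨t0, ht0⟩ := Finset.card_pos.1 hpos
  rw [Finset.mem_filter, Finset.mem_range] at ht0
  have hq : 0 < Nat.card (Quotient (EqvGen.setoid (zpr m z x y a (outF H a) 0))) := by
    rw [Nat.card_eq_fintype_card]
    exact Fintype.card_pos_iff.2 ⟨Quotient.mk'' ⟨x t0, hxV t0 ht0.1 ht0.2⟩⟩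
  -- splitting into redundant and non redundant places
  have hsplit := Finset.card_filter_add_card_filter_not (s := (Finset.range m).filter fun k => z k = a)
    (fun t => Rdt m z x y t)
  rw [Finset.filter_filter, Finset.filter_filter] at hsplit
  have hR : 2 * (((Finset.range m).filter fun t => z t = a ∧ Rdt m z x y t)).card ≤
      ((Finset.range m).filter fun k => z k = a).card := by
    rcases Finset.eq_empty_or_nonempty ((Finset.range m).filter fun t => z t = a ∧ Rdt m z x y t)
      with he | hne
    · rw [he]; simp
    · obtain ⟨t, ht, hmax⟩ := Finset.exists_max_image _ id hne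
      rw [Finset.mem_filter, Finset.mem_range] at ht
      obtain ⟨q, hq1, hq2, hq3⟩ := far hB hP hF ht.1 ht.2.2
      have h1 : ((Finset.range m).filter fun t => z t = a ∧ Rdt m z x y t).card ≤
          (wd z 0 (t + 1)).count a := by
        rw [wd_count]
        refine Finset.card_le_card fun i hi => ?_
        have h2 := hmax i hi
        rw [Finset.mem_filter, Finset.mem_range] at hi ⊢
        simp only [id] at h2
        exact ⟨by omega, hi.2.1⟩
      have h2 : wd z q (t + 1) = wd z 0 (t + 1) := by
        unfold wd
        refine List.map_congr_left fun j hj => ?_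
        rw [List.mem_range] at hj
        rw [hq3 j (by omega), Nat.zero_add]
      have h3 : wd z 0 m = wd z 0 (t + 1) ++ wd z (t + 1) (q - (t + 1)) ++ wd z q (t + 1) ++
          wd z (q + (t + 1)) (m - (q + (t + 1))) := by
        have e : m = ((t + 1) + (q - (t + 1)) + (t + 1)) + (m - (q + (t + 1))) := by omega
        conv_lhs => rw [e]
        rw [wd_add, wd_add, wd_add]
        have e1 : 0 + (t + 1) = t + 1 := by omega
        have e2 : 0 + (t + 1 + (q - (t + 1))) = q := by omega
        have e3 : 0 + (t + 1 + (q - (t + 1)) + (t + 1)) = q + (t + 1) := by omega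
        rw [e1, e2, e3]
      have h4 := congrArg (List.count a) h3
      rw [List.count_append, List.count_append, List.count_append, h2, wd_count z m] at h4
      omega
  have h5 : (((Finset.range m).filter fun k => z k = a ∧ ¬ Rdt m z x y k)).card + 1 ≤ occ H a := by
    omega
  omega

/-- Lemma Z. -/
theorem lemmaZ [Fintype α] (hB : Bim H) {s s' t t' u : List α} (hs : IsSt H s) (hs' : IsSt H s')
    (hne : s ≠ s')
    (hF : ∀ v, v ≠ [] → run H s v = some s → run H s' v = some s' → False)
    (h : run H s u = some t) (h' : run H s' u = some t') (a : α) (hpos : 0 < u.count a) :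
    u.count a + 2 ≤ 2 * occ H a := by
  have htk : ∀ {s t : List α}, run H s u = some t → ∀ i, ∃ r, run H s (u.take i) = some r := by
    intro s t h i
    rw [← List.take_append_drop i u, run_append] at h
    cases h1 : run H s (u.take i) with
    | none => rw [h1] at h; simp at h
    | some r => exact ⟨r, rfl⟩
  choose x hx using htk h
  choose y hy using htk h'
  let z : ℕ → α := fun i => (u[i]?).getD a
  have hz : ∀ i, i < u.length → u.take (i + 1) = u.take i ++ [z i] := by
    intro i hi
    rw [List.take_add_one]
    simp [z, List.getElem?_eq_getElem hi]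
  have hstep : ∀ {s : List α} {f : ℕ → List α}, (∀ i, run H s (u.take i) = some (f i)) →
      ∀ i, i < u.length → step H (f i) (z i) = some (f (i + 1)) := by
    intro s f hf i hi
    have h1 := hf (i + 1)
    rw [hz i hi, run_append, hf i] at h1
    simpa using h1
  have hP : Par H u.length z x y := by
    refine ⟨fun i _ => run_isSt hs (hx i), fun i _ => run_isSt hs' (hy i), hstep hx, hstep hy, ?_⟩
    intro i _ he
    have h1 := hx i
    rw [he] at h1
    exact hne (run_inj hB hs hs' h1 (hy i))
  have hx0 : x 0 = s := by
    have := hx 0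
    rw [List.take_zero, run_nil] at this
    exact (Option.some.inj this).symm
  have hy0 : y 0 = s' := by
    have := hy 0
    rw [List.take_zero, run_nil] at this
    exact (Option.some.inj this).symm
  have hu : wd z 0 u.length = u := by
    refine List.ext_getElem? fun i => ?_
    unfold wd
    rw [List.getElem?_map]
    rcases Nat.lt_or_ge i u.length with hi | hi
    · rw [List.getElem?_range hi]
      simp [z, List.getElem?_eq_getElem hi]
    · rw [List.getElem?_eq_none (by simpa using hi), List.getElem?_eq_none hi]
      rfl
  have := lemmaZ_par hB hP (by rw [hx0, hy0]; exact hF) a (by rw [hu]; exact hpos)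
  rwa [hu] at this

/-- Lemma Z for malnormal roses. -/
theorem lemmaZ_mal [Fintype α] (hB : Bim H) (hM : Mal H) {s s' t t' u : List α} (hs : IsSt H s)
    (hs' : IsSt H s') (hne : s ≠ s') (h : run H s u = some t) (h' : run H s' u = some t') (a : α)
    (hpos : 0 < u.count a) : u.count a + 2 ≤ 2 * occ H a :=
  lemmaZ hB hs hs' hne (fun v hv h1 h2 => hne (hM s s' v hs hs' hv h1 h2)) h h' a hpos

end D0L.Tr
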