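import Pool.Agent.H.MP_374efc_lc.Tr.Height2

/-!
# The main claim for two roses, in terms of positive words only

`wsum e v`: the sum of the weights `e` of the letters of `v`.
* `rose_claim`: `Q`, `H` two roses (`Pr`, `Hull`, `Mal`), weights `e` which vanish on the petals of
  `Q`; a word which is a product of tokens, at least one of them `y`, is not a closed path of `H`;
* `rose_all_Q`: a closed path of `H`, product of at least two tokens, no interior cut closed in
  `H`: all its tokens are closed paths of `Q`.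
-/

namespace D0L.Tr

open SimpleGraph

variable {α : Type*} [DecidableEq α]

omit [DecidableEq α] in
/-- every letter is the last letter of a petal of a full bimarked rose -/
theorem exists_last_full [Finite α] {H : Rose α} (hb : Bim H) (hf : ∀ a, ∃ l, H a = some l)
    (b : α) : ∃ a l, H a = some l ∧ (a :: l).getLast? = some b := by
  choose l hl using hf
  let f : α → α := fun a => (a :: l a).getLast (by simp)
  have hinj : Function.Injective f := by
    intro a a' h
    apply hb a a' (l a) (l a') (hl a) (hl a')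
    rw [List.getLast?_eq_getLast_of_ne_nil (by simp), List.getLast?_eq_getLast_of_ne_nil (by simp)]
    exact congrArg some h
  obtain ⟨a, ha⟩ := (Finite.injective_iff_surjective.1 hinj) b
  exact ⟨a, l a, hl a, by rw [List.getLast?_eq_getLast_of_ne_nil (by simp)]; exact congrArg some ha⟩

/-- a state from which the last letter closes the petal -/
theorem exists_in_state {R : Rose α} {a b : α} {l : List α} (h : R a = some l)
    (hb : (a :: l).getLast? = some b) : ∃ q, IsSt R q ∧ step R q b = some [] := by
  rcases List.eq_nil_or_concat' l with rfl | ⟨l', c, rfl⟩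
  · have : a = b := by simpa using hb
    subst this
    exact ⟨[], isSt_nil R, by rw [step_nil]; exact h⟩
  · have h1 : (a :: (l' ++ [c])).getLast? = some c := by
      rw [← List.cons_append, List.getLast?_append]
      simp
    rw [h1] at hb
    obtain rfl : c = b := by simpa using hb
    exact ⟨[c], Or.inr ⟨a, _, h, List.suffix_append _ _⟩, by simp⟩

section pair

variable {Q H : Rose α}

/-- **The edge fibres of two roses.** -/
theorem efibre_EF [Finite α] (hp : Pr Q H) (hh : Hull Q H) (hm : Mal H) :
    EF (gQ hp) (gH hp) (efibre hp) wel where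
  nil := wel_nil
  app := wel_append
  smul _ _ _ _ := smul_mem_Ke
  conv _ _ _ _ hv hw π hπ := path_mem_efibre hp hh hm hv hw π hπ
  seg u a v h := by
    rw [wel_mem_grp] at h
    rw [vt_mem_Ke, inv_one, one_mul]
    rw [run_append] at h
    cases h1 : run H [] u with
    | none => rw [h1] at h; simp at h
    | some s =>
      rw [h1] at h
      simp only [Option.bind_some, run_cons] at h
      cases h2 : step H s a with
      | none => rw [h2] at h; simp at h
      | some t =>
        have hs := run_isSt (isSt_nil H) h1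
        exact ⟨⟨s, hs⟩, ⟨t, step_isSt hs h2⟩, paut_rdG (t := ⟨s, hs⟩) h1, paut_step.2 h2⟩
  out a := by
    rw [vt_mem_Ke, inv_one, one_mul]
    obtain ⟨l, hl⟩ := hp.full a
    exact ⟨(paut H hp.h).base, ⟨l, step_isSt (isSt_nil H) hl⟩, PAut.RdG.one _, paut_step.2 hl⟩
  inn a := by
    rw [vt_mem_Ke, inv_one, one_mul]
    obtain ⟨c, l, h1, h2⟩ := exists_last_full hp.h hp.full a
    obtain ⟨q, hq, h3⟩ := exists_in_state h1 h2
    refine ⟨⟨q, hq⟩, ⟨[], isSt_nil H⟩, ?_, paut_step.2 h3⟩
    rw [rdG_inv_wel]
    simp only [run_cons, h3]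
    rfl

/-- The base translate of `Q` contains the edge after a word. -/
theorem vQ_mem (hp : Pr Q H) {v : List α} {a : α} :
    vt (gQ hp) (gH hp) true 1 ∈ efibre hp (wel v) a ↔ ∃ q, run Q [] (v ++ [a]) = some q := by
  rw [vt_mem_Ke, inv_one, one_mul]
  constructor
  · rintro ⟨s, s', h1, h2⟩
    have h3 : run Q [] v = some s.1 := rdG_wel.1 h1
    have h4 := paut_step.1 h2
    exact ⟨s'.1, by rw [run_append, h3]; simp [h4]⟩
  · rintro ⟨q, hq⟩
    rw [run_append] at hq
    cases h1 : run Q [] v with
    | none => rw [h1] at hq; simp at hq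
    | some s =>
      rw [h1] at hq
      simp only [Option.bind_some, run_cons] at hq
      cases h2 : step Q s a with
      | none => rw [h2] at hq; simp at hq
      | some t =>
        have hs := run_isSt (isSt_nil Q) h1
        exact ⟨⟨s, hs⟩, ⟨t, step_isSt hs h2⟩, paut_rdG (t := ⟨s, hs⟩) h1, paut_step.2 h2⟩

/-- The base translate of `Q` contains the edge before a word which ends at the base. -/
theorem vQ_mem_inv (hp : Pr Q H) {v : List α} {b : α} :
    vt (gQ hp) (gH hp) true 1 ∈ efibre hp ((wel v)⁻¹ * (wel [b])⁻¹) b ↔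
      ∃ q, IsSt Q q ∧ run Q q (b :: v) = some [] := by
  rw [vt_mem_Ke, inv_one, one_mul, ← mul_inv_rev, ← wel_append]
  constructor
  · rintro ⟨s, s', h1, h2⟩
    rw [rdG_inv_wel] at h1
    exact ⟨s.1, s.2, h1⟩
  · rintro ⟨q, hq, h⟩
    have h' := h
    simp only [run_cons] at h
    cases h2 : step Q q b with
    | none => rw [h2] at h; simp at h
    | some t =>
      exact ⟨⟨q, hq⟩, ⟨t, step_isSt hq h2⟩, rdG_inv_wel.2 h', paut_step.2 h2⟩

/-! ### Weights -/

/-- The sum of the weights of the letters. -/
def wsum (e : α → ℤ) (v : List α) : ℤ := (v.map e).sum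

/-- The functional of a weight. -/
def weta (e : α → ℤ) (g : FreeGroup α) : ℤ :=
  Multiplicative.toAdd (FreeGroup.lift (fun a => Multiplicative.ofAdd (e a)) g)

omit [DecidableEq α] in
theorem weta_mul (e : α → ℤ) (g g' : FreeGroup α) :
    weta e (g * g') = weta e g + weta e g' := by
  simp [weta]

omit [DecidableEq α] in
theorem weta_wel (e : α → ℤ) (v : List α) : weta e (wel v) = wsum e v := by
  induction v with
  | nil => simp [weta, wsum]
  | cons a v ih =>
    rw [wel_cons, weta_mul, ih]
    simp [weta, wsum]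

theorem HD_rose [Finite α] (hp : Pr Q H) (hh : Hull Q H) (hm : Mal H) (e : α → ℤ)
    (he : ∀ a l, Q a = some l → wsum e (a :: l) = 0) : HD (gQ hp) (gH hp) (weta e) where
  tree := KG_isTree_rose hp hh hm
  mul := weta_mul e
  kill := by
    intro q hq
    have hone : weta e 1 = 0 := by simp [weta]
    have hinv : ∀ g, weta e g⁻¹ = - weta e g := by
      intro g
      have := weta_mul e g g⁻¹
      rw [mul_inv_cancel, hone] at this
      omega
    rw [gQ, grp_paut] at hq
    induction hq using Subgroup.closure_induction with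
    | mem x hx =>
      obtain ⟨a, l, h, rfl⟩ := hx
      rw [weta_wel]
      exact he a l h
    | one => exact hone
    | mul a b _ _ h1 h2 => rw [weta_mul, h1, h2, add_zero]
    | inv a _ h => rw [hinv, h, neg_zero]

/-! ### The claim -/

/-- Tokens for two roses: a small token is a closed path of `H` of nonnegative weight, which is
closed in `Q` or begins with a letter missing at the base of `Q`, and the same at its end. -/
structure TkR (Q H : Rose α) (e : α → ℤ) (sm qt bg : Set (List α)) (y : List α) (a₀ b₀ : α) :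
    Prop where
  hsm : ∀ τ ∈ sm, run H [] τ = some []
  hsm' : ∀ τ ∈ sm, 0 ≤ wsum e τ
  hqt : ∀ τ ∈ qt, run Q [] τ = some []
  hbg : ∀ τ ∈ bg, run H [] τ = some []
  big : ∀ τ ∈ bg, ∀ u v, run H [] (u ++ τ ++ v) = some [] → run H [] u = some []
  yH : run H [] y ≠ some []
  yη : 0 < wsum e y
  fst : ∃ s, y = a₀ :: s
  lst : ∃ s, y = s ++ [b₀]
  out : ∀ τ ∈ sm, run Q [] τ = some [] ∨ ∃ a s, τ = a :: s ∧ Q a = none
  inn : ∀ τ ∈ sm, run Q [] τ = some [] ∨
    ∃ s b, τ = s ++ [b] ∧ ∀ q, IsSt Q q → step Q q b ≠ some []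
  out₀ : Q a₀ = none
  inn₀ : ∀ q, IsSt Q q → step Q q b₀ ≠ some []

/-- No product of such tokens and then `a₀` is read in `Q`. -/
theorem run_none {R : Rose α} {a₀ : α} (h0 : R a₀ = none) :
    ∀ l : List (List α), (∀ t ∈ l, run R [] t = some [] ∨ ∃ a s, t = a :: s ∧ R a = none) →
      run R [] (l.flatten ++ [a₀]) = none := by
  intro l
  induction l with
  | nil => intro _; simp [h0]
  | cons t l ih =>
    intro hl
    rw [List.flatten_cons, List.append_assoc, run_append]
    rcases hl t List.mem_cons_self with h | ⟨a, s, rfl, h⟩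
    · rw [h]
      exact ih fun t' ht' => hl t' (by simp [ht'])
    · simp [h]

/-- Mirror. -/
theorem run_ne_nil {R : Rose α} (hR : Bim R) {b₀ : α}
    (h0 : ∀ q, IsSt R q → step R q b₀ ≠ some []) :
    ∀ l : List (List α), (∀ t ∈ l, run R [] t = some [] ∨
      ∃ s b, t = s ++ [b] ∧ ∀ q, IsSt R q → step R q b ≠ some []) →
      ∀ q, IsSt R q → run R q (b₀ :: l.flatten) ≠ some [] := by
  intro l
  induction l using List.reverseRecOn with
  | nil =>
    intro _ q hq h
    apply h0 q hq
    rw [List.flatten_nil, run_cons] at h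
    cases h1 : step R q b₀ with
    | none => rw [h1] at h; simp at h
    | some t => rw [h1] at h; simpa using h
  | append_singleton l t ih =>
    intro hl q hq h
    have h1 : b₀ :: (l ++ [t]).flatten = (b₀ :: l.flatten) ++ t := by simp
    rw [h1, run_append] at h
    cases h2 : run R q (b₀ :: l.flatten) with
    | none => rw [h2] at h; simp at h
    | some r =>
      have hr := run_isSt hq h2
      rw [h2] at h
      simp only [Option.bind_some] at h
      rcases hl t (by simp) with h3 | ⟨s, b, rfl, h3⟩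
      · obtain rfl := run_inj hR hr (isSt_nil R) h h3
        exact ih (fun t' ht' => hl t' (by simp [ht'])) q hq h2
      · rw [run_append] at h
        cases h4 : run R r s with
        | none => rw [h4] at h; simp at h
        | some z =>
          rw [h4] at h
          simp only [Option.bind_some, run_cons] at h
          cases h5 : step R z b with
          | none => rw [h5] at h; simp at h
          | some w =>
            rw [h5] at h
            apply h3 z (run_isSt hr h4)
            rw [h5]
            simpa using h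

theorem TkR.toTk (hp : Pr Q H) {e : α → ℤ}
    {sm qt bg : Set (List α)} {y : List α} {a₀ b₀ : α} (h : TkR Q H e sm qt bg y a₀ b₀) :
    Tk (gQ hp) (gH hp) (efibre hp) wel (weta e) sm qt bg y a₀ b₀ where
  hsm τ hτ := wel_mem_grp.2 (h.hsm τ hτ)
  hsm' τ hτ := by rw [weta_wel]; exact h.hsm' τ hτ
  hqt τ hτ := wel_mem_grp.2 (h.hqt τ hτ)
  hbg τ hτ := wel_mem_grp.2 (h.hbg τ hτ)
  big τ hτ u v huv := wel_mem_grp.2 (h.big τ hτ u v (wel_mem_grp.1 huv))
  yH hy := h.yH (wel_mem_grp.1 hy)
  yη := by rw [weta_wel]; exact h.yη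
  fst := h.fst
  lst := h.lst
  nr τ hτ l hl hmem := by
    rw [vQ_mem] at hmem
    obtain ⟨q, hq⟩ := hmem
    have := run_none (R := Q) h.out₀ (τ :: l) (by
      intro t ht
      rcases List.mem_cons.1 ht with rfl | ht
      · exact Or.inl (h.hqt _ hτ)
      · rcases hl t ht with h1 | h1
        · exact h.out t h1
        · exact Or.inl (h.hqt t h1))
    rw [List.flatten_cons] at this
    rw [this] at hq
    simp at hq
  nr' τ hτ l hl hmem := by
    rw [vQ_mem_inv] at hmem
    obtain ⟨q, hq, hr⟩ := hmem
    have := run_ne_nil hp.q h.inn₀ (l ++ [τ]) (by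
      intro t ht
      rcases List.mem_append.1 ht with ht | ht
      · rcases hl t ht with h1 | h1
        · exact h.inn t h1
        · exact Or.inl (h.hqt t h1)
      · rw [List.mem_singleton] at ht
        rw [ht]
        exact Or.inl (h.hqt _ hτ)) q hq
    apply this
    have e1 : (l ++ [τ]).flatten = l.flatten ++ τ := by simp
    rw [e1]
    exact hr

/-- **The claim for two roses.** -/
theorem rose_claim [Finite α] (hp : Pr Q H) (hh : Hull Q H) (hm : Mal H) {e : α → ℤ}
    (he : ∀ a l, Q a = some l → wsum e (a :: l) = 0)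
    {sm qt bg : Set (List α)} {y : List α} {a₀ b₀ : α} (h : TkR Q H e sm qt bg y a₀ b₀)
    (L : List (List α)) (hL : ∀ τ ∈ L, τ ∈ sm ∨ τ ∈ qt ∨ τ ∈ bg ∨ τ = y) (hy : y ∈ L) :
    run H [] L.flatten ≠ some [] := by
  intro hrun
  exact (h.toTk hp).notMem (HD_rose hp hh hm e he) (efibre_EF hp hh hm) L hL hy
    (wel_mem_grp.2 hrun)

/-- **All tokens in `Q`, for two roses.** -/
theorem rose_all_Q [Finite α] (hp : Pr Q H) (hh : Hull Q H) (hm : Mal H)
    {sm qt bg : Set (List α)} (hsm : ∀ τ ∈ sm, run H [] τ = some [])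
    (hqt : ∀ τ ∈ qt, run Q [] τ = some []) (hbg : ∀ τ ∈ bg, run H [] τ = some [])
    (big : ∀ τ ∈ bg, ∀ u v, run H [] (u ++ τ ++ v) = some [] → run H [] u = some [])
    (out : ∀ τ ∈ sm, run Q [] τ = some [] ∨ ∃ a s, τ = a :: s ∧ Q a = none)
    (L : List (List α)) (hL : ∀ τ ∈ L, τ ∈ sm ∨ τ ∈ qt ∨ τ ∈ bg) (hlen : 2 ≤ L.length)
    (hH : run H [] L.flatten = some [])
    (hcut : ∀ L₁ L₂, L = L₁ ++ L₂ → L₁ ≠ [] → L₂ ≠ [] → run H [] L₁.flatten ≠ some []) :
    ∀ τ ∈ L, run Q [] τ = some [] := by
  have := (efibre_EF hp hh hm).all_Q (KG_isTree_rose hp hh hm) (sm := sm) (qt := qt) (bg := bg)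
    (fun τ hτ => wel_mem_grp.2 (hsm τ hτ)) (fun τ hτ => wel_mem_grp.2 (hqt τ hτ))
    (fun τ hτ => wel_mem_grp.2 (hbg τ hτ))
    (fun τ hτ u v huv => wel_mem_grp.2 (big τ hτ u v (wel_mem_grp.1 huv)))
    (by
      intro τ hτ
      rcases out τ hτ with h | ⟨a, s, rfl, h⟩
      · exact Or.inl (wel_mem_grp.2 h)
      · right
        refine ⟨a, s, rfl, ?_⟩
        intro hmem
        obtain ⟨q, hq⟩ := (vQ_mem hp (v := [])).1 hmem
        simp [h] at hq)
    L hL hlen (wel_mem_grp.2 hH)
    (fun L₁ L₂ h1 h2 h3 h4 => hcut L₁ L₂ h1 h2 h3 (wel_mem_grp.1 h4))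
  intro τ hτ
  exact wel_mem_grp.1 (this τ hτ)

end pair

end D0L.Tr
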