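import Mathlib

/-!
# A fibre graph without parallel infinite lines is a forest

Abstract form of the exactness argument. `G` is a graph (the vertices are the states of two roses),
`st` reads a letter, `p`, `q` are two adjacent special vertices (the base states). Every other vertex
has at most one out-letter, an edge which does not join two special vertices has a common out-letter,
reading a letter is injective and respects adjacency. A cycle of minimal length can be read for ever
(otherwise it passes through both special vertices, and the edge between them is a chord), so two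
different states of the same side are read along the same periodic word.
-/

set_option autoImplicit false

namespace D0L.Tr

open SimpleGraph

variable {V A : Type*} {G : SimpleGraph V} {st : V → A → Option V} {p q : V}

/-- The hypotheses on the fibre graph. -/
structure FibreGraph (G : SimpleGraph V) (st : V → A → Option V) (p q : V) : Prop where
  adj : G.Adj p q
  uniq : ∀ v, v ≠ p → v ≠ q → ∀ a b, (st v a).isSome → (st v b).isSome → a = b
  common : ∀ u v, G.Adj u v → ¬((u = p ∨ u = q) ∧ (v = p ∨ v = q)) →
    ∃ a, (st u a).isSome ∧ (st v a).isSome
  hom : ∀ u v a u' v', G.Adj u v → st u a = some u' → st v a = some v' → G.Adj u' v'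
  inj : ∀ u v a w, st u a = some w → st v a = some w → u = v

/-- A word is read. -/
def runO (st : V → A → Option V) : V → List A → Option V
  | s, [] => some s
  | s, a :: u => (st s a).bind fun t => runO st t u

/-- Along a walk whose inner vertices are not special all vertices have a common out-letter. -/
theorem arc (h : FibreGraph G st p q) {u v : V} (w : G.Walk u v) (hl : 0 < w.length)
    (hin : ∀ x ∈ w.support.tail.dropLast, x ≠ p ∧ x ≠ q)
    (hne : ¬(w.length = 1 ∧ (u = p ∨ u = q) ∧ (v = p ∨ v = q))) :
    ∃ a, ∀ x ∈ w.support, (st x a).isSome := by
  induction w with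
  | nil => simp at hl
  | @cons u u' v huu' w' ih =>
    cases w' with
    | nil =>
      obtain ⟨a, h1, h2⟩ := h.common u u' huu' (by
        intro h3
        apply hne
        exact ⟨rfl, h3⟩)
      refine ⟨a, ?_⟩
      intro x hx
      simp only [Walk.support_cons, Walk.support_nil, List.mem_cons, List.not_mem_nil,
        or_false] at hx
      rcases hx with rfl | rfl
      · exact h1
      · exact h2
    | @cons _ u'' _ h2 w'' =>
      have hu' : u' ≠ p ∧ u' ≠ q := by
        apply hin
        simp only [Walk.support_cons, List.tail_cons]
        rw [List.dropLast_cons_of_ne_nil (Walk.support_ne_nil _)]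
        exact List.mem_cons_self
      obtain ⟨a, ha⟩ := ih (by simp) (by
        intro x hx
        apply hin
        simp only [Walk.support_cons, List.tail_cons] at hx ⊢
        rw [List.dropLast_cons_of_ne_nil (Walk.support_ne_nil _)]
        exact List.mem_cons_of_mem _ hx) (by
        rintro ⟨-, h3, -⟩
        rcases h3 with h3 | h3
        · exact hu'.1 h3
        · exact hu'.2 h3)
      obtain ⟨b, hb1, hb2⟩ := h.common u u' huu' (by
        rintro ⟨-, h3⟩
        rcases h3 with h3 | h3
        · exact hu'.1 h3
        · exact hu'.2 h3)
      have hab : a = b := h.uniq u' hu'.1 hu'.2 a b (ha u' (Walk.start_mem_support _)) hb2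
      subst hab
      refine ⟨a, ?_⟩
      intro x hx
      rw [Walk.support_cons, List.mem_cons] at hx
      rcases hx with rfl | hx
      · exact hb1
      · exact ha x hx

/-- Inner vertices of a closed walk which is a cycle are different from the end. -/
theorem ne_of_inner {z : V} {c : G.Walk z z} (hc : c.IsCycle) {x : V}
    (hx : x ∈ c.support.tail.dropLast) : x ≠ z := by
  have hnd := hc.support_nodup
  have hne : c.support.tail ≠ [] := by
    intro h0
    rw [h0] at hx
    simp at hx
  have hlast : c.support.tail.getLast hne = z := by
    rw [List.getLast_tail]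
    exact Walk.getLast_support c
  have h1 : c.support.tail = c.support.tail.dropLast ++ [z] := by
    conv_lhs => rw [← List.dropLast_append_getLast hne]
    rw [hlast]
  rw [h1] at hnd
  rintro rfl
  have := List.nodup_append.1 hnd
  exact this.2.2 x hx x (by simp) rfl

/-- Inner vertices of a path are different from the ends. -/
theorem ne_of_inner_path {u v : V} {w : G.Walk u v} (hw : w.IsPath) {x : V}
    (hx : x ∈ w.support.tail.dropLast) : x ≠ u ∧ x ≠ v := by
  have hnd := hw.support_nodup
  have hne : w.support.tail ≠ [] := by
    intro h0
    rw [h0] at hx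
    simp at hx
  have hlast : w.support.tail.getLast hne = v := by
    rw [List.getLast_tail]
    exact Walk.getLast_support w
  have h1 : w.support.tail = w.support.tail.dropLast ++ [v] := by
    conv_lhs => rw [← List.dropLast_append_getLast hne]
    rw [hlast]
  have h2 : w.support = u :: (w.support.tail.dropLast ++ [v]) := by
    rw [← h1]
    exact (Walk.cons_tail_support w).symm
  rw [h2] at hnd
  constructor
  · rintro rfl
    have := (List.nodup_cons.1 hnd).1
    exact this (List.mem_append_left _ hx)
  · rintro rfl
    have := List.nodup_append.1 (List.nodup_cons.1 hnd).2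
    exact this.2.2 x hx x (by simp) rfl

/-- A cycle with at most one special vertex, which is its base point. -/
theorem letter_of_base (h : FibreGraph G st p q) {z : V} (c : G.Walk z z) (hc : c.IsCycle)
    (hp : p ∈ c.support → p = z) (hq : q ∈ c.support → q = z) :
    ∃ a, ∀ x ∈ c.support, (st x a).isSome := by
  have h3 := hc.three_le_length
  refine arc h c (by omega) ?_ (by omega)
  intro x hx
  have hxz := ne_of_inner hc hx
  have hxs : x ∈ c.support := List.mem_of_mem_tail (List.mem_of_mem_dropLast hx)
  constructor
  · rintro rfl
    exact hxz (hp hxs)
  · rintro rfl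
    exact hxz (hq hxs)

/-- A cycle of minimal length has a common out-letter. -/
theorem exists_letter (h : FibreGraph G st p q) {z : V} (c : G.Walk z z) (hc : c.IsCycle)
    (hmin : ∀ (z' : V) (c' : G.Walk z' z'), c'.IsCycle → c.length ≤ c'.length) :
    ∃ a, ∀ x ∈ c.support, (st x a).isSome := by
  classical
  by_cases hp : p ∈ c.support
  · by_cases hq : q ∈ c.support
    · have hc1 : (c.rotate p hp).IsCycle := hc.rotate hp
      have hq1 : q ∈ (c.rotate p hp).support := (c.mem_support_rotate_iff p hp).2 hq
      have hlen : (c.rotate p hp).length = c.length := c.length_rotate p hp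
      have hsup : ∀ x, x ∈ c.support → x ∈ (c.rotate p hp).support :=
        fun x hx => (c.mem_support_rotate_iff p hp).2 hx
      generalize c.rotate p hp = c1 at hc1 hq1 hlen hsup
      have h3 := hc1.three_le_length
      have hpq : p ≠ q := h.adj.ne
      have hspec : (c1.takeUntil q hq1).append (c1.dropUntil q hq1) = c1 := c1.take_spec hq1
      generalize hw1 : c1.takeUntil q hq1 = w1 at hspec
      generalize hw2 : c1.dropUntil q hq1 = w2 at hspec
      have hw1p : w1.IsPath := by
        rw [← hw1]
        exact hc1.isPath_takeUntil hq1
      have hw1n : ¬ w1.Nil := Walk.not_nil_of_ne hpq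
      have hw2p : w2.IsPath := by
        rw [← hspec] at hc1
        exact hc1.isPath_of_append_right hw1n
      have hw1l : 0 < w1.length := Walk.not_nil_iff_lt_length.1 hw1n
      have hw2l : 0 < w2.length := Walk.not_nil_iff_lt_length.1 (Walk.not_nil_of_ne hpq.symm)
      have hl : w1.length + w2.length = c1.length := by
        rw [← hspec, Walk.length_append]
      have hsup2 : ∀ x ∈ c.support, x ∈ w1.support ∨ x ∈ w2.support := by
        intro x hx
        have := hsup x hx
        rw [← hspec, Walk.mem_support_append_iff] at this
        exact this
      have hin1 : ∀ x ∈ w1.support.tail.dropLast, x ≠ p ∧ x ≠ q :=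
        fun x hx => ne_of_inner_path hw1p hx
      have hin2 : ∀ x ∈ w2.support.tail.dropLast, x ≠ p ∧ x ≠ q := by
        intro x hx
        have := ne_of_inner_path hw2p hx
        exact ⟨this.2, this.1⟩
      by_cases h1 : w1.length = 1
      · obtain ⟨a, ha⟩ := arc h w2 hw2l hin2 (by omega)
        refine ⟨a, ?_⟩
        intro x hx
        rcases hsup2 x hx with hx | hx
        · have : x = p ∨ x = q := by
            by_contra hcon
            push Not at hcon
            have h5 : w1.support.length = 2 := by
              rw [Walk.length_support]
              omega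
            rw [← Walk.cons_tail_support, List.mem_cons] at hx
            rcases hx with hx | hx
            · exact hcon.1 hx
            · have h6 : w1.support.tail.length = 1 := by
                rw [List.length_tail]
                omega
              obtain ⟨y, hy⟩ := List.length_eq_one_iff.1 h6
              have h7 : w1.support.getLast (Walk.support_ne_nil _) = q := Walk.getLast_support w1
              have h8 : w1.support = p :: [y] := by
                rw [← hy]
                exact (Walk.cons_tail_support w1).symm
              rw [hy] at hx
              simp only [List.mem_singleton] at hx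
              subst hx
              simp only [h8, List.getLast_cons_cons, List.getLast_singleton] at h7
              exact hcon.2 h7
          rcases this with rfl | rfl
          · exact ha _ (Walk.end_mem_support _)
          · exact ha _ (Walk.start_mem_support _)
        · exact ha x hx
      · by_cases h2 : w2.length = 1
        · obtain ⟨a, ha⟩ := arc h w1 hw1l hin1 (by omega)
          refine ⟨a, ?_⟩
          intro x hx
          rcases hsup2 x hx with hx | hx
          · exact ha x hx
          · have : x = p ∨ x = q := by
              by_contra hcon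
              push Not at hcon
              have h5 : w2.support.length = 2 := by
                rw [Walk.length_support]
                omega
              rw [← Walk.cons_tail_support, List.mem_cons] at hx
              rcases hx with hx | hx
              · exact hcon.2 hx
              · have h6 : w2.support.tail.length = 1 := by
                  rw [List.length_tail]
                  omega
                obtain ⟨y, hy⟩ := List.length_eq_one_iff.1 h6
                have h7 : w2.support.getLast (Walk.support_ne_nil _) = p := Walk.getLast_support w2
                have h8 : w2.support = q :: [y] := by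
                  rw [← hy]
                  exact (Walk.cons_tail_support w2).symm
                rw [hy] at hx
                simp only [List.mem_singleton] at hx
                subst hx
                simp only [h8, List.getLast_cons_cons, List.getLast_singleton] at h7
                exact hcon.1 h7
            rcases this with rfl | rfl
            · exact ha _ (Walk.start_mem_support _)
            · exact ha _ (Walk.end_mem_support _)
        · exfalso
          have hcyc : (Walk.cons h.adj.symm w1).IsCycle := by
            rw [Walk.cons_isCycle_iff]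
            refine ⟨hw1p, ?_⟩
            intro he
            rw [Sym2.eq_swap] at he
            exact h1 (hw1p.length_eq_one_of_mem_edges he)
          have := hmin q _ hcyc
          rw [Walk.length_cons] at this
          omega
    · have hc1 : (c.rotate p hp).IsCycle := hc.rotate hp
      obtain ⟨a, ha⟩ := letter_of_base h (c.rotate p hp) hc1 (fun _ => rfl)
        (fun hq1 => absurd ((c.mem_support_rotate_iff p hp).1 hq1) hq)
      exact ⟨a, fun x hx => ha x ((c.mem_support_rotate_iff p hp).2 hx)⟩
  · by_cases hq : q ∈ c.support
    · have hc1 : (c.rotate q hq).IsCycle := hc.rotate hq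
      obtain ⟨a, ha⟩ := letter_of_base h (c.rotate q hq) hc1
        (fun hp1 => absurd ((c.mem_support_rotate_iff q hq).1 hp1) hp) (fun _ => rfl)
      exact ⟨a, fun x hx => ha x ((c.mem_support_rotate_iff q hq).2 hx)⟩
    · exact letter_of_base h c hc (fun h1 => absurd h1 hp) (fun h1 => absurd h1 hq)

/-- A cycle with a common out-letter is read. -/
theorem shift (h : FibreGraph G st p q) {z : V} (c : G.Walk z z) (hc : c.IsCycle) (a : A)
    (ha : ∀ x ∈ c.support, (st x a).isSome) :
    ∃ (z' : V) (c' : G.Walk z' z'), c'.IsCycle ∧ c'.length = c.length ∧
      ∀ x ∈ c.support, ∀ y, st x a = some y → y ∈ c'.support := by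
  let S : Set V := {x | (st x a).isSome}
  let f : G.induce S →g G :=
    { toFun := fun x => (st x.1 a).get x.2
      map_rel' := by
        intro x y hxy
        have h1 : G.Adj x.1 y.1 := hxy
        exact h.hom x.1 y.1 a _ _ h1 (Option.some_get x.2).symm (Option.some_get y.2).symm }
  have hf : Function.Injective f := by
    intro x y hxy
    apply Subtype.ext
    have h1 : st x.1 a = some (f x) := (Option.some_get x.2).symm
    have h2 : st y.1 a = some (f y) := (Option.some_get y.2).symm
    rw [← hxy] at h2
    exact h.inj x.1 y.1 a _ h1 h2
  have hci : (c.induce S ha).IsCycle := by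
    have h1 : ((c.induce S ha).map (Embedding.induce _).toHom).IsCycle := by
      rw [Walk.map_induce]
      exact hc
    exact Walk.IsCycle.of_map h1
  have hlen : (c.induce S ha).length = c.length := by
    have h1 := Walk.length_map (Embedding.induce S).toHom (c.induce S ha)
    rw [Walk.map_induce] at h1
    exact h1.symm
  refine ⟨_, (c.induce S ha).map f, ?_, ?_, ?_⟩
  · exact (Walk.isCycle_map_iff_of_injective hf).2 hci
  · rw [Walk.length_map, hlen]
  · intro x hx y hxy
    rw [Walk.support_map, List.mem_map]
    refine ⟨⟨x, ha x hx⟩, ?_, ?_⟩
    · rw [Walk.support_induce]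
      simpa using hx
    · have h1 : st x a = some (f ⟨x, ha x hx⟩) := (Option.some_get (ha x hx)).symm
      rw [hxy] at h1
      exact (Option.some.inj h1).symm

/-- **No cycles.** If no two different states of the same side are read along the same
nonempty closed word, the fibre graph is a forest. -/
theorem noCycle [Finite V] (h : FibreGraph G st p q) (side : V → Prop)
    (hside : ∀ v a w, st v a = some w → (side v ↔ side w))
    (hbip : ∀ u v, G.Adj u v → (side u ↔ ¬ side v))
    (hmal : ∀ s s', side s → side s' → s ≠ s' → ∀ u : List A, u ≠ [] →
      runO st s u = some s → runO st s' u = some s' → False) : G.IsAcyclic := by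
  classical
  by_contra hcon
  unfold SimpleGraph.IsAcyclic at hcon
  push Not at hcon
  obtain ⟨z0, c0, hc0⟩ := hcon
  have hex : ∃ m : ℕ, ∃ (z : V) (c : G.Walk z z), c.IsCycle ∧ c.length = m := ⟨_, z0, c0, hc0, rfl⟩
  let m := Nat.find hex
  obtain ⟨z, c, hc, hcm⟩ := Nat.find_spec hex
  have hmin : ∀ (z' : V) (c' : G.Walk z' z'), c'.IsCycle → m ≤ c'.length :=
    fun z' c' hc' => Nat.find_min' hex ⟨z', c', hc', rfl⟩
  -- the set of pairs
  let P : V × V → Prop := fun x => side x.1 ∧ side x.2 ∧ x.1 ≠ x.2 ∧
    ∃ (z : V) (c : G.Walk z z), c.IsCycle ∧ c.length = m ∧ x.1 ∈ c.support ∧ x.2 ∈ c.support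
  have hP0 : ∃ x, P x := by
    have key : ∀ (y : V) (d : G.Walk y y), d.IsCycle → d.length = m → side y → ∃ x, P x := by
      intro y d hd hdm hy
      have h3 := hd.three_le_length
      have ha1 : G.Adj (d.getVert 0) (d.getVert 1) := d.adj_getVert_succ (by omega)
      have ha2 : G.Adj (d.getVert 1) (d.getVert 2) := d.adj_getVert_succ (by omega)
      rw [Walk.getVert_zero] at ha1
      have hs1 : ¬ side (d.getVert 1) := (hbip _ _ ha1).1 hy
      have hs2 : side (d.getVert 2) := by
        by_contra h5
        exact hs1 ((hbip _ _ ha2).2 h5)
      refine ⟨(y, d.getVert 2), hy, hs2, ?_, y, d, hd, hdm, Walk.start_mem_support _,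
        Walk.getVert_mem_support _ _⟩
      intro h6
      have h6' : d.getVert 2 = y := h6.symm
      have h7 := (hd.getVert_endpoint_iff (i := 2) (by omega)).1 h6'
      omega
    by_cases hz : side z
    · exact key z c hc hcm hz
    · have h3 := hc.three_le_length
      have ha1 : G.Adj (c.getVert 0) (c.getVert 1) := c.adj_getVert_succ (by omega)
      rw [Walk.getVert_zero] at ha1
      have hs1 : side (c.getVert 1) := by
        by_contra h5
        exact hz ((hbip _ _ ha1).2 h5)
      exact key _ (c.rotate _ (Walk.getVert_mem_support c 1)) (hc.rotate _)
        (by rw [Walk.length_rotate]; exact hcm) hs1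
  have hstep : ∀ x : {x : V × V // P x}, ∃ (a : A) (y : {x : V × V // P x}),
      st x.1.1 a = some y.1.1 ∧ st x.1.2 a = some y.1.2 := by
    rintro ⟨⟨s, s'⟩, hs, hs', hne, z1, c1, hc1, hc1m, h1, h2⟩
    obtain ⟨a, ha⟩ := exists_letter h c1 hc1 (fun z' c' hc' => hc1m ▸ hmin z' c' hc')
    obtain ⟨z2, c2, hc2, hl2, hsup⟩ := shift h c1 hc1 a ha
    obtain ⟨t, ht⟩ := Option.isSome_iff_exists.1 (ha s h1)
    obtain ⟨t', ht'⟩ := Option.isSome_iff_exists.1 (ha s' h2)
    refine ⟨a, ⟨⟨t, t'⟩, (hside s a t ht).1 hs, (hside s' a t' ht').1 hs', ?_, z2, c2, hc2,
      hl2.trans hc1m, hsup s h1 t ht, hsup s' h2 t' ht'⟩, ht, ht'⟩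
    intro htt
    have htt' : t = t' := htt
    rw [← htt'] at ht'
    exact hne (h.inj s s' a _ ht ht')
  choose l g hg1 hg2 using hstep
  let word : ℕ → {x : V × V // P x} → List A := fun n =>
    Nat.rec (fun _ => []) (fun _ w x => l x :: w (g x)) n
  have hword0 : ∀ x, word 0 x = [] := fun _ => rfl
  have hwordS : ∀ n x, word (n + 1) x = l x :: word n (g x) := fun _ _ => rfl
  have hrun : ∀ n x, runO st x.1.1 (word n x) = some (g^[n] x).1.1 ∧
      runO st x.1.2 (word n x) = some (g^[n] x).1.2 := by
    intro n
    induction n with
    | zero =>
      intro x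
      rw [hword0]
      exact ⟨rfl, rfl⟩
    | succ n ih =>
      intro x
      rw [hwordS, Function.iterate_succ_apply]
      obtain ⟨i1, i2⟩ := ih (g x)
      constructor
      · change (st x.1.1 (l x)).bind (fun t => runO st t (word n (g x))) = _
        rw [hg1 x, Option.bind_some]
        exact i1
      · change (st x.1.2 (l x)).bind (fun t => runO st t (word n (g x))) = _
        rw [hg2 x, Option.bind_some]
        exact i2
  obtain ⟨x0, hx0⟩ := hP0
  obtain ⟨i, j, hij, heq⟩ := Finite.exists_ne_map_eq_of_infinite (fun n : ℕ => g^[n] ⟨x0, hx0⟩)
  wlog hlt : i < j generalizing i j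
  · exact this j i hij.symm heq.symm (by omega)
  have heq2 : g^[j - i] (g^[i] ⟨x0, hx0⟩) = g^[i] ⟨x0, hx0⟩ := by
    rw [← Function.iterate_add_apply]
    have : j - i + i = j := by omega
    rw [this]
    exact heq.symm
  generalize hy : g^[i] ⟨x0, hx0⟩ = y at heq2
  obtain ⟨r1, r2⟩ := hrun (j - i) y
  rw [heq2] at r1 r2
  refine hmal y.1.1 y.1.2 y.2.1 y.2.2.1 y.2.2.2.1 (word (j - i) y) ?_ r1 r2
  obtain ⟨k, hk⟩ : ∃ k, j - i = k + 1 := ⟨j - i - 1, by omega⟩
  rw [hk, hwordS]
  exact List.cons_ne_nil _ _

end D0L.Tr
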