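import Pool.Agent.H.MP_374efc_lc.Tr.Fib
import Pool.Agent.H.MP_374efc_lc.Tr.NoCyc

/-!
# Exactness: the fibre graph of a malnormal rose is a forest

`kk_acyclic`: if `H` is malnormal then `KK Q H` has no cycle (instance of `noCycle`).
-/

set_option autoImplicit false

namespace D0L.Tr

variable {α : Type*} [DecidableEq α] {Q H : Rose α}

omit [DecidableEq α] in
theorem finite_isSt [Finite α] (R : Rose α) : {s : List α | IsSt R s}.Finite := by
  have h1 : {s : List α | IsSt R s} ⊆ {[]} ∪ ⋃ a : α, {s | ∃ l, R a = some l ∧ s <:+ l} := by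
    rintro s (hs | ⟨a, l, h, hl⟩)
    · exact Or.inl hs
    · exact Or.inr (Set.mem_iUnion.2 ⟨a, l, h, hl⟩)
  refine Set.Finite.subset ((Set.finite_singleton _).union (Set.finite_iUnion fun a => ?_)) h1
  cases h : R a with
  | none =>
    convert Set.finite_empty (α := List α)
    ext s
    simp
  | some l =>
    refine (List.finite_toSet l.tails).subset ?_
    rintro s ⟨l', hl', hs⟩
    obtain rfl : l = l' := by simpa using hl'
    exact (List.mem_tails _ _).2 hs

instance finite_vx [Finite α] (Q H : Rose α) : Finite (Vx Q H) := by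
  have h1 : Finite {q : List α // IsSt Q q} := (finite_isSt Q).to_subtype
  have h2 : Finite {s : List α // IsSt H s} := (finite_isSt H).to_subtype
  infer_instance

/-- A letter is read at a vertex. -/
noncomputable def stv (Q H : Rose α) (v : Vx Q H) (a : α) : Option (Vx Q H) := by
  classical
  exact if h : ∃ w, mv Q H a v w then some h.choose else none

theorem stv_some {v w : Vx Q H} {a : α} : stv Q H v a = some w ↔ mv Q H a v w := by
  unfold stv
  constructor
  · intro h
    split_ifs at h with h1
    have h2 : h1.choose = w := by simpa using h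
    rw [← h2]
    exact h1.choose_spec
  · intro h
    have h1 : ∃ w, mv Q H a v w := ⟨w, h⟩
    rw [dif_pos h1]
    congr 1
    exact mv.unique h1.choose_spec h

theorem stv_isSome {v : Vx Q H} {a : α} : (stv Q H v a).isSome ↔ has Q H v a := by
  rw [Option.isSome_iff_exists]
  constructor
  · rintro ⟨w, hw⟩
    exact (stv_some.1 hw).has
  · intro h
    obtain ⟨w, hw⟩ := h.mv
    exact ⟨w, stv_some.2 hw⟩

theorem has_unique {v : Vx Q H} (h1 : v ≠ bQ Q H) (h2 : v ≠ bH Q H) {a b : α}
    (ha : has Q H v a) (hb : has Q H v b) : a = b := by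
  rcases v with ⟨q, hq⟩ | ⟨s, hs⟩
  · cases q with
    | nil => exact (h1 rfl).elim
    | cons c r =>
      obtain ⟨t, ht⟩ := ha
      obtain ⟨t', ht'⟩ := hb
      exact (step_unique ht).1.trans (step_unique ht').1.symm
  · cases s with
    | nil => exact (h2 rfl).elim
    | cons c r =>
      obtain ⟨t, ht⟩ := ha
      obtain ⟨t', ht'⟩ := hb
      exact (step_unique ht).1.trans (step_unique ht').1.symm

theorem common_letter (hp : Pr Q H) {u v : Vx Q H} (h : (KK Q H).Adj u v)
    (hne : ¬((u = bQ Q H ∨ u = bH Q H) ∧ (v = bQ Q H ∨ v = bH Q H))) :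
    ∃ a, has Q H u a ∧ has Q H v a := by
  rcases u with ⟨q, hq⟩ | ⟨s, hs⟩ <;> rcases v with ⟨q', hq'⟩ | ⟨s', hs'⟩
  · exact h.elim
  · have h1 : Rel Q H q s' := h
    obtain ⟨a, x, y, hx, hy⟩ := h1.out hp (by
      rintro ⟨rfl, rfl⟩
      exact hne ⟨Or.inl rfl, Or.inr rfl⟩)
    exact ⟨a, ⟨x, hx⟩, ⟨y, hy⟩⟩
  · have h1 : Rel Q H q' s := h
    obtain ⟨a, x, y, hx, hy⟩ := h1.out hp (by
      rintro ⟨rfl, rfl⟩
      exact hne ⟨Or.inr rfl, Or.inl rfl⟩)
    exact ⟨a, ⟨y, hy⟩, ⟨x, hx⟩⟩
  · exact h.elim

theorem fibreGraph (hp : Pr Q H) : FibreGraph (KK Q H) (stv Q H) (bQ Q H) (bH Q H) where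
  adj := adj_b Q H
  uniq v h1 h2 a b ha hb := has_unique h1 h2 (stv_isSome.1 ha) (stv_isSome.1 hb)
  common u v h hne := by
    obtain ⟨a, h1, h2⟩ := common_letter hp h hne
    exact ⟨a, stv_isSome.2 h1, stv_isSome.2 h2⟩
  hom u v a u' v' h h1 h2 := mv.adj h (stv_some.1 h1) (stv_some.1 h2)
  inj u v a w h1 h2 := mv.inj hp (stv_some.1 h1) (stv_some.1 h2)

theorem runO_inr {s s' : {s : List α // IsSt H s}} {u : List α}
    (h : runO (stv Q H) (Sum.inr s) u = some (Sum.inr s')) : run H s.1 u = some s'.1 := by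
  induction u generalizing s with
  | nil =>
    have h1 : (some (Sum.inr s) : Option (Vx Q H)) = some (Sum.inr s') := h
    have h2 : s = s' := by simpa using h1
    rw [h2, run_nil]
  | cons a u ih =>
    have h1 : (stv Q H (Sum.inr s) a).bind (fun t => runO (stv Q H) t u) = some (Sum.inr s') := h
    cases h2 : stv Q H (Sum.inr s) a with
    | none => rw [h2] at h1; simp at h1
    | some w =>
      rw [h2, Option.bind_some] at h1
      rcases w with w | w
      · exact (stv_some.1 h2).elim
      · have h3 : step H s.1 a = some w.1 := stv_some.1 h2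
        rw [run_cons, h3, Option.bind_some]
        exact ih h1

/-- **Exactness**: the fibre graph has no cycle if `H` is malnormal. -/
theorem kk_acyclic [Finite α] (hp : Pr Q H) (hm : Mal H) : (KK Q H).IsAcyclic := by
  refine noCycle (fibreGraph hp) (fun v => v.isRight) ?_ ?_ ?_
  · intro v a w h
    have h1 := stv_some.1 h
    rcases v with v | v <;> rcases w with w | w
    · exact Iff.rfl
    · exact h1.elim
    · exact h1.elim
    · exact Iff.rfl
  · intro u v h
    rcases u with u | u <;> rcases v with v | v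
    · exact h.elim
    · simp
    · simp
    · exact h.elim
  · intro s s' hs hs' hne u hu h1 h2
    rcases s with s | s
    · simp at hs
    · rcases s' with s' | s'
      · simp at hs'
      · have h3 := hm s.1 s'.1 u s.2 s'.2 hu (runO_inr h1) (runO_inr h2)
        exact hne (by rw [Subtype.ext h3])

end D0L.Tr
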