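import Pool.Agent.H.MP_374efc_lc.Tr.Count

/-!
# The rose of a family of words

`mkR p` is the rose whose petals are the words `p i`; `FI p`: different indices give different first
letters, `LI p`: different indices give different last letters.
-/

set_option autoImplicit false

namespace D0L.Tr

open Finset

variable {α ι : Type*} [DecidableEq α] {p : ι → List α}

omit [DecidableEq α] in
/-- Different indices give different first letters. -/
def FI (p : ι → List α) : Prop := ∀ i j a l l', p i = a :: l → p j = a :: l' → i = j

omit [DecidableEq α] in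
/-- Different indices give different last letters. -/
def LI (p : ι → List α) : Prop := ∀ i j a s s', p i = s ++ [a] → p j = s' ++ [a] → i = j

open Classical in
/-- The rose with the petals `p i`. -/
noncomputable def mkR (p : ι → List α) : Rose α := fun a =>
  if h : ∃ l i, p i = a :: l then some h.choose else none

omit [DecidableEq α] in
theorem mkR_iff (hp : FI p) {a : α} {l : List α} : mkR p a = some l ↔ ∃ i, p i = a :: l := by
  constructor
  · intro h
    unfold mkR at h
    split_ifs at h with h1
    obtain rfl : h1.choose = l := by simpa using h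
    exact h1.choose_spec
  · rintro ⟨i, hi⟩
    have h1 : ∃ l i, p i = a :: l := ⟨l, i, hi⟩
    unfold mkR
    rw [dif_pos h1]
    obtain ⟨j, hj⟩ := h1.choose_spec
    obtain rfl := hp i j a l _ hi hj
    rw [hi] at hj
    rw [(List.cons.inj hj).2]

omit [DecidableEq α] in
theorem mkR_bim (hp : FI p) (hl : LI p) : Bim (mkR p) := by
  intro a a' l l' h h' hlast
  obtain ⟨i, hi⟩ := (mkR_iff hp).1 h
  obtain ⟨j, hj⟩ := (mkR_iff hp).1 h'
  have h1 : (a :: l) ≠ [] := by simp
  have h2 : (a' :: l') ≠ [] := by simp
  have e1 := List.dropLast_append_getLast h1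
  have e2 := List.dropLast_append_getLast h2
  rw [List.getLast?_eq_some_getLast h1, List.getLast?_eq_some_getLast h2] at hlast
  have e3 : (a :: l).getLast h1 = (a' :: l').getLast h2 := by simpa using hlast
  rw [e3] at e1
  have e4 := hl i j _ _ _ (hi.trans e1.symm) (hj.trans e2.symm)
  subst e4
  rw [hi] at hj
  exact (List.cons.inj hj).1

theorem mkR_run (hp : FI p) {i : ι} (hi : p i ≠ []) : run (mkR p) [] (p i) = some [] := by
  obtain ⟨a, l, hal⟩ := List.exists_cons_of_ne_nil hi
  rw [hal]
  exact run_petal ((mkR_iff hp).2 ⟨i, hal⟩)

theorem mkR_flat (hp : FI p) {L : List ι} (hL : ∀ i ∈ L, p i ≠ []) :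
    run (mkR p) [] (L.map p).flatten = some [] := by
  induction L with
  | nil => exact run_nil _ _
  | cons i L ih =>
    rw [List.map_cons, List.flatten_cons]
    exact run_append_some (mkR_run hp (hL i List.mem_cons_self))
      (ih fun j hj => hL j (List.mem_cons_of_mem _ hj))

/-- From a state the rest of the petal has to be read before the base is reached again. -/
theorem run_st {R : Rose α} : ∀ {s u : List α}, run R s u = some [] → s <+: u := by
  intro s
  induction s with
  | nil => intro u _; exact List.nil_prefix
  | cons b s ih =>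
    intro u h
    cases u with
    | nil => rw [run_nil] at h; simp at h
    | cons a u =>
      rw [run_cons] at h
      cases h1 : step R (b :: s) a with
      | none => rw [h1] at h; simp at h
      | some t =>
        obtain ⟨rfl, rfl⟩ := step_unique h1
        rw [h1] at h
        exact List.cons_prefix_cons.2 ⟨rfl, ih (by simpa using h)⟩

/-- A word that is read from the base to the base is a product of petals. -/
theorem run_base {R : Rose α} : ∀ (k : ℕ) {u : List α}, u.length ≤ k → run R [] u = some [] →
    ∃ L : List (List α), (∀ x ∈ L, ∃ a l, x = a :: l ∧ R a = some l) ∧ u = L.flatten := by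
  intro k
  induction k with
  | zero =>
    intro u hu _
    obtain rfl : u = [] := List.length_eq_zero_iff.1 (by omega)
    exact ⟨[], by simp, rfl⟩
  | succ k ih =>
    intro u hu h
    cases u with
    | nil => exact ⟨[], by simp, rfl⟩
    | cons a u =>
      have h0 := h
      rw [run_cons, step_nil] at h
      cases h1 : R a with
      | none => rw [h1] at h; simp at h
      | some l =>
        rw [h1] at h
        have h2 : run R l u = some [] := by simpa using h
        obtain ⟨v, rfl⟩ := run_st h2
        have h3 : run R [] v = some [] := by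
          rw [run_append, run_self] at h2
          simpa using h2
        rw [List.length_cons, List.length_append] at hu
        obtain ⟨L, hL, hv⟩ := ih (u := v) (by omega) h3
        refine ⟨(a :: l) :: L, ?_, by rw [List.flatten_cons, ← hv]; rfl⟩
        intro x hx
        rcases List.mem_cons.1 hx with rfl | hx
        · exact ⟨a, l, rfl, h1⟩
        · exact hL x hx

theorem run_mkR_inv (hp : FI p) {u : List α} (h : run (mkR p) [] u = some []) :
    ∃ L : List ι, u = (L.map p).flatten := by
  obtain ⟨L, hL, rfl⟩ := run_base u.length le_rfl h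
  clear h
  induction L with
  | nil => exact ⟨[], rfl⟩
  | cons x L ih =>
    obtain ⟨M, hM⟩ := ih fun y hy => hL y (List.mem_cons_of_mem _ hy)
    obtain ⟨a, l, rfl, hal⟩ := hL x List.mem_cons_self
    obtain ⟨i, hi⟩ := (mkR_iff hp).1 hal
    exact ⟨i :: M, by rw [List.flatten_cons, List.map_cons, List.flatten_cons, hi, hM]⟩

theorem run_mkR_iff (hp : FI p) (hne : ∀ i, p i ≠ []) {u : List α} :
    run (mkR p) [] u = some [] ↔ ∃ L : List ι, u = (L.map p).flatten :=
  ⟨run_mkR_inv hp, by rintro ⟨L, rfl⟩; exact mkR_flat hp fun i _ => hne i⟩

/-- Counting in the rose of a family. -/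
theorem occ_mkR [Fintype α] [Fintype ι] (hp : FI p) (hne : ∀ i, p i ≠ []) (a : α) :
    occ (mkR p) a = ∑ i, (p i).count a := by
  classical
  choose f hf using fun i => List.exists_cons_of_ne_nil (hne i)
  have hinj : Function.Injective f := by
    intro i j hij
    obtain ⟨l, hl⟩ := hf i
    obtain ⟨l', hl'⟩ := hf j
    rw [← hij] at hl'
    exact hp i j _ _ _ hl hl'
  have h1 : ∀ i, (p i).count a = pc (mkR p) (f i) a := by
    intro i
    obtain ⟨l, hl⟩ := hf i
    unfold pc
    rw [(mkR_iff hp).2 ⟨i, hl⟩, Option.elim_some, hl]
  rw [Finset.sum_congr rfl fun i _ => h1 i, ← Finset.sum_image (f := fun b => pc (mkR p) b a)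
    (s := Finset.univ) (g := f) (fun i _ j _ hij => hinj hij)]
  unfold occ
  symm
  refine Finset.sum_subset (Finset.subset_univ _) fun b _ hb => ?_
  unfold pc
  cases hR : mkR p b with
  | none => rfl
  | some l =>
    obtain ⟨i, hi⟩ := (mkR_iff hp).1 hR
    obtain ⟨l', hl'⟩ := hf i
    rw [hi] at hl'
    exact (hb (Finset.mem_image.2 ⟨i, Finset.mem_univ _, (List.cons.inj hl').1.symm⟩)).elim

end D0L.Tr
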