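import Pool.Agent.H.MP_374efc_lc.Tr.Root2
import Pool.Agent.H.MP_374efc_lc.Tr.Count

/-!
# Root closure (BIMFULL 4.1)

`root_closure`: if a power of `y` is a product of petals of the full rose `R` whose petals form a
basis of `ℤ^α`, then `y` is a product of petals.
-/

set_option autoImplicit false

namespace D0L.Tr

variable {α : Type*}

/-- The power of a word. -/
abbrev wpow (z : List α) (d : ℕ) : List α := (List.replicate d z).flatten

theorem wpow_length (z : List α) (d : ℕ) : (wpow z d).length = d * z.length := by
  simp

theorem wpow_succ (z : List α) (d : ℕ) : wpow z (d + 1) = z ++ wpow z d := by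
  unfold wpow
  rw [List.replicate_succ, List.flatten_cons]

theorem wpow_one (z : List α) : wpow z 1 = z := by simp [wpow]

theorem wpow_add (z : List α) (c d : ℕ) : wpow z (c + d) = wpow z c ++ wpow z d := by
  unfold wpow
  rw [← List.replicate_append_replicate, List.flatten_append]

theorem wpow_wpow (z : List α) (c d : ℕ) : wpow (wpow z c) d = wpow z (c * d) := by
  induction d with
  | zero => simp [wpow]
  | succ d ih => rw [wpow_succ, ih, Nat.mul_succ, Nat.add_comm, wpow_add]

theorem wpow_getElem? (z : List α) (d i : ℕ) (h : i < d * z.length) :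
    (wpow z d)[i]? = z[i % z.length]? := by
  induction d generalizing i with
  | zero => omega
  | succ d ih =>
    rw [wpow_succ, List.getElem?_append]
    split_ifs with h1
    · rw [Nat.mod_eq_of_lt h1]
    · rw [ih _ (by rw [Nat.succ_mul] at h; omega), ← Nat.mod_eq_sub_mod (by omega)]

theorem wpow_take (z : List α) {c d : ℕ} (h : c ≤ d) :
    (wpow z d).take (c * z.length) = wpow z c := by
  obtain ⟨e, rfl⟩ := Nat.exists_eq_add_of_le h
  rw [wpow_add, ← wpow_length, List.take_left]

/-- The letters of a word along a circle. -/
def cyc (y : List α) [NeZero y.length] (j : ZMod y.length) : α := y[j.val]'(ZMod.val_lt j)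

/-- A word with a period is a power. -/
theorem eq_wpow_of_period (y : List α) [NeZero y.length] {D : ZMod y.length} (hD : D ≠ 0)
    (h : ∀ x, cyc y (x + D) = cyc y x) :
    ∃ (z : List α) (d : ℕ), y = wpow z d ∧ z.length < y.length ∧ 1 ≤ d := by
  have hL : 0 < y.length := Nat.pos_of_ne_zero (NeZero.ne _)
  have hDv : 0 < D.val := Nat.pos_of_ne_zero fun h0 => hD ((ZMod.val_eq_zero D).1 h0)
  have hDL : D.val < y.length := ZMod.val_lt D
  obtain ⟨g, hg⟩ : ∃ g, g = Nat.gcd D.val y.length := ⟨_, rfl⟩
  have hg0 : 0 < g := hg ▸ Nat.gcd_pos_of_pos_left _ hDv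
  have hgD : g ≤ D.val := hg ▸ Nat.gcd_le_left _ hDv
  have hgL : g ∣ y.length := hg ▸ Nat.gcd_dvd_right _ _
  obtain ⟨c, _, hc⟩ := Nat.exists_mul_mod_eq_gcd (n := D.val) (k := y.length) (by omega)
  have h1 : ∀ (c : ℕ) x, cyc y (x + D * c) = cyc y x := by
    intro c
    induction c with
    | zero => intro x; simp
    | succ c ih =>
      intro x
      have e1 : x + D * (c + 1 : ℕ) = (x + D * c) + D := by push_cast; ring
      rw [e1, h, ih]
  have h2 : D * (c : ZMod y.length) = (g : ZMod y.length) := by
    have e1 : ((D.val : ℕ) : ZMod y.length) = D := ZMod.natCast_zmod_val D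
    rw [← e1, ← Nat.cast_mul, ← ZMod.natCast_mod, hc, hg]
  have h3 : ∀ (e i : ℕ), cyc y ((i + e * g : ℕ) : ZMod y.length) = cyc y (i : ZMod y.length) := by
    intro e
    induction e with
    | zero => intro i; simp
    | succ e ih =>
      intro i
      have e1 : ((i + (e + 1) * g : ℕ) : ZMod y.length) = ((i + e * g : ℕ) : ZMod y.length) + D * c := by
        rw [h2]; push_cast; ring
      rw [e1, h1, ih]
  have h4 : ∀ i, (hi : i < y.length) → cyc y (i : ZMod y.length) = y[i] := by
    intro i hi
    unfold cyc
    congr 1
    rw [ZMod.val_natCast, Nat.mod_eq_of_lt hi]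
  obtain ⟨d, hd⟩ := hgL
  refine ⟨y.take g, d, ?_, ?_, ?_⟩
  · apply List.ext_getElem?
    intro i
    have hlen : (y.take g).length = g := by rw [List.length_take]; omega
    rcases Nat.lt_or_ge i y.length with hi | hi
    · rw [wpow_getElem? _ _ _ (by rw [hlen, Nat.mul_comm]; omega), hlen]
      have hm : i % g < g := Nat.mod_lt _ hg0
      have hm' : i % g < y.length := by omega
      rw [List.getElem?_take_of_lt hm, List.getElem?_eq_getElem hi, List.getElem?_eq_getElem hm',
        ← h4 i hi, ← h4 (i % g) hm']
      have e1 : i = i % g + (i / g) * g := by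
        have := Nat.mod_add_div i g
        rw [Nat.mul_comm] at this
        omega
      conv_lhs => rw [e1]
      rw [h3]
    · rw [List.getElem?_eq_none hi, List.getElem?_eq_none]
      rw [wpow_length, hlen, Nat.mul_comm]
      omega
  · rw [List.length_take]; omega
  · rcases Nat.eq_zero_or_pos d with h0 | h0
    · rw [h0] at hd; omega
    · exact h0

variable [DecidableEq α] {R : Rose α}

theorem run_wpow {y : List α} (h : run R [] y = some []) (d : ℕ) : run R [] (wpow y d) = some [] := by
  induction d with
  | zero => simp [wpow]
  | succ d ih => rw [wpow_succ]; exact run_append_some h ih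

/-- **Root closure.** -/
theorem root_closure [Fintype α] (hR : Bim R) (hfull : ∀ a, ∃ l, R a = some l)
    (hspan : ∀ p : ℕ, p.Prime → ∀ c : α → ZMod p,
      (∀ a l, R a = some l → ((a :: l).map c).sum = 0) → c = 0)
    {y : List α} {m : ℕ} (hm : 1 ≤ m) (h : run R [] (wpow y m) = some []) :
    run R [] y = some [] := by
  obtain ⟨N, hN⟩ : ∃ N, N = y.length := ⟨_, rfl⟩
  induction N using Nat.strong_induction_on generalizing m y with
  | _ N ih =>
  rcases Nat.eq_zero_or_pos N with h0 | h0
  · rw [h0] at hN
    rw [List.length_eq_zero_iff.1 hN.symm, run_nil]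
  haveI : NeZero y.length := ⟨by omega⟩
  by_cases hper : ∃ D : ZMod y.length, D ≠ 0 ∧ ∀ x, cyc y (x + D) = cyc y x
  · obtain ⟨D, hD, hx⟩ := hper
    obtain ⟨z, d, hz, hlt, hd⟩ := eq_wpow_of_period y hD hx
    have h1 : run R [] z = some [] := by
      have h2 : run R [] (wpow z (d * m)) = some [] := by
        rw [← wpow_wpow, ← hz]
        exact h
      exact ih z.length (by omega) (Nat.mul_pos hd hm) h2 rfl
    rw [hz]
    exact run_wpow h1 d
  · classical
    have hex : ∃ m, 1 ≤ m ∧ run R [] (wpow y m) = some [] := ⟨m, hm, h⟩
    obtain ⟨hm1, hm2⟩ := Nat.find_spec hex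
    have hmin : ∀ c, 1 ≤ c → c < Nat.find hex → run R [] (wpow y c) ≠ some [] := fun c h1 h2 h3 =>
      Nat.find_min hex h2 ⟨h1, h3⟩
    revert hm1 hm2 hmin
    generalize Nat.find hex = M
    intro hM1 hM2 hmin
    rcases Nat.lt_or_ge 1 M with hM | hM
    · exfalso
      haveI : NeZero (M * y.length) := ⟨Nat.mul_ne_zero (by omega) (by omega)⟩
      have hpre : ∀ i, ∃ t, run R [] ((wpow y M).take i) = some t := by
        intro i
        have h1 := hM2
        rw [← List.take_append_drop i (wpow y M), run_append] at h1
        cases h2 : run R [] ((wpow y M).take i) with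
        | none => rw [h2] at h1; simp at h1
        | some t => exact ⟨t, rfl⟩
      choose r hr using hpre
      have hr0 : r 0 = [] := by
        have := hr 0
        rw [List.take_zero, run_nil] at this
        simpa using this.symm
      have hrM : r (M * y.length) = [] := by
        have := hr (M * y.length)
        rw [wpow_take y (le_refl M), hM2] at this
        simpa using this.symm
      have hstep : ∀ i : ZMod (M * y.length),
          step R (r i.val) (cyc y (pr y.length M i)) = some (r (i.val + 1)) := by
        intro i
        have hi : i.val < M * y.length := ZMod.val_lt i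
        have h1 := hr (i.val + 1)
        have h2 : (pr y.length M i).val = i.val % y.length := by
          have h3 : ((i.val : ℕ) : ZMod (M * y.length)) = i := ZMod.natCast_zmod_val i
          conv_lhs => rw [← h3]
          rw [map_natCast, ZMod.val_natCast]
        have h4 : (wpow y M)[i.val]? = some (cyc y (pr y.length M i)) := by
          rw [wpow_getElem? y M _ hi]
          have h5 : i.val % y.length < y.length := Nat.mod_lt _ (by omega)
          rw [List.getElem?_eq_getElem h5]
          congr 1
          unfold cyc
          congr 1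
          exact h2.symm
        rw [List.take_succ, h4, Option.toList_some, run_append, hr i.val, Option.bind_some,
          run_cons] at h1
        cases h6 : step R (r i.val) (cyc y (pr y.length M i)) with
        | none => rw [h6] at h1; simp at h1
        | some t => rw [h6] at h1; simpa using h1
      have hsucc : ∀ i : ZMod (M * y.length), r (i + 1).val = r (i.val + 1) := by
        intro i
        have hi : i.val < M * y.length := ZMod.val_lt i
        have h1 : (i + 1).val = (i.val + 1) % (M * y.length) := by
          rw [ZMod.val_add, ZMod.val_one_eq_one_mod, Nat.add_mod_mod]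
        rcases Nat.lt_or_ge (i.val + 1) (M * y.length) with h3 | h3
        · rw [h1, Nat.mod_eq_of_lt h3]
        · have h4 : i.val + 1 = M * y.length := by omega
          rw [h1, h4, Nat.mod_self, hr0, hrM]
      have hLp : Lp R y.length M (cyc y) fun i => r i.val := by
        refine ⟨fun i => run_isSt (isSt_nil R) (hr i.val), ?_, fun i => ?_, fun i hi hsi => ?_,
          fun j j' hj => ?_⟩
        · change r (0 : ZMod (M * y.length)).val = []
          rw [ZMod.val_zero, hr0]
        · rw [hsucc]
          exact hstep i
        · by_contra hne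
          have h3 : ((i.val : ℕ) : ZMod (M * y.length)) = i := ZMod.natCast_zmod_val i
          have hi0 : i.val ≠ 0 := fun h0 => hne ((ZMod.val_eq_zero i).1 h0)
          rw [← h3, map_natCast, ZMod.natCast_eq_zero_iff] at hi
          obtain ⟨c, hc⟩ := hi
          have hilt : i.val < M * y.length := ZMod.val_lt i
          rw [hc, Nat.mul_comm] at hilt
          have hcM : c < M := Nat.lt_of_mul_lt_mul_right hilt
          have hc1 : 1 ≤ c := by
            rcases Nat.eq_zero_or_pos c with h0 | h0
            · rw [h0, Nat.mul_zero] at hc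
              exact (hi0 hc).elim
            · exact h0
          refine hmin c hc1 hcM ?_
          have h4 := hr i.val
          rw [hsi, hc, Nat.mul_comm, wpow_take y hcM.le] at h4
          exact h4
        · by_contra hne
          refine hper ⟨j' - j, fun h0 => hne (sub_eq_zero.1 h0).symm, fun x => ?_⟩
          have h3 := hj (x - j).val
          rw [ZMod.natCast_zmod_val] at h3
          have e1 : j + (x - j) = x := by ring
          have e2 : j' + (x - j) = x + (j' - j) := by ring
          rw [e1, e2] at h3
          exact h3.symm
      obtain ⟨p, hp, hpM⟩ := Nat.exists_prime_and_dvd (n := M) (by omega)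
      haveI : Fact p.Prime := ⟨hp⟩
      refine no_lp (k := ZMod p) hLp hR hfull ?_ (hspan p hp)
      rw [ZMod.natCast_eq_zero_iff]
      exact hpM
    · have hM' : M = 1 := by omega
      rw [hM', wpow_one] at hM2
      exact hM2

theorem sum_map_eq [Fintype α] {k : Type*} [CommSemiring k] (l : List α) (c : α → k) :
    (l.map c).sum = ∑ x, (l.count x : k) * c x := by
  induction l with
  | nil => simp
  | cons b l ih =>
    rw [List.map_cons, List.sum_cons, ih]
    have h1 : ∀ x, (((b :: l).count x : ℕ) : k) * c x
        = (if b = x then c x else 0) + (l.count x : k) * c x := by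
      intro x
      rw [List.count_cons]
      by_cases hb : b = x
      · rw [if_pos hb, if_pos (by simpa using hb)]
        push_cast
        ring
      · rw [if_neg hb, if_neg (by simpa using hb)]
        push_cast
        ring
    rw [Finset.sum_congr rfl fun x _ => h1 x, Finset.sum_add_distrib,
      Finset.sum_ite_eq Finset.univ b, if_pos (Finset.mem_univ _)]

/-- A unit determinant gives the hypothesis on the span. -/
theorem span_of_det [Fintype α] (hfull : ∀ a, ∃ l, R a = some l)
    (hdet : IsUnit (Matrix.of fun a x => (pc R a x : ℤ)).det) (p : ℕ) (hp : p.Prime)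
    (c : α → ZMod p) (hc : ∀ a l, R a = some l → ((a :: l).map c).sum = 0) : c = 0 := by
  haveI : Fact p.Prime := ⟨hp⟩
  have h1 : IsUnit ((Matrix.of fun a x => (pc R a x : ℤ)).map (Int.castRingHom (ZMod p))).det := by
    have h2 := hdet.map (Int.castRingHom (ZMod p))
    rwa [RingHom.map_det] at h2
  apply Matrix.eq_zero_of_mulVec_eq_zero h1.ne_zero
  funext a
  obtain ⟨l, hl⟩ := hfull a
  have h3 := hc a l hl
  rw [sum_map_eq] at h3
  rw [Pi.zero_apply]
  refine Eq.trans ?_ h3
  apply Finset.sum_congr rfl
  intro x _
  have h4 : pc R a x = (a :: l).count x := by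
    unfold pc
    rw [hl]
    rfl
  rw [← h4]
  simp

end D0L.Tr
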