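import Pool.Agent.H.MP_374efc_lc.Base

/-!
# Automata for the hull lemma (BIMFULL 5.1), abstract form

`Rn st s u t`: the word `u` is read from `s` to `t` (relational automata). `ExtH`: a deterministic
automaton which contains the automaton `st0`, whose additional out-letters at the old states are
allowed by `Ex`, and which reads the words of `L` from the base to the base. `ExtH.step`: such an
automaton is obtained for `{words of st0} ∪ h(L)`; `hull_abs`: the conclusion.
-/

set_option autoImplicit false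

namespace D0L.Tr

variable {α S S0 : Type}

/-- The word is read. -/
def Rn (st : S → α → S → Prop) : S → List α → S → Prop
  | s, [], t => s = t
  | s, a :: u, t => ∃ m, st s a m ∧ Rn st m u t

theorem Rn.append {st : S → α → S → Prop} {s m t : S} {u v : List α} (h : Rn st s u m)
    (h' : Rn st m v t) : Rn st s (u ++ v) t := by
  induction u generalizing s with
  | nil =>
    obtain rfl : s = m := h
    exact h'
  | cons a u ih =>
    obtain ⟨r, h1, h2⟩ := h
    exact ⟨r, h1, ih h2⟩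

theorem Rn.det {st : S → α → S → Prop} (hd : ∀ s a t t', st s a t → st s a t' → t = t')
    {s t t' : S} {u : List α} (h : Rn st s u t) (h' : Rn st s u t') : t = t' := by
  induction u generalizing s with
  | nil => exact (Eq.symm h).trans h'
  | cons a u ih =>
    obtain ⟨r, h1, h2⟩ := h
    obtain ⟨r', h3, h4⟩ := h'
    obtain rfl := hd _ _ _ _ h1 h3
    exact ih h2 h4

theorem Rn.split {st : S → α → S → Prop} {s t : S} {u v : List α} (h : Rn st s (u ++ v) t) :
    ∃ m, Rn st s u m ∧ Rn st m v t := by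
  induction u generalizing s with
  | nil => exact ⟨s, rfl, h⟩
  | cons a u ih =>
    obtain ⟨r, h1, h2⟩ := h
    obtain ⟨m, h3, h4⟩ := ih h2
    exact ⟨m, ⟨r, h1, h3⟩, h4⟩

theorem Rn.map {S' : Type} {st : S → α → S → Prop} {st' : S' → α → S' → Prop} {f : S → S'}
    (hf : ∀ s a t, st s a t → st' (f s) a (f t)) {s t : S} {u : List α} (h : Rn st s u t) :
    Rn st' (f s) u (f t) := by
  induction u generalizing s with
  | nil =>
    obtain rfl : s = t := h
    rfl
  | cons a u ih =>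
    obtain ⟨r, h1, h2⟩ := h
    exact ⟨f r, hf _ _ _ h1, ih h2⟩

/-- A deterministic automaton which contains `st0`; the additional out-letters at the old states
are allowed by `Ex`; the words of `L` are read from the base to the base. -/
def ExtH (st0 : S0 → α → S0 → Prop) (b : S0) (Ex : S0 → α → Prop) (L : List α → Prop) : Prop :=
  ∃ (S : Type) (st : S → α → S → Prop) (emb : S0 → S),
    (∀ s a t t', st s a t → st s a t' → t = t') ∧ Function.Injective emb ∧
    (∀ q a q', st0 q a q' → st (emb q) a (emb q')) ∧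
    (∀ q a p, st (emb q) a p → (∃ q', st0 q a q') ∨ Ex q a) ∧
    ∀ u, L u → Rn st (emb b) u (emb b)

theorem ExtH.mono {st0 : S0 → α → S0 → Prop} {b : S0} {Ex : S0 → α → Prop}
    {L L' : List α → Prop} (h : ExtH st0 b Ex L) (hL : ∀ u, L' u → L u) : ExtH st0 b Ex L' := by
  obtain ⟨S, st, emb, h1, h2, h3, h4, h5⟩ := h
  exact ⟨S, st, emb, h1, h2, h3, h4, fun u hu => h5 u (hL u hu)⟩

/-- Normalised position: `r` has to be read before `p` is reached; the old states whose image under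
`Phi` is known are identified with their image. -/
def Nm (Phi : S0 → S0 → Prop) (emb : S0 → S) (r : List α) (p : S) (t : S0 ⊕ (List α × S)) : Prop :=
  (r = [] ∧ ∃ q q', p = emb q ∧ Phi q q' ∧ t = Sum.inl q') ∨
    (¬ (r = [] ∧ ∃ q q', p = emb q ∧ Phi q q') ∧ t = Sum.inr (r, p))

theorem Nm.total (Phi : S0 → S0 → Prop) (emb : S0 → S) (r : List α) (p : S) :
    ∃ t, Nm Phi emb r p t := by
  by_cases h : r = [] ∧ ∃ q q', p = emb q ∧ Phi q q'
  · obtain ⟨rfl, q, q', rfl, h⟩ := h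
    exact ⟨Sum.inl q', Or.inl ⟨rfl, q, q', rfl, h, rfl⟩⟩
  · exact ⟨Sum.inr (r, p), Or.inr ⟨h, rfl⟩⟩

theorem Nm.det {Phi : S0 → S0 → Prop} {emb : S0 → S} (hP : ∀ p t t', Phi p t → Phi p t' → t = t')
    (he : Function.Injective emb) {r : List α} {p : S} {t t' : S0 ⊕ (List α × S)}
    (h : Nm Phi emb r p t) (h' : Nm Phi emb r p t') : t = t' := by
  rcases h with ⟨rfl, q, q', rfl, h1, rfl⟩ | ⟨h1, rfl⟩
  · rcases h' with ⟨-, q1, q1', h2, h3, rfl⟩ | ⟨h2, rfl⟩
    · obtain rfl := he h2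
      rw [hP _ _ _ h1 h3]
    · exact (h2 ⟨rfl, q, q', rfl, h1⟩).elim
  · rcases h' with ⟨rfl, q, q', rfl, h3, rfl⟩ | ⟨h2, rfl⟩
    · exact (h1 ⟨rfl, q, q', rfl, h3⟩).elim
    · rfl

/-- The transitions of the next automaton. -/
def nst (st0 : S0 → α → S0 → Prop) (h : α → List α) (Phi : S0 → S0 → Prop)
    (st : S → α → S → Prop) (emb : S0 → S) :
    S0 ⊕ (List α × S) → α → S0 ⊕ (List α × S) → Prop
  | Sum.inl t, a, t' => (∃ t0, st0 t a t0 ∧ t' = Sum.inl t0) ∨
      ((∀ t0, ¬ st0 t a t0) ∧ ∃ p c p' r, Phi p t ∧ st (emb p) c p' ∧ h c = a :: r ∧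
        Nm Phi emb r p' t')
  | Sum.inr ([], p), a, t' => (¬ ∃ q q', p = emb q ∧ Phi q q') ∧
      ∃ c p' r, st p c p' ∧ h c = a :: r ∧ Nm Phi emb r p' t'
  | Sum.inr (b :: r, p), a, t' => b = a ∧ Nm Phi emb r p t'

/-- Data of the inductive step. -/
structure HDat (st0 : S0 → α → S0 → Prop) (b U tU : S0) (bb : α) (Ex : S0 → α → Prop)
    (h : α → List α) (fi : α → α) (tl : α → List α) (Phi : S0 → S0 → Prop) : Prop where
  det0 : ∀ s a t t', st0 s a t → st0 s a t' → t = t'
  hh : ∀ c, h c = fi c :: tl c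
  inj : Function.Injective fi
  phi1 : ∀ p t t', Phi p t → Phi p t' → t = t'
  phi2 : ∀ p p' t, Phi p t → Phi p' t → p = p'
  phib : Phi b b
  phiU : Phi U tU
  own : ∀ p t c p', Phi p t → p ≠ U → st0 p c p' → ∃ t', Phi p' t' ∧ Rn st0 t (h c) t'
  ownU : ∀ c p, st0 U c p → c = bb
  noU : ∀ t, ¬ st0 tU (fi bb) t
  exU : Ex tU (fi bb)
  exS : ∀ p c t, Ex p c → Phi p t → Ex t (fi c)
  exN : ∀ p c p', Ex p c → ¬ st0 p c p'

theorem ExtH.step {st0 : S0 → α → S0 → Prop} {b U tU : S0} {bb : α} {Ex : S0 → α → Prop}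
    {h : α → List α} {fi : α → α} {tl : α → List α} {Phi : S0 → S0 → Prop}
    (D : HDat st0 b U tU bb Ex h fi tl Phi) {L : List α → Prop} (hL : ExtH st0 b Ex L) :
    ExtH st0 b Ex (fun u => Rn st0 b u b ∨ ∃ v, L v ∧ u = app h v) := by
  obtain ⟨S, st, emb, hdet, hemb, hown, hout, hLc⟩ := hL
  have ndet : ∀ {r : List α} {p : S} {t t' : S0 ⊕ (List α × S)}, Nm Phi emb r p t →
      Nm Phi emb r p t' → t = t' := fun h1 h2 => Nm.det D.phi1 hemb h1 h2
  have hfi : ∀ {c c' a : α} {r r' : List α}, h c = a :: r → h c' = a :: r' → c = c' := by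
    intro c c' a r r' h1 h2
    rw [D.hh] at h1 h2
    exact D.inj ((List.cons.inj h1).1.trans (List.cons.inj h2).1.symm)
  -- reading the rest
  have rest : ∀ (r : List α) (p : S) (t t' : S0 ⊕ (List α × S)), Nm Phi emb r p t →
      Nm Phi emb [] p t' → Rn (nst st0 h Phi st emb) t r t' := by
    intro r
    induction r with
    | nil => intro p t t' h1 h2; exact ndet h1 h2
    | cons a r ih =>
      intro p t t' h1 h2
      obtain ⟨t1, ht1⟩ := Nm.total Phi emb r p
      rcases h1 with ⟨h1, -⟩ | ⟨-, rfl⟩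
      · cases h1
      · exact ⟨t1, ⟨rfl, ht1⟩, ih p t1 t' ht1 h2⟩
  -- a transition becomes a path
  have tr : ∀ (s : S) (c : α) (s' : S), st s c s' → ∀ t, Nm Phi emb ([] : List α) s t →
      ∃ t', Nm Phi emb ([] : List α) s' t' ∧ Rn (nst st0 h Phi st emb) t (h c) t' := by
    intro s c s' hs t ht
    obtain ⟨t', ht'⟩ := Nm.total Phi emb ([] : List α) s'
    obtain ⟨m, hm⟩ := Nm.total Phi emb (tl c) s'
    rcases ht with ⟨-, q, q', rfl, hq, rfl⟩ | ⟨hn, rfl⟩
    · have ext : (∀ t0, ¬ st0 q' (fi c) t0) → ∃ t', Nm Phi emb ([] : List α) s' t' ∧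
          Rn (nst st0 h Phi st emb) (Sum.inl q') (h c) t' := by
        intro hno
        refine ⟨t', ht', ?_⟩
        rw [D.hh c]
        exact ⟨m, Or.inr ⟨hno, q, c, s', tl c, hq, hs, D.hh c, hm⟩, rest _ _ _ _ hm ht'⟩
      rcases hout q c s' hs with ⟨q1, hq1⟩ | hex
      · by_cases hU : q = U
        · subst hU
          obtain rfl := D.ownU c q1 hq1
          obtain rfl := D.phi1 _ _ _ D.phiU hq
          exact ext D.noU
        · obtain ⟨t1, h1, h2⟩ := D.own q q' c q1 hq hU hq1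
          have h3 : s' = emb q1 := hdet _ _ _ _ hs (hown _ _ _ hq1)
          refine ⟨Sum.inl t1, Or.inl ⟨rfl, q1, t1, h3, h1, rfl⟩, ?_⟩
          exact Rn.map (f := Sum.inl) (fun x a y hxy => Or.inl ⟨y, hxy, rfl⟩) h2
      · exact ext fun t0 => D.exN _ _ _ (D.exS _ _ _ hex hq)
    · refine ⟨t', ht', ?_⟩
      rw [D.hh c]
      exact ⟨m, ⟨fun h1 => hn ⟨rfl, h1⟩, c, s', tl c, hs, D.hh c, hm⟩, rest _ _ _ _ hm ht'⟩
  have trs : ∀ (v : List α) (s s' : S), Rn st s v s' → ∀ t, Nm Phi emb ([] : List α) s t →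
      ∃ t', Nm Phi emb ([] : List α) s' t' ∧ Rn (nst st0 h Phi st emb) t (app h v) t' := by
    intro v
    induction v with
    | nil =>
      intro s s' hs t ht
      obtain rfl : s = s' := hs
      exact ⟨t, ht, rfl⟩
    | cons c v ih =>
      intro s s' hs t ht
      obtain ⟨m, h1, h2⟩ := hs
      obtain ⟨t1, h3, h4⟩ := tr s c m h1 t ht
      obtain ⟨t2, h5, h6⟩ := ih m s' h2 t1 h3
      refine ⟨t2, h5, ?_⟩
      rw [app_cons]
      exact h4.append h6
  refine ⟨S0 ⊕ (List α × S), nst st0 h Phi st emb, Sum.inl, ?_, Sum.inl_injective, ?_, ?_, ?_⟩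
  · -- deterministic
    rintro (s | ⟨_ | ⟨c, r⟩, p⟩) a t t' h1 h2
    · rcases h1 with ⟨t0, h1, rfl⟩ | ⟨h1, p, c, p', r, h3, h4, h5, h6⟩
      · rcases h2 with ⟨t1, h2, rfl⟩ | ⟨h2, -⟩
        · rw [D.det0 _ _ _ _ h1 h2]
        · exact (h2 _ h1).elim
      · rcases h2 with ⟨t1, h2, rfl⟩ | ⟨h2, q, d, q', r', h7, h8, h9, h10⟩
        · exact (h1 _ h2).elim
        · obtain rfl := D.phi2 _ _ _ h3 h7
          obtain rfl := hfi h5 h9
          obtain rfl : r = r' := by rw [h5] at h9; exact (List.cons.inj h9).2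
          obtain rfl := hdet _ _ _ _ h4 h8
          exact ndet h6 h10
    · obtain ⟨-, c, p', r, h4, h5, h6⟩ := h1
      obtain ⟨-, d, q', r', h8, h9, h10⟩ := h2
      obtain rfl := hfi h5 h9
      obtain rfl : r = r' := by rw [h5] at h9; exact (List.cons.inj h9).2
      obtain rfl := hdet _ _ _ _ h4 h8
      exact ndet h6 h10
    · exact ndet h1.2 h2.2
  · intro q a q' hq
    exact Or.inl ⟨q', hq, rfl⟩
  · intro q a p hp
    rcases hp with ⟨t0, h1, -⟩ | ⟨h1, p, c, p', r, h3, h4, h5, h6⟩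
    · exact Or.inl ⟨t0, h1⟩
    · right
      have ha : a = fi c := by
        rw [D.hh] at h5
        exact (List.cons.inj h5).1.symm
      rcases hout p c p' h4 with ⟨q1, hq1⟩ | hex
      · by_cases hU : p = U
        · subst hU
          obtain rfl := D.ownU c q1 hq1
          obtain rfl := D.phi1 _ _ _ D.phiU h3
          rw [ha]
          exact D.exU
        · obtain ⟨t1, -, h7⟩ := D.own p q c q1 h3 hU hq1
          rw [h5] at h7
          obtain ⟨m, hm, -⟩ := h7
          exact (h1 _ hm).elim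
      · rw [ha]
        exact D.exS _ _ _ hex h3
  · rintro u (hu | ⟨v, hv, rfl⟩)
    · exact Rn.map (f := Sum.inl) (fun x a y hxy => Or.inl ⟨y, hxy, rfl⟩) hu
    · obtain ⟨t', h1, h2⟩ := trs v _ _ (hLc v hv) (Sum.inl b)
        (Or.inl ⟨rfl, b, b, rfl, D.phib, rfl⟩)
      rcases h1 with ⟨-, q, q', h3, h4, rfl⟩ | ⟨h3, -⟩
      · obtain rfl := hemb h3
        rw [D.phi1 _ _ _ h4 D.phib] at h2
        exact h2
      · exact (h3 ⟨rfl, b, b, rfl, D.phib⟩).elim

/-- **The conclusion**: the base of `st0` has no out-letter with another target. -/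
theorem hull_abs {st0 : S0 → α → S0 → Prop} {b U tU : S0} {bb : α} {Ex : S0 → α → Prop}
    {h : α → List α} {fi : α → α} {tl : α → List α} {Phi : S0 → S0 → Prop}
    (D : HDat st0 b U tU bb Ex h fi tl Phi) {w0 : List α} (hw : Rn st0 b w0 b) {N : ℕ}
    (hull : ∀ G : List α → Prop, G [] → (∀ x y, G x → G y → G (x ++ y)) →
      (∀ x y, G x → G (x ++ y) → G y) → (∀ i < N, G (it h i w0)) → ∀ x, G x) {a : α} {q : S0}
    (ha : st0 b a q) (hq : q ≠ b) : False := by
  have key : ∀ k : ℕ, ExtH st0 b Ex fun u => ∃ i < k, u = it h i w0 := by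
    intro k
    induction k with
    | zero =>
      refine ⟨S0, st0, id, D.det0, Function.injective_id, fun q a q' h => h,
        fun q a p h => Or.inl ⟨p, h⟩, ?_⟩
      rintro u ⟨i, hi, -⟩
      omega
    | succ k ih =>
      refine (ExtH.step D ih).mono ?_
      rintro u ⟨i, hi, rfl⟩
      cases i with
      | zero => exact Or.inl hw
      | succ i => exact Or.inr ⟨it h i w0, ⟨i, by omega, rfl⟩, it_succ _ _ _⟩
  obtain ⟨S, st, emb, hdet, hemb, hown, -, hL⟩ := key N
  have hall := hull (fun u => Rn st (emb b) u (emb b)) rfl (fun x y hx hy => hx.append hy)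
    (fun x y hx hxy => by
      obtain ⟨m, h1, h2⟩ := hxy.split
      rw [hx.det hdet h1]
      rwa [← hx.det hdet h1] at h2 ⊢)
    (fun i hi => hL _ ⟨i, hi, rfl⟩) [a]
  obtain ⟨m, h1, h2⟩ := hall
  have h3 : m = emb b := h2
  rw [h3] at h1
  exact hq (hemb (hdet _ _ _ _ (hown _ _ _ ha) h1))

end D0L.Tr
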