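import Pool.Agent.H.MP_374efc_lc.Tr.HullA

/-!
# Automata for the orbit method (h18_374efc_ORBIT.md, Theorem O), abstract form

As in `Tr/HullA.lean`, but the map `Phi` of the old states need not be injective, and the last readable
word may end inside the image of a letter: at the old state `U` the letter `c` has the image
`g ++ d1 :: r1`, where `g` is read from the image of `U` to `q1` and `d1` is not an out-letter of `q1`.
`HDatB`: data; `ExtH.stepB`: the inductive step; `hull_absB`: the conclusion.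
-/

set_option autoImplicit false

namespace D0L.Tr

variable {α S S0 : Type}

/-- Data of the inductive step. -/
structure HDatB (st0 : S0 → α → S0 → Prop) (b U tU q1 : S0) (c d1 : α) (g r1 : List α)
    (Ex : S0 → α → Prop) (h : α → List α) (fi : α → α) (tl : α → List α)
    (Phi : S0 → S0 → Prop) : Prop where
  det0 : ∀ s a t t', st0 s a t → st0 s a t' → t = t'
  hh : ∀ x, h x = fi x :: tl x
  inj : Function.Injective fi
  phi1 : ∀ p t t', Phi p t → Phi p t' → t = t'
  phib : Phi b b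
  phiU : Phi U tU
  hc : h c = g ++ d1 :: r1
  rg : Rn st0 tU g q1
  nod : ∀ t, ¬ st0 q1 d1 t
  own : ∀ p t x p', Phi p t → ¬ (p = U ∧ x = c) → st0 p x p' →
    ∃ t', Phi p' t' ∧ Rn st0 t (h x) t'
  ex1 : Ex q1 d1
  exS : ∀ p x t, Ex p x → Phi p t → Ex t (fi x)
  exN : ∀ p x p', Ex p x → ¬ st0 p x p'
  exI : ∀ p p' x t, Ex p x → Ex p' x → Phi p t → Phi p' t → p = p'
  exF : ∀ p x, Ex p x → ¬ Phi p q1

/-- The transitions of the next automaton. -/
def nstB (st0 : S0 → α → S0 → Prop) (U q1 : S0) (c d1 : α) (r1 : List α) (Ex : S0 → α → Prop)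
    (h : α → List α) (Phi : S0 → S0 → Prop) (st : S → α → S → Prop) (emb : S0 → S) :
    S0 ⊕ (List α × S) → α → S0 ⊕ (List α × S) → Prop
  | Sum.inl t, a, t' => (∃ t0, st0 t a t0 ∧ t' = Sum.inl t0) ∨
      (∃ p x p' r, Phi p t ∧ Ex p x ∧ st (emb p) x p' ∧ h x = a :: r ∧ Nm Phi emb r p' t') ∨
      (t = q1 ∧ a = d1 ∧ ∃ p', st (emb U) c p' ∧ Nm Phi emb r1 p' t')
  | Sum.inr ([], p), a, t' => (¬ ∃ q q', p = emb q ∧ Phi q q') ∧
      ∃ x p' r, st p x p' ∧ h x = a :: r ∧ Nm Phi emb r p' t'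
  | Sum.inr (b :: r, p), a, t' => b = a ∧ Nm Phi emb r p t'

theorem ExtH.stepB {st0 : S0 → α → S0 → Prop} {b U tU q1 : S0} {c d1 : α} {g r1 : List α}
    {Ex : S0 → α → Prop} {h : α → List α} {fi : α → α} {tl : α → List α} {Phi : S0 → S0 → Prop}
    (D : HDatB st0 b U tU q1 c d1 g r1 Ex h fi tl Phi) {L : List α → Prop}
    (hL : ExtH st0 b Ex L) :
    ExtH st0 b Ex (fun u => Rn st0 b u b ∨ ∃ v, L v ∧ u = app h v) := by
  obtain ⟨S, st, emb, hdet, hemb, hown, hout, hLc⟩ := hL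
  have ndet : ∀ {r : List α} {p : S} {t t' : S0 ⊕ (List α × S)}, Nm Phi emb r p t →
      Nm Phi emb r p t' → t = t' := fun h1 h2 => Nm.det D.phi1 hemb h1 h2
  have hfi : ∀ {x x' a : α} {r r' : List α}, h x = a :: r → h x' = a :: r' → x = x' := by
    intro x x' a r r' h1 h2
    rw [D.hh] at h1 h2
    exact D.inj ((List.cons.inj h1).1.trans (List.cons.inj h2).1.symm)
  -- reading the rest
  have rest : ∀ (r : List α) (p : S) (t t' : S0 ⊕ (List α × S)), Nm Phi emb r p t →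
      Nm Phi emb [] p t' → Rn (nstB st0 U q1 c d1 r1 Ex h Phi st emb) t r t' := by
    intro r
    induction r with
    | nil => intro p t t' h1 h2; exact ndet h1 h2
    | cons a r ih =>
      intro p t t' h1 h2
      obtain ⟨t1, ht1⟩ := Nm.total Phi emb r p
      rcases h1 with ⟨h1, -⟩ | ⟨-, rfl⟩
      · cases h1
      · exact ⟨t1, ⟨rfl, ht1⟩, ih p t1 t' ht1 h2⟩
  have old : ∀ {t t' : S0} {u : List α}, Rn st0 t u t' →
      Rn (nstB st0 U q1 c d1 r1 Ex h Phi st emb) (Sum.inl t) u (Sum.inl t') := fun hu =>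
    Rn.map (f := Sum.inl) (fun x a y hxy => Or.inl ⟨y, hxy, rfl⟩) hu
  -- a transition becomes a path
  have tr : ∀ (s : S) (x : α) (s' : S), st s x s' → ∀ t, Nm Phi emb ([] : List α) s t →
      ∃ t', Nm Phi emb ([] : List α) s' t' ∧
        Rn (nstB st0 U q1 c d1 r1 Ex h Phi st emb) t (h x) t' := by
    intro s x s' hs t ht
    obtain ⟨t', ht'⟩ := Nm.total Phi emb ([] : List α) s'
    rcases ht with ⟨-, q, q', rfl, hq, rfl⟩ | ⟨hn, rfl⟩
    · rcases hout q x s' hs with ⟨q2, hq2⟩ | hex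
      · by_cases hU : q = U ∧ x = c
        · obtain ⟨rfl, rfl⟩ := hU
          obtain rfl := D.phi1 _ _ _ D.phiU hq
          obtain ⟨m, hm⟩ := Nm.total Phi emb r1 s'
          refine ⟨t', ht', ?_⟩
          rw [D.hc]
          refine (old D.rg).append ⟨m, Or.inr (Or.inr ⟨rfl, rfl, s', hs, hm⟩), ?_⟩
          exact rest _ _ _ _ hm ht'
        · obtain ⟨t1, h1, h2⟩ := D.own q q' x q2 hq hU hq2
          have h3 : s' = emb q2 := hdet _ _ _ _ hs (hown _ _ _ hq2)
          exact ⟨Sum.inl t1, Or.inl ⟨rfl, q2, t1, h3, h1, rfl⟩, old h2⟩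
      · obtain ⟨m, hm⟩ := Nm.total Phi emb (tl x) s'
        refine ⟨t', ht', ?_⟩
        rw [D.hh x]
        exact ⟨m, Or.inr (Or.inl ⟨q, x, s', tl x, hq, hex, hs, D.hh x, hm⟩), rest _ _ _ _ hm ht'⟩
    · obtain ⟨m, hm⟩ := Nm.total Phi emb (tl x) s'
      refine ⟨t', ht', ?_⟩
      rw [D.hh x]
      exact ⟨m, ⟨fun h1 => hn ⟨rfl, h1⟩, x, s', tl x, hs, D.hh x, hm⟩, rest _ _ _ _ hm ht'⟩
  have trs : ∀ (v : List α) (s s' : S), Rn st s v s' → ∀ t, Nm Phi emb ([] : List α) s t →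
      ∃ t', Nm Phi emb ([] : List α) s' t' ∧
        Rn (nstB st0 U q1 c d1 r1 Ex h Phi st emb) t (app h v) t' := by
    intro v
    induction v with
    | nil =>
      intro s s' hs t ht
      obtain rfl : s = s' := hs
      exact ⟨t, ht, rfl⟩
    | cons x v ih =>
      intro s s' hs t ht
      obtain ⟨m, h1, h2⟩ := hs
      obtain ⟨t1, h3, h4⟩ := tr s x m h1 t ht
      obtain ⟨t2, h5, h6⟩ := ih m s' h2 t1 h3
      refine ⟨t2, h5, ?_⟩
      rw [app_cons]
      exact h4.append h6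
  refine ⟨S0 ⊕ (List α × S), nstB st0 U q1 c d1 r1 Ex h Phi st emb, Sum.inl, ?_,
    Sum.inl_injective, ?_, ?_, ?_⟩
  · -- deterministic
    rintro (s | ⟨_ | ⟨x, r⟩, p⟩) a t t' h1 h2
    · -- the extra letters are not own letters
      have hno : ∀ {p x r}, Phi p s → Ex p x → h x = a :: r → ∀ t0, ¬ st0 s a t0 := by
        intro p x r hp hx hxa t0 ht0
        have ha : a = fi x := by
          rw [D.hh] at hxa
          exact (List.cons.inj hxa).1.symm
        rw [ha] at ht0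
        exact D.exN _ _ _ (D.exS _ _ _ hx hp) ht0
      rcases h1 with ⟨t0, h1, rfl⟩ | ⟨p, x, p', r, h3, hx, h4, h5, h6⟩ | ⟨h3, h4, p', h5, h6⟩
      · rcases h2 with ⟨t1, h2, rfl⟩ | ⟨p, x, p', r, h3, hx, h4, h5, h6⟩ | ⟨h3, h4, p', h5, h6⟩
        · rw [D.det0 _ _ _ _ h1 h2]
        · exact (hno h3 hx h5 _ h1).elim
        · rw [h3, h4] at h1
          exact (D.nod _ h1).elim
      · rcases h2 with ⟨t1, h2, rfl⟩ | ⟨q, y, q', r', h7, hy, h8, h9, h10⟩ | ⟨h7, h8, q', h9, h10⟩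
        · exact (hno h3 hx h5 _ h2).elim
        · obtain rfl := hfi h5 h9
          obtain rfl := D.exI _ _ _ _ hx hy h3 h7
          obtain rfl : r = r' := by rw [h5] at h9; exact (List.cons.inj h9).2
          obtain rfl := hdet _ _ _ _ h4 h8
          exact ndet h6 h10
        · rw [h7] at h3
          exact (D.exF _ _ hx h3).elim
      · rcases h2 with ⟨t1, h2, rfl⟩ | ⟨q, y, q', r', h7, hy, h8, h9, h10⟩ | ⟨-, -, q', h9, h10⟩
        · rw [h3, h4] at h2
          exact (D.nod _ h2).elim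
        · rw [h3] at h7
          exact (D.exF _ _ hy h7).elim
        · obtain rfl := hdet _ _ _ _ h5 h9
          exact ndet h6 h10
    · obtain ⟨-, x, p', r, h4, h5, h6⟩ := h1
      obtain ⟨-, y, q', r', h8, h9, h10⟩ := h2
      obtain rfl := hfi h5 h9
      obtain rfl : r = r' := by rw [h5] at h9; exact (List.cons.inj h9).2
      obtain rfl := hdet _ _ _ _ h4 h8
      exact ndet h6 h10
    · exact ndet h1.2 h2.2
  · intro q a q' hq
    exact Or.inl ⟨q', hq, rfl⟩
  · intro q a p hp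
    rcases hp with ⟨t0, h1, -⟩ | ⟨p, x, p', r, h3, hx, h4, h5, h6⟩ | ⟨h3, h4, -⟩
    · exact Or.inl ⟨t0, h1⟩
    · right
      have ha : a = fi x := by
        rw [D.hh] at h5
        exact (List.cons.inj h5).1.symm
      rw [ha]
      exact D.exS _ _ _ hx h3
    · rw [h3, h4]
      exact Or.inr D.ex1
  · rintro u (hu | ⟨v, hv, rfl⟩)
    · exact old hu
    · obtain ⟨t', h1, h2⟩ := trs v _ _ (hLc v hv) (Sum.inl b)
        (Or.inl ⟨rfl, b, b, rfl, D.phib, rfl⟩)
      rcases h1 with ⟨-, q, q', h3, h4, rfl⟩ | ⟨h3, -⟩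
      · obtain rfl := hemb h3
        rw [D.phi1 _ _ _ h4 D.phib] at h2
        exact h2
      · exact (h3 ⟨rfl, b, b, rfl, D.phib⟩).elim

/-- **The conclusion**: the base of `st0` has no out-letter with another target. -/
theorem hull_absB {st0 : S0 → α → S0 → Prop} {b U tU q1 : S0} {c d1 : α} {g r1 : List α}
    {Ex : S0 → α → Prop} {h : α → List α} {fi : α → α} {tl : α → List α} {Phi : S0 → S0 → Prop}
    (D : HDatB st0 b U tU q1 c d1 g r1 Ex h fi tl Phi) {w0 : List α} (hw : Rn st0 b w0 b) {N : ℕ}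
    (hull : ∀ G : List α → Prop, G [] → (∀ x y, G x → G y → G (x ++ y)) →
      (∀ x y, G x → G (x ++ y) → G y) → (∀ i < N, G (it h i w0)) → ∀ x, G x) {a : α} {q : S0}
    (ha : st0 b a q) (hq : q ≠ b) : False := by
  have key : ∀ k : ℕ, ExtH st0 b Ex fun u => ∃ i < k, u = it h i w0 := by
    intro k
    induction k with
    | zero =>
      refine ⟨S0, st0, id, D.det0, Function.injective_id, fun q a q' h => h,
        fun q a p h => Or.inl ⟨p, h⟩, ?_⟩
      rintro u ⟨i, hi, -⟩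
      omega
    | succ k ih =>
      refine (ExtH.stepB D ih).mono ?_
      rintro u ⟨i, hi, rfl⟩
      cases i with
      | zero => exact Or.inl hw
      | succ i => exact Or.inr ⟨it h i w0, ⟨i, by omega, rfl⟩, it_succ _ _ _⟩
  obtain ⟨S, st, emb, hdet, hemb, hown, -, hL⟩ := key N
  have hall := hull (fun u => Rn st (emb b) u (emb b)) rfl (fun x y hx hy => hx.append hy)
    (fun x y hx hxy => by
      obtain ⟨m, h1, h2⟩ := hxy.split
      rw [hx.det hdet h1]
      rwa [← hx.det hdet h1] at h2 ⊢)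
    (fun i hi => hL _ ⟨i, hi, rfl⟩) [a]
  obtain ⟨m, h1, h2⟩ := hall
  have h3 : m = emb b := h2
  rw [h3] at h1
  exact hq (hemb (hdet _ _ _ _ (hown _ _ _ ha) h1))

end D0L.Tr
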