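import Pool.Agent.H.MP_374efc_lc.Tr.Rot

/-!
# Tokens: from loops of `H` to loops of the rose `P` over the token alphabet

`W` is a rose, the tokens are its first letters, `flat W τ` is the word of a token word `τ`.
`TD W H z T'`: the tokens `a ≠ z` and `z :: T'` are the first returns of the pair `(W, H)`.
`bad_of`: two different states of `H` at the base of `W` with the same loop give two different states
of the rose with the petals `z :: T'` and `[a]`, `a ≠ z`, with the same loop.
-/

set_option autoImplicit false

namespace D0L.Tr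

variable {α : Type*}

/-- The petal at a token. -/
def pet (W : Rose α) (a : α) : List α := a :: (W a).getD []

/-- The word of a token word. -/
def flat (W : Rose α) (τ : List α) : List α := (τ.map (pet W)).flatten

theorem flat_nil (W : Rose α) : flat W [] = [] := rfl

theorem flat_cons (W : Rose α) (a : α) (τ : List α) : flat W (a :: τ) = pet W a ++ flat W τ := rfl

theorem flat_append (W : Rose α) (τ τ' : List α) : flat W (τ ++ τ') = flat W τ ++ flat W τ' := by
  unfold flat
  rw [List.map_append, List.flatten_append]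

theorem flat_wpow (W : Rose α) (τ : List α) (d : ℕ) : flat W (wpow τ d) = wpow (flat W τ) d := by
  induction d with
  | zero => simp [wpow, flat_nil]
  | succ d ih => rw [wpow_succ, wpow_succ, flat_append, ih]

theorem flat_inj {W : Rose α} {τ τ' : List α} (h : flat W τ = flat W τ') : τ = τ' := by
  induction τ generalizing τ' with
  | nil =>
    cases τ' with
    | nil => rfl
    | cons b τ' => rw [flat_cons, flat_nil] at h; simp [pet] at h
  | cons a τ ih =>
    cases τ' with
    | nil => rw [flat_cons, flat_nil] at h; simp [pet] at h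
    | cons b τ' =>
      rw [flat_cons, flat_cons] at h
      have hab : a = b := by
        have h1 := congrArg List.head? h
        simpa [pet] using h1
      subst hab
      rw [ih (List.append_cancel_left h)]

theorem flat_ne_nil {W : Rose α} {τ : List α} (h : τ ≠ []) : flat W τ ≠ [] := by
  intro h1
  exact h (flat_inj (W := W) (h1.trans (flat_nil W).symm))

variable [DecidableEq α] {W H : Rose α}

/-- A step back or through: reading `v` from `s`. -/
theorem run_split {R : Rose α} {s v t : List α} (h : run R s v = some t) :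
    (∃ w, s = v ++ w ∧ t = w) ∨ ∃ w, v = s ++ w ∧ run R [] w = some t := by
  induction s generalizing v with
  | nil => exact Or.inr ⟨v, rfl, h⟩
  | cons b r ih =>
    cases v with
    | nil =>
      rw [run_nil] at h
      exact Or.inl ⟨b :: r, rfl, (Option.some.inj h).symm⟩
    | cons a v =>
      rw [run_cons, Option.bind_eq_some_iff] at h
      obtain ⟨t', h1, h2⟩ := h
      obtain ⟨rfl, rfl⟩ := step_unique h1
      rcases ih h2 with ⟨w, rfl, h3⟩ | ⟨w, rfl, h3⟩
      · exact Or.inl ⟨w, rfl, h3⟩
      · exact Or.inr ⟨w, rfl, h3⟩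

theorem run_pet {a l : List α} {b : α} (_ : a = l) (h : W b = some l) :
    run W [] (pet W b) = some [] := by
  unfold pet
  rw [h]
  exact run_petal h

/-- Tokens. -/
def Tok (W : Rose α) (τ : List α) : Prop := ∀ a ∈ τ, ∃ l, W a = some l

theorem run_flat {τ : List α} (h : Tok W τ) : run W [] (flat W τ) = some [] := by
  induction τ with
  | nil => rw [flat_nil, run_nil]
  | cons a τ ih =>
    obtain ⟨l, hl⟩ := h a List.mem_cons_self
    rw [flat_cons]
    exact run_append_some (run_pet rfl hl) (ih fun b hb => h b (List.mem_cons_of_mem _ hb))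

/-- A word which is read from the base to the base is a product of petals. -/
theorem exists_tok {u : List α} (h : run W [] u = some []) : ∃ τ, u = flat W τ ∧ Tok W τ := by
  obtain ⟨n, hn⟩ : ∃ n, n = u.length := ⟨_, rfl⟩
  induction n using Nat.strong_induction_on generalizing u with
  | _ n ih =>
  cases u with
  | nil => exact ⟨[], rfl, fun a ha => by simp at ha⟩
  | cons a u =>
    rw [run_cons, Option.bind_eq_some_iff] at h
    obtain ⟨l, h1, h2⟩ := h
    rw [step_nil] at h1
    rcases run_split h2 with ⟨w, h3, h4⟩ | ⟨w, h3, h4⟩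
    · rw [← h4, List.append_nil] at h3
      refine ⟨[a], ?_, ?_⟩
      · rw [flat_cons, flat_nil, List.append_nil, pet, h1, h3]
        rfl
      · intro b hb
        rw [List.mem_singleton] at hb
        rw [hb]
        exact ⟨l, h1⟩
    · obtain ⟨τ, h5, h6⟩ := ih w.length (by
        rw [hn, h3]
        simp only [List.length_cons, List.length_append]
        omega) h4 rfl
      refine ⟨a :: τ, ?_, ?_⟩
      · rw [flat_cons, pet, h1, h3, ← h5]
        rfl
      · intro b hb
        rcases List.mem_cons.1 hb with rfl | hb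
        · exact ⟨l, h1⟩
        · exact h6 b hb

/-- The first returns of the pair `(W, H)` are the tokens `a ≠ z` and the token word `z :: T'`. -/
structure TD (W H : Rose α) (z : α) (T' : List α) : Prop where
  one : ∀ a l, a ≠ z → W a = some l → run H [] (a :: l) = some []
  tok : Tok W (z :: T')
  big : run H [] (flat W (z :: T')) = some []
  pre : ∀ p, p <+: T' → p ≠ T' → run H [] (flat W (z :: p)) ≠ some []

/-- `p` is the token word which leads from `s` back to the base of `H` for the first time. -/
def Ret (W H : Rose α) (s p : List α) : Prop :=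
  run H s (flat W p) = some [] ∧ ∀ p0, p0 <+: p → p0 ≠ p → run H s (flat W p0) ≠ some []

theorem Ret.nil_iff {s p : List α} (h : Ret W H s p) : p = [] ↔ s = [] := by
  constructor
  · rintro rfl
    have h1 := h.1
    rw [flat_nil, run_nil] at h1
    exact Option.some.inj h1
  · rintro rfl
    by_contra hne
    exact h.2 [] (List.nil_prefix) (fun h1 => hne h1.symm) (by rw [flat_nil, run_nil])

/-- One token. -/
theorem Ret.tail {s p : List α} {b : α} (h : Ret W H s (b :: p)) :
    ∃ s', run H s (pet W b) = some s' ∧ Ret W H s' p ∧ ∃ r, s = b :: r := by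
  obtain ⟨h1, h2⟩ := h
  have hs : s ≠ [] := by
    rintro rfl
    exact h2 [] List.nil_prefix (by simp) (by rw [flat_nil, run_nil])
  rw [flat_cons, run_append, Option.bind_eq_some_iff] at h1
  obtain ⟨s', h3, h4⟩ := h1
  refine ⟨s', h3, ⟨h4, ?_⟩, ?_⟩
  · intro p0 h5 h6 h7
    refine h2 (b :: p0) ((List.prefix_cons_inj b).2 h5) (by simpa using h6) ?_
    rw [flat_cons]
    exact run_append_some h3 h7
  · cases s with
    | nil => exact (hs rfl).elim
    | cons c r =>
      refine ⟨r, ?_⟩
      rw [pet, run_cons, Option.bind_eq_some_iff] at h3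
      obtain ⟨t, h5, h6⟩ := h3
      rw [(step_unique h5).1]

theorem Ret.unique {s p p' : List α} (h : Ret W H s p) (h' : Ret W H s p') : p = p' := by
  induction p generalizing s p' with
  | nil => exact (h'.nil_iff.2 (h.nil_iff.1 rfl)).symm
  | cons b p ih =>
    cases p' with
    | nil => exact absurd (h.nil_iff.2 (h'.nil_iff.1 rfl)) (by simp)
    | cons b' p' =>
      obtain ⟨s1, h1, h2, r, h3⟩ := h.tail
      obtain ⟨s1', h1', h2', r', h3'⟩ := h'.tail
      rw [h3] at h3'
      obtain ⟨rfl, rfl⟩ := List.cons.inj h3'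
      rw [h1] at h1'
      have h4 : s1 = s1' := Option.some.inj h1'
      rw [← h4] at h2'
      rw [ih h2 h2']

/-- The rose `P` over the token alphabet. -/
abbrev P0 (z : α) (T' : List α) : Rose α := fun a => if a = z then some T' else some []

theorem isSt_P0 {z : α} {T' p : List α} (h : IsSt (P0 z T') p) : p <:+ T' := by
  rcases h with rfl | ⟨a, l, h1, h2⟩
  · exact List.nil_suffix
  · by_cases ha : a = z
    · have h3 : (P0 z T') a = some T' := if_pos ha
      rw [h1] at h3
      rw [← Option.some.inj h3]
      exact h2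
    · have h3 : (P0 z T') a = some [] := if_neg ha
      rw [h1] at h3
      rw [Option.some.inj h3] at h2
      rw [List.suffix_nil.1 h2]
      exact List.nil_suffix

variable {z : α} {T' : List α}

theorem TD.step_tok (hT : TD W H z T') {s s' p l : List α} {a : α} (h : Ret W H s p)
    (ha : W a = some l) (hs : run H s (pet W a) = some s') :
    ∃ p', step (P0 z T') p a = some p' ∧ Ret W H s' p' := by
  have hpa : pet W a = a :: l := by rw [pet, ha]; rfl
  cases p with
  | nil =>
    have h0 : s = [] := h.nil_iff.1 rfl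
    subst h0
    by_cases haz : a = z
    · subst haz
      refine ⟨T', by simp, ?_, ?_⟩
      · have h1 := hT.big
        rw [flat_cons, run_append, hs] at h1
        simpa using h1
      · intro p0 h1 h2 h3
        refine hT.pre p0 h1 h2 ?_
        rw [flat_cons]
        exact run_append_some hs h3
    · refine ⟨[], by simp [haz], ?_⟩
      rw [hpa, hT.one a l haz ha] at hs
      rw [← Option.some.inj hs]
      exact h
  | cons b p =>
    obtain ⟨s1, h1, h2, r, h3⟩ := h.tail
    have hab : a = b := by
      rw [hpa, run_cons, h3, Option.bind_eq_some_iff] at hs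
      obtain ⟨t, h5, h6⟩ := hs
      exact (step_unique h5).1
    subst hab
    refine ⟨p, by simp, ?_⟩
    rw [hs] at h1
    rw [Option.some.inj h1]
    exact h2

theorem TD.run_tok (hT : TD W H z T') {τ : List α} (hτ : Tok W τ) {s s' p : List α}
    (h : Ret W H s p) (hs : run H s (flat W τ) = some s') :
    ∃ p', run (P0 z T') p τ = some p' ∧ Ret W H s' p' := by
  induction τ generalizing s p with
  | nil =>
    rw [flat_nil, run_nil] at hs
    rw [← Option.some.inj hs]
    exact ⟨p, run_nil _ _, h⟩
  | cons a τ ih =>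
    rw [flat_cons, run_append, Option.bind_eq_some_iff] at hs
    obtain ⟨t, h1, h2⟩ := hs
    obtain ⟨l, hl⟩ := hτ a List.mem_cons_self
    obtain ⟨p1, h3, h4⟩ := hT.step_tok h hl h1
    obtain ⟨p', h5, h6⟩ := ih (fun b hb => hτ b (List.mem_cons_of_mem _ hb)) h4 h2
    refine ⟨p', ?_, h6⟩
    rw [run_cons, h3]
    exact h5

/-- The state of the rose `P` of a state of `H` at the base of `W`. -/
theorem TD.exists_ret (hT : TD W H z T') {s : List α} (h : Rel W H [] s) :
    ∃ p, p <:+ T' ∧ Ret W H s p := by
  obtain ⟨v, h1, h2⟩ := h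
  obtain ⟨τ, rfl, h4⟩ := exists_tok h1
  have h0 : Ret W H [] [] := by
    refine ⟨by rw [flat_nil, run_nil], ?_⟩
    intro p0 h5 h6
    exact absurd (List.prefix_nil.1 h5) h6
  obtain ⟨p, h5, h6⟩ := hT.run_tok h4 h0 h2
  exact ⟨p, isSt_P0 (run_isSt (isSt_nil _) h5), h6⟩

/-- **Bad token words.** -/
theorem TD.bad_of (hT : TD W H z T') (hH : Bim H) {s t v : List α} (hv : v ≠ [])
    (hs : IsSt H s) (ht : IsSt H t) (h1 : Rel W H [] s) (h2 : Rel W H [] t) (hne : s ≠ t)
    (hW : run W [] v = some []) (h3 : run H s v = some s) (h4 : run H t v = some t) :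
    ∃ τ p p', v = flat W τ ∧ Tok W τ ∧ τ ≠ [] ∧ p <:+ T' ∧ p' <:+ T' ∧ p ≠ p' ∧
      run (P0 z T') p τ = some p ∧ run (P0 z T') p' τ = some p' ∧ Ret W H s p ∧ Ret W H t p' := by
  obtain ⟨τ, rfl, hτ⟩ := exists_tok hW
  obtain ⟨p, hp, hp1⟩ := hT.exists_ret h1
  obtain ⟨p', hp', hp1'⟩ := hT.exists_ret h2
  obtain ⟨p2, h5, h6⟩ := hT.run_tok hτ hp1 h3
  obtain ⟨p2', h5', h6'⟩ := hT.run_tok hτ hp1' h4
  rw [← hp1.unique h6] at h5
  rw [← hp1'.unique h6'] at h5'
  refine ⟨τ, p, p', rfl, hτ, ?_, hp, hp', ?_, h5, h5', hp1, hp1'⟩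
  · rintro rfl
    exact hv rfl
  · rintro rfl
    exact hne (run_inj hH hs ht hp1.1 hp1'.1)

end D0L.Tr
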