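import Pool.Agent.H.MP_374efc_lc.Tr.Push1

/-!
# Amalgams inside a group: alternating products

`Amalg Q H`: the pushout of `Q ← Q ⊓ H → H` maps injectively to the ambient group.
`IsAlt Q H l`: the list `l` of pairs (side, element) is alternating, with elements in one side and
not in the other.
-/

namespace D0L.Tr

open Monoid

variable {F : Type*} [Group F] (Q H : Subgroup F)

/-- The two sides: `true` is `Q`, `false` is `H`. -/
def side (b : Bool) : Subgroup F := match b with
  | true => Q
  | false => H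

theorem inf_le_side (b : Bool) : Q ⊓ H ≤ side Q H b := by
  cases b
  · exact inf_le_right
  · exact inf_le_left

/-- the inclusions of the intersection -/
def incl (b : Bool) : (Q ⊓ H : Subgroup F) →* side Q H b :=
  Subgroup.inclusion (inf_le_side Q H b)

/-- the canonical map of the pushout -/
def can : PushoutI (incl Q H) →* F :=
  PushoutI.lift (fun b => (side Q H b).subtype) (Q ⊓ H : Subgroup F).subtype
    (by intro b; ext x; rfl)

/-- `Q` and `H` generate their amalgam along the intersection. -/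
def Amalg : Prop := Function.Injective (can Q H)

variable {Q H}

theorem can_of (b : Bool) (x : side Q H b) : can Q H (PushoutI.of b x) = x := by
  unfold can
  rw [PushoutI.lift_of]
  rfl

theorem can_base (x : (Q ⊓ H : Subgroup F)) : can Q H (PushoutI.base _ x) = x := by
  unfold can
  rw [PushoutI.lift_base]
  rfl

/-- If the homomorphisms to the pushout extend to the ambient group, the pushout embeds. -/
theorem amalg_of_extend (ψ : F →* PushoutI (incl Q H))
    (h1 : ∀ g : Q, ψ g = PushoutI.of (φ := incl Q H) true g)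
    (h2 : ∀ g : H, ψ g = PushoutI.of (φ := incl Q H) false g) : Amalg Q H := by
  have hid : ψ.comp (can Q H) = MonoidHom.id _ := by
    apply PushoutI.hom_ext_nonempty
    intro b
    ext x
    simp only [MonoidHom.comp_apply, MonoidHom.id_apply]
    rw [can_of]
    cases b
    · exact h2 x
    · exact h1 x
  intro x y hxy
  have hx := DFunLike.congr_fun hid x
  have hy := DFunLike.congr_fun hid y
  simp only [MonoidHom.comp_apply, MonoidHom.id_apply] at hx hy
  rw [← hx, ← hy, hxy]

variable (Q H) in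
/-- Alternating lists. -/
def IsAlt (l : List (Bool × F)) : Prop :=
  (∀ p ∈ l, p.2 ∈ side Q H p.1 ∧ p.2 ∉ side Q H (!p.1)) ∧ l.IsChain (fun x y => x.1 ≠ y.1)

variable (F) in
/-- The product of an alternating list. -/
abbrev aprod (l : List (Bool × F)) : F := (l.map Prod.snd).prod

theorem mem_inf_of_side {x : F} {b : Bool} (h : x ∈ side Q H b) (h' : x ∈ side Q H (!b)) :
    x ∈ Q ⊓ H := by
  cases b
  · exact ⟨h', h⟩
  · exact ⟨h, h'⟩

theorem isAlt_nil : IsAlt Q H [] := ⟨by simp, by simp⟩

theorem isAlt_concat {l : List (Bool × F)} {x : Bool × F} :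
    IsAlt Q H (l ++ [x]) ↔ IsAlt Q H l ∧ (x.2 ∈ side Q H x.1 ∧ x.2 ∉ side Q H (!x.1)) ∧
      ∀ y ∈ l.getLast?, y.1 ≠ x.1 := by
  unfold IsAlt
  rw [List.isChain_append]
  constructor
  · rintro ⟨h1, h2, _, h4⟩
    refine ⟨⟨fun p hp => h1 p (by simp [hp]), h2⟩, h1 x (by simp), ?_⟩
    intro y hy
    exact h4 y hy x (by simp)
  · rintro ⟨⟨h1, h2⟩, h3, h4⟩
    refine ⟨?_, h2, by simp, ?_⟩
    · intro p hp
      rcases List.mem_append.1 hp with hp | hp
      · exact h1 p hp
      · rw [List.mem_singleton] at hp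
        rw [hp]
        exact h3
    · intro y hy z hz
      simp only [List.head?_cons, Option.mem_def, Option.some.injEq] at hz
      rw [← hz]
      exact h4 y hy

theorem isAlt_cons {l : List (Bool × F)} {x : Bool × F} :
    IsAlt Q H (x :: l) ↔ IsAlt Q H l ∧ (x.2 ∈ side Q H x.1 ∧ x.2 ∉ side Q H (!x.1)) ∧
      ∀ y ∈ l.head?, x.1 ≠ y.1 := by
  have hx : x :: l = [x] ++ l := rfl
  unfold IsAlt
  rw [hx, List.isChain_append]
  constructor
  · rintro ⟨h1, _, h2, h4⟩
    refine ⟨⟨fun p hp => h1 p (by simp [hp]), h2⟩, h1 x (by simp), ?_⟩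
    intro y hy
    exact h4 x (by simp) y hy
  · rintro ⟨⟨h1, h2⟩, h3, h4⟩
    refine ⟨?_, by simp, h2, ?_⟩
    · intro p hp
      rcases List.mem_append.1 hp with hp | hp
      · rw [List.mem_singleton] at hp
        rw [hp]
        exact h3
      · exact h1 p hp
    · intro y hy z hz
      simp only [List.getLast?_singleton, Option.mem_def, Option.some.injEq] at hy
      rw [← hy]
      exact h4 z hz

/-- **Reduced word theorem**, base form. -/
theorem IsAlt.prod_notMem_inf (hA : Amalg Q H) {l : List (Bool × F)} (hl : IsAlt Q H l)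
    (hne : l ≠ []) : aprod F l ∉ Q ⊓ H := by
  intro hmem
  have hside : ∀ p ∈ l, p.2 ∈ side Q H p.1 := fun p hp => (hl.1 p hp).1
  let w : CoprodI.Word (fun b => side Q H b) :=
    { toList := l.pmap (fun p hp => ⟨p.1, ⟨p.2, hp⟩⟩) hside
      ne_one := by
        intro x hx
        obtain ⟨p, hp, rfl⟩ := List.mem_pmap.1 hx
        intro h1
        have : p.2 = 1 := congrArg Subtype.val h1
        exact (hl.1 p hp).2 (this ▸ Subgroup.one_mem _)
      chain_ne := by
        refine List.isChain_pmap_of_isChain (R := fun x y : Bool × F => x.1 ≠ y.1)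
          (p := fun p => p.2 ∈ side Q H p.1) ?_ hl.2 hside
        intro a b _ _ h
        exact h }
  have hred : PushoutI.Reduced (incl Q H) w := by
    intro x hx
    obtain ⟨p, hp, rfl⟩ := List.mem_pmap.1 hx
    rintro ⟨y, hy⟩
    apply (hl.1 p hp).2
    have h1 : (y : F) = p.2 := congrArg Subtype.val hy
    rw [← h1]
    exact inf_le_side Q H _ y.2
  have hprod : can Q H (PushoutI.ofCoprodI w.prod) = aprod F l := by
    have : ∀ (l : List (Bool × F)) (hs : ∀ p ∈ l, p.2 ∈ side Q H p.1),
        can Q H (PushoutI.ofCoprodI (List.prod ((l.pmap (fun p hp =>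
          (⟨p.1, ⟨p.2, hp⟩⟩ : Σ b, side Q H b)) hs).map fun x => CoprodI.of x.snd)))
          = aprod F l := by
      intro l
      induction l with
      | nil => intro _; simp [aprod]
      | cons x l ih =>
        intro hs
        have h2 := ih (fun p hp => hs p (List.mem_cons_of_mem _ hp))
        simp only [List.pmap_cons, List.map_cons, List.prod_cons, map_mul] at h2 ⊢
        rw [h2, PushoutI.ofCoprodI_of, can_of]
        simp [aprod]
    exact this l hside
  have hw : w = CoprodI.Word.empty := by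
    apply hred.eq_empty_of_mem_range
    · intro b x y hxy
      have h5 : (incl Q H b x : F) = (incl Q H b y : F) := congrArg Subtype.val hxy
      exact Subtype.ext h5
    · refine ⟨⟨_, hmem⟩, hA ?_⟩
      rw [can_base, hprod]
  have h3 : w.toList = [] := by rw [hw]; rfl
  apply hne
  have h4 : (w.toList).length = l.length := List.length_pmap
  rw [h3] at h4
  exact List.length_eq_zero_iff.1 h4.symm

theorem aprod_concat (l : List (Bool × F)) (x : Bool × F) :
    aprod F (l ++ [x]) = aprod F l * x.2 := by simp [aprod]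

/-- **Reduced word theorem**, side form. -/
theorem IsAlt.prod_notMem_side (hA : Amalg Q H) {l : List (Bool × F)} (hl : IsAlt Q H l)
    (hne : 2 ≤ l.length) (b : Bool) : aprod F l ∉ side Q H b := by
  intro hmem
  have hnot : ∀ (l' : List (Bool × F)), IsAlt Q H l' → l' ≠ [] → aprod F l' ≠ 1 := by
    intro l' h1 h2 h3
    exact h1.prod_notMem_inf hA h2 (h3 ▸ Subgroup.one_mem _)
  obtain rfl | ⟨l₁, x, rfl⟩ := List.eq_nil_or_concat' l
  · simp at hne
  obtain rfl | ⟨l₂, y, rfl⟩ := List.eq_nil_or_concat' l₁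
  · simp at hne
  rw [isAlt_concat] at hl
  obtain ⟨hl1, ⟨hx1, hx2⟩, hx3⟩ := hl
  have hl1' := hl1
  rw [isAlt_concat] at hl1
  obtain ⟨hl2, ⟨hy1, hy2⟩, hy3⟩ := hl1
  have hyx : y.1 ≠ x.1 := hx3 y (by simp)
  rw [aprod_concat] at hmem
  rcases x with ⟨c, x⟩
  rcases y with ⟨d, y⟩
  simp only at hx1 hx2 hyx hy1 hy2 hx3 hy3 hmem
  set P := aprod F (l₂ ++ [(d, y)]) * x with hP
  by_cases hcb : c = b
  · subst hcb
    have hd : d = !c := by cases c <;> cases d <;> simp_all
    subst hd
    by_cases hz : x * P⁻¹ ∈ side Q H (!c)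
    · have hz1 : x * P⁻¹ ∈ side Q H c := Subgroup.mul_mem _ hx1 (Subgroup.inv_mem _ hmem)
      apply hnot (l₂ ++ [(!c, y * (x * P⁻¹))])
      · rw [isAlt_concat]
        refine ⟨hl2, ⟨Subgroup.mul_mem _ hy1 hz, ?_⟩, hy3⟩
        intro h
        apply hy2
        have h6 := Subgroup.mul_mem _ h (Subgroup.inv_mem _ (show x * P⁻¹ ∈ side Q H (!(!c)) by
          simpa using hz1))
        have h7 : y * (x * P⁻¹) * (x * P⁻¹)⁻¹ = y := by group
        change y * (x * P⁻¹) * (x * P⁻¹)⁻¹ ∈ _ at h6
        rw [h7] at h6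
        exact h6
      · simp
      · rw [aprod_concat, hP, aprod_concat]
        simp only
        group
    · apply hnot ((l₂ ++ [(!c, y)]) ++ [(c, x * P⁻¹)])
      · rw [isAlt_concat]
        exact ⟨hl1', ⟨Subgroup.mul_mem _ hx1 (Subgroup.inv_mem _ hmem), hz⟩, hx3⟩
      · simp
      · rw [aprod_concat, hP]
        simp only
        group
  · have hc : c = !b := by cases c <;> cases b <;> simp_all
    subst hc
    by_cases hz : P ∈ side Q H (!b)
    · have hl' : IsAlt Q H ((l₂ ++ [(d, y)]) ++ [(!b, x)]) := by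
        rw [isAlt_concat]
        exact ⟨hl1', ⟨hx1, hx2⟩, hx3⟩
      apply hl'.prod_notMem_inf hA (by simp)
      rw [aprod_concat]
      exact mem_inf_of_side hmem hz
    · apply hnot (((l₂ ++ [(d, y)]) ++ [(!b, x)]) ++ [(b, P⁻¹)])
      · rw [isAlt_concat, isAlt_concat]
        refine ⟨⟨hl1', ⟨hx1, hx2⟩, hx3⟩, ⟨Subgroup.inv_mem _ hmem, ?_⟩, ?_⟩
        · intro h
          exact hz (by simpa using Subgroup.inv_mem _ h)
        · intro z hz'
          simp only [List.getLast?_append, List.getLast?_singleton, Option.some_or,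
            Option.mem_def, Option.some.injEq] at hz'
          rw [← hz']
          cases b <;> simp
      · simp
      · rw [aprod_concat, aprod_concat, hP]
        simp only
        group

/-- The amalgam criterion from fibre graphs. -/
theorem amalg_of_fib {A S₁ S₂ : Type*} {M₁ : PAut A S₁} {M₂ : PAut A S₂}
    (hT : (fib M₁ M₂).IsTree)
    (hK : ∀ a, ((fib M₁ M₂).induce (outS M₁ M₂ a)).Preconnected) : Amalg M₁.grp M₂.grp := by
  obtain ⟨ψ, h1, h2⟩ := extend (G := PushoutI (incl M₁.grp M₂.grp)) hT hK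
    (PushoutI.of (φ := incl M₁.grp M₂.grp) true) (PushoutI.of (φ := incl M₁.grp M₂.grp) false)
    (by
      intro g h₁ h₂
      have e1 := PushoutI.of_apply_eq_base (incl M₁.grp M₂.grp) true ⟨g, h₁, h₂⟩
      have e2 := PushoutI.of_apply_eq_base (incl M₁.grp M₂.grp) false ⟨g, h₁, h₂⟩
      exact e1.trans e2.symm)
  exact amalg_of_extend ψ h1 h2

end D0L.Tr
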