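import Pool.Agent.H.MP_374efc_lc.Tr.Ret
import Pool.Agent.H.MP_374efc_lc.Tr.Exact
import Pool.Agent.H.MP_374efc_lc.Tr.Push2

/-!
# The automaton of a bimarked rose, and the amalgam

`paut R hR` is the automaton (`PAut`) of a bimarked rose; its group is generated by the petals
(`grp_paut`). The fibre graph of the automata is the fibre graph `KK` of the roses (`fib_eq`).
`amalg_pr`: the group generated by the petals of `Q` and `H` is their amalgam over the intersection.
-/

set_option autoImplicit false

namespace D0L.Tr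

variable {α : Type*} [DecidableEq α] {Q H : Rose α}

/-- The group element of a positive word. -/
def wel (u : List α) : FreeGroup α := FreeGroup.mk (u.map fun a => (a, true))

omit [DecidableEq α] in
@[simp] theorem wel_nil : wel ([] : List α) = 1 := rfl

omit [DecidableEq α] in
theorem wel_cons (a : α) (u : List α) : wel (a :: u) = FreeGroup.of a * wel u := rfl

omit [DecidableEq α] in
theorem wel_append (u v : List α) : wel (u ++ v) = wel u * wel v := by
  unfold wel
  rw [List.map_append]
  exact FreeGroup.mul_mk.symm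

/-- The automaton of a bimarked rose. -/
def paut (R : Rose α) (hR : Bim R) : PAut α {s : List α // IsSt R s} where
  base := ⟨[], isSt_nil R⟩
  step s a := (step R s.1 a).pmap (fun t ht => (⟨t, ht⟩ : {s : List α // IsSt R s}))
    fun _ ht => step_isSt s.2 ht
  inj := by
    intro s s' a t h h'
    have h1 : step R s.1 a = some t.1 := by
      cases hs : step R s.1 a with
      | none => simp [hs] at h
      | some r => simp only [hs, Option.pmap_some, Option.some.injEq] at h; rw [← h]
    have h2 : step R s'.1 a = some t.1 := by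
      cases hs : step R s'.1 a with
      | none => simp [hs] at h'
      | some r => simp only [hs, Option.pmap_some, Option.some.injEq] at h'; rw [← h']
    exact Subtype.ext (step_inj hR s.2 s'.2 h1 h2)

variable {R : Rose α} {hR : Bim R}

theorem paut_step {s t : {s : List α // IsSt R s}} {a : α} :
    (paut R hR).step s a = some t ↔ step R s.1 a = some t.1 := by
  unfold paut
  cases hs : step R s.1 a with
  | none => simp [hs]
  | some r =>
    simp only [hs, Option.pmap_some, Option.some.injEq]
    exact Subtype.ext_iff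

theorem paut_base : (paut R hR).base = ⟨[], isSt_nil R⟩ := rfl

/-- Positive words are read in the automaton as in the rose. -/
theorem paut_rd {s t : {s : List α // IsSt R s}} {u : List α} :
    (paut R hR).Rd s (u.map fun a => (a, true)) t ↔ run R s.1 u = some t.1 := by
  induction u generalizing s with
  | nil =>
    rw [run_nil]
    simp only [List.map_nil, PAut.Rd, Option.some.injEq]
    exact Subtype.ext_iff
  | cons a u ih =>
    rw [run_cons, Option.bind_eq_some_iff]
    simp only [List.map_cons, PAut.Rd]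
    constructor
    · rintro ⟨r, h1, h2⟩
      exact ⟨r.1, paut_step.1 h1, ih.1 h2⟩
    · rintro ⟨r, h1, h2⟩
      exact ⟨⟨r, step_isSt s.2 h1⟩, paut_step.2 h1, ih.2 h2⟩

theorem paut_rdG {s t : {s : List α // IsSt R s}} {u : List α} (h : run R s.1 u = some t.1) :
    (paut R hR).RdG s (wel u) t := ⟨_, rfl, paut_rd.2 h⟩

/-! ### The group -/

/-- The petals as group elements. -/
def petals (R : Rose α) : Set (FreeGroup α) := {x | ∃ a l, R a = some l ∧ x = wel (a :: l)}

theorem rd_mem_closure {q q' : {s : List α // IsSt R s}} {L : List (α × Bool)}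
    (h : (paut R hR).Rd q L q') :
    (wel q.1)⁻¹ * FreeGroup.mk L * wel q'.1 ∈ Subgroup.closure (petals R) := by
  have key : ∀ (q q' : {s : List α // IsSt R s}) (a : α), step R q.1 a = some q'.1 →
      (wel q.1)⁻¹ * FreeGroup.of a * wel q'.1 ∈ Subgroup.closure (petals R) := by
    intro q q' a h
    rcases q with ⟨q, hq⟩
    cases q with
    | nil =>
      have h0 : R a = some q'.1 := h
      simp only [wel_nil, inv_one, one_mul]
      exact Subgroup.subset_closure ⟨a, q'.1, h0, wel_cons _ _⟩
    | cons b r =>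
      obtain ⟨rfl, h2⟩ := step_unique h
      rw [h2, wel_cons]
      have : (FreeGroup.of a * wel r)⁻¹ * FreeGroup.of a * wel r = 1 := by group
      rw [this]
      exact Subgroup.one_mem _
  induction L generalizing q with
  | nil =>
    obtain rfl : q = q' := h
    have : (wel q.1)⁻¹ * FreeGroup.mk [] * wel q.1 = 1 := by
      have h1 : (FreeGroup.mk [] : FreeGroup α) = 1 := rfl
      rw [h1]; group
    rw [this]
    exact Subgroup.one_mem _
  | cons x L ih =>
    obtain ⟨r, h1, h2⟩ := h
    have h3 := ih h2
    have h4 : (wel q.1)⁻¹ * FreeGroup.mk [x] * wel r.1 ∈ Subgroup.closure (petals R) := by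
      rcases x with ⟨a, _ | _⟩
      · have h5 : step R r.1 a = some q.1 := paut_step.1 h1
        have h6 := Subgroup.inv_mem _ (key r q a h5)
        have h7 : (FreeGroup.mk [(a, false)] : FreeGroup α) = (FreeGroup.of a)⁻¹ := rfl
        rw [h7]
        convert h6 using 1
        group
      · exact key q r a (paut_step.1 h1)
    have h5 := Subgroup.mul_mem _ h4 h3
    have h6 : (FreeGroup.mk (x :: L) : FreeGroup α) = FreeGroup.mk [x] * FreeGroup.mk L := rfl
    rw [h6]
    convert h5 using 1
    group

theorem grp_paut (R : Rose α) (hR : Bim R) :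
    (paut R hR).grp = Subgroup.closure (petals R) := by
  apply le_antisymm
  · rintro g ⟨L, rfl, hL⟩
    have := rd_mem_closure hL
    simpa [paut_base] using this
  · rw [Subgroup.closure_le]
    rintro x ⟨a, l, hl, rfl⟩
    exact paut_rdG (run_petal hl)

/-! ### The fibre graph -/

theorem rel_rd [Finite α] (hp : Pr Q H) {q q' : {s : List α // IsSt Q s}}
    {s s' : {s : List α // IsSt H s}} {L : List (α × Bool)} (h : Rel Q H q.1 s.1)
    (h1 : (paut Q hp.q).Rd q L q') (h2 : (paut H hp.h).Rd s L s') : Rel Q H q'.1 s'.1 := by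
  have := Fintype.ofFinite α
  induction L generalizing q s with
  | nil =>
    obtain rfl : q = q' := h1
    obtain rfl : s = s' := h2
    exact h
  | cons x L ih =>
    obtain ⟨r, h3, h4⟩ := h1
    obtain ⟨t, h5, h6⟩ := h2
    refine ih ?_ h4 h6
    rcases x with ⟨a, _ | _⟩
    · exact rel_back hp r.2 t.2 (paut_step.1 h3) (paut_step.1 h5) h
    · exact h.step (paut_step.1 h3) (paut_step.1 h5)

theorem fib_rel [Finite α] (hp : Pr Q H) {q : {s : List α // IsSt Q s}}
    {s : {s : List α // IsSt H s}} :
    (∃ g, (paut Q hp.q).RdG (paut Q hp.q).base g q ∧ (paut H hp.h).RdG (paut H hp.h).base g s) ↔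
      Rel Q H q.1 s.1 := by
  constructor
  · rintro ⟨g, h1, h2⟩
    obtain ⟨L, -, h3, h4⟩ := PAut.exists_common h1 h2
    exact rel_rd hp (rel_nil Q H) h3 h4
  · rintro ⟨u, h1, h2⟩
    exact ⟨wel u, paut_rdG h1, paut_rdG h2⟩

theorem fib_eq [Finite α] (hp : Pr Q H) : fib (paut Q hp.q) (paut H hp.h) = KK Q H := by
  ext v w
  rcases v with q | s <;> rcases w with q' | s'
  · exact Iff.rfl
  · exact fib_rel hp
  · exact fib_rel hp
  · exact Iff.rfl

theorem outS_eq (hp : Pr Q H) (a : α) :
    outS (paut Q hp.q) (paut H hp.h) a = {v | has Q H v a} := by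
  ext v
  rcases v with q | s
  · constructor
    · rintro ⟨t, ht⟩
      exact ⟨t.1, paut_step.1 ht⟩
    · rintro ⟨t, ht⟩
      exact ⟨⟨t, step_isSt q.2 ht⟩, paut_step.2 ht⟩
  · constructor
    · rintro ⟨t, ht⟩
      exact ⟨t.1, paut_step.1 ht⟩
    · rintro ⟨t, ht⟩
      exact ⟨⟨t, step_isSt s.2 ht⟩, paut_step.2 ht⟩

theorem kk_isTree [Finite α] (hp : Pr Q H) (hm : Mal H) (hh : Hull Q H) : (KK Q H).IsTree := by
  have : Nonempty (Vx Q H) := ⟨bQ Q H⟩
  exact ⟨⟨kk_conn hp hh⟩, kk_acyclic hp hm⟩

theorem kka_pre (hp : Pr Q H) (hh : Hull Q H) (a : α) :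
    ((KK Q H).induce {v | has Q H v a}).Preconnected := by
  rintro ⟨v, hv⟩ ⟨w, hw⟩
  have h := kka_conn hp hh a v w hv hw
  rw [SimpleGraph.reachable_iff_reflTransGen] at h
  induction h with
  | refl => exact SimpleGraph.Reachable.refl _
  | @tail x y _ hxy ih =>
    refine (ih hxy.2.1).trans (SimpleGraph.Adj.reachable ?_)
    exact hxy.1

theorem fib_isTree [Finite α] (hp : Pr Q H) (hm : Mal H) (hh : Hull Q H) :
    (fib (paut Q hp.q) (paut H hp.h)).IsTree := by
  rw [fib_eq hp]
  exact kk_isTree hp hm hh

theorem outS_pre [Finite α] (hp : Pr Q H) (hh : Hull Q H) (a : α) :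
    ((fib (paut Q hp.q) (paut H hp.h)).induce
      (outS (paut Q hp.q) (paut H hp.h) a)).Preconnected := by
  rw [fib_eq hp, outS_eq hp]
  exact kka_pre hp hh a

/-- **The amalgam.** -/
theorem amalg_pr [Finite α] (hp : Pr Q H) (hm : Mal H) (hh : Hull Q H) :
    Amalg (paut Q hp.q).grp (paut H hp.h).grp :=
  amalg_of_fib (fib_isTree hp hm hh) (outS_pre hp hh)

/-- The two groups generate the free group. -/
theorem sup_top (hQ : Bim Q) (hH : Bim H) (hh : Hull Q H) :
    (paut Q hQ).grp ⊔ (paut H hH).grp = ⊤ := by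
  have key : ∀ x : List α, wel x ∈ (paut Q hQ).grp ⊔ (paut H hH).grp := by
    refine hh (fun x => wel x ∈ (paut Q hQ).grp ⊔ (paut H hH).grp) ?_ ?_ ?_ ?_ ?_
    · exact Subgroup.one_mem _
    · intro x y hx hy
      rw [wel_append]
      exact Subgroup.mul_mem _ hx hy
    · intro x y hx hxy
      rw [wel_append] at hxy
      exact (Subgroup.mul_mem_cancel_left _ hx).1 hxy
    · intro a l hl
      exact (le_sup_left : (paut Q hQ).grp ≤ _) (paut_rdG (run_petal hl))
    · intro a l hl
      exact (le_sup_right : (paut H hH).grp ≤ _) (paut_rdG (run_petal hl))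
  rw [eq_top_iff, ← FreeGroup.closure_range_of, Subgroup.closure_le]
  rintro x ⟨a, rfl⟩
  have := key [a]
  rwa [wel_cons, wel_nil, mul_one] at this

end D0L.Tr
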