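import Pool.Agent.H.MP_374efc_lc.Tr.Core

/-!
# The core of the bimarked case for every `H`

As `CoreData.ne`, but `H` need not be malnormal: the hypothesis on the tokens which are not small says
only that at their ends (if these are not in `vH`) there is a vertex `X` between `vH` and the vertex of
the token which is different from the vertex of `vQ`.  The entries of the product are `x`, tokens which
fix `vH`, and pieces which fix `vQ`; two consecutive pieces can not be merged.
-/

set_option autoImplicit false

namespace D0L.Tr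

open SimpleGraph

variable {F V : Type*} [Group F] [MulAction F V] {G : SimpleGraph V} {vQ vH : V} {η : F → ℤ}
  {ι : Type*}

/-- The data of the core theorem for every `H`. -/
structure Core2 (T : TreeAct G vQ vH η) (z : ι → F) (x : F) (small : ι → Prop)
    (A B : F → Set V) (l : List (Option ι)) : Prop where
  hQ : ∀ j, z j • vH ≠ vH → z j • vQ = vQ
  hx : x • vH ≠ vH
  ηx : 0 < η x
  ηz : ∀ j, 0 ≤ η (z j)
  preA : ∀ g, (G.induce (A g)).Preconnected
  preB : ∀ g, (G.induce (B g)).Preconnected
  memA : ∀ g, g • vH ∈ A g
  memB : ∀ g, g • vH ∈ B g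
  /-- if the out-letter can be read after a block then the block has a token which is not small -/
  nro : ∀ g m, (∀ i ∈ m, z i • vH = vH) → g • vQ ∈ A (g * bv z m) →
    ∃ m1 i m2, m = m1 ++ i :: m2 ∧ ¬ small i ∧ bv z m1 • vQ = vQ
  /-- the same for the in-letter -/
  nri : ∀ g m, (∀ i ∈ m, z i • vH = vH) → (g * bv z m) • vQ ∈ B g →
    ∃ m1 i m2, m = m1 ++ i :: m2 ∧ ¬ small i ∧ bv z m2 • vQ = vQ
  big : ∀ l1 j l2, l = l1 ++ some j :: l2 → ¬ small j → val z x l1 • vH ≠ vH →
    ∃ X, G.Adj vH X ∧ G.Adj X (val z x l1 • vH) ∧ X ≠ val z x l1 • vQ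
  big' : ∀ l1 j l2, l = l1 ++ some j :: l2 → ¬ small j → (val z x l1 * z j) • vH ≠ vH →
    ∃ X, G.Adj vH X ∧ G.Adj X ((val z x l1 * z j) • vH) ∧ X ≠ (val z x l1 * z j) • vQ
  /-- `vH` has the out-letter and the in-letter of all factors `x` -/
  cut : ∀ l1 l2, l = l1 ++ none :: l2 → vH ∈ A (val z x l1) ∧ vH ∈ B (val z x l1 * x)
  merge : ∀ l1 j m j' l2, l = l1 ++ some j :: (m.map some ++ some j' :: l2) → z j • vH ≠ vH →
    z j' • vH ≠ vH → (∀ i ∈ m, z i • vH = vH) → bv z m • vQ ≠ vQ

variable {T : TreeAct G vQ vH η} {z : ι → F} {x : F} {small : ι → Prop} {A B : F → Set V}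
  {l : List (Option ι)}

/-- A path to `g vQ`, `g κ vH`. -/
theorem TreeAct.extend (T : TreeAct G vQ vH η) {c κ : F} (hκ : κ • vQ = vQ) (hκ' : κ • vH ≠ vH)
    {p : G.Walk vH (c • vH)} (hp : p.IsPath) (hc : c • vQ ∉ p.support) :
    ∃ p' : G.Walk vH ((c * κ) • vH), p'.IsPath ∧ p'.penultimate = (c * κ) • vQ := by
  have e1 : (c * κ) • vQ = c • vQ := by rw [mul_smul, hκ]
  have h1 : G.Adj (c • vH) (c • vQ) := (T.smul c _ _ T.base).symm
  have h2 : G.Adj (c • vQ) ((c * κ) • vH) := by
    rw [← e1]
    exact T.smul (c * κ) _ _ T.base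
  have hp1 : (p.concat h1).IsPath := hp.concat hc h1
  have hn : (c * κ) • vH ∉ (p.concat h1).support := by
    intro hn
    have h3 := T.acyc.eq_penultimate_of_adj_end hp1 h2 hn
    rw [Walk.penultimate_concat, mul_smul] at h3
    exact hκ' ((MulAction.injective c) h3)
  refine ⟨(p.concat h1).concat h2, hp1.concat hn h2, ?_⟩
  rw [Walk.penultimate_concat, e1]

/-- A path of length two is the path. -/
theorem TreeAct.two (T : TreeAct G vQ vH η) {a b X : V} (h1 : G.Adj a X) (h2 : G.Adj X b)
    (hab : a ≠ b) {p : G.Walk a b} (hp : p.IsPath) {v : V} (hv : v ∈ p.support) :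
    v = a ∨ v = X ∨ v = b := by
  have h3 : Lk G (fun v => v = a ∨ v = X ∨ v = b) a b :=
    Lk.trans (Lk.adj h1 (Or.inl rfl) (Or.inr (Or.inl rfl)))
      (Lk.adj h2 (Or.inr (Or.inl rfl)) (Or.inr (Or.inr rfl)))
  exact h3.path T.acyc hp v hv

theorem bv_fix {m : List ι} (hm : ∀ i ∈ m, z i • vH = vH) : bv z m • vH = vH := by
  induction m with
  | nil => rw [bv_nil, one_smul]
  | cons i m ih =>
    rw [bv_cons, mul_smul, ih fun j hj => hm j (List.mem_cons_of_mem _ hj),
      hm i List.mem_cons_self]

/-- The first phase: `x` and tokens which fix `vH`. -/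
def Ph1 (vH : V) (η : F → ℤ) (z : ι → F) (x : F) (l1 : List (Option ι)) : Prop :=
  ∃ (l0 : List (Option ι)) (m : List ι) (L : List F), l1 = l0 ++ none :: m.map some ∧ L ≠ [] ∧
    (∀ g ∈ L, g • vH = vH) ∧ (∀ g ∈ L, 0 ≤ η g) ∧ val z x l0 * x = runE x L ∧
    ∀ i ∈ m, z i • vH = vH

/-- The second phase: after a piece. -/
def Ph2 (G : SimpleGraph V) (vQ vH : V) (z : ι → F) (x : F) (l1 : List (Option ι)) : Prop :=
  ∃ (l0 : List (Option ι)) (j : ι) (m : List ι) (c : F), l1 = l0 ++ some j :: m.map some ∧
    z j • vH ≠ vH ∧ (∀ i ∈ m, z i • vH = vH) ∧ c = val z x l0 * z j ∧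
    ∃ p : G.Walk vH (c • vH), p.IsPath ∧ ¬ p.Nil ∧ p.penultimate = c • vQ

theorem path_ne {u v : V} {p : G.Walk u v} (hp : p.IsPath) (hn : ¬ p.Nil) : u ≠ v := by
  rintro rfl
  rw [Walk.isPath_iff_eq_nil] at hp
  rw [hp] at hn
  exact hn Walk.nil_nil

theorem not_nil_of_pen (T : TreeAct G vQ vH η) {c : F} {p : G.Walk vH (c • vH)}
    (h : p.penultimate = c • vQ) : ¬ p.Nil := by
  intro hn
  have h1 : p.penultimate ∈ p.support := Walk.getVert_mem_support _ _
  rw [Walk.nil_iff_support_eq.1 hn, List.mem_singleton, h, ← one_smul F vH] at h1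
  exact T.excl c 1 h1

/-- The phases. -/
theorem Core2.phase (D : Core2 T z x small A B l) : ∀ l1 l2, l = l1 ++ l2 →
    (∃ m : List ι, l1 = m.map some ∧ ∀ i ∈ m, z i • vH = vH) ∨ Ph1 vH η z x l1 ∨
      Ph2 G vQ vH z x l1 := by
  intro l1
  induction l1 using List.reverseRecOn with
  | nil => exact fun _ _ => Or.inl ⟨[], rfl, by simp⟩
  | append_singleton l1 o ih =>
    intro l2 hl
    have hl' : l = l1 ++ (o :: l2) := by rw [hl]; simp
    have ih := ih (o :: l2) hl'
    cases o with
    | none =>
      rcases ih with ⟨m, rfl, hm⟩ | ⟨l0, m, L, rfl, hL, h1, h2, h3, hm⟩ | h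
      · -- tokens, then `x`
        refine Or.inr (Or.inl ⟨m.map some, [], [bv z m], rfl, by simp, ?_, ?_, ?_, by simp⟩)
        · intro g hg
          rw [List.mem_singleton] at hg
          rw [hg]
          exact bv_fix hm
        · intro g hg
          rw [List.mem_singleton] at hg
          rw [hg]
          exact eta_bv T D.ηz m
        · rw [val_map]
          simp [runE]
      · refine Or.inr (Or.inl ⟨l0 ++ none :: m.map some, [], L ++ [bv z m], rfl, by simp, ?_, ?_,
          ?_, by simp⟩)
        · intro g hg
          rcases List.mem_append.1 hg with h | h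
          · exact h1 g h
          · rw [List.mem_singleton] at h
            rw [h]
            exact bv_fix hm
        · intro g hg
          rcases List.mem_append.1 hg with h | h
          · exact h2 g h
          · rw [List.mem_singleton] at h
            rw [h]
            exact eta_bv T D.ηz m
        · rw [runE_concat, ← h3, val_append, val_none, val_map]
          simp only [mul_assoc]
      · -- a piece, then `x`: impossible
        exfalso
        obtain ⟨l0, j, m, c, rfl, hj, hm, hc, p, hp, hnil, hpen⟩ := h
        have hv : val z x (l0 ++ some j :: m.map some) = c * bv z m := by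
          rw [val_append, val_some, val_map, hc, mul_assoc]
        have hne : vH ≠ c • vH := path_ne hp hnil
        have hA := (D.cut (l0 ++ some j :: m.map some) l2 hl').1
        rw [hv] at hA
        have h1 : (c * bv z m) • vH = c • vH := by rw [mul_smul, bv_fix hm]
        have h2 := D.memA (c * bv z m)
        rw [h1] at h2
        have h3 := (Lk.of_pre (D.preA (c * bv z m)) hA h2).path T.acyc hp p.penultimate
          (Walk.getVert_mem_support _ _)
        change p.penultimate ∈ A (c * bv z m) at h3
        rw [hpen] at h3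
        obtain ⟨m1, i, m2, h4, h5, h6⟩ := D.nro c m hm h3
        have h7 : val z x (l0 ++ some j :: m1.map some) = c * bv z m1 := by
          rw [val_append, val_some, val_map, hc, mul_assoc]
        have h8 : bv z m1 • vH = vH := bv_fix fun i' hi' => hm i' (by rw [h4]; simp [hi'])
        obtain ⟨X, hX1, hX2, hX3⟩ := D.big (l0 ++ some j :: m1.map some) i
          (m2.map some ++ none :: l2) (by rw [hl', h4]; simp) h5 (by
            rw [h7, mul_smul, h8]
            exact hne.symm)
        rw [h7, mul_smul, h8] at hX2
        rw [h7, mul_smul, h6] at hX3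
        have h9 := T.two hX1 hX2 hne hp (v := p.penultimate) (Walk.getVert_mem_support _ _)
        rw [hpen] at h9
        rcases h9 with h9 | h9 | h9
        · rw [← one_smul F vH] at h9
          exact T.excl c 1 h9
        · exact hX3 h9.symm
        · exact T.excl c c h9
    | some j =>
      by_cases hj : z j • vH = vH
      · -- a token which fixes `vH`
        have hmem : ∀ m : List ι, (∀ i ∈ m, z i • vH = vH) → ∀ i ∈ m ++ [j], z i • vH = vH := by
          intro m hm i hi
          rcases List.mem_append.1 hi with h | h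
          · exact hm i h
          · rw [List.mem_singleton] at h
            rw [h]
            exact hj
        rcases ih with ⟨m, rfl, hm⟩ | ⟨l0, m, L, rfl, hL, h1, h2, h3, hm⟩ |
            ⟨l0, j', m, c, rfl, hj', hm, h⟩
        · exact Or.inl ⟨m ++ [j], by simp, hmem m hm⟩
        · exact Or.inr (Or.inl ⟨l0, m ++ [j], L, by simp, hL, h1, h2, h3, hmem m hm⟩)
        · exact Or.inr (Or.inr ⟨l0, j', m ++ [j], c, by simp, hj', hmem m hm, h⟩)
      · -- a piece
        have hjQ := D.hQ j hj
        have key : ∀ p : G.Walk vH (val z x l1 • vH), p.IsPath → val z x l1 • vQ ∉ p.support →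
            Ph2 G vQ vH z x (l1 ++ [some j]) := by
          intro p hp hn
          obtain ⟨p', h1, h2⟩ := T.extend hjQ hj hp hn
          exact ⟨l1, j, [], _, rfl, hj, by simp, rfl, p', h1, not_nil_of_pen T h2, h2⟩
        refine Or.inr (Or.inr ?_)
        rcases ih with ⟨m, rfl, hm⟩ | ⟨l0, m, L, rfl, hL, h1, h2, h3, hm⟩ |
            ⟨l0, j', m, c, rfl, hj', hm, hc, p, hp, hnil, hpen⟩
        · have h1 : val z x (m.map some) • vH = vH := by
            rw [val_map]
            exact bv_fix hm
          refine key (Walk.nil.copy rfl h1.symm) (by simp) ?_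
          rw [Walk.support_copy, Walk.support_nil, List.mem_singleton]
          intro h2
          rw [← one_smul F vH] at h2
          exact T.excl _ 1 h2
        · obtain ⟨c, hc⟩ : ∃ c, c = val z x l0 * x := ⟨_, rfl⟩
          have hv : val z x (l0 ++ none :: m.map some) = c * bv z m := by
            rw [val_append, val_none, val_map, hc, mul_assoc]
          have h4 : (c * bv z m) • vH = c • vH := by rw [mul_smul, bv_fix hm]
          have hne : vH ≠ c • vH := by
            intro h0
            refine T.run D.hx D.ηx hL h1 h2 ?_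
            rw [← h3, ← hc]
            exact h0.symm
          obtain ⟨p, hp⟩ : ∃ p : G.Walk vH (c • vH), p.IsPath := by
            classical
            obtain ⟨p0⟩ := T.conn.preconnected vH (c • vH)
            exact ⟨p0.toPath.1, p0.toPath.2⟩
          have e1 : c • vH = val z x (l0 ++ none :: m.map some) • vH := by rw [hv, h4]
          refine key (p.copy rfl e1) ((Walk.isPath_copy _ _ _).2 hp) ?_
          rw [Walk.support_copy, hv]
          intro h5
          have hB := (D.cut l0 (m.map some ++ some j :: l2) (by rw [hl']; simp)).2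
          rw [← hc] at hB
          have h6 := (Lk.of_pre (D.preB c) hB (D.memB c)).path T.acyc hp _ h5
          obtain ⟨m1, i, m2, h7, h8, h9⟩ := D.nri c m hm h6
          have h10 : val z x (l0 ++ none :: m1.map some) * z i = c * bv z (m1 ++ [i]) := by
            rw [val_append, val_none, val_map, hc, bv_append, bv_cons, bv_nil, mul_one]
            simp only [mul_assoc]
          have h11 : bv z (m1 ++ [i]) • vH = vH := bv_fix fun i' hi' => hm i' (by
            rw [h7]
            rcases List.mem_append.1 hi' with h | h
            · simp [h]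
            · rw [List.mem_singleton] at h
              simp [h])
          have h12 : c * bv z m = c * bv z (m1 ++ [i]) * bv z m2 := by
            rw [mul_assoc, ← bv_append, h7]
            simp
          obtain ⟨X, hX1, hX2, hX3⟩ := D.big' (l0 ++ none :: m1.map some) i
            (m2.map some ++ some j :: l2) (by rw [hl', h7]; simp) h8 (by
              rw [h10, mul_smul, h11]
              exact hne.symm)
          rw [h10, mul_smul, h11] at hX2
          rw [h10] at hX3
          rcases T.two hX1 hX2 hne hp h5 with h13 | h13 | h13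
          · rw [← one_smul F vH] at h13
            exact T.excl _ 1 h13
          · refine hX3 ?_
            rw [← h13, h12, mul_smul _ (bv z m2), h9]
          · exact T.excl _ c h13
        · have hv : val z x (l0 ++ some j' :: m.map some) = c * bv z m := by
            rw [val_append, val_some, val_map, hc, mul_assoc]
          have h4 : (c * bv z m) • vH = c • vH := by rw [mul_smul, bv_fix hm]
          have e1 : c • vH = val z x (l0 ++ some j' :: m.map some) • vH := by rw [hv, h4]
          refine key (p.copy rfl e1) ((Walk.isPath_copy _ _ _).2 hp) ?_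
          rw [Walk.support_copy, hv]
          intro h5
          have h6 : G.Adj (c • vH) ((c * bv z m) • vQ) := by
            rw [← h4]
            exact (T.smul (c * bv z m) _ _ T.base).symm
          have h7 := T.acyc.eq_penultimate_of_adj_end hp h6 h5
          rw [hpen, mul_smul] at h7
          exact D.merge l0 j' m j l2 (by rw [hl']; simp) hj' hj hm ((MulAction.injective c) h7)

/-- CORE: a product with at least one `x` does not fix `vH`. -/
theorem Core2.ne (D : Core2 T z x small A B l) (hx : none ∈ l) : val z x l • vH ≠ vH := by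
  intro h
  rcases D.phase l [] (by simp) with ⟨m, hm, _⟩ | ⟨l0, m, L, h0, hL, h1, h2, h3, hm⟩ |
      ⟨l0, j, m, c, h0, hj, hm, hc, p, hp, hnil, hpen⟩
  · rw [hm] at hx
    simp at hx
  · refine T.run D.hx D.ηx hL h1 h2 ?_
    rw [← h3]
    rw [h0, val_append, val_none, val_map, ← mul_assoc, mul_smul, bv_fix hm] at h
    exact h
  · rw [h0, val_append, val_some, val_map, ← mul_assoc, mul_smul, bv_fix hm, ← hc] at h
    exact path_ne hp hnil h.symm

end D0L.Tr
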