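import Pool.Agent.H.MP_374efc_lc.Tr.Rose

/-!
# The fibres are connected (helper18's fibre theorem, finite form)

`kk_conn`: the fibre graph is connected; `kka_conn`: so is the fibre graph over every letter.
Hypotheses: `Pr Q H` (bimarked, `H` full, pure) and `Hull Q H`: every left-unitary submonoid that
contains all petals is everything.
-/

set_option autoImplicit false

namespace D0L.Tr

variable {α : Type*} [DecidableEq α] {Q H : Rose α}

/-- Every left-unitary submonoid which contains all petals is everything. -/
def Hull (Q H : Rose α) : Prop :=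
  ∀ G : List α → Prop, G [] → (∀ x y, G x → G y → G (x ++ y)) → (∀ x y, G x → G (x ++ y) → G y) →
    (∀ a l, Q a = some l → G (a :: l)) → (∀ a l, H a = some l → G (a :: l)) → ∀ x, G x

/-! ### Return to the pair of the bases -/

theorem ret_aux (hp : Pr Q H) : ∀ (u w : List α) (q0 s0 q s : List α),
    run Q q0 w = some [] → run H s0 w = some [] → run Q q0 u = some q → run H s0 u = some s →
    ∃ v, run Q q v = some [] ∧ run H s v = some [] := by
  intro u
  induction u with
  | nil =>
    intro w q0 s0 q s h1 h2 h3 h4
    rw [run_nil] at h3 h4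
    obtain rfl : q0 = q := by simpa using h3
    obtain rfl : s0 = s := by simpa using h4
    exact ⟨w, h1, h2⟩
  | cons a u ih =>
    intro w q0 s0 q s h1 h2 h3 h4
    rw [run_cons] at h3 h4
    cases hq : step Q q0 a with
    | none => rw [hq] at h3; simp at h3
    | some q1 =>
    cases hs : step H s0 a with
    | none => rw [hs] at h4; simp at h4
    | some s1 =>
    rw [hq] at h3
    rw [hs] at h4
    have h3' : run Q q1 u = some q := by simpa using h3
    have h4' : run H s1 u = some s := by simpa using h4
    -- a way home from `(q1, s1)`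
    have home : ∃ w', run Q q1 w' = some [] ∧ run H s1 w' = some [] := by
      by_cases hb : q0 = [] ∧ s0 = []
      · obtain ⟨rfl, rfl⟩ := hb
        obtain ⟨v, hv1, hv2⟩ := hp.pure a q1 hq
        rw [run_cons] at hv1 hv2
        rw [hq] at hv1
        rw [hs] at hv2
        exact ⟨v, by simpa using hv1, by simpa using hv2⟩
      · cases w with
        | nil =>
          rw [run_nil] at h1 h2
          exact (hb ⟨by simpa using h1, by simpa using h2⟩).elim
        | cons b w' =>
          rw [run_cons] at h1 h2
          cases hq' : step Q q0 b with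
          | none => rw [hq'] at h1; simp at h1
          | some q1' =>
          cases hs' : step H s0 b with
          | none => rw [hs'] at h2; simp at h2
          | some s1' =>
          have hab : a = b := by
            cases q0 with
            | cons c r => exact (step_unique hq).1.trans (step_unique hq').1.symm
            | nil =>
              cases s0 with
              | cons c r => exact (step_unique hs).1.trans (step_unique hs').1.symm
              | nil => exact (hb ⟨rfl, rfl⟩).elim
          subst hab
          rw [hq'] at h1 hq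
          rw [hs'] at h2 hs
          obtain rfl : q1' = q1 := by simpa using hq
          obtain rfl : s1' = s1 := by simpa using hs
          exact ⟨w', by simpa using h1, by simpa using h2⟩
    obtain ⟨w', hw1, hw2⟩ := home
    exact ih w' q1 s1 q s hw1 hw2 h3' h4'

/-- From a related pair a common word leads back to the bases. -/
theorem Rel.ret (hp : Pr Q H) {q s : List α} (h : Rel Q H q s) :
    ∃ v, run Q q v = some [] ∧ run H s v = some [] := by
  obtain ⟨u, h1, h2⟩ := h
  exact ret_aux hp u [] [] [] q s (run_nil _ _) (run_nil _ _) h1 h2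

theorem Rel.stQ {q s : List α} (h : Rel Q H q s) : IsSt Q q := by
  obtain ⟨u, h1, -⟩ := h
  exact run_isSt (isSt_nil Q) h1

theorem Rel.stH {q s : List α} (h : Rel Q H q s) : IsSt H s := by
  obtain ⟨u, -, h1⟩ := h
  exact run_isSt (isSt_nil H) h1

theorem rel_nil (Q H : Rose α) : Rel Q H [] [] := ⟨[], run_nil _ _, run_nil _ _⟩

theorem Rel.step {q s q' s' : List α} {a : α} (h : Rel Q H q s) (h1 : step Q q a = some q')
    (h2 : step H s a = some s') : Rel Q H q' s' := by
  obtain ⟨u, hu1, hu2⟩ := h
  refine ⟨u ++ [a], run_append_some hu1 ?_, run_append_some hu2 ?_⟩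
  · rw [run_cons, h1]; simp
  · rw [run_cons, h2]; simp

/-- A related pair which is not the pair of the bases has a common out-letter. -/
theorem Rel.out (hp : Pr Q H) {q s : List α} (h : Rel Q H q s) (hb : ¬ (q = [] ∧ s = [])) :
    ∃ a q' s', Tr.step Q q a = some q' ∧ Tr.step H s a = some s' := by
  obtain ⟨v, h1, h2⟩ := h.ret hp
  cases v with
  | nil =>
    rw [run_nil] at h1 h2
    exact (hb ⟨by simpa using h1, by simpa using h2⟩).elim
  | cons a v =>
    rw [run_cons] at h1 h2
    cases hq : Tr.step Q q a with
    | none => rw [hq] at h1; simp at h1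
    | some q' =>
    cases hs : Tr.step H s a with
    | none => rw [hs] at h2; simp at h2
    | some s' => exact ⟨a, q', s', hq, hs⟩

/-! ### The structure of the fibre graph: it is glued from the graphs over the letters -/

theorem has_bH (hp : Pr Q H) (a : α) : has Q H (bH Q H) a := by
  obtain ⟨l, hl⟩ := hp.full a
  exact ⟨l, hl⟩

theorem adj_b (Q H : Rose α) : (KK Q H).Adj (bQ Q H) (bH Q H) := rel_nil Q H

theorem kka_bH (hp : Pr Q H) {a : α} {w w' : Vx Q H} (h : (KK Q H).Adj w w')
    (hw : has Q H w a) (hw' : ¬ has Q H w' a) : (KKa Q H a).Reachable w (bH Q H) := by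
  rcases w with ⟨q, hq⟩ | ⟨s, hs⟩
  · rcases w' with ⟨q', hq'⟩ | ⟨s, hs⟩
    · exact h.elim
    · have hr : Rel Q H q s := h
      obtain ⟨t, ht⟩ := hw
      cases s with
      | nil => exact (hw' (has_bH hp a)).elim
      | cons c r =>
        cases q with
        | cons b r' =>
          obtain ⟨a', q', s', h1, h2⟩ := hr.out hp (by simp)
          obtain rfl : a = b := (step_unique ht).1
          obtain rfl : a' = a := (step_unique h1).1
          exact (hw' ⟨s', h2⟩).elim
        | nil =>
          refine SimpleGraph.Adj.reachable ⟨adj_b Q H, ⟨t, ht⟩, has_bH hp a⟩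
  · rcases w' with ⟨q, hq⟩ | ⟨s', hs'⟩
    · have hr : Rel Q H q s := h
      obtain ⟨t, ht⟩ := hw
      cases s with
      | nil => exact SimpleGraph.Reachable.refl _
      | cons c r =>
        obtain ⟨a', q', s', h1, h2⟩ := hr.out hp (by simp)
        obtain rfl : a = c := (step_unique ht).1
        obtain rfl : a' = a := (step_unique h2).1
        exact (hw' ⟨q', h1⟩).elim
    · exact h.elim

theorem kk_to_kka (hp : Pr Q H) {a : α} {v w : Vx Q H} (h : (KK Q H).Reachable v w)
    (hv : has Q H v a) (hw : has Q H w a) : (KKa Q H a).Reachable v w := by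
  have key : (has Q H w a → (KKa Q H a).Reachable v w) ∧
      (¬ has Q H w a → (KKa Q H a).Reachable v (bH Q H)) := by
    rw [SimpleGraph.reachable_iff_reflTransGen] at h
    clear hw
    induction h with
    | refl => exact ⟨fun _ => SimpleGraph.Reachable.refl _, fun h => (h hv).elim⟩
    | @tail w w' _ hadj ih =>
      by_cases h1 : has Q H w a
      · by_cases h2 : has Q H w' a
        · exact ⟨fun _ => (ih.1 h1).trans (SimpleGraph.Adj.reachable ⟨hadj, h1, h2⟩),
            fun h => (h h2).elim⟩
        · exact ⟨fun h => (h2 h).elim, fun _ => (ih.1 h1).trans (kka_bH hp hadj h1 h2)⟩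
      · by_cases h2 : has Q H w' a
        · exact ⟨fun _ => (ih.2 h1).trans (kka_bH hp hadj.symm h2 h1).symm,
            fun h => (h h2).elim⟩
        · exact ⟨fun h => (h2 h).elim, fun _ => ih.2 h1⟩
  exact key.1 hw

/-! ### Moves -/

/-- The vertex `v` is moved to `w` by the letter `a`. -/
def mv (Q H : Rose α) (a : α) : Vx Q H → Vx Q H → Prop
  | Sum.inl q, Sum.inl q' => step Q q.1 a = some q'.1
  | Sum.inr s, Sum.inr s' => step H s.1 a = some s'.1
  | _, _ => False

theorem mv.has {a : α} {v w : Vx Q H} (h : mv Q H a v w) : has Q H v a := by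
  rcases v with q | s <;> rcases w with q' | s'
  · exact ⟨q'.1, h⟩
  · exact h.elim
  · exact h.elim
  · exact ⟨s'.1, h⟩

theorem has.mv {a : α} {v : Vx Q H} (h : Tr.has Q H v a) : ∃ w, Tr.mv Q H a v w := by
  rcases v with q | s
  · obtain ⟨t, ht⟩ := h
    exact ⟨Sum.inl ⟨t, step_isSt q.2 ht⟩, ht⟩
  · obtain ⟨t, ht⟩ := h
    exact ⟨Sum.inr ⟨t, step_isSt s.2 ht⟩, ht⟩

theorem mv.unique {a : α} {v w w' : Vx Q H} (h : mv Q H a v w) (h' : mv Q H a v w') : w = w' := by
  rcases v with q | s <;> rcases w with w | w <;> rcases w' with w' | w'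
  all_goals first | exact h.elim | exact h'.elim | skip
  · have h1 : step Q q.1 a = some w.1 := h
    have h2 : step Q q.1 a = some w'.1 := h'
    rw [h1] at h2
    congr 1
    exact Subtype.ext (by simpa using h2)
  · have h1 : step H s.1 a = some w.1 := h
    have h2 : step H s.1 a = some w'.1 := h'
    rw [h1] at h2
    congr 1
    exact Subtype.ext (by simpa using h2)

theorem mv.inj (hp : Pr Q H) {a : α} {v v' w : Vx Q H} (h : mv Q H a v w)
    (h' : mv Q H a v' w) : v = v' := by
  rcases v with q | s <;> rcases w with w | w <;> rcases v' with v' | v'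
  all_goals first | exact h.elim | exact h'.elim | skip
  · congr 1
    exact Subtype.ext (step_inj hp.q q.2 v'.2 h h')
  · congr 1
    exact Subtype.ext (step_inj hp.h s.2 v'.2 h h')

/-- The move by a letter is a graph homomorphism from the fibre graph over the letter. -/
theorem mv.adj {a : α} {v w v' w' : Vx Q H} (h : (KK Q H).Adj v w) (hv : mv Q H a v v')
    (hw : mv Q H a w w') : (KK Q H).Adj v' w' := by
  rcases v with q | s <;> rcases w with w | w
  · exact h.elim
  · rcases v' with v' | v' <;> rcases w' with w' | w'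
    all_goals first | exact hv.elim | exact hw.elim | skip
    exact Rel.step (h : Rel Q H q.1 w.1) hv hw
  · rcases v' with v' | v' <;> rcases w' with w' | w'
    all_goals first | exact hv.elim | exact hw.elim | skip
    exact Rel.step (h : Rel Q H w.1 s.1) hw hv
  · exact h.elim

theorem mv_reach (hp : Pr Q H) {a : α} {v w v' w' : Vx Q H} (h : (KK Q H).Reachable v w)
    (hv : mv Q H a v v') (hw : mv Q H a w w') : (KK Q H).Reachable v' w' := by
  have h1 := kk_to_kka hp h hv.has hw.has
  rw [SimpleGraph.reachable_iff_reflTransGen] at h1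
  induction h1 generalizing w' with
  | refl => rw [hv.unique hw]
  | @tail w w1 hvw hadj ih =>
    obtain ⟨w2, hw2⟩ := has.mv hadj.2.1
    have h2 : (KK Q H).Reachable v w := by
      rw [SimpleGraph.reachable_iff_reflTransGen]
      have hle : (KKa Q H a).Adj ≤ (KK Q H).Adj := fun _ _ h => h.1
      exact Relation.ReflTransGen.mono hle _ _ hvw
    exact (ih h2 hw2).trans (mv.adj hadj.1 hw2 hw).reachable

/-! ### The quotient automaton -/

/-- The word `u` is read in the quotient automaton (states = components). -/
def Rd (Q H : Rose α) : List α → Vx Q H → Vx Q H → Prop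
  | [], v, w => (KK Q H).Reachable v w
  | a :: u, v, w => ∃ v1 v2, (KK Q H).Reachable v v1 ∧ mv Q H a v1 v2 ∧ Rd Q H u v2 w

theorem Rd.left {u : List α} {v v' w : Vx Q H} (h : (KK Q H).Reachable v v')
    (h' : Rd Q H u v' w) : Rd Q H u v w := by
  cases u with
  | nil => exact h.trans h'
  | cons a u =>
    obtain ⟨v1, v2, h1, h2, h3⟩ := h'
    exact ⟨v1, v2, h.trans h1, h2, h3⟩

theorem Rd.right {u : List α} {v w w' : Vx Q H} (h' : Rd Q H u v w)
    (h : (KK Q H).Reachable w w') : Rd Q H u v w' := by
  induction u generalizing v with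
  | nil => exact SimpleGraph.Reachable.trans h' h
  | cons a u ih =>
    obtain ⟨v1, v2, h1, h2, h3⟩ := h'
    exact ⟨v1, v2, h1, h2, ih h3⟩

theorem Rd.det (hp : Pr Q H) {u : List α} {v v' w w' : Vx Q H} (h : Rd Q H u v w)
    (h' : Rd Q H u v' w') (hv : (KK Q H).Reachable v v') : (KK Q H).Reachable w w' := by
  induction u generalizing v v' with
  | nil => exact (SimpleGraph.Reachable.symm h).trans (hv.trans h')
  | cons a u ih =>
    obtain ⟨v1, v2, h1, h2, h3⟩ := h
    obtain ⟨v1', v2', h1', h2', h3'⟩ := h'
    exact ih h3 h3' (mv_reach hp (h1.symm.trans (hv.trans h1')) h2 h2')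

theorem Rd.append {u u' : List α} {v m w : Vx Q H} (h : Rd Q H u v m) (h' : Rd Q H u' m w) :
    Rd Q H (u ++ u') v w := by
  induction u generalizing v with
  | nil => exact Rd.left h h'
  | cons a u ih =>
    obtain ⟨v1, v2, h1, h2, h3⟩ := h
    exact ⟨v1, v2, h1, h2, ih h3⟩

theorem Rd.split {u u' : List α} {v w : Vx Q H} (h : Rd Q H (u ++ u') v w) :
    ∃ m, Rd Q H u v m ∧ Rd Q H u' m w := by
  induction u generalizing v with
  | nil => exact ⟨v, SimpleGraph.Reachable.refl _, h⟩
  | cons a u ih =>
    obtain ⟨v1, v2, h1, h2, h3⟩ := h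
    obtain ⟨m, h4, h5⟩ := ih h3
    exact ⟨m, ⟨v1, v2, h1, h2, h4⟩, h5⟩

theorem rd_runQ {u : List α} {q t : List α} (hq : IsSt Q q) (h : run Q q u = some t) :
    Rd Q H u (Sum.inl ⟨q, hq⟩) (Sum.inl ⟨t, run_isSt hq h⟩) := by
  induction u generalizing q with
  | nil =>
    have h0 := h
    rw [run_nil] at h0
    obtain rfl : q = t := by simpa using h0
    exact SimpleGraph.Reachable.refl _
  | cons a u ih =>
    have h0 := h
    rw [run_cons] at h0
    cases h1 : step Q q a with
    | none => rw [h1] at h0; simp at h0
    | some r =>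
      rw [h1] at h0
      exact ⟨_, Sum.inl ⟨r, step_isSt hq h1⟩, SimpleGraph.Reachable.refl _, h1,
        ih (step_isSt hq h1) (by simpa using h0)⟩

theorem rd_runH {u : List α} {s t : List α} (hs : IsSt H s) (h : run H s u = some t) :
    Rd Q H u (Sum.inr ⟨s, hs⟩) (Sum.inr ⟨t, run_isSt hs h⟩) := by
  induction u generalizing s with
  | nil =>
    have h0 := h
    rw [run_nil] at h0
    obtain rfl : s = t := by simpa using h0
    exact SimpleGraph.Reachable.refl _
  | cons a u ih =>
    have h0 := h
    rw [run_cons] at h0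
    cases h1 : step H s a with
    | none => rw [h1] at h0; simp at h0
    | some r =>
      rw [h1] at h0
      exact ⟨_, Sum.inr ⟨r, step_isSt hs h1⟩, SimpleGraph.Reachable.refl _, h1,
        ih (step_isSt hs h1) (by simpa using h0)⟩

/-- Every state is reached from the base. -/
theorem IsSt.reach {R : Rose α} {s : List α} (h : IsSt R s) : ∃ u, run R [] u = some s := by
  rcases h with rfl | ⟨a, l, hl, p, hp⟩
  · exact ⟨[], run_nil _ _⟩
  · refine ⟨a :: p, ?_⟩
    rw [run_cons, step_nil, hl, ← hp]
    simpa using run_self_append R p s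

/-! ### The fibre theorem -/

theorem rd_all (hp : Pr Q H) (hh : Hull Q H) (u : List α) : Rd Q H u (bH Q H) (bH Q H) := by
  refine hh (fun u => Rd Q H u (bH Q H) (bH Q H)) (SimpleGraph.Reachable.refl _)
    (fun x y hx hy => hx.append hy) (fun x y hx hxy => ?_) (fun a l hl => ?_) (fun a l hl => ?_) u
  · obtain ⟨m, h1, h2⟩ := Rd.split hxy
    exact Rd.left (Rd.det hp hx h1 (SimpleGraph.Reachable.refl _)) h2
  · exact Rd.left (adj_b Q H).symm.reachable
      ((rd_runQ (isSt_nil Q) (run_petal hl)).right (adj_b Q H).reachable)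
  · exact rd_runH (isSt_nil H) (run_petal hl)

/-- The fibre graph is connected. -/
theorem kk_conn (hp : Pr Q H) (hh : Hull Q H) (v w : Vx Q H) : (KK Q H).Reachable v w := by
  have key : ∀ v : Vx Q H, (KK Q H).Reachable (bH Q H) v := by
    rintro (⟨q, hq⟩ | ⟨s, hs⟩)
    · obtain ⟨u, hu⟩ := hq.reach
      exact Rd.det hp (rd_all hp hh u) (rd_runQ (isSt_nil Q) hu) (adj_b Q H).symm.reachable
    · obtain ⟨u, hu⟩ := hs.reach
      exact Rd.det hp (rd_all hp hh u) (rd_runH (isSt_nil H) hu) (SimpleGraph.Reachable.refl _)
  exact (key v).symm.trans (key w)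

/-- The fibre graph over a letter is connected. -/
theorem kka_conn (hp : Pr Q H) (hh : Hull Q H) (a : α) (v w : Vx Q H) (hv : has Q H v a)
    (hw : has Q H w a) : (KKa Q H a).Reachable v w :=
  kk_to_kka hp (kk_conn hp hh v w) hv hw

end D0L.Tr
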