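import Mathlib

/-!
# Trees as metric spaces: the four point condition, junctions and runs

`TreeDist d`: `d` is the path metric of a tree (four point condition, parity, interpolation).
`run_ne`: steps D and E of helper18's BIMPROOF (and helper59's contact version) as an abstract theorem
on a group acting by isometries on a tree.
-/

namespace D0L.Tr

/-- `d` is the distance of a tree. -/
structure TreeDist {V : Type*} (d : V → V → ℕ) : Prop where
  zero : ∀ x, d x x = 0
  eq : ∀ {x y}, d x y = 0 → x = y
  symm : ∀ x y, d x y = d y x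
  four : ∀ x y z t, d x y + d z t ≤ max (d x z + d y t) (d x t + d y z)
  par : ∀ x y z, Even (d x y + d y z + d x z)
  btw : ∀ x y i, i ≤ d x y → ∃ z, d x z = i ∧ d z y = d x y - i

namespace TreeDist

variable {V : Type*} {d : V → V → ℕ}

theorem tri (h : TreeDist d) (x y z : V) : d x z ≤ d x y + d y z := by
  have h1 := h.four x z y y
  have h2 := h.zero y
  have h3 := h.symm z y
  omega

/-- Two points at the same distance from `p` on geodesics `[p,a]`, `[p,b]` which have a common
beginning of at least this length. -/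
theorem pt_eq (h : TreeDist d) {p a b z z' : V} {i : ℕ} (h1 : d p z = i) (h2 : d p z' = i)
    (h3 : d p a = i + d z a) (h4 : d p b = i + d z' b) (h5 : 2 * i + d a b ≤ d p a + d p b) :
    z = z' := by
  refine h.eq ?_
  have e1 := h.four z b a p
  have e2 := h.four z z' b p
  have s1 := h.symm z p
  have s2 := h.symm z' p
  have s3 := h.symm b p
  have s4 := h.symm b a
  have s5 := h.symm b z'
  have s6 := h.symm z' b
  have s7 := h.symm a p
  omega

/-- The three products at `q`: if `(a|r)` and `(a|s)` are different then `(r|s)` is the smaller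
one. Here `2(a|r) > 2(a|s)` gives `2(r|s) = 2(a|s)`. -/
theorem three (h : TreeDist d) {q a r s : V}
    (h1 : d q s + d a r < d q r + d a s) : d r s + d q a = d q r + d a s := by
  have e1 := h.four r s q a
  have e2 := h.four a s q r
  have e3 := h.four q a r s
  have e4 := h.four q r a s
  have s1 := h.symm r q
  have s2 := h.symm s q
  have s3 := h.symm a q
  have s4 := h.symm r a
  have s5 := h.symm s a
  have s6 := h.symm s r
  omega

end TreeDist

/-- Setting: a group acting on a tree without inversions; `qt u` = the vertex `u` is of Q-type;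
`η` a homomorphism to the integers which vanishes on the stabilisers of vertices of Q-type; `x` an
element, `v` a vertex of H-type, `U` the midpoint of `[v, xv]`, `Um`, `Up` the vertices before and
after `U`. -/
structure RunData {G V : Type*} [Group G] [MulAction G V] (d : V → V → ℕ) (qt : V → Prop)
    (η : G → ℤ) (x : G) (v U Um Up : V) (m : ℕ) : Prop where
  tree : TreeDist d
  iso : ∀ (g : G) a b, d (g • a) (g • b) = d a b
  typ : ∀ a b, d a b = 1 → (qt a ↔ ¬ qt b)
  mul : ∀ g g', η (g * g') = η g + η g'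
  fix : ∀ (g : G) u, qt u → g • u = u → η g = 0
  dx : d v (x • v) = 2 * m
  dU : d v U = m
  dU' : d U (x • v) = m
  dUm : d v Um + 1 = m
  dUm1 : d Um U = 1
  dUm' : d Um (x • v) = m + 1
  dUp : d v Up = m + 1
  dUp1 : d U Up = 1
  dUp' : d Up (x • v) + 1 = m

namespace RunData

variable {G V : Type*} [Group G] [MulAction G V] {d : V → V → ℕ} {qt : V → Prop}
  {η : G → ℤ} {x : G} {v U Um Up : V} {m : ℕ}

theorem one (h : RunData d qt η x v U Um Up m) : η 1 = 0 := by
  have h1 := h.mul 1 1
  rw [one_mul] at h1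
  omega

/-- At a junction `x c x` with `c v = v`, `η (x c) ≠ 0`, at most the half cancels. -/
theorem le_half (h : RunData d qt η x v U Um Up m) {c : G} (hc : c • v = v)
    (hη : η (x * c) ≠ 0) : 2 * m ≤ d v ((x * c * x) • v) := by
  by_contra hlt
  rw [not_le] at hlt
  have hg : (x * c) • v = x • v := by rw [mul_smul, hc]
  -- the doubled cancellation is at least `2 m + 2`
  have hpar := h.tree.par v (x • v) ((x * c * x) • v)
  have e1 : d (x • v) ((x * c * x) • v) = 2 * m := by
    have := h.iso (x * c) v (x • v)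
    rw [hg, ← mul_smul] at this
    rw [this, h.dx]
  have hdx := h.dx
  obtain ⟨k, hk⟩ := hpar
  have hle : d v ((x * c * x) • v) + 2 ≤ 2 * m := by omega
  have s1 := h.tree.symm (x • v) v
  -- `g U = U`
  have hU : (x * c) • U = U := by
    refine h.tree.pt_eq (p := x • v) (a := (x * c * x) • v) (b := v) (i := m) ?_ ?_ ?_ ?_ ?_
    · rw [← hg, h.iso, h.dU]
    · rw [h.tree.symm, h.dU']
    · rw [e1, mul_smul (x * c) x v, h.iso, h.dU']
      omega
    · rw [s1, hdx, h.tree.symm U v, h.dU]
      omega
    · rw [h.tree.symm ((x * c * x) • v) v]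
      omega
  have hUp : (x * c) • Up = Um := by
    refine h.tree.pt_eq (p := x • v) (a := (x * c * x) • v) (b := v) (i := m + 1) ?_ ?_ ?_ ?_ ?_
    · rw [← hg, h.iso, h.dUp]
    · rw [h.tree.symm, h.dUm']
    · have := h.dUp'
      rw [e1, mul_smul (x * c) x v, h.iso]
      omega
    · have := h.dUm
      rw [s1, hdx, h.tree.symm Um v]
      omega
    · rw [h.tree.symm ((x * c * x) • v) v]
      omega
  have hUm : (x * c) • Um = Up := by
    have h3 := h.dUm
    have h4 := h.dUp'
    refine h.tree.pt_eq (p := x • v) (a := (x * c * x) • v) (b := v) (i := d v Um) ?_ ?_ ?_ ?_ ?_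
    · rw [← hg, h.iso]
    · rw [h.tree.symm]
      omega
    · rw [e1, mul_smul (x * c) x v, h.iso, h.dUm']
      omega
    · rw [s1, hdx, h.tree.symm Up v, h.dUp]
      omega
    · rw [h.tree.symm ((x * c * x) • v) v]
      omega
  by_cases hq : qt U
  · exact hη (h.fix _ _ hq hU)
  · have hq' : qt Um := (h.typ Um U h.dUm1).2 hq
    have h5 : ((x * c) * (x * c)) • Um = Um := by rw [mul_smul, hUm, hUp]
    have h6 := h.fix _ _ hq' h5
    rw [h.mul] at h6
    omega

/-- If exactly the half cancels then `x c` fixes the midpoint and maps `Um` to `Up`. -/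
theorem of_half (h : RunData d qt η x v U Um Up m) {c : G} (hc : c • v = v)
    (hη : η (x * c) ≠ 0) (hd : d v ((x * c * x) • v) = 2 * m) :
    (x * c) • U = U ∧ (x * c) • Um = Up ∧ qt Um := by
  have hg : (x * c) • v = x • v := by rw [mul_smul, hc]
  have e1 : d (x • v) ((x * c * x) • v) = 2 * m := by
    have := h.iso (x * c) v (x • v)
    rw [hg, ← mul_smul] at this
    rw [this, h.dx]
  have hdx := h.dx
  have s1 := h.tree.symm (x • v) v
  have hU : (x * c) • U = U := by
    refine h.tree.pt_eq (p := x • v) (a := (x * c * x) • v) (b := v) (i := m) ?_ ?_ ?_ ?_ ?_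
    · rw [← hg, h.iso, h.dU]
    · rw [h.tree.symm, h.dU']
    · rw [e1, mul_smul (x * c) x v, h.iso, h.dU']
      omega
    · rw [s1, hdx, h.tree.symm U v, h.dU]
      omega
    · rw [h.tree.symm ((x * c * x) • v) v]
      omega
  have hUm : (x * c) • Um = Up := by
    have h3 := h.dUm
    have h4 := h.dUp'
    refine h.tree.pt_eq (p := x • v) (a := (x * c * x) • v) (b := v) (i := d v Um) ?_ ?_ ?_ ?_ ?_
    · rw [← hg, h.iso]
    · rw [h.tree.symm]
      omega
    · rw [e1, mul_smul (x * c) x v, h.iso, h.dUm']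
      omega
    · rw [s1, hdx, h.tree.symm Up v, h.dUp]
      omega
    · rw [h.tree.symm ((x * c * x) • v) v]
      omega
  refine ⟨hU, hUm, (h.typ Um U h.dUm1).2 fun hq => hη (h.fix _ _ hq hU)⟩

/-- The invariant: `P` ends with an `x` whose last half is the end of `[v, Pv]`. -/
def Inv (d : V → V → ℕ) (η : G → ℤ) (x : G) (v U Um : V) (m : ℕ) (P : G) : Prop :=
  ∃ P0 r : G, P = P0 * r * x ∧ r • U = U ∧ 0 ≤ η r ∧ d v (P • v) = d v (P0 • Um) + 1 + m

theorem inv_start (h : RunData d qt η x v U Um Up m) {c : G}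
    (hc : c • v = v ∨ d (c⁻¹ • v) (x • v) = d v (c⁻¹ • v) + 2 * m) :
    Inv d η x v U Um m (c * x) := by
  refine ⟨c, 1, by rw [mul_one], one_smul _ _, (h.one).ge, ?_⟩
  have h1 := h.dUm
  have h2 := h.dUm'
  have h3 := h.dx
  rcases hc with hc | hc
  · have e1 : d v (c • Um) = d v Um := by
      have := h.iso c v Um
      rwa [hc] at this
    have e2 : d v ((c * x) • v) = 2 * m := by
      have := h.iso c v (x • v)
      rw [hc, ← mul_smul] at this
      rw [this, h3]
    omega
  · have e1 : d v (c • Um) = d (c⁻¹ • v) Um := by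
      have := h.iso c⁻¹ v (c • Um)
      rw [inv_smul_smul] at this
      exact this.symm
    have e2 : d v ((c * x) • v) = d (c⁻¹ • v) (x • v) := by
      have := h.iso c⁻¹ v ((c * x) • v)
      rw [mul_smul, inv_smul_smul] at this
      rw [mul_smul]
      exact this.symm
    have t1 := h.tree.tri (c⁻¹ • v) Um (x • v)
    have t2 := h.tree.tri (c⁻¹ • v) v Um
    have s1 := h.tree.symm (c⁻¹ • v) v
    omega

/-- One more piece. -/
theorem inv_step (h : RunData d qt η x v U Um Up m) {P : G} (hP : Inv d η x v U Um m P) {c : G}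
    (hc : (c • v = v ∧ 1 ≤ η (x * c)) ∨ (c • v ≠ v ∧ d (x⁻¹ • v) (c • v) = 2 * m + d v (c • v) ∧
      d (c⁻¹ • v) (x • v) = d v (c⁻¹ • v) + 2 * m)) :
    Inv d η x v U Um m (P * c * x) := by
  obtain ⟨P0, r, hPe, hrU, hr, hd⟩ := hP
  have hm1 := h.dUm
  have hm2 := h.dUm'
  have hdx := h.dx
  have hdU := h.dU
  have hdU' := h.dU'
  -- distances from `q = P v`
  have hq : P • v = (P0 * r) • (x • v) := by rw [hPe, ← mul_smul]
  have hqU : d (P • v) (P0 • U) = m := by
    have h1 : P0 • U = (P0 * r) • U := by rw [mul_smul, hrU]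
    rw [hq, h1, h.iso, h.tree.symm, hdU']
  have hUE : d (P0 • Um) (P0 • U) = 1 := by rw [h.iso, h.dUm1]
  have t1 := h.tree.tri v (P0 • U) (P • v)
  have t2 := h.tree.tri v (P0 • Um) (P0 • U)
  have s1 := h.tree.symm (P • v) (P0 • U)
  have s2 := h.tree.symm (P • v) v
  have hvU : d v (P0 • U) = d v (P0 • Um) + 1 := by omega
  -- the start of the last run
  have hqr : d (P • v) ((P0 * r) • v) = 2 * m := by
    rw [hq, h.iso, h.tree.symm, hdx]
  have hrU' : d (P0 • U) ((P0 * r) • v) = m := by
    have h1 : P0 • U = (P0 * r) • U := by rw [mul_smul, hrU]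
    rw [h1, h.iso, h.tree.symm, hdU]
  -- `(v | P0 r v)` at `P v` is at least `m`
  have hvr : d v ((P0 * r) • v) + 2 * m ≤ d v (P • v) + 2 * m := by
    have e1 := h.tree.four v ((P0 * r) • v) (P0 • U) (P • v)
    have s3 := h.tree.symm v (P0 • U)
    have s4 := h.tree.symm ((P0 * r) • v) (P0 • U)
    have s5 := h.tree.symm ((P0 * r) • v) (P • v)
    omega
  rcases hc with ⟨hc, hη⟩ | ⟨hcne, hc1, hc2⟩
  · -- connector in `H`
    have hPc : (P * c) • v = P • v := by rw [mul_smul, hc]
    have hqb : d (P • v) ((P * c * x) • v) = 2 * m := by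
      have := h.iso (P * c) v (x • v)
      rw [hPc, ← mul_smul] at this
      rw [this, hdx]
    have hrb : d ((P0 * r) • v) ((P * c * x) • v) = d v ((x * c * x) • v) := by
      have h1 : (P * c * x) • v = (P0 * r) • ((x * c * x) • v) := by
        rw [← mul_smul, hPe]
        simp only [mul_assoc]
      rw [h1, h.iso]
    have hle := h.le_half hc (by omega)
    rcases Nat.lt_or_ge (2 * m) (d v ((x * c * x) • v)) with hlt | hge
    · -- less than half cancels
      refine ⟨P * c, 1, by rw [mul_one], one_smul _ _, (h.one).ge, ?_⟩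
      have hpar := h.tree.par v (x • v) ((x * c * x) • v)
      have e1 : d (x • v) ((x * c * x) • v) = 2 * m := by
        have hg : (x * c) • v = x • v := by rw [mul_smul, hc]
        have := h.iso (x * c) v (x • v)
        rw [hg, ← mul_smul] at this
        rw [this, hdx]
      obtain ⟨k, hk⟩ := hpar
      have h3 := h.tree.three (q := P • v) (a := (P0 * r) • v) (r := v) (s := (P * c * x) • v)
      have s6 := h.tree.symm ((P0 * r) • v) v
      have hz1 : d (P • v) ((P * c) • Um) = d v Um := by
        rw [← hPc, h.iso]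
      have hz2 : d ((P * c) • Um) ((P * c * x) • v) = m + 1 := by
        rw [mul_smul (P * c) x v, h.iso, hm2]
      have h4 := h.tree.four (P • v) ((P * c * x) • v) v ((P * c) • Um)
      have h5 := h.tree.four v ((P * c) • Um) (P • v) ((P * c * x) • v)
      have t3 := h.tree.tri v ((P * c) • Um) ((P * c * x) • v)
      have s7 := h.tree.symm ((P * c * x) • v) v
      have s8 := h.tree.symm ((P * c * x) • v) ((P * c) • Um)
      have s9 := h.tree.symm ((P * c) • Um) (P • v)
      have s10 := h.tree.symm ((P * c) • Um) v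
      omega
    · -- half cancels: the run goes on
      obtain ⟨hU1, hU2, hqt⟩ := h.of_half hc (by omega) (by omega)
      refine ⟨P0, r * (x * c), ?_, by rw [mul_smul, hU1, hrU], by rw [h.mul]; omega, ?_⟩
      · rw [hPe]
        simp only [mul_assoc]
      · have hE : (P0 * (r * (x * c))) • Up ≠ P0 • Um := by
          intro hE
          rw [mul_smul, smul_left_cancel_iff] at hE
          have h6 : (r * (x * c) * (x * c)) • Um = Um := by
            rw [mul_smul, hU2, hE]
          have h7 := h.fix _ _ hqt h6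
          rw [h.mul, h.mul] at h7
          omega
        have hU3 : (P0 * (r * (x * c))) • U = P0 • U := by
          rw [mul_smul, mul_smul, hU1, hrU]
        have hb : (P * c * x) • v = (P0 * (r * (x * c))) • (x • v) := by
          rw [← mul_smul, hPe]
          simp only [mul_assoc]
        have hUp : d (P0 • U) ((P0 * (r * (x * c))) • Up) = 1 := by
          rw [← hU3, h.iso, h.dUp1]
        have hUb : d (P0 • U) ((P * c * x) • v) = m := by
          rw [← hU3, hb, h.iso, hdU']
        have hUpb : d ((P0 * (r * (x * c))) • Up) ((P * c * x) • v) + 1 = m := by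
          rw [hb, h.iso, h.dUp']
        have hEE : d ((P0 * (r * (x * c))) • Up) (P0 • Um) ≠ 0 := fun h0 => hE (h.tree.eq h0)
        have hpar := h.tree.par (P0 • U) ((P0 * (r * (x * c))) • Up) (P0 • Um)
        obtain ⟨k, hk⟩ := hpar
        have s3 := h.tree.symm (P0 • U) (P0 • Um)
        -- `d v (Up') = d v U' + 1`
        have h8 := h.tree.three (q := P0 • U) (a := P0 • Um) (r := v)
          (s := (P0 * (r * (x * c))) • Up)
        have s4 := h.tree.symm (P0 • U) v
        have s5 := h.tree.symm (P0 • Um) v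
        have s6 := h.tree.symm ((P0 * (r * (x * c))) • Up) (P0 • Um)
        -- then `d v b = d v U' + m`
        have h9 := h.tree.three (q := P0 • U) (a := (P0 * (r * (x * c))) • Up)
          (r := (P * c * x) • v) (s := v)
        have s7 := h.tree.symm ((P0 * (r * (x * c))) • Up) v
        have s8 := h.tree.symm ((P * c * x) • v) v
        have t3 := h.tree.tri ((P0 * (r * (x * c))) • Up) (P0 • U) (P0 • Um)
        have s9 := h.tree.symm ((P0 * (r * (x * c))) • Up) (P0 • U)
        omega
  · -- rigid connector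
    refine ⟨P * c, 1, by rw [mul_one], one_smul _ _, (h.one).ge, ?_⟩
    have hcv : d v (c • v) ≠ 0 := fun h0 => hcne (h.tree.eq h0).symm
    have f1 : d (P • v) ((P * c) • v) = d v (c • v) := by rw [mul_smul, h.iso]
    have f2 : d ((P0 * r) • v) ((P * c) • v) = d (x⁻¹ • v) (c • v) := by
      have h1 : (P0 * r) • v = P • (x⁻¹ • v) := by rw [← mul_smul, hPe, mul_inv_cancel_right]
      rw [h1, mul_smul P c v, h.iso]
    have s6 := h.tree.symm ((P0 * r) • v) v
    have h3 := h.tree.three (q := P • v) (a := (P0 * r) • v) (r := v) (s := (P * c) • v)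
    have f3 : d v ((P * c) • v) = d v (P • v) + d v (c • v) := by omega
    have f4 : d ((P * c) • v) ((P * c * x) • v) = 2 * m := by
      rw [mul_smul (P * c) x v, h.iso, hdx]
    have f5 : d (P • v) ((P * c * x) • v) = d v (c⁻¹ • v) + 2 * m := by
      have h1 : P • v = (P * c) • (c⁻¹ • v) := by rw [← mul_smul, mul_inv_cancel_right]
      rw [h1, mul_smul (P * c) x v, h.iso, hc2]
    have f6 : d v (c⁻¹ • v) = d v (c • v) := by
      have := h.iso c v (c⁻¹ • v)
      rw [smul_inv_smul] at this
      rw [← this, h.tree.symm]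
    have s7 := h.tree.symm ((P * c) • v) v
    have s8 := h.tree.symm ((P * c) • v) (P • v)
    have h4 := h.tree.three (q := (P * c) • v) (a := P • v) (r := v) (s := (P * c * x) • v)
    have f7 : d v ((P * c * x) • v) = d v ((P * c) • v) + 2 * m := by omega
    have hz1 : d ((P * c) • v) ((P * c) • Um) = d v Um := by rw [h.iso]
    have hz2 : d ((P * c) • Um) ((P * c * x) • v) = m + 1 := by
      rw [mul_smul (P * c) x v, h.iso, hm2]
    have t3 := h.tree.tri v ((P * c) • Um) ((P * c * x) • v)
    have t4 := h.tree.tri v ((P * c) • v) ((P * c) • Um)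
    omega

theorem inv_list (h : RunData d qt η x v U Um Up m) : ∀ (l : List G) {P : G},
    Inv d η x v U Um m P →
    (∀ c ∈ l, (c • v = v ∧ 1 ≤ η (x * c)) ∨ (c • v ≠ v ∧ d (x⁻¹ • v) (c • v) = 2 * m + d v (c • v) ∧
      d (c⁻¹ • v) (x • v) = d v (c⁻¹ • v) + 2 * m)) →
    Inv d η x v U Um m (P * (l.map fun e => e * x).prod) := by
  intro l
  induction l with
  | nil => intro P hP _; simpa using hP
  | cons c l ih =>
    intro P hP hl
    have h1 := ih (h.inv_step hP (hl c (List.mem_cons_self))) fun e he =>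
      hl e (List.mem_cons_of_mem _ he)
    simpa [mul_assoc] using h1

/-- **Junctions and runs.** `c₀ x c₁ x … c_(t-1) x c_t` does not fix `v` (`t ≥ 1`), if each interior
`c_i` either fixes `v` and `η (x c_i) ≥ 1`, or does not fix `v` and there is no cancellation in
`x c_i`, `c_i x`; for `c₀`, `c_t` there is no condition if they fix `v`. -/
theorem run_ne (h : RunData d qt η x v U Um Up m) {c c' : G} {l : List G}
    (h0 : c • v = v ∨ d (c⁻¹ • v) (x • v) = d v (c⁻¹ • v) + 2 * m)
    (h1 : ∀ e ∈ l, (e • v = v ∧ 1 ≤ η (x * e)) ∨ (e • v ≠ v ∧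
      d (x⁻¹ • v) (e • v) = 2 * m + d v (e • v) ∧ d (e⁻¹ • v) (x • v) = d v (e⁻¹ • v) + 2 * m))
    (h2 : c' • v = v ∨ (c' • v ≠ v ∧ d (x⁻¹ • v) (c' • v) = 2 * m + d v (c' • v))) :
    (c * x * (l.map fun e => e * x).prod * c') • v ≠ v := by
  have hI := h.inv_list l (h.inv_start h0) h1
  generalize (c * x * (l.map fun e => e * x).prod) = P at hI
  intro hv
  obtain ⟨P0, r, hPe, hrU, hr, hd⟩ := hI
  rcases h2 with h2 | ⟨h2, h3⟩
  · rw [mul_smul, h2] at hv
    rw [hv, h.tree.zero] at hd
    omega
  · have hm1 := h.dUm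
    have hdx := h.dx
    have hdU := h.dU
    have hdU' := h.dU'
    have hq : P • v = (P0 * r) • (x • v) := by rw [hPe, ← mul_smul]
    have hqU : d (P • v) (P0 • U) = m := by
      have h1 : P0 • U = (P0 * r) • U := by rw [mul_smul, hrU]
      rw [hq, h1, h.iso, h.tree.symm, hdU']
    have hUE : d (P0 • Um) (P0 • U) = 1 := by rw [h.iso, h.dUm1]
    have t1 := h.tree.tri v (P0 • U) (P • v)
    have t2 := h.tree.tri v (P0 • Um) (P0 • U)
    have s1 := h.tree.symm (P • v) (P0 • U)
    have s2 := h.tree.symm (P • v) v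
    have hqr : d (P • v) ((P0 * r) • v) = 2 * m := by
      rw [hq, h.iso, h.tree.symm, hdx]
    have hrU' : d (P0 • U) ((P0 * r) • v) = m := by
      have h1 : P0 • U = (P0 * r) • U := by rw [mul_smul, hrU]
      rw [h1, h.iso, h.tree.symm, hdU]
    have e1 := h.tree.four v ((P0 * r) • v) (P0 • U) (P • v)
    have s3 := h.tree.symm v (P0 • U)
    have s4 := h.tree.symm ((P0 * r) • v) (P0 • U)
    have s5 := h.tree.symm ((P0 * r) • v) (P • v)
    have f1 : d (P • v) ((P * c') • v) = d v (c' • v) := by rw [mul_smul, h.iso]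
    have f2 : d ((P0 * r) • v) ((P * c') • v) = d (x⁻¹ • v) (c' • v) := by
      have h1 : (P0 * r) • v = P • (x⁻¹ • v) := by rw [← mul_smul, hPe, mul_inv_cancel_right]
      rw [h1, mul_smul P c' v, h.iso]
    have s6 := h.tree.symm ((P0 * r) • v) v
    have h3 := h.tree.three (q := P • v) (a := (P0 * r) • v) (r := v) (s := (P * c') • v)
    have hcv : d v (c' • v) ≠ 0 := fun h0 => h2 (h.tree.eq h0).symm
    have f3 : d v ((P * c') • v) = 0 := by rw [hv, h.tree.zero]
    omega

end RunData

end D0L.Tr
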