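import Pool.Agent.H.MP_374efc_lc.Tr.Push3

/-!
# Heights in the coset graph (helper97, HEIGHT sections 1 and 2)

`η : F → ℤ` is additive and vanishes on `Q`, so the vertices of `Q`-type have a height.
* `run_notMem`: `x m₁ x m₂ … m_k x` is not in `H` if `x ∉ H`, `η x ≥ 1`, `m_i ∈ H`, `η m_i ≥ 0`;
* `run_penultimate`, `run_snd`: the geodesic of a run begins and ends as that of `x`.
-/

namespace D0L.Tr

open SimpleGraph

/-! ## Paths in forests -/

section forest

variable {V : Type*} {G : SimpleGraph V}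

theorem path_subset (hG : G.IsAcyclic) {u v : V} {p : G.Walk u v} (hp : p.IsPath)
    (w : G.Walk u v) : p.support ⊆ w.support := by
  classical
  have h := (hG.subsingleton_path u v).elim ⟨p, hp⟩ w.toPath
  have h' : p = w.bypass := congrArg Subtype.val h
  rw [h']
  exact w.support_bypass_subset_support

theorem path_eq (hG : G.IsAcyclic) {u v : V} {p q : G.Walk u v} (hp : p.IsPath)
    (hq : q.IsPath) : p = q :=
  congrArg Subtype.val ((hG.subsingleton_path u v).elim ⟨p, hp⟩ ⟨q, hq⟩)

/-- Concatenation of paths without folding. -/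
theorem append_isPath (hG : G.IsAcyclic) {u v w z : V} {p : G.Walk u w} (hp : p.IsPath)
    {h : G.Adj w z} {q : G.Walk z v} (hq : (Walk.cons h q).IsPath) (hz : z ∉ p.support) :
    (p.append (Walk.cons h q)).IsPath := by
  rw [hG.isPath_iff_isChain] at hp hq ⊢
  rw [Walk.edges_append, List.isChain_append]
  refine ⟨hp, hq, ?_⟩
  intro e he f hf hef
  simp only [Walk.edges_cons, List.head?_cons, Option.mem_def, Option.some.injEq] at hf
  subst hf
  subst hef
  apply hz
  exact p.snd_mem_support_of_mem_edges (List.mem_of_getLast? he)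

/-- A path whose end is reached through `y` by a walk avoiding the end ends with `y`. -/
theorem penultimate_eq (hG : G.IsAcyclic) {u y w : V} (W : G.Walk u y) (hw : w ∉ W.support)
    (h : G.Adj y w) {δ : G.Walk u w} (hδ : δ.IsPath) : δ.penultimate = y := by
  classical
  have h1 : (W.bypass.concat h).IsPath := by
    apply (W.bypass_isPath).concat
    intro h2
    exact hw (W.support_bypass_subset_support h2)
  rw [path_eq hG hδ h1]
  exact Walk.penultimate_concat _ _

/-- Version with the point before the end given on a path. -/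
theorem penultimate_eq' (hG : G.IsAcyclic) {u o w : V} (W : G.Walk u o) (hw : w ∉ W.support)
    {p : G.Walk o w} (hp : p.IsPath) (h1 : ¬ p.Nil) {δ : G.Walk u w} (hδ : δ.IsPath) :
    δ.penultimate = p.penultimate := by
  classical
  have h2 : w ∉ (W.append p.dropLast).support := by
    rw [Walk.mem_support_append_iff]
    rintro (h | h)
    · exact hw h
    · have h3 := hp.support_nodup
      rw [← Walk.support_dropLast_concat h1, List.nodup_append] at h3
      exact h3.2.2 w h w (by simp) rfl
  exact penultimate_eq hG _ h2 (p.adj_penultimate h1) hδ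

end forest

/-! ## Heights -/

variable {F : Type*} [Group F] {Q H : Subgroup F}

variable (Q H) in
/-- The setting: the coset graph is a tree, `η` is additive and vanishes on `Q`. -/
structure HD (η : F → ℤ) : Prop where
  tree : (KG Q H).IsTree
  mul : ∀ a b, η (a * b) = η a + η b
  kill : ∀ q ∈ Q, η q = 0

namespace HD

variable {η : F → ℤ}

theorem one (h : HD Q H η) : η 1 = 0 := h.kill 1 Q.one_mem

theorem inv (h : HD Q H η) (a : F) : η a⁻¹ = - η a := by
  have h1 := h.mul a a⁻¹
  rw [mul_inv_cancel, h.one] at h1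
  omega

/-- The height of a vertex of `Q`-type is well defined. -/
theorem ht_unique (h : HD Q H η) {g g' : F} (he : vt Q H true g = vt Q H true g') :
    η g = η g' := by
  have h1 := h.kill _ (vt_eq.1 he)
  rw [h.mul, h.inv] at h1
  omega

/-- Translation of a path. -/
theorem exists_tr {b b' : Bool} {y x : F} (σ : (KG Q H).Walk (vt Q H b y) (vt Q H b' x))
    (hσ : σ.IsPath) (o : F) :
    ∃ Z : (KG Q H).Walk (vt Q H b (o * y)) (vt Q H b' (o * x)), Z.IsPath ∧
      Z.penultimate = o • σ.penultimate ∧ Z.snd = o • σ.snd ∧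
      ∀ u, u ∈ Z.support ↔ ∃ u' ∈ σ.support, u = o • u' := by
  have e1 : (smulHom o) (vt Q H b y) = vt Q H b (o * y) := smul_vt b o y
  have e2 : (smulHom o) (vt Q H b' x) = vt Q H b' (o * x) := smul_vt b' o x
  refine ⟨(σ.map (smulHom o)).copy e1 e2, ?_, ?_, ?_, ?_⟩
  · rw [Walk.isPath_copy]
    exact hσ.map (MulAction.injective o)
  · simp only [Walk.penultimate, Walk.getVert_copy, Walk.length_copy, Walk.length_map,
      Walk.getVert_map]
    rfl
  · simp only [Walk.snd, Walk.getVert_copy, Walk.getVert_map]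
    rfl
  · intro u
    rw [Walk.support_copy, Walk.support_map, List.mem_map]
    constructor
    · rintro ⟨u', h1, rfl⟩
      exact ⟨u', h1, rfl⟩
    · rintro ⟨u', h1, rfl⟩
      exact ⟨u', h1, rfl⟩

/-- There is a vertex of `Q`-type of maximal height on a path which is not trivial. -/
theorem exists_max (h : HD Q H η) {x : F} (hx : x ∉ H)
    (σ : (KG Q H).Walk (vt Q H false 1) (vt Q H false x)) :
    ∃ a : F, vt Q H true a ∈ σ.support ∧
      ∀ g : F, vt Q H true g ∈ σ.support → η g ≤ η a := by
  classical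
  have hne : ¬ σ.Nil := by
    apply Walk.not_nil_of_ne
    intro he
    have h1 := vt_eq.1 he
    rw [inv_one, one_mul] at h1
    exact hx h1
  -- some vertex of `Q`-type
  obtain ⟨b, g, h1, h2⟩ := σ.adj_snd hne
  have hb : b = false := by
    by_contra hb
    exact vt_ne (fun h => hb h.symm) _ _ h1
  subst hb
  have hfin : (σ.support.toFinset.filter fun v => ∃ g : F, v = vt Q H true g).Nonempty := by
    refine ⟨σ.snd, ?_⟩
    simp only [Finset.mem_filter, List.mem_toFinset]
    exact ⟨σ.getVert_mem_support 1, g, h2⟩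
  let ht : KV Q H → ℤ := fun v => if hv : ∃ g : F, v = vt Q H true g then η hv.choose else 0
  have hht : ∀ g : F, ht (vt Q H true g) = η g := by
    intro g
    have hv : ∃ g' : F, vt Q H true g = vt Q H true g' := ⟨g, rfl⟩
    simp only [ht, dif_pos hv]
    exact (h.ht_unique hv.choose_spec).symm
  obtain ⟨v, hv, hmax⟩ := Finset.exists_max_image _ ht hfin
  simp only [Finset.mem_filter, List.mem_toFinset] at hv hmax
  obtain ⟨hv1, a, rfl⟩ := hv
  refine ⟨a, hv1, fun g hg => ?_⟩
  have := hmax _ ⟨hg, g, rfl⟩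
  rwa [hht, hht] at this

/-- The invariant of a run: `P = o x` and some walk from the base to `o v_H` stays below the
maximal height of the last translate of the geodesic of `x`. -/
def St (η : F → ℤ) (x a : F) (P : F) : Prop :=
  ∃ o : F, P = o * x ∧ ∃ W : (KG Q H).Walk (vt Q H false 1) (vt Q H false o),
    ∀ g : F, vt Q H true g ∈ W.support → η g < η (o * a)

theorem st_start {x a : F} : St (Q := Q) (H := H) η x a x := by
  refine ⟨1, by rw [one_mul], Walk.nil, ?_⟩
  intro g hg
  rw [Walk.support_nil, List.mem_singleton] at hg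
  exact absurd hg (vt_ne (by simp) _ _)

theorem st_step (h : HD Q H η) {x a P m : F}
    (σ : (KG Q H).Walk (vt Q H false 1) (vt Q H false x)) (hσ : σ.IsPath)
    (hmax : ∀ g : F, vt Q H true g ∈ σ.support → η g ≤ η a) (hη : 0 < η x)
    (hm : m ∈ H) (hm' : 0 ≤ η m) (hP : St (Q := Q) (H := H) η x a P) :
    St (Q := Q) (H := H) η x a (P * (m * x)) := by
  obtain ⟨o, rfl, W, hW⟩ := hP
  obtain ⟨Z, hZ, -, -, hZs⟩ := exists_tr σ hσ o
  have e1 : vt Q H false (o * 1) = vt Q H false o := by rw [mul_one]
  have e2 : vt Q H false (o * x) = vt Q H false (o * x * m) := by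
    rw [vt_eq, inv_mul_cancel_left]
    exact hm
  refine ⟨o * x * m, by group, W.append (Z.copy e1 e2), ?_⟩
  intro g hg
  have h2 : η (o * x * m * a) = η (o * a) + η x + η m := by
    simp only [h.mul]
    ring
  rw [Walk.mem_support_append_iff, Walk.support_copy] at hg
  rcases hg with hg | hg
  · have := hW g hg
    omega
  · obtain ⟨u', hu', hu⟩ := (hZs _).1 hg
    have e3 : u' = vt Q H true (o⁻¹ * g) := by
      rw [← smul_vt, hu, inv_smul_smul]
    rw [e3] at hu'
    have h3 := hmax _ hu'
    rw [h.mul, h.inv] at h3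
    have h4 := h.mul o a
    omega

theorem st_list (h : HD Q H η) {x a : F}
    (σ : (KG Q H).Walk (vt Q H false 1) (vt Q H false x)) (hσ : σ.IsPath)
    (hmax : ∀ g : F, vt Q H true g ∈ σ.support → η g ≤ η a) (hη : 0 < η x) :
    ∀ (l : List F) (P : F), (∀ m ∈ l, m ∈ H ∧ 0 ≤ η m) → St (Q := Q) (H := H) η x a P →
      St (Q := Q) (H := H) η x a (P * (l.map fun m => m * x).prod) := by
  intro l
  induction l with
  | nil => intro P _ hP; simpa using hP
  | cons m l ih =>
    intro P hl hP
    have h1 := ih (P * (m * x)) (fun m' hm' => hl m' (List.mem_cons_of_mem _ hm'))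
      (h.st_step σ hσ hmax hη (hl m List.mem_cons_self).1 (hl m List.mem_cons_self).2 hP)
    rw [List.map_cons, List.prod_cons, ← mul_assoc]
    exact h1

theorem st_notMem (h : HD Q H η) {x a P : F}
    (σ : (KG Q H).Walk (vt Q H false 1) (vt Q H false x)) (hσ : σ.IsPath)
    (ha : vt Q H true a ∈ σ.support) (hP : St (Q := Q) (H := H) η x a P) : P ∉ H := by
  obtain ⟨o, rfl, W, hW⟩ := hP
  intro hmem
  obtain ⟨Z, hZ, -, -, hZs⟩ := exists_tr σ hσ o
  have e1 : vt Q H false (o * 1) = vt Q H false o := by rw [mul_one]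
  have e2 : vt Q H false (o * x) = vt Q H false 1 := by
    rw [vt_eq, mul_one]
    exact inv_mem hmem
  have h1 : (Z.copy e1 e2).reverse.IsPath := by
    rw [Walk.isPath_reverse_iff, Walk.isPath_copy]
    exact hZ
  have h2 := path_subset h.tree.2 h1 W
  have h3 : vt Q H true (o * a) ∈ W.support := by
    apply h2
    rw [Walk.support_reverse, List.mem_reverse, Walk.support_copy, hZs]
    exact ⟨_, ha, (smul_vt _ _ _).symm⟩
  exact lt_irrefl _ (hW _ h3)

/-- **Runs are not closed.** -/
theorem run_notMem (h : HD Q H η) {x : F} (hx : x ∉ H) (hη : 0 < η x) (l : List F)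
    (hl : ∀ m ∈ l, m ∈ H ∧ 0 ≤ η m) : x * (l.map fun m => m * x).prod ∉ H := by
  obtain ⟨σ, hσ, -⟩ := h.tree.existsUnique_path (vt Q H false 1) (vt Q H false x)
  obtain ⟨a, ha, hmax⟩ := h.exists_max hx σ
  exact h.st_notMem σ hσ ha (h.st_list σ hσ hmax hη l x hl st_start)

/-- The geodesic of a run ends as the last translate of the geodesic of `x`. -/
theorem st_penultimate (h : HD Q H η) {x a P : F}
    (σ : (KG Q H).Walk (vt Q H false 1) (vt Q H false x)) (hσ : σ.IsPath)
    (ha : vt Q H true a ∈ σ.support) (hP : St (Q := Q) (H := H) η x a P)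
    (γ : (KG Q H).Walk (vt Q H false 1) (vt Q H false P)) (hγ : γ.IsPath) :
    γ.penultimate = (P * x⁻¹) • σ.penultimate := by
  classical
  obtain ⟨o, rfl, W, hW⟩ := hP
  obtain ⟨Z', hZ', hZp, -, hZs⟩ := exists_tr σ hσ o
  have e1 : vt Q H false (o * 1) = vt Q H false o := by rw [mul_one]
  obtain ⟨Z, hZ, hZp', hZs'⟩ : ∃ Z : (KG Q H).Walk (vt Q H false o) (vt Q H false (o * x)),
      Z.IsPath ∧ Z.penultimate = Z'.penultimate ∧ Z.support = Z'.support := by
    refine ⟨Z'.copy e1 rfl, by rw [Walk.isPath_copy]; exact hZ', ?_, by rw [Walk.support_copy]⟩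
    simp only [Walk.penultimate, Walk.getVert_copy, Walk.length_copy]
  rw [mul_inv_cancel_right, ← hZp, ← hZp']
  set U : KV Q H := vt Q H true (o * a) with hU
  have hUZ : U ∈ Z.support := by
    rw [hZs', hZs]
    exact ⟨_, ha, (smul_vt _ _ _).symm⟩
  have hUW : U ∉ W.support := fun hu => lt_irrefl _ (hW _ hu)
  obtain ⟨δ, hδ, -⟩ := h.tree.existsUnique_path (vt Q H false 1) U
  have hn1 : ¬ (Z.takeUntil U hUZ).Nil := Walk.not_nil_of_ne (vt_ne (by simp) _ _)
  have hn2 : ¬ (Z.dropUntil U hUZ).Nil := Walk.not_nil_of_ne (vt_ne (by simp) _ _)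
  have h1 : δ.penultimate = (Z.takeUntil U hUZ).penultimate :=
    penultimate_eq' h.tree.2 W hUW (hZ.takeUntil hUZ) hn1 hδ
  have h2 := Z.take_spec hUZ
  have hnd := hZ.support_nodup
  rw [← h2, Walk.support_append, List.nodup_append] at hnd
  -- the first step of the second half
  obtain ⟨z, h3, q, hq⟩ := Walk.not_nil_iff.1 hn2
  have hzδ : z ∉ δ.support := by
    intro hz
    have h4 := h.tree.2.eq_penultimate_of_adj_end hδ h3 hz
    rw [h1] at h4
    refine hnd.2.2 z ?_ z ?_ rfl
    · rw [h4]
      exact Walk.getVert_mem_support _ _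
    · rw [hq, Walk.support_cons, List.tail_cons]
      exact q.start_mem_support
  have h5 : (δ.append (Z.dropUntil U hUZ)).IsPath := by
    rw [hq]
    apply append_isPath h.tree.2 hδ _ hzδ
    rw [← hq]
    exact hZ.dropUntil hUZ
  rw [path_eq h.tree.2 hγ h5]
  conv_rhs => rw [← h2]
  have h6 := Walk.not_nil_iff_lt_length.1 hn2
  simp only [Walk.penultimate, Walk.getVert_append, Walk.length_append]
  rw [if_neg (by omega), if_neg (by omega)]
  congr 1
  omega

/-- The geodesic of a run ends as that of its last `x`. -/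
theorem run_penultimate (h : HD Q H η) {x : F} (hx : x ∉ H) (hη : 0 < η x) (l : List F)
    (hl : ∀ m ∈ l, m ∈ H ∧ 0 ≤ η m)
    (σ : (KG Q H).Walk (vt Q H false 1) (vt Q H false x)) (hσ : σ.IsPath)
    (γ : (KG Q H).Walk (vt Q H false 1) (vt Q H false (x * (l.map fun m => m * x).prod)))
    (hγ : γ.IsPath) :
    γ.penultimate = (x * (l.map fun m => m * x).prod * x⁻¹) • σ.penultimate := by
  obtain ⟨a, ha, hmax⟩ := h.exists_max hx σ
  exact h.st_penultimate σ hσ ha (h.st_list σ hσ hmax hη l x hl st_start) γ hγ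

/-- The setting for the negative of `η`. -/
theorem neg (h : HD Q H η) : HD Q H fun g => - η g :=
  ⟨h.tree, fun a b => by simp only [h.mul]; ring, fun q hq => by simp [h.kill q hq]⟩

theorem prod_inv_run (x : F) : ∀ l : List F,
    (x * (l.map fun m => m * x).prod)⁻¹
      = x⁻¹ * (((l.map fun m => m⁻¹).reverse).map fun m => m * x⁻¹).prod := by
  intro l
  induction l using List.reverseRecOn with
  | nil => simp
  | append_singleton l m ih =>
    have h1 : x * ((l ++ [m]).map fun m => m * x).prod
        = (x * (l.map fun m => m * x).prod) * (m * x) := by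
      simp [mul_assoc]
    rw [h1, mul_inv_rev, ih]
    simp [mul_assoc]

/-- The geodesic of a run begins as that of its first `x`. -/
theorem run_snd (h : HD Q H η) {x P : F} (hx : x ∉ H) (hη : 0 < η x) (l : List F)
    (hl : ∀ m ∈ l, m ∈ H ∧ 0 ≤ η m) (hP : P = x * (l.map fun m => m * x).prod)
    (σ : (KG Q H).Walk (vt Q H false 1) (vt Q H false x)) (hσ : σ.IsPath)
    (γ : (KG Q H).Walk (vt Q H false 1) (vt Q H false P))
    (hγ : γ.IsPath) : γ.snd = σ.snd := by
  have hx' : x⁻¹ ∉ H := fun h1 => hx (by simpa using inv_mem h1)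
  obtain ⟨σ'', hσ'', hσp, -, -⟩ := exists_tr σ.reverse (hσ.reverse) x⁻¹
  obtain ⟨γ', hγ', hγp, -, -⟩ := exists_tr γ.reverse (hγ.reverse) P⁻¹
  have e1 : vt Q H false (x⁻¹ * x) = vt Q H false 1 := by rw [inv_mul_cancel]
  have e2 : vt Q H false (x⁻¹ * 1) = vt Q H false x⁻¹ := by rw [mul_one]
  have e3 : vt Q H false (P⁻¹ * P) = vt Q H false 1 := by rw [inv_mul_cancel]
  have e4 : vt Q H false (P⁻¹ * 1) = vt Q H false
      (x⁻¹ * (((l.map fun m => m⁻¹).reverse).map fun m => m * x⁻¹).prod) := by
    rw [mul_one, hP, prod_inv_run]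
  have h1 := h.neg.run_penultimate (x := x⁻¹) hx' (by simpa [h.inv] using hη)
    ((l.map fun m => m⁻¹).reverse) (by
      intro m hm
      rw [List.mem_reverse, List.mem_map] at hm
      obtain ⟨m', hm', rfl⟩ := hm
      refine ⟨inv_mem (hl m' hm').1, ?_⟩
      have := (hl m' hm').2
      simpa [h.inv] using this) (σ''.copy e1 e2) (by rw [Walk.isPath_copy]; exact hσ'')
    (γ'.copy e3 e4) (by rw [Walk.isPath_copy]; exact hγ')
  have h2 : (σ''.copy e1 e2).penultimate = σ''.penultimate := by
    simp only [Walk.penultimate, Walk.getVert_copy, Walk.length_copy]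
  have h3 : (γ'.copy e3 e4).penultimate = γ'.penultimate := by
    simp only [Walk.penultimate, Walk.getVert_copy, Walk.length_copy]
  rw [h2, h3, hσp, hγp, Walk.penultimate_reverse, Walk.penultimate_reverse, ← prod_inv_run,
    ← hP, smul_smul, inv_inv, mul_inv_cancel_right] at h1
  exact smul_left_cancel _ h1

end HD

end D0L.Tr
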