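import Pool.Agent.H.MP_374efc_lc.Tr.Push4
import Pool.Agent.H.MP_374efc_lc.Tr.Brg

/-!
# The coset tree of two roses and its fibres

On top of `Brg` (automaton `paut`, positive words `wel`) and `Push3`, `Push4` (coset graph `KG`,
fibres `Kp`, `Ke`): the coset tree of two roses and its connected fibres, positive words in the
groups.
-/

set_option autoImplicit false

namespace D0L.Tr

open SimpleGraph

variable {α : Type*} [DecidableEq α]

omit [DecidableEq α] in
theorem red_wel {v : List α} {L : List (α × Bool)} (h : FreeGroup.mk L = wel v) :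
    FreeGroup.Red L (v.map fun a => (a, true)) := by
  obtain ⟨L', h1, h2⟩ := FreeGroup.Red.exact.mp h
  have hred : FreeGroup.IsReduced (v.map fun a => (a, true)) := by
    unfold FreeGroup.IsReduced
    rw [List.isChain_map]
    refine (List.pairwise_of_forall ?_).isChain
    intro x y _
    rfl
  rw [hred.red_iff_eq] at h2
  rw [← h2]
  exact h1

theorem rdG_wel {R : Rose α} {hR : Bim R} {v : List α} {s t : {s : List α // IsSt R s}} :
    (paut R hR).RdG s (wel v) t ↔ run R s.1 v = some t.1 := by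
  constructor
  · rintro ⟨L, hL, h⟩
    exact paut_rd.1 (h.red (red_wel hL))
  · intro h
    exact paut_rdG h

/-- A positive word is in the group of the rose iff it is a closed path. -/
theorem wel_mem_grp {R : Rose α} {hR : Bim R} {v : List α} :
    wel v ∈ (paut R hR).grp ↔ run R [] v = some [] := rdG_wel

/-- A positive word is read backwards from the base. -/
theorem rdG_inv_wel {R : Rose α} {hR : Bim R} {v : List α} {t : {s : List α // IsSt R s}} :
    (paut R hR).RdG (paut R hR).base (wel v)⁻¹ t ↔ run R t.1 v = some [] := by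
  constructor
  · intro h
    have := h.inv
    rw [inv_inv] at this
    exact rdG_wel.1 this
  · intro h
    exact PAut.RdG.inv (paut_rdG (t := (paut R hR).base) h)

section pair

variable {Q H : Rose α}

theorem fib_preconnected [Finite α] (hp : Pr Q H) (hh : Hull Q H) :
    (fib (paut Q hp.q) (paut H hp.h)).Preconnected := by
  rw [fib_eq hp]
  exact kk_conn hp hh

theorem outS_nonempty (hp : Pr Q H) (a : α) :
    (outS (paut Q hp.q) (paut H hp.h) a).Nonempty := by
  refine ⟨bH Q H, ?_⟩
  rw [outS_eq hp]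
  exact has_bH hp a

/-- The group of the first rose. -/
abbrev gQ (hp : Pr Q H) : Subgroup (FreeGroup α) := (paut Q hp.q).grp

/-- The group of the second rose. -/
abbrev gH (hp : Pr Q H) : Subgroup (FreeGroup α) := (paut H hp.h).grp

/-- **The free group contains the amalgam of the groups of two roses.** -/
theorem amalg_rose [Finite α] (hp : Pr Q H) (hh : Hull Q H) (hm : Mal H) :
    Amalg (gQ hp) (gH hp) := amalg_pr hp hm hh

/-- Under the hull condition the two groups generate. -/
theorem sup_eq_top (hp : Pr Q H) (hh : Hull Q H) : gQ hp ⊔ gH hp = ⊤ := sup_top hp.q hp.h hh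

/-- **The coset tree of two roses.** -/
theorem KG_isTree_rose [Finite α] (hp : Pr Q H) (hh : Hull Q H) (hm : Mal H) :
    (KG (gQ hp) (gH hp)).IsTree := KG_isTree (amalg_rose hp hh hm) (sup_eq_top hp hh)

/-- The translates which contain a vertex of the Cayley tree. -/
abbrev fibre (hp : Pr Q H) (p : FreeGroup α) : Set (KV (gQ hp) (gH hp)) :=
  Kp (paut Q hp.q) (paut H hp.h) p

/-- The translates which contain an edge of the Cayley tree. -/
abbrev efibre (hp : Pr Q H) (p : FreeGroup α) (a : α) : Set (KV (gQ hp) (gH hp)) :=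
  Ke (paut Q hp.q) (paut H hp.h) p a

theorem fibre_preconnected [Finite α] (hp : Pr Q H) (hh : Hull Q H) (p : FreeGroup α) :
    ((KG (gQ hp) (gH hp)).induce (fibre hp p)).Preconnected :=
  Kp_preconnected (fib_preconnected hp hh) p

theorem efibre_preconnected [Finite α] (hp : Pr Q H) (hh : Hull Q H) (p : FreeGroup α) (a : α) :
    ((KG (gQ hp) (gH hp)).induce (efibre hp p a)).Preconnected :=
  Ke_preconnected (fib_preconnected hp hh) (outS_pre hp hh a) p

/-- Geodesics between two translates through one vertex of the Cayley tree stay in the fibre. -/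
theorem path_mem_fibre [Finite α] (hp : Pr Q H) (hh : Hull Q H) (hm : Mal H) {p : FreeGroup α}
    {v w : KV (gQ hp) (gH hp)} (hv : v ∈ fibre hp p) (hw : w ∈ fibre hp p)
    (π : (KG (gQ hp) (gH hp)).Walk v w) (hπ : π.IsPath) : ∀ x ∈ π.support, x ∈ fibre hp p :=
  convex_of_preconnected (KG_isTree_rose hp hh hm).2 (fibre_preconnected hp hh p) hv hw π hπ

/-- Geodesics between two translates through one edge of the Cayley tree contain the edge. -/
theorem path_mem_efibre [Finite α] (hp : Pr Q H) (hh : Hull Q H) (hm : Mal H) {p : FreeGroup α}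
    {a : α} {v w : KV (gQ hp) (gH hp)} (hv : v ∈ efibre hp p a) (hw : w ∈ efibre hp p a)
    (π : (KG (gQ hp) (gH hp)).Walk v w) (hπ : π.IsPath) : ∀ x ∈ π.support, x ∈ efibre hp p a :=
  convex_of_preconnected (KG_isTree_rose hp hh hm).2 (efibre_preconnected hp hh p a) hv hw π hπ

/-- The first vertex of a positive word, `H`-side: `gH ∈ fibre (g * wel u)` iff `u` is read. -/
theorem vtH_mem_fibre (hp : Pr Q H) {g : FreeGroup α} {u : List α} :
    vt (gQ hp) (gH hp) false g ∈ fibre hp (g * wel u) ↔ ∃ t, run H [] u = some t := by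
  rw [vt_mem_Kp, inv_mul_cancel_left]
  constructor
  · rintro ⟨s, hs⟩
    exact ⟨s.1, rdG_wel.1 hs⟩
  · rintro ⟨t, ht⟩
    exact ⟨⟨t, run_isSt (isSt_nil H) ht⟩, rdG_wel.2 ht⟩

/-- `gQ ∈ fibre (g * wel u)` iff `u` is read in `Q`. -/
theorem vtQ_mem_fibre (hp : Pr Q H) {g : FreeGroup α} {u : List α} :
    vt (gQ hp) (gH hp) true g ∈ fibre hp (g * wel u) ↔ ∃ t, run Q [] u = some t := by
  rw [vt_mem_Kp, inv_mul_cancel_left]
  constructor
  · rintro ⟨s, hs⟩
    exact ⟨s.1, rdG_wel.1 hs⟩
  · rintro ⟨t, ht⟩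
    exact ⟨⟨t, run_isSt (isSt_nil Q) ht⟩, rdG_wel.2 ht⟩

/-- Edges of a positive word, `H`-side. -/
theorem vtH_mem_efibre (hp : Pr Q H) {g : FreeGroup α} {u : List α} {a : α} :
    vt (gQ hp) (gH hp) false g ∈ efibre hp (g * wel u) a ↔ ∃ t, run H [] (u ++ [a]) = some t := by
  rw [vt_mem_Ke, inv_mul_cancel_left]
  constructor
  · rintro ⟨s, s', hs, hs'⟩
    refine ⟨s'.1, run_append_some (rdG_wel.1 hs) ?_⟩
    rw [run_cons, paut_step.1 hs']
    simp
  · rintro ⟨t, ht⟩
    rw [run_append, Option.bind_eq_some_iff] at ht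
    obtain ⟨s, hs, ht⟩ := ht
    rw [run_cons, Option.bind_eq_some_iff] at ht
    obtain ⟨r, hr, _⟩ := ht
    have hst := run_isSt (isSt_nil H) hs
    exact ⟨⟨s, hst⟩, ⟨r, step_isSt hst hr⟩, rdG_wel.2 hs, paut_step.2 hr⟩

/-- Edges of a positive word, `Q`-side. -/
theorem vtQ_mem_efibre (hp : Pr Q H) {g : FreeGroup α} {u : List α} {a : α} :
    vt (gQ hp) (gH hp) true g ∈ efibre hp (g * wel u) a ↔ ∃ t, run Q [] (u ++ [a]) = some t := by
  rw [vt_mem_Ke, inv_mul_cancel_left]
  constructor
  · rintro ⟨s, s', hs, hs'⟩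
    refine ⟨s'.1, run_append_some (rdG_wel.1 hs) ?_⟩
    rw [run_cons, paut_step.1 hs']
    simp
  · rintro ⟨t, ht⟩
    rw [run_append, Option.bind_eq_some_iff] at ht
    obtain ⟨s, hs, ht⟩ := ht
    rw [run_cons, Option.bind_eq_some_iff] at ht
    obtain ⟨r, hr, _⟩ := ht
    have hst := run_isSt (isSt_nil Q) hs
    exact ⟨⟨s, hst⟩, ⟨r, step_isSt hst hr⟩, rdG_wel.2 hs, paut_step.2 hr⟩

end pair

end D0L.Tr
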