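import Pool.Agent.H.MP_374efc_lc.Tr.Height
import Pool.Agent.H.MP_374efc_lc.Tr.Push5

/-!
# The main claim (helper97, HEIGHT section 2), for one stage of the chain

`EF E wd`: the edge fibres `E p a` of the coset tree (translates which contain the edge `(p, p a)`
of the Cayley tree) and their properties.
`Tk E wd η sm qt bg y a₀ b₀`: small tokens `sm` (in `H`), tokens `qt` (in `Q`), big tokens `bg`
(in `H`, they occur only at cuts in `H`), and `y`, not in `H`, with `η y > 0`, first letter `a₀`,
last letter `b₀`.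
* `Tk.notMem`: a product of tokens with at least one `y` is not in `H`;
* `EF.all_Q`: a product of at least two tokens (without `y`) in `H`, no interior cut in `H`,
  has all its tokens in `Q`.
* `efibre_EF`: the instance for two roses.
-/

namespace D0L.Tr

open SimpleGraph

variable {F α : Type*} [Group F] {Q H : Subgroup F}

variable (Q H) in
/-- Edge fibres and their properties. -/
structure EF (E : F → α → Set (KV Q H)) (wd : List α → F) : Prop where
  nil : wd [] = 1
  app : ∀ u v, wd (u ++ v) = wd u * wd v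
  smul : ∀ g p a v, g • v ∈ E (g * p) a ↔ v ∈ E p a
  conv : ∀ p a v w, v ∈ E p a → w ∈ E p a → ∀ π : (KG Q H).Walk v w, π.IsPath →
    ∀ x ∈ π.support, x ∈ E p a
  seg : ∀ u a v, wd (u ++ a :: v) ∈ H → vt Q H false 1 ∈ E (wd u) a
  out : ∀ a, vt Q H false 1 ∈ E 1 a
  inn : ∀ a, vt Q H false 1 ∈ E (wd [a])⁻¹ a

variable (Q H) in
/-- Tokens. -/
structure Tk (E : F → α → Set (KV Q H)) (wd : List α → F) (η : F → ℤ)
    (sm qt bg : Set (List α)) (y : List α) (a₀ b₀ : α) : Prop where
  hsm : ∀ τ ∈ sm, wd τ ∈ H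
  hsm' : ∀ τ ∈ sm, 0 ≤ η (wd τ)
  hqt : ∀ τ ∈ qt, wd τ ∈ Q
  hbg : ∀ τ ∈ bg, wd τ ∈ H
  big : ∀ τ ∈ bg, ∀ u v, wd (u ++ τ ++ v) ∈ H → wd u ∈ H
  yH : wd y ∉ H
  yη : 0 < η (wd y)
  fst : ∃ s, y = a₀ :: s
  lst : ∃ s, y = s ++ [b₀]
  nr : ∀ τ ∈ qt, ∀ l : List (List α), (∀ t ∈ l, t ∈ sm ∨ t ∈ qt) →
    vt Q H true 1 ∉ E (wd (τ ++ l.flatten)) a₀
  nr' : ∀ τ ∈ qt, ∀ l : List (List α), (∀ t ∈ l, t ∈ sm ∨ t ∈ qt) →
    vt Q H true 1 ∉ E ((wd (l.flatten ++ τ))⁻¹ * (wd [b₀])⁻¹) b₀

namespace EF

variable {E : F → α → Set (KV Q H)} {wd : List α → F}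

/-- Membership of a translate. -/
theorem vt_mem (h : EF Q H E wd) {b : Bool} {g p : F} {a : α} :
    vt Q H b g ∈ E p a ↔ vt Q H b 1 ∈ E (g⁻¹ * p) a := by
  rw [← h.smul g (g⁻¹ * p) a, smul_vt, mul_one, mul_inv_cancel_left]

theorem out' (h : EF Q H E wd) (g : F) (a : α) : vt Q H false g ∈ E g a := by
  rw [h.vt_mem, inv_mul_cancel]
  exact h.out a

theorem inn' (h : EF Q H E wd) (g : F) (a : α) : vt Q H false g ∈ E (g * (wd [a])⁻¹) a := by
  rw [h.vt_mem, inv_mul_cancel_left]
  exact h.inn a

theorem flatten_append (h : EF Q H E wd) (L L' : List (List α)) :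
    wd (L ++ L').flatten = wd L.flatten * wd L'.flatten := by
  rw [List.flatten_append, h.app]

theorem flatten_cons (h : EF Q H E wd) (τ : List α) (L : List (List α)) :
    wd (τ :: L).flatten = wd τ * wd L.flatten := by
  rw [List.flatten_cons, h.app]

end EF

namespace Tk

variable {E : F → α → Set (KV Q H)} {wd : List α → F} {η : F → ℤ} {sm qt bg : Set (List α)}
  {y : List α} {a₀ b₀ : α}

/-- The walk of a product of small tokens. -/
theorem walk (he : EF Q H E wd) (hk : Tk Q H E wd η sm qt bg y a₀ b₀) :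
    ∀ (l : List (List α)) (c : F), (∀ t ∈ l, t ∈ sm ∨ t ∈ qt) →
      ∃ W : (KG Q H).Walk (vt Q H false c) (vt Q H false (c * wd l.flatten)),
        ∀ g : F, vt Q H true g ∈ W.support → ∃ l₁ τ l₂, l = l₁ ++ τ :: l₂ ∧ τ ∈ qt ∧
          vt Q H true g = vt Q H true (c * wd l₁.flatten) := by
  intro l
  induction l with
  | nil =>
    intro c _
    have e : vt Q H false c = vt Q H false (c * wd ([] : List (List α)).flatten) := by
      rw [List.flatten_nil, he.nil, mul_one]
    refine ⟨Walk.nil.copy rfl e, ?_⟩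
    intro g hg
    rw [Walk.support_copy, Walk.support_nil, List.mem_singleton] at hg
    exact absurd hg (vt_ne (by simp) _ _)
  | cons τ l ih =>
    intro c hl
    obtain ⟨W, hW⟩ := ih (c * wd τ) fun t ht => hl t (List.mem_cons_of_mem _ ht)
    have e : vt Q H false (c * wd τ * wd l.flatten)
        = vt Q H false (c * wd (τ :: l).flatten) := by
      rw [he.flatten_cons, mul_assoc]
    rcases hl τ List.mem_cons_self with hτ | hτ
    · have e1 : vt Q H false (c * wd τ) = vt Q H false c := by
        rw [vt_eq]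
        have : (c * wd τ)⁻¹ * c = (wd τ)⁻¹ := by group
        rw [this]
        exact inv_mem (hk.hsm τ hτ)
      refine ⟨W.copy e1 e, ?_⟩
      intro g hg
      rw [Walk.support_copy] at hg
      obtain ⟨l₁, τ', l₂, h1, h2, h3⟩ := hW g hg
      refine ⟨τ :: l₁, τ', l₂, by rw [h1]; rfl, h2, ?_⟩
      rw [h3, he.flatten_cons, mul_assoc]
    · have a1 : (KG Q H).Adj (vt Q H false c) (vt Q H true c) := adj_vt false c
      have a2 : (KG Q H).Adj (vt Q H true c) (vt Q H false (c * wd τ)) := by
        have e2 : vt Q H true c = vt Q H true (c * wd τ) := by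
          rw [vt_eq, inv_mul_cancel_left]
          exact hk.hqt τ hτ
        rw [e2]
        exact adj_vt true _
      refine ⟨Walk.cons a1 (Walk.cons a2 (W.copy rfl e)), ?_⟩
      intro g hg
      simp only [Walk.support_cons, List.mem_cons, Walk.support_copy] at hg
      rcases hg with hg | hg | hg
      · exact absurd hg (vt_ne (by simp) _ _)
      · exact ⟨[], τ, l, rfl, hτ, by rw [hg, List.flatten_nil, he.nil, mul_one]⟩
      · obtain ⟨l₁, τ', l₂, h1, h2, h3⟩ := hW g hg
        refine ⟨τ :: l₁, τ', l₂, by rw [h1]; rfl, h2, ?_⟩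
        rw [h3, he.flatten_cons, mul_assoc]

/-- The last but one vertex does not contain the next edge. -/
theorem last_notMem (hT : (KG Q H).IsTree) (he : EF Q H E wd)
    (hk : Tk Q H E wd η sm qt bg y a₀ b₀) {l : List (List α)} {c d : F}
    (hl : ∀ t ∈ l, t ∈ sm ∨ t ∈ qt) (hd : d = c * wd l.flatten)
    (π : (KG Q H).Walk (vt Q H false c) (vt Q H false d)) (hπ : π.IsPath) (hn : ¬ π.Nil) :
    π.penultimate ∉ E d a₀ := by
  subst hd
  obtain ⟨W, hW⟩ := hk.walk he l c hl
  obtain ⟨b, g, h1, h2⟩ := π.adj_penultimate hn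
  have hb : (!b) = false := by
    by_contra hb
    exact vt_ne (fun h => hb h.symm) _ _ h2
  have hb' : b = true := by cases b <;> simp_all
  subst hb'
  have h3 : vt Q H true g ∈ W.support := by
    apply path_subset hT.2 hπ W
    rw [← h1]
    exact Walk.getVert_mem_support _ _
  obtain ⟨l₁, τ, l₂, e1, hτ, e2⟩ := hW g h3
  rw [h1, e2, he.vt_mem]
  have e3 : (c * wd l₁.flatten)⁻¹ * (c * wd l.flatten) = wd (τ ++ l₂.flatten) := by
    rw [e1, he.flatten_append, he.flatten_cons, he.app]
    group
  rw [e3]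
  exact hk.nr τ hτ l₂ fun t ht => hl t (by rw [e1]; simp [ht])

/-- The second vertex does not contain the edge before. -/
theorem first_notMem (hT : (KG Q H).IsTree) (he : EF Q H E wd)
    (hk : Tk Q H E wd η sm qt bg y a₀ b₀) {l : List (List α)} {c d : F}
    (hl : ∀ t ∈ l, t ∈ sm ∨ t ∈ qt) (hd : d = c * wd l.flatten)
    (π : (KG Q H).Walk (vt Q H false c) (vt Q H false d)) (hπ : π.IsPath) (hn : ¬ π.Nil) :
    π.snd ∉ E (c * (wd [b₀])⁻¹) b₀ := by
  subst hd
  obtain ⟨W, hW⟩ := hk.walk he l c hl
  obtain ⟨b, g, h1, h2⟩ := π.adj_snd hn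
  have hb' : b = false := by
    by_contra hb
    exact vt_ne (fun h => hb h.symm) _ _ h1
  subst hb'
  have h3 : vt Q H true g ∈ W.support := by
    apply path_subset hT.2 hπ W
    have : π.snd = vt Q H true g := h2
    rw [← this]
    exact Walk.getVert_mem_support _ _
  obtain ⟨l₁, τ, l₂, e1, hτ, e2⟩ := hW g h3
  have h2' : π.snd = vt Q H true (c * wd l₁.flatten * wd τ) := by
    have e4 : π.snd = vt Q H true g := h2
    rw [e4, e2, vt_eq, inv_mul_cancel_left]
    exact hk.hqt τ hτ
  rw [h2', he.vt_mem]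
  have e3 : (c * wd l₁.flatten * wd τ)⁻¹ * (c * (wd [b₀])⁻¹)
      = (wd (l₁.flatten ++ τ))⁻¹ * (wd [b₀])⁻¹ := by
    rw [he.app]
    group
  rw [e3]
  exact hk.nr' τ hτ l₁ fun t ht => hl t (by rw [e1]; simp [ht])

/-- Step 1: nothing before the first `y`. -/
theorem step_one (hT : (KG Q H).IsTree) (he : EF Q H E wd)
    (hk : Tk Q H E wd η sm qt bg y a₀ b₀) {l r : List (List α)}
    (hl : ∀ t ∈ l, t ∈ sm ∨ t ∈ qt) (hH : wd (l ++ y :: r).flatten ∈ H) :
    wd l.flatten ∈ H := by
  by_contra hc
  obtain ⟨π, hπ, -⟩ := hT.existsUnique_path (vt Q H false 1) (vt Q H false (wd l.flatten))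
  have hn : ¬ π.Nil := by
    apply Walk.not_nil_of_ne
    intro h
    rw [vt_eq, inv_one, one_mul] at h
    exact hc h
  apply hk.last_notMem hT he hl (by rw [one_mul]) π hπ hn
  obtain ⟨s, hs⟩ := hk.fst
  apply he.conv _ _ _ _ (he.seg l.flatten a₀ (s ++ r.flatten) ?_) (he.out' _ _) π hπ _
    (Walk.getVert_mem_support _ _)
  have : l.flatten ++ a₀ :: (s ++ r.flatten) = (l ++ y :: r).flatten := by
    rw [List.flatten_append, List.flatten_cons, hs]
    rfl
  rw [this]
  exact hH

/-- Step 1, mirror: nothing after the last `y`. -/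
theorem step_one' (hT : (KG Q H).IsTree) (he : EF Q H E wd)
    (hk : Tk Q H E wd η sm qt bg y a₀ b₀) {l r : List (List α)}
    (hl : ∀ t ∈ l, t ∈ sm ∨ t ∈ qt) (hH : wd (r ++ y :: l).flatten ∈ H) :
    wd l.flatten ∈ H := by
  by_contra hc
  set c := wd r.flatten * wd y with hcdef
  have hall : wd (r ++ y :: l).flatten = c * wd l.flatten := by
    rw [he.flatten_append, he.flatten_cons, hcdef, mul_assoc]
  obtain ⟨π, hπ, -⟩ := hT.existsUnique_path (vt Q H false c) (vt Q H false (c * wd l.flatten))
  have hn : ¬ π.Nil := by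
    apply Walk.not_nil_of_ne
    intro h
    rw [vt_eq, inv_mul_cancel_left] at h
    exact hc h
  apply hk.first_notMem hT he hl rfl π hπ hn
  obtain ⟨s, hs⟩ := hk.lst
  have hend : vt Q H false (c * wd l.flatten) = vt Q H false 1 := by
    rw [vt_eq, mul_one, ← hall]
    exact inv_mem hH
  apply he.conv _ _ _ _ (he.inn' _ _) ?_ π hπ _ (Walk.getVert_mem_support _ _)
  rw [hend]
  have h1 : c * (wd [b₀])⁻¹ = wd (r.flatten ++ s) := by
    rw [hcdef, hs, he.app, he.app]
    group
  rw [h1]
  apply he.seg (r.flatten ++ s) b₀ l.flatten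
  have : r.flatten ++ s ++ b₀ :: l.flatten = (r ++ y :: l).flatten := by
    rw [List.flatten_append, List.flatten_cons, hs]
    simp
  rw [this]
  exact hH

/-- Step 2: between two `y`. -/
theorem step_two (hT : (KG Q H).IsTree) (he : EF Q H E wd)
    (hk : Tk Q H E wd η sm qt bg y a₀ b₀) {l r r' : List (List α)}
    (hl : ∀ t ∈ l, t ∈ sm ∨ t ∈ qt) (hH : wd (r ++ y :: (l ++ y :: r')).flatten ∈ H) :
    wd l.flatten ∈ H := by
  by_contra hc
  set c := wd r.flatten * wd y with hcdef
  obtain ⟨π₁, hπ₁, -⟩ := hT.existsUnique_path (vt Q H false 1) (vt Q H false c)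
  obtain ⟨π, hπ, -⟩ := hT.existsUnique_path (vt Q H false c) (vt Q H false (c * wd l.flatten))
  have hn : ¬ π.Nil := by
    apply Walk.not_nil_of_ne
    intro h
    rw [vt_eq, inv_mul_cancel_left] at h
    exact hc h
  obtain ⟨s, hs⟩ := hk.lst
  obtain ⟨s', hs'⟩ := hk.fst
  -- the path to `c` stays in the fibre of the edge before `c`
  have h1 : c * (wd [b₀])⁻¹ = wd (r.flatten ++ s) := by
    rw [hcdef, hs, he.app, he.app]
    group
  have h2 : ∀ x ∈ π₁.support, x ∈ E (c * (wd [b₀])⁻¹) b₀ := by
    apply he.conv _ _ _ _ ?_ (he.inn' _ _) π₁ hπ₁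
    rw [h1]
    apply he.seg (r.flatten ++ s) b₀ (l ++ y :: r').flatten
    have : r.flatten ++ s ++ b₀ :: (l ++ y :: r').flatten
        = (r ++ y :: (l ++ y :: r')).flatten := by
      rw [List.flatten_append, List.flatten_cons, hs]
      simp
    rw [this]
    exact hH
  have h3 : π.snd ∉ π₁.support := fun h => hk.first_notMem hT he hl rfl π hπ hn (h2 _ h)
  obtain ⟨z, a1, q, hq⟩ := Walk.not_nil_iff.1 hn
  have h4 : (π₁.append π).IsPath := by
    rw [hq]
    apply append_isPath hT.2 hπ₁
    · rw [← hq]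
      exact hπ
    · rw [hq] at h3
      simpa using h3
  apply hk.last_notMem hT he hl rfl π hπ hn
  apply he.conv _ _ _ _ ?_ (he.out' _ _) _ h4 _
  · rw [Walk.mem_support_append_iff]
    exact Or.inr (Walk.getVert_mem_support _ _)
  · have h5 : c * wd l.flatten = wd (r.flatten ++ y ++ l.flatten) := by
      rw [he.app, he.app]
    rw [h5]
    apply he.seg _ a₀ (s' ++ r'.flatten)
    have : r.flatten ++ y ++ l.flatten ++ a₀ :: (s' ++ r'.flatten)
        = (r ++ y :: (l ++ y :: r')).flatten := by
      rw [List.flatten_append, List.flatten_cons, List.flatten_append, List.flatten_cons, hs']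
      simp
    rw [this]
    exact hH

/-- The functional is nonnegative on products of small tokens. -/
theorem eta_nonneg (hd : HD Q H η) (he : EF Q H E wd) (hk : Tk Q H E wd η sm qt bg y a₀ b₀) :
    ∀ l : List (List α), (∀ t ∈ l, t ∈ sm ∨ t ∈ qt) → 0 ≤ η (wd l.flatten) := by
  intro l
  induction l with
  | nil => intro _; rw [List.flatten_nil, he.nil, hd.one]
  | cons τ l ih =>
    intro hl
    have h1 := ih fun t ht => hl t (List.mem_cons_of_mem _ ht)
    have h2 : 0 ≤ η (wd τ) := by
      rcases hl τ List.mem_cons_self with h | h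
      · exact hk.hsm' τ h
      · rw [hd.kill _ (hk.hqt τ h)]
    rw [he.flatten_cons, hd.mul]
    omega

/-- Splitting a list at the first `y`. -/
theorem split_first {β : Type*} {P : β → Prop} {y : β} {L : List β}
    (hL : ∀ τ ∈ L, P τ ∨ τ = y) :
    (∀ τ ∈ L, P τ) ∨ ∃ l L', L = l ++ y :: L' ∧ ∀ τ ∈ l, P τ := by
  induction L with
  | nil => left; simp
  | cons τ L ih =>
    by_cases hτ : P τ
    · rcases ih fun t ht => hL t (List.mem_cons_of_mem _ ht) with h | ⟨l, L', rfl, h⟩
      · left
        intro t ht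
        rcases List.mem_cons.1 ht with rfl | ht
        · exact hτ
        · exact h t ht
      · right
        refine ⟨τ :: l, L', rfl, ?_⟩
        intro t ht
        rcases List.mem_cons.1 ht with rfl | ht
        · exact hτ
        · exact h t ht
    · right
      obtain rfl : τ = y := (hL τ List.mem_cons_self).resolve_left hτ
      exact ⟨[], L, rfl, by simp⟩

/-- After a `y`, the rest of a minimal word is `m₁ y m₂ y … m_k y`. -/
theorem rest (hd : HD Q H η) (he : EF Q H E wd) (hk : Tk Q H E wd η sm qt bg y a₀ b₀) :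
    ∀ (n : ℕ) (L r : List (List α)), L.length ≤ n → (∀ τ ∈ L, (τ ∈ sm ∨ τ ∈ qt) ∨ τ = y) →
      wd (r ++ y :: L).flatten ∈ H → (L ≠ [] → wd (r ++ [y]).flatten ∉ H) →
      (∀ L₁ L₂, L = L₁ ++ L₂ → L₂ ≠ [] → wd (r ++ y :: L₁).flatten ∉ H) →
      ∃ ms : List F, (∀ m ∈ ms, m ∈ H ∧ 0 ≤ η m) ∧
        wd L.flatten = (ms.map fun m => m * wd y).prod := by
  intro n
  induction n with
  | zero =>
    intro L r hn _ _ _ _
    have : L = [] := List.length_eq_zero_iff.1 (by omega)
    subst this
    exact ⟨[], by simp, by simp [he.nil]⟩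
  | succ n ih =>
    intro L r hn hL hH hc hcut
    rcases split_first hL with hs | ⟨l, L', rfl, hl⟩
    · rcases eq_or_ne L [] with rfl | hne
      · exact ⟨[], by simp, by simp [he.nil]⟩
      · exfalso
        have h1 := hk.step_one' hd.tree he hs hH
        apply hc hne
        have h2 : wd (r ++ y :: L).flatten = wd (r ++ [y]).flatten * wd L.flatten := by
          rw [← he.flatten_append]
          simp
        rw [h2] at hH
        exact (Subgroup.mul_mem_cancel_right _ h1).1 hH
    · have h1 := hk.step_two hd.tree he hl hH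
      have h3 : r ++ y :: (l ++ y :: L') = (r ++ y :: l) ++ y :: L' := by simp
      obtain ⟨ms, hms, hprod⟩ := ih L' (r ++ y :: l) (by simp at hn; omega)
        (fun τ hτ => hL τ (by simp [hτ])) (by rw [← h3]; exact hH)
        (by
          intro hne
          have := hcut (l ++ [y]) L' (by simp) hne
          simpa using this)
        (by
          intro L₁ L₂ e1 e2
          have := hcut (l ++ y :: L₁) L₂ (by rw [e1]; simp) e2
          simpa using this)
      refine ⟨wd l.flatten :: ms, ?_, ?_⟩
      · intro m hm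
        rcases List.mem_cons.1 hm with rfl | hm
        · exact ⟨h1, hk.eta_nonneg hd he l hl⟩
        · exact hms m hm
      · rw [he.flatten_append, he.flatten_cons, hprod, List.map_cons, List.prod_cons, mul_assoc]

/-- **The claim.** A product of tokens with at least one `y` is not in `H`. -/
theorem notMem (hd : HD Q H η) (he : EF Q H E wd) (hk : Tk Q H E wd η sm qt bg y a₀ b₀) :
    ∀ (L : List (List α)), (∀ τ ∈ L, τ ∈ sm ∨ τ ∈ qt ∨ τ ∈ bg ∨ τ = y) → y ∈ L →
      wd L.flatten ∉ H := by
  intro L
  induction hn : L.length using Nat.strong_induction_on generalizing L with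
  | _ n ih =>
  intro hL hy hH
  by_cases hcut : ∃ L₁ L₂, L = L₁ ++ L₂ ∧ L₁ ≠ [] ∧ L₂ ≠ [] ∧ wd L₁.flatten ∈ H
  · -- an interior cut in `H`
    obtain ⟨L₁, L₂, rfl, h1, h2, h3⟩ := hcut
    have l1 : L₁.length ≠ 0 := fun h => h1 (List.length_eq_zero_iff.1 h)
    have l2 : L₂.length ≠ 0 := fun h => h2 (List.length_eq_zero_iff.1 h)
    have h4 : wd L₂.flatten ∈ H := by
      rw [he.flatten_append] at hH
      exact (Subgroup.mul_mem_cancel_left _ h3).1 hH
    rw [List.length_append] at hn
    rcases List.mem_append.1 hy with hy | hy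
    · exact ih L₁.length (by omega) L₁ rfl (fun τ hτ => hL τ (by simp [hτ])) hy h3
    · exact ih L₂.length (by omega) L₂ rfl (fun τ hτ => hL τ (by simp [hτ])) hy h4
  · have hcut' : ∀ L₁ L₂, L = L₁ ++ L₂ → L₁ ≠ [] → L₂ ≠ [] → wd L₁.flatten ∉ H :=
      fun L₁ L₂ h1 h2 h3 h4 => hcut ⟨L₁, L₂, h1, h2, h3, h4⟩
    -- no big tokens
    have hL' : ∀ τ ∈ L, (τ ∈ sm ∨ τ ∈ qt) ∨ τ = y := by
      intro τ hτ
      rcases hL τ hτ with h | h | h | h
      · exact Or.inl (Or.inl h)
      · exact Or.inl (Or.inr h)
      · exfalso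
        obtain ⟨L₁, L₂, rfl⟩ := List.append_of_mem hτ
        have h1 : wd L₁.flatten ∈ H := by
          apply hk.big τ h L₁.flatten L₂.flatten
          have : L₁.flatten ++ τ ++ L₂.flatten = (L₁ ++ τ :: L₂).flatten := by simp
          rw [this]
          exact hH
        rcases eq_or_ne L₁ [] with rfl | h2
        · have h3 : L₂ ≠ [] := by
            rintro rfl
            simp only [List.nil_append, List.mem_singleton] at hy
            exact hk.yH (hy ▸ hk.hbg τ h)
          apply hcut' [τ] L₂ rfl (by simp) h3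
          simpa using hk.hbg τ h
        · exact hcut' L₁ (τ :: L₂) rfl h2 (by simp) h1
      · exact Or.inr h
    rcases split_first hL' with hs | ⟨l, L', rfl, hl⟩
    · -- no `y`
      rcases hs y hy with h | h
      · exact hk.yH (hk.hsm y h)
      · -- `y` is a token in `Q`: then its functional vanishes
        have h1 := hd.kill _ (hk.hqt y h)
        have h2 := hk.yη
        omega
    · have h1 := hk.step_one hd.tree he hl hH
      have h2 : l = [] := by
        by_contra h2
        exact hcut' l (y :: L') rfl h2 (by simp) h1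
      subst h2
      rw [List.nil_append] at hH hcut' hL'
      obtain ⟨ms, hms, hprod⟩ := hk.rest hd he L'.length L' [] le_rfl
        (fun τ hτ => hL' τ (List.mem_cons_of_mem _ hτ)) (by simpa using hH)
        (by
          intro _
          simpa using hk.yH)
        (by
          intro L₁ L₂ e1 e2
          have := hcut' (y :: L₁) L₂ (by rw [e1]; rfl) (by simp) e2
          simpa using this)
      rw [he.flatten_cons, hprod] at hH
      exact hd.run_notMem hk.yH hk.yη ms hms hH

end Tk

/-- **All tokens in `Q`.** A product of at least two tokens in `H` without interior cut in `H`: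
if the small tokens not in `Q` begin with a letter which is missing at the base of `Q`, then all
the tokens are in `Q`. (No `y` here.) -/
theorem EF.all_Q (hT : (KG Q H).IsTree) {E : F → α → Set (KV Q H)} {wd : List α → F}
    (he : EF Q H E wd) {sm qt bg : Set (List α)} (hsm : ∀ τ ∈ sm, wd τ ∈ H)
    (hqt : ∀ τ ∈ qt, wd τ ∈ Q) (hbg : ∀ τ ∈ bg, wd τ ∈ H)
    (big : ∀ τ ∈ bg, ∀ u v, wd (u ++ τ ++ v) ∈ H → wd u ∈ H)
    (miss : ∀ τ ∈ sm, wd τ ∈ Q ∨ ∃ a s, τ = a :: s ∧ vt Q H true 1 ∉ E 1 a)
    (L : List (List α)) (hL : ∀ τ ∈ L, τ ∈ sm ∨ τ ∈ qt ∨ τ ∈ bg) (hlen : 2 ≤ L.length)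
    (hH : wd L.flatten ∈ H)
    (hcut : ∀ L₁ L₂, L = L₁ ++ L₂ → L₁ ≠ [] → L₂ ≠ [] → wd L₁.flatten ∉ H) :
    ∀ τ ∈ L, wd τ ∈ Q := by
  have key : ∀ (n : ℕ) (L₁ L₂ : List (List α)), L₁.length = n → L = L₁ ++ L₂ →
      ∀ τ ∈ L₁, wd τ ∈ Q := by
    intro n
    induction n with
    | zero =>
      intro L₁ L₂ h1 _ τ hτ
      rw [List.length_eq_zero_iff.1 h1] at hτ
      simp at hτ
    | succ n ih =>
      intro L₁ L₂ h1 h2
      obtain rfl | ⟨L₀, τ, rfl⟩ := List.eq_nil_or_concat' L₁
      · simp at h1
      have h3 : L₀.length = n := by simpa using h1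
      have h4 := ih L₀ (τ :: L₂) h3 (by rw [h2]; simp)
      have hc : wd L₀.flatten ∈ Q := by
        have : ∀ L' : List (List α), (∀ t ∈ L', wd t ∈ Q) → wd L'.flatten ∈ Q := by
          intro L'
          induction L' with
          | nil => intro _; rw [List.flatten_nil, he.nil]; exact Q.one_mem
          | cons t L' ih' =>
            intro h
            rw [he.flatten_cons]
            exact mul_mem (h t List.mem_cons_self) (ih' fun t' ht' => h t' (by simp [ht']))
        exact this L₀ h4
      have hτ : wd τ ∈ Q := by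
        have hτL : τ ∈ L := by rw [h2]; simp
        -- tokens in `H` are not the first
        have hfirst : wd τ ∈ H → L₀ ≠ [] := by
          rintro hτ rfl
          have h5 : L₂ ≠ [] := by
            rintro rfl
            rw [h2] at hlen
            simp at hlen
          exact hcut [τ] L₂ (by rw [h2]; rfl) (by simp) h5 (by simpa using hτ)
        rcases hL τ hτL with h | h | h
        · rcases miss τ h with h' | ⟨a, s, rfl, h'⟩
          · exact h'
          · exfalso
            have h5 := hfirst (hsm _ h)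
            have h6 := hcut L₀ ((a :: s) :: L₂) (by rw [h2]; simp) h5 (by simp)
            -- the geodesic from the base to the cut
            obtain ⟨π, hπ, -⟩ := hT.existsUnique_path (vt Q H false 1)
              (vt Q H false (wd L₀.flatten))
            have a1 : (KG Q H).Adj (vt Q H false 1) (vt Q H true 1) := adj_vt false 1
            have a2 : (KG Q H).Adj (vt Q H true 1) (vt Q H false (wd L₀.flatten)) := by
              have e2 : vt Q H true 1 = vt Q H true (wd L₀.flatten) := by
                rw [vt_eq, inv_one, one_mul]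
                exact hc
              rw [e2]
              exact adj_vt true _
            have hW : (Walk.cons a1 (Walk.cons a2 Walk.nil)).IsPath := by
              rw [Walk.cons_isPath_iff, Walk.cons_isPath_iff]
              refine ⟨⟨Walk.IsPath.nil, ?_⟩, ?_⟩
              · rw [Walk.support_nil, List.mem_singleton]
                exact vt_ne (by simp) _ _
              · simp only [Walk.support_cons, Walk.support_nil, List.mem_cons, List.not_mem_nil,
                  or_false, not_or]
                refine ⟨vt_ne (by simp) _ _, ?_⟩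
                intro h7
                rw [vt_eq, inv_one, one_mul] at h7
                exact h6 h7
            have h7 := he.conv (wd L₀.flatten) a _ _ (he.seg L₀.flatten a (s ++ L₂.flatten) (by
              have : L₀.flatten ++ a :: (s ++ L₂.flatten) = L.flatten := by
                rw [h2]
                simp
              rw [this]
              exact hH)) (he.out' _ _) _ hW (vt Q H true 1) (by simp)
            have h8 : vt Q H true 1 = vt Q H true (wd L₀.flatten) := by
              rw [vt_eq, inv_one, one_mul]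
              exact hc
            rw [h8, he.vt_mem, inv_mul_cancel] at h7
            exact h' h7
        · exact hqt τ h
        · exfalso
          have h5 := hfirst (hbg _ h)
          apply hcut L₀ (τ :: L₂) (by rw [h2]; simp) h5 (by simp)
          apply big τ h L₀.flatten L₂.flatten
          have : L₀.flatten ++ τ ++ L₂.flatten = L.flatten := by
            rw [h2]
            simp
          rw [this]
          exact hH
      intro t ht
      rcases List.mem_append.1 ht with ht | ht
      · exact h4 t ht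
      · rw [List.mem_singleton] at ht
        rw [ht]
        exact hτ
  exact key L.length L [] rfl (by simp)

end D0L.Tr
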