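import Pool.Agent.H.MP_374efc_lc.Tr.Ret

/-!
# Lines: pairs of states on a loop (BIMFULL 4.6)

A pair `s ≠ s'` of states of a rose has at most one in-letter and at most one out-letter. `Loop H s s'`:
some word `v ≠ []` is read from `s` to `s` and from `s'` to `s'`. If a pair on a loop is reached from
the pair `s, s'` or reaches it then `s, s'` is on a loop, and the two loops are conjugate by the word
which connects the pairs (`loop_back`, `loop_fwd`). Words read from a pair on the loop `v` are prefixes
of powers of `v` (`loop_prefix`, mirror `loop_suffix`); all loops are powers of the shortest one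
(`exists_root`).
-/

set_option autoImplicit false

namespace D0L.Tr

variable {α : Type*} [DecidableEq α] {H : Rose α}

/-- The pair lies on a loop. -/
def Loop (H : Rose α) (s s' : List α) : Prop :=
  ∃ v, v ≠ [] ∧ run H s v = some s ∧ run H s' v = some s'

/-- The word `v` leads from the pair `s, s'` to the pair `t, t'`. -/
def Run2 (H : Rose α) (s s' v t t' : List α) : Prop := run H s v = some t ∧ run H s' v = some t'

theorem Run2.nil {s s' : List α} : Run2 H s s' [] s s' := ⟨rfl, rfl⟩

theorem Run2.symm {s s' v t t' : List α} (h : Run2 H s s' v t t') : Run2 H s' s v t' t :=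
  ⟨h.2, h.1⟩

theorem Run2.append {s s' u t t' v r r' : List α} (h1 : Run2 H s s' u t t')
    (h2 : Run2 H t t' v r r') : Run2 H s s' (u ++ v) r r' :=
  ⟨run_append_some h1.1 h2.1, run_append_some h1.2 h2.2⟩

theorem run_cut2 {s r u v : List α} (h : run H s (u ++ v) = some r) :
    ∃ t, run H s u = some t ∧ run H t v = some r := by
  rw [run_append] at h
  cases h1 : run H s u with
  | none => rw [h1] at h; simp at h
  | some t => rw [h1] at h; exact ⟨t, rfl, h⟩

theorem Run2.split {s s' u v r r' : List α} (h : Run2 H s s' (u ++ v) r r') :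
    ∃ t t', Run2 H s s' u t t' ∧ Run2 H t t' v r r' := by
  obtain ⟨t, h1, h2⟩ := run_cut2 h.1
  obtain ⟨t', h3, h4⟩ := run_cut2 h.2
  exact ⟨t, t', ⟨h1, h3⟩, ⟨h2, h4⟩⟩

theorem Run2.cons {s s' v r r' : List α} {a : α} (h : Run2 H s s' (a :: v) r r') :
    ∃ t t', step H s a = some t ∧ step H s' a = some t' ∧ Run2 H t t' v r r' := by
  obtain ⟨t, t', h1, h2⟩ := Run2.split (u := [a]) (v := v) h
  refine ⟨t, t', ?_, ?_, h2⟩
  · simpa using h1.1
  · simpa using h1.2

theorem Run2.of_step {s s' v r r' t t' : List α} {a : α} (h1 : step H s a = some t)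
    (h2 : step H s' a = some t') (h : Run2 H t t' v r r') : Run2 H s s' (a :: v) r r' := by
  constructor
  · rw [run_cons, h1]; exact h.1
  · rw [run_cons, h2]; exact h.2

theorem Run2.unique {s s' v t t' r r' : List α} (h1 : Run2 H s s' v t t')
    (h2 : Run2 H s s' v r r') : t = r ∧ t' = r' := by
  constructor
  · have := h1.1.symm.trans h2.1
    simpa using this
  · have := h1.2.symm.trans h2.2
    simpa using this

theorem Run2.ne (hB : Bim H) {s s' v t t' : List α} (hs : IsSt H s) (hs' : IsSt H s')
    (h : Run2 H s s' v t t') (hne : s ≠ s') : t ≠ t' := by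
  rintro rfl
  exact hne (run_inj hB hs hs' h.1 h.2)

theorem Run2.isSt {s s' v t t' : List α} (hs : IsSt H s) (hs' : IsSt H s')
    (h : Run2 H s s' v t t') : IsSt H t ∧ IsSt H t' :=
  ⟨run_isSt hs h.1, run_isSt hs' h.2⟩

/-- A pair of different states has at most one in-letter. -/
theorem pair_in (hB : Bim H) {r r' q q' t t' : List α} {a b : α} (hr : IsSt H r)
    (hr' : IsSt H r') (hq : IsSt H q) (hq' : IsSt H q') (hne : t ≠ t')
    (h1 : step H r a = some t) (h2 : step H r' a = some t') (h3 : step H q b = some t)
    (h4 : step H q' b = some t') : a = b ∧ r = q ∧ r' = q' := by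
  have hab : a = b := by
    by_cases h : t = []
    · have h' : t' ≠ [] := fun h5 => hne (h.trans h5.symm)
      exact in_unique hB hr' hq' h2 h4 h'
    · exact in_unique hB hr hq h1 h3 h
  subst hab
  exact ⟨rfl, step_inj hB hr hq h1 h3, step_inj hB hr' hq' h2 h4⟩

/-- A pair of different states has at most one out-letter. -/
theorem pair_out {s s' t t' r r' : List α} {a b : α} (hne : s ≠ s')
    (h1 : step H s a = some t) (h2 : step H s' a = some t') (h3 : step H s b = some r)
    (h4 : step H s' b = some r') : a = b := by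
  cases s with
  | cons c l => exact (step_unique h1).1.trans (step_unique h3).1.symm
  | nil =>
    cases s' with
    | cons c l => exact (step_unique h2).1.trans (step_unique h4).1.symm
    | nil => exact (hne rfl).elim

/-- Words which can be read from a pair are comparable. -/
theorem pair_comp (hB : Bim H) {s s' u v t t' r r' : List α} (hs : IsSt H s) (hs' : IsSt H s')
    (hne : s ≠ s') (h1 : Run2 H s s' u t t') (h2 : Run2 H s s' v r r') : u <+: v ∨ v <+: u := by
  induction u generalizing s s' v with
  | nil => exact Or.inl List.nil_prefix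
  | cons a u ih =>
    cases v with
    | nil => exact Or.inr List.nil_prefix
    | cons b v =>
      obtain ⟨x, x', h3, h4, h5⟩ := h1.cons
      obtain ⟨y, y', h6, h7, h8⟩ := h2.cons
      obtain rfl := pair_out hne h3 h4 h6 h7
      obtain rfl : x = y := by rw [h3] at h6; simpa using h6
      obtain rfl : x' = y' := by rw [h4] at h7; simpa using h7
      have hne' : x ≠ x' := by
        rintro rfl
        exact hne (step_inj hB hs hs' h3 h4)
      rcases ih (step_isSt hs h3) (step_isSt hs' h4) hne' h5 h8 with h | h
      · exact Or.inl (by simpa using h)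
      · exact Or.inr (by simpa using h)

/-- Words which lead to a pair are comparable. -/
theorem pair_comp_back (hB : Bim H) {s s' u v q q' r r' : List α} (hq : IsSt H q)
    (hq' : IsSt H q') (hr : IsSt H r) (hr' : IsSt H r') (hne : s ≠ s') (h1 : Run2 H q q' u s s')
    (h2 : Run2 H r r' v s s') : u <:+ v ∨ v <:+ u := by
  induction u using List.reverseRecOn generalizing s s' v with
  | nil => exact Or.inl List.nil_suffix
  | append_singleton u a ih =>
    rcases List.eq_nil_or_concat v with rfl | ⟨v', b, rfl⟩
    · exact Or.inr List.nil_suffix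
    · rw [List.concat_eq_append] at h2 ⊢
      obtain ⟨x, x', h3, h4⟩ := h1.split
      obtain ⟨y, y', h5, h6⟩ := h2.split
      have hx := h3.isSt hq hq'
      have hy := h5.isSt hr hr'
      have e1 : step H x a = some s := by simpa using h4.1
      have e2 : step H x' a = some s' := by simpa using h4.2
      have e3 : step H y b = some s := by simpa using h6.1
      have e4 : step H y' b = some s' := by simpa using h6.2
      obtain ⟨rfl, rfl, rfl⟩ := pair_in hB hx.1 hx.2 hy.1 hy.2 hne e1 e2 e3 e4
      have hne' : x ≠ x' := by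
        rintro rfl
        rw [e1] at e2
        exact hne (by simpa using e2)
      rcases ih hne' h3 h5 with h | h
      · obtain ⟨w, rfl⟩ := h
        exact Or.inl ⟨w, by simp⟩
      · obtain ⟨w, rfl⟩ := h
        exact Or.inr ⟨w, by simp⟩

/-- A pair which reaches a pair on a loop is on a (conjugate) loop. -/
theorem loop_back (hB : Bim H) {s s' u t t' v : List α} (hs : IsSt H s) (hs' : IsSt H s')
    (hne : s ≠ s') (h : Run2 H s s' u t t') (hv : v ≠ []) (hl : Run2 H t t' v t t') :
    ∃ v', v'.length = v.length ∧ u ++ v = v' ++ u ∧ Run2 H s s' v' s s' := by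
  induction u generalizing s s' with
  | nil =>
    obtain ⟨rfl, rfl⟩ := Run2.unique h Run2.nil
    exact ⟨v, rfl, by simp, hl⟩
  | cons a u ih =>
    obtain ⟨x, x', h1, h2, h3⟩ := h.cons
    have hx := step_isSt hs h1
    have hx' := step_isSt hs' h2
    have hne' : x ≠ x' := by
      rintro rfl
      exact hne (step_inj hB hs hs' h1 h2)
    obtain ⟨v1, hlen, he, hl1⟩ := ih hx hx' hne' h3
    have hv1 : v1 ≠ [] := by
      rintro rfl
      apply hv
      rw [← List.length_eq_zero_iff, ← hlen, List.length_nil]
    rcases List.eq_nil_or_concat v1 with rfl | ⟨v0, b, rfl⟩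
    · exact (hv1 rfl).elim
    · rw [List.concat_eq_append] at hlen he hl1
      obtain ⟨y, y', h5, h6⟩ := hl1.split
      have hy := h5.isSt hx hx'
      have e3 : step H y b = some x := by simpa using h6.1
      have e4 : step H y' b = some x' := by simpa using h6.2
      obtain ⟨rfl, rfl, rfl⟩ := pair_in hB hs hs' hy.1 hy.2 hne' h1 h2 e3 e4
      refine ⟨a :: v0, ?_, ?_, Run2.of_step h1 h2 h5⟩
      · rw [← hlen]; simp
      · rw [List.cons_append, he]; simp

/-- A pair which is reached from a pair on a loop is on a (conjugate) loop. -/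
theorem loop_fwd (hB : Bim H) {s s' u t t' v : List α} (hs : IsSt H s) (hs' : IsSt H s')
    (hne : s ≠ s') (h : Run2 H s s' u t t') (hv : v ≠ []) (hl : Run2 H s s' v s s') :
    ∃ v', v'.length = v.length ∧ v ++ u = u ++ v' ∧ Run2 H t t' v' t t' := by
  induction u generalizing s s' v with
  | nil =>
    obtain ⟨rfl, rfl⟩ := Run2.unique h Run2.nil
    exact ⟨v, rfl, by simp, hl⟩
  | cons a u ih =>
    obtain ⟨x, x', h1, h2, h3⟩ := h.cons
    have hx := step_isSt hs h1
    have hx' := step_isSt hs' h2
    have hne' : x ≠ x' := by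
      rintro rfl
      exact hne (step_inj hB hs hs' h1 h2)
    cases v with
    | nil => exact (hv rfl).elim
    | cons b v0 =>
      obtain ⟨y, y', h4, h5, h6⟩ := hl.cons
      obtain rfl := pair_out hne h1 h2 h4 h5
      obtain rfl : x = y := by rw [h1] at h4; simpa using h4
      obtain rfl : x' = y' := by rw [h2] at h5; simpa using h5
      have h7 : Run2 H x x' (v0 ++ [a]) x x' :=
        h6.append ⟨by rw [run_cons, h1]; rfl, by rw [run_cons, h2]; rfl⟩
      obtain ⟨v', hlen, he, hl'⟩ := ih hx hx' hne' h3 (by simp) h7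
      refine ⟨v', ?_, ?_, hl'⟩
      · rw [hlen]; simp
      · rw [List.cons_append, List.cons_append]
        congr 1
        rw [← he]
        simp

/-- Loops can be read again and again. -/
theorem Run2.loop_pow {s s' v : List α} (h : Run2 H s s' v s s') (k : ℕ) :
    Run2 H s s' (List.replicate k v).flatten s s' := by
  induction k with
  | zero => exact Run2.nil
  | succ k ih =>
    rw [List.replicate_succ, List.flatten_cons]
    exact h.append ih

/-- A word read from a pair on the loop `v` is a prefix of a power of `v`. -/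
theorem loop_prefix (hB : Bim H) {s s' u t t' v : List α} (hs : IsSt H s) (hs' : IsSt H s')
    (hne : s ≠ s') (h : Run2 H s s' u t t') (hv : v ≠ []) (hl : Run2 H s s' v s s') :
    ∃ k, u <+: (List.replicate k v).flatten := by
  have h1 := hl.loop_pow u.length
  rcases pair_comp hB hs hs' hne h h1 with h2 | h2
  · exact ⟨_, h2⟩
  · refine ⟨u.length, ?_⟩
    have h3 := h2.length_le
    rw [List.length_flatten, List.map_replicate, List.sum_replicate, smul_eq_mul] at h3
    have h4 : 1 ≤ v.length := List.length_pos_of_ne_nil hv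
    have h5 : u.length ≤ u.length * v.length := Nat.le_mul_of_pos_right _ h4
    have h6 := h2.eq_of_length (by
      rw [List.length_flatten, List.map_replicate, List.sum_replicate, smul_eq_mul]
      omega)
    rw [h6]

/-- A word which leads to a pair on the loop `v` is a suffix of a power of `v`. -/
theorem loop_suffix (hB : Bim H) {s s' u t t' v : List α} (hs : IsSt H s) (hs' : IsSt H s')
    (hne : s ≠ s') (h : Run2 H s s' u t t') (hv : v ≠ []) (hl : Run2 H t t' v t t') :
    ∃ k, u <:+ (List.replicate k v).flatten := by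
  have ht := h.isSt hs hs'
  have hne' := h.ne hB hs hs' hne
  have h1 := hl.loop_pow u.length
  rcases pair_comp_back hB hs hs' ht.1 ht.2 hne' h h1 with h2 | h2
  · exact ⟨_, h2⟩
  · refine ⟨u.length, ?_⟩
    have h3 := h2.length_le
    rw [List.length_flatten, List.map_replicate, List.sum_replicate, smul_eq_mul] at h3
    have h4 : 1 ≤ v.length := List.length_pos_of_ne_nil hv
    have h5 : u.length ≤ u.length * v.length := Nat.le_mul_of_pos_right _ h4
    have h6 := h2.eq_of_length (by
      rw [List.length_flatten, List.map_replicate, List.sum_replicate, smul_eq_mul]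
      omega)
    rw [h6]

/-- The loops at a pair are the powers of the shortest one. -/
theorem exists_root (hB : Bim H) {s s' : List α} (hs : IsSt H s) (hs' : IsSt H s')
    (hne : s ≠ s') (h : Loop H s s') : ∃ v0, v0 ≠ [] ∧ Run2 H s s' v0 s s' ∧
      ∀ v, Run2 H s s' v s s' → ∃ k, v = (List.replicate k v0).flatten := by
  classical
  have hex : ∃ m, ∃ v : List α, v ≠ [] ∧ v.length = m ∧ Run2 H s s' v s s' := by
    obtain ⟨v, h1, h2, h3⟩ := h
    exact ⟨_, v, h1, rfl, h2, h3⟩
  obtain ⟨v0, hv0, hlen, hl⟩ := Nat.find_spec hex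
  refine ⟨v0, hv0, hl, ?_⟩
  intro v
  induction hm : v.length using Nat.strong_induction_on generalizing v with
  | _ m ih =>
    intro hv
    by_cases h0 : v = []
    · exact ⟨0, by simp [h0]⟩
    · have h1 : v0.length ≤ v.length := by
        rw [hlen]
        exact Nat.find_min' hex ⟨v, h0, rfl, hv⟩
      have h2 : v0 <+: v := by
        rcases pair_comp hB hs hs' hne hl hv with h3 | h3
        · exact h3
        · rw [h3.eq_of_length (le_antisymm h3.length_le h1)]
      obtain ⟨w, rfl⟩ := h2
      obtain ⟨x, x', h3, h4⟩ := hv.split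
      obtain ⟨rfl, rfl⟩ := Run2.unique h3 hl
      have h5 : 0 < v0.length := List.length_pos_of_ne_nil hv0
      obtain ⟨k, hk⟩ := ih w.length (by rw [← hm, List.length_append]; omega) w rfl h4
      exact ⟨k + 1, by rw [List.replicate_succ, List.flatten_cons, ← hk]⟩

theorem Loop.symm {s s' : List α} (h : Loop H s s') : Loop H s' s := by
  obtain ⟨v, h1, h2, h3⟩ := h
  exact ⟨v, h1, h3, h2⟩

theorem Loop.back (hB : Bim H) {s s' u t t' : List α} (hs : IsSt H s) (hs' : IsSt H s')
    (hne : s ≠ s') (h : Run2 H s s' u t t') (hl : Loop H t t') : Loop H s s' := by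
  obtain ⟨v, h1, h2, h3⟩ := hl
  obtain ⟨v', h4, -, h5, h6⟩ := loop_back hB hs hs' hne h h1 ⟨h2, h3⟩
  refine ⟨v', ?_, h5, h6⟩
  rintro rfl
  exact h1 (List.length_eq_zero_iff.1 (h4.symm.trans rfl))

theorem Loop.fwd (hB : Bim H) {s s' u t t' : List α} (hs : IsSt H s) (hs' : IsSt H s')
    (hne : s ≠ s') (h : Run2 H s s' u t t') (hl : Loop H s s') : Loop H t t' := by
  obtain ⟨v, h1, h2, h3⟩ := hl
  obtain ⟨v', h4, -, h5, h6⟩ := loop_fwd hB hs hs' hne h h1 ⟨h2, h3⟩
  refine ⟨v', ?_, h5, h6⟩
  rintro rfl
  exact h1 (List.length_eq_zero_iff.1 (h4.symm.trans rfl))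

end D0L.Tr
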