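import Pool.Agent.H.MP_374efc_lc.Tr.Star5
import Pool.Agent.H.MP_374efc_lc.Tr.Line
import Pool.Agent.H.MP_374efc_lc.Tr.Root3

/-!
# (LOC): where big tokens are read (helper66's NM note, part A)

`z` is a big token: it is read in `H` from the base to the base, it is read from two different states
only if these are on a loop (`hR`, Lemma R), and it is no prefix (suffix) of a power of a word `v` which is
a loop at `*_Q`, `*_H` and at a neighbour `s ≠ *_H` of `*_Q` (`hC`, `hC'`). If `z` is read from (to) a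
state `s ≠ *_H` then `s` and `*_H` have a common neighbour `q ≠ *_Q`.
-/

set_option autoImplicit false

namespace D0L.Tr

variable {α : Type*} [DecidableEq α] {Q H : Rose α}

theorem loc_out [Finite α] (hp : Pr Q H) (hh : Hull Q H) (hk : (KK Q H).IsAcyclic)
    (hkey : Key Q H) {z : List α} (hz : run H [] z = some [])
    (hR : ∀ s s' t t', IsSt H s → IsSt H s' → s ≠ s' → run H s z = some t →
      run H s' z = some t' → ∃ v, v ≠ [] ∧ run H s v = some s ∧ run H s' v = some s')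
    (hC : ∀ s v k, IsSt H s → s ≠ [] → Rel Q H [] s → v ≠ [] → run Q [] v = some [] →
      run H s v = some s → run H [] v = some [] → ¬ z <+: wpow v k)
    {s : List α} (hs : IsSt H s) (hne : s ≠ []) (h : run H s z ≠ none) :
    ∃ q, IsSt Q q ∧ q ≠ [] ∧ Rel Q H q s ∧ Rel Q H q [] := by
  obtain ⟨t, ht⟩ := Option.ne_none_iff_exists'.1 h
  obtain ⟨v, hv, h1, h2⟩ := hR s [] t [] hs (isSt_nil H) hne ht hz
  obtain ⟨q, hq, h3, h4, h5⟩ := star_key hp hh hk hkey hs (isSt_nil H) hne hv h1 h2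
  refine ⟨q, hq, ?_, h3, h4⟩
  rintro rfl
  obtain ⟨k, hk⟩ := loop_prefix hp.h hs (isSt_nil H) hne ⟨ht, hz⟩ hv ⟨h1, h2⟩
  exact hC s v k hs hne h3 hv h5 h1 h2 hk

theorem loc_in [Finite α] (hp : Pr Q H) (hh : Hull Q H) (hk : (KK Q H).IsAcyclic)
    (hkey : Key Q H) {z : List α} (hz : run H [] z = some [])
    (hR : ∀ s s' t t', IsSt H s → IsSt H s' → s ≠ s' → run H s z = some t →
      run H s' z = some t' → ∃ v, v ≠ [] ∧ run H s v = some s ∧ run H s' v = some s')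
    (hC' : ∀ s v k, IsSt H s → s ≠ [] → Rel Q H [] s → v ≠ [] → run Q [] v = some [] →
      run H s v = some s → run H [] v = some [] → ¬ z <:+ wpow v k)
    {s0 s : List α} (hs0 : IsSt H s0) (hne : s ≠ []) (h : run H s0 z = some s) :
    ∃ q, IsSt Q q ∧ q ≠ [] ∧ Rel Q H q s ∧ Rel Q H q [] := by
  have hne0 : s0 ≠ [] := by
    rintro rfl
    rw [hz] at h
    exact hne (by simpa using h.symm)
  have hs : IsSt H s := run_isSt hs0 h
  obtain ⟨v, hv, h1, h2⟩ := hR s0 [] s [] hs0 (isSt_nil H) hne0 h hz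
  obtain ⟨v', hlen, -, h6, h7⟩ := loop_fwd hp.h hs0 (isSt_nil H) hne0 ⟨h, hz⟩ hv ⟨h1, h2⟩
  have hv' : v' ≠ [] := by
    rintro rfl
    exact hv (List.length_eq_zero_iff.1 (hlen.symm.trans rfl))
  obtain ⟨q, hq, h3, h4, h5⟩ := star_key hp hh hk hkey hs (isSt_nil H) hne hv' h6 h7
  refine ⟨q, hq, ?_, h3, h4⟩
  rintro rfl
  obtain ⟨k, hk⟩ := loop_suffix hp.h hs0 (isSt_nil H) hne0 ⟨h, hz⟩ hv' ⟨h6, h7⟩
  exact hC' s v' k hs hne h3 hv' h5 h6 h7 hk

theorem loc [Finite α] (hp : Pr Q H) (hh : Hull Q H) (hk : (KK Q H).IsAcyclic)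
    (hkey : Key Q H) {z : List α} (hz : run H [] z = some [])
    (hR : ∀ s s' t t', IsSt H s → IsSt H s' → s ≠ s' → run H s z = some t →
      run H s' z = some t' → ∃ v, v ≠ [] ∧ run H s v = some s ∧ run H s' v = some s')
    (hC : ∀ s v k, IsSt H s → s ≠ [] → Rel Q H [] s → v ≠ [] → run Q [] v = some [] →
      run H s v = some s → run H [] v = some [] → ¬ z <+: wpow v k)
    (hC' : ∀ s v k, IsSt H s → s ≠ [] → Rel Q H [] s → v ≠ [] → run Q [] v = some [] →
      run H s v = some s → run H [] v = some [] → ¬ z <:+ wpow v k) :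
    (∀ s, IsSt H s → s ≠ [] → run H s z ≠ none →
      ∃ q, IsSt Q q ∧ q ≠ [] ∧ Rel Q H q s ∧ Rel Q H q []) ∧
    (∀ s0 s, IsSt H s0 → s ≠ [] → run H s0 z = some s →
      ∃ q, IsSt Q q ∧ q ≠ [] ∧ Rel Q H q s ∧ Rel Q H q []) :=
  ⟨fun _ hs hne h => loc_out hp hh hk hkey hz hR hC hs hne h,
    fun _ _ hs0 hne h => loc_in hp hh hk hkey hz hR hC' hs0 hne h⟩

end D0L.Tr
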