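import Pool.Agent.H.MP_374efc_lc.Tr.Ret

/-!
# The rose of first returns

`Mn Q H q s r`: `r` is the shortest word that leads from the pair `(q, s)` to the pair of the bases.
`Ps Q H`: the rose whose petals are the words of first return to the pair of the bases. Its states
correspond to the edges of the fibre graph.
-/

set_option autoImplicit false

namespace D0L.Tr

variable {α : Type*} [DecidableEq α] {Q H : Rose α}

/-- `r` is the shortest word that leads from `(q, s)` to the pair of the bases. -/
def Mn (Q H : Rose α) (q s r : List α) : Prop :=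
  run Q q r = some [] ∧ run H s r = some [] ∧
    ∀ r', r' <+: r → run Q q r' = some [] → run H s r' = some [] → r' = r

theorem mn_nil (Q H : Rose α) : Mn Q H [] [] [] :=
  ⟨run_nil _ _, run_nil _ _, fun r' hr' _ _ => by
    rw [List.prefix_nil] at hr'
    exact hr'⟩

theorem Mn.nil_iff {q s r : List α} (h : Mn Q H q s r) : r = [] ↔ q = [] ∧ s = [] := by
  constructor
  · rintro rfl
    obtain ⟨h1, h2, -⟩ := h
    rw [run_nil] at h1 h2
    exact ⟨by simpa using h1, by simpa using h2⟩
  · rintro ⟨rfl, rfl⟩
    exact (h.2.2 [] (List.nil_prefix) (run_nil _ _) (run_nil _ _)).symm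

/-- One letter of the shortest word is read. -/
theorem Mn.cons {q s r : List α} {a : α} (h : Mn Q H q s (a :: r)) :
    ∃ q' s', step Q q a = some q' ∧ step H s a = some s' ∧ Mn Q H q' s' r := by
  obtain ⟨h1, h2, h3⟩ := h
  rw [run_cons] at h1 h2
  cases hq : step Q q a with
  | none => rw [hq] at h1; simp at h1
  | some q' =>
  cases hs : step H s a with
  | none => rw [hs] at h2; simp at h2
  | some s' =>
  rw [hq] at h1
  rw [hs] at h2
  refine ⟨q', s', rfl, rfl, by simpa using h1, by simpa using h2, fun r' hr' e1 e2 => ?_⟩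
  have h4 := h3 (a :: r') (List.cons_prefix_cons.2 ⟨rfl, hr'⟩)
    (by rw [run_cons, hq]; simpa using e1) (by rw [run_cons, hs]; simpa using e2)
  simpa using h4

/-- A shortest word exists as soon as a common word exists. -/
theorem mn_exists {q s v : List α} (h1 : run Q q v = some []) (h2 : run H s v = some []) :
    ∃ r, r <+: v ∧ Mn Q H q s r := by
  classical
  have hex : ∃ k, run Q q (v.take k) = some [] ∧ run H s (v.take k) = some [] :=
    ⟨v.length, by rwa [List.take_length], by rwa [List.take_length]⟩
  refine ⟨v.take (Nat.find hex), List.take_prefix _ _, (Nat.find_spec hex).1,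
    (Nat.find_spec hex).2, fun r' hr' e1 e2 => ?_⟩
  have h3 : r' <+: v := hr'.trans (List.take_prefix _ _)
  have h4 : r' = v.take r'.length := List.prefix_iff_eq_take.1 h3
  have h5 : Nat.find hex ≤ r'.length := Nat.find_min' hex (by rw [← h4]; exact ⟨e1, e2⟩)
  have h6 : r'.length ≤ (v.take (Nat.find hex)).length := hr'.length_le
  have h7 : (v.take (Nat.find hex)).length ≤ Nat.find hex := by
    rw [List.length_take]
    exact min_le_left _ _
  have h8 : r'.length = Nat.find hex := by omega
  rw [h4, h8]

/-- The shortest word is unique. -/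
theorem Mn.unique : ∀ {r r' q s : List α}, Mn Q H q s r → Mn Q H q s r' → r = r' := by
  intro r
  induction r with
  | nil =>
    intro r' q s h h'
    have h1 := h.nil_iff.1 rfl
    exact (h'.nil_iff.2 h1).symm
  | cons a r ih =>
    intro r' q s h h'
    cases r' with
    | nil =>
      have h1 := h'.nil_iff.1 rfl
      exact h.nil_iff.2 h1
    | cons b r' =>
      have hb : ¬ (q = [] ∧ s = []) := fun hb => by simpa using h.nil_iff.2 hb
      obtain ⟨q1, s1, e1, e2, h1⟩ := h.cons
      obtain ⟨q2, s2, e3, e4, h2⟩ := h'.cons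
      have hab : a = b := by
        cases q with
        | cons c t => exact (step_unique e1).1.trans (step_unique e3).1.symm
        | nil =>
          cases s with
          | cons c t => exact (step_unique e2).1.trans (step_unique e4).1.symm
          | nil => exact (hb ⟨rfl, rfl⟩).elim
      subst hab
      rw [e1] at e3
      rw [e2] at e4
      obtain rfl : q1 = q2 := by simpa using e3
      obtain rfl : s1 = s2 := by simpa using e4
      rw [ih h1 h2]

theorem Pr.mn (hp : Pr Q H) {a : α} {l : List α} (h : Q a = some l) :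
    ∃ l' v, H a = some l' ∧ Mn Q H l l' v := by
  obtain ⟨v, h1, h2⟩ := hp.pure a l h
  rw [run_cons, step_nil, h] at h1
  rw [run_cons, step_nil] at h2
  cases hH : H a with
  | none => rw [hH] at h2; simp at h2
  | some l' =>
    rw [hH] at h2
    obtain ⟨r, -, hr⟩ := mn_exists (Q := Q) (H := H) (q := l) (s := l') (v := v)
      (by simpa using h1) (by simpa using h2)
    exact ⟨l', r, rfl, hr⟩

open Classical in
/-- The rose of first returns. -/
noncomputable def Ps (Q H : Rose α) : Rose α := fun a =>
  if h : ∃ v l l', Q a = some l ∧ H a = some l' ∧ Mn Q H l l' v then some h.choose else none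

theorem ps_some {a : α} {v : List α} (h : Ps Q H a = some v) :
    ∃ l l', Q a = some l ∧ H a = some l' ∧ Mn Q H l l' v := by
  unfold Ps at h
  split_ifs at h with h1
  · obtain rfl : h1.choose = v := by simpa using h
    exact h1.choose_spec

theorem ps_of {a : α} {v l l' : List α} (h1 : Q a = some l) (h2 : H a = some l')
    (h3 : Mn Q H l l' v) : Ps Q H a = some v := by
  have h : ∃ v l l', Q a = some l ∧ H a = some l' ∧ Mn Q H l l' v := ⟨v, l, l', h1, h2, h3⟩
  have h4 : Ps Q H a = some h.choose := by
    unfold Ps
    rw [dif_pos h]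
  obtain ⟨m, m', e1, e2, e3⟩ := h.choose_spec
  rw [h1] at e1
  rw [h2] at e2
  obtain rfl : l = m := by simpa using e1
  obtain rfl : l' = m' := by simpa using e2
  rw [h4, e3.unique h3]

/-- The two definitions of the rose of first returns agree. -/
theorem fst_eq_ps (hp : Pr Q H) : Fst Q H = Ps Q H := by
  funext a
  cases hf : Fst Q H a with
  | some v =>
    obtain ⟨⟨h1, h2⟩, h3⟩ := fst_spec hf
    have h1' := h1
    have h2' := h2
    rw [run_cons, step_nil] at h1' h2'
    cases hq : Q a with
    | none => rw [hq] at h1'; simp at h1'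
    | some l =>
    cases hs : H a with
    | none => rw [hs] at h2'; simp at h2'
    | some l' =>
    rw [hq] at h1'
    rw [hs] at h2'
    refine (ps_of hq hs ⟨by simpa using h1', by simpa using h2', fun r' hr' e1 e2 => ?_⟩).symm
    have h4 := h3 r' ⟨by rw [run_cons, step_nil, hq]; simpa using e1,
      by rw [run_cons, step_nil, hs]; simpa using e2⟩
    exact hr'.eq_of_length (le_antisymm hr'.length_le h4)
  | none =>
    cases hps : Ps Q H a with
    | none => rfl
    | some v =>
      obtain ⟨l, l', h1, h2, -⟩ := ps_some hps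
      obtain ⟨v', hv'⟩ := (fst_out hp a).2 ⟨l, h1⟩
      rw [hf] at hv'
      simp at hv'

/-- The state of the rose of first returns and the pair of states. -/
theorem ps_run (hp : Pr Q H) : ∀ {u q s : List α}, run Q [] u = some q → run H [] u = some s →
    ∃ r, run (Ps Q H) [] u = some r ∧ Mn Q H q s r := by
  intro u
  induction u using List.reverseRecOn with
  | nil =>
    intro q s h1 h2
    rw [run_nil] at h1 h2
    obtain rfl : [] = q := by simpa using h1
    obtain rfl : [] = s := by simpa using h2
    exact ⟨[], run_nil _ _, mn_nil Q H⟩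
  | append_singleton u a ih =>
    intro q s h1 h2
    rw [run_append] at h1 h2
    cases hq : run Q [] u with
    | none => rw [hq] at h1; simp at h1
    | some q0 =>
    cases hs : run H [] u with
    | none => rw [hs] at h2; simp at h2
    | some s0 =>
    rw [hq] at h1
    rw [hs] at h2
    have e1 : step Q q0 a = some q := by simpa using h1
    have e2 : step H s0 a = some s := by simpa using h2
    obtain ⟨r, hr1, hr2⟩ := ih hq hs
    cases r with
    | nil =>
      obtain ⟨rfl, rfl⟩ := hr2.nil_iff.1 rfl
      obtain ⟨l', v, e3, e4⟩ := hp.mn e1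
      have e5 : H a = some s := e2
      rw [e3] at e5
      obtain rfl : l' = s := by simpa using e5
      refine ⟨v, ?_, e4⟩
      rw [run_append, hr1]
      have e6 := ps_of (Q := Q) (H := H) e1 e3 e4
      simp [e6]
    | cons b r =>
      have hb : ¬ (q0 = [] ∧ s0 = []) := fun hb => by simpa using hr2.nil_iff.2 hb
      obtain ⟨q1, s1, e3, e4, e5⟩ := hr2.cons
      have hab : a = b := by
        cases q0 with
        | cons c t => exact (step_unique e1).1.trans (step_unique e3).1.symm
        | nil =>
          cases s0 with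
          | cons c t => exact (step_unique e2).1.trans (step_unique e4).1.symm
          | nil => exact (hb ⟨rfl, rfl⟩).elim
      subst hab
      rw [e3] at e1
      rw [e4] at e2
      obtain rfl : q1 = q := by simpa using e1
      obtain rfl : s1 = s := by simpa using e2
      refine ⟨r, ?_, e5⟩
      rw [run_append, hr1]
      simp

/-- Conversely a run of the rose of first returns is a common run. -/
theorem run_ps : ∀ {u r : List α}, run (Ps Q H) [] u = some r →
    ∃ q s, run Q [] u = some q ∧ run H [] u = some s ∧ Mn Q H q s r := by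
  intro u
  induction u using List.reverseRecOn with
  | nil =>
    intro r h
    rw [run_nil] at h
    obtain rfl : [] = r := by simpa using h
    exact ⟨[], [], run_nil _ _, run_nil _ _, mn_nil Q H⟩
  | append_singleton u a ih =>
    intro r h
    rw [run_append] at h
    cases hr : run (Ps Q H) [] u with
    | none => rw [hr] at h; simp at h
    | some r0 =>
    rw [hr] at h
    have e1 : step (Ps Q H) r0 a = some r := by simpa using h
    obtain ⟨q0, s0, hq, hs, hm⟩ := ih hr
    cases r0 with
    | nil =>
      obtain ⟨rfl, rfl⟩ := hm.nil_iff.1 rfl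
      obtain ⟨l, l', e2, e3, e4⟩ := ps_some e1
      refine ⟨l, l', ?_, ?_, e4⟩
      · rw [run_append, hq]; simp [e2]
      · rw [run_append, hs]; simp [e3]
    | cons b r0 =>
      obtain ⟨rfl, rfl⟩ := step_unique e1
      obtain ⟨q1, s1, e3, e4, e5⟩ := hm.cons
      refine ⟨q1, s1, ?_, ?_, e5⟩
      · rw [run_append, hq]; simp [e3]
      · rw [run_append, hs]; simp [e4]

/-- The shortest word determines the pair. -/
theorem Mn.inj (hp : Pr Q H) {q s q' s' r : List α} (hq : IsSt Q q) (hs : IsSt H s)
    (hq' : IsSt Q q') (hs' : IsSt H s') (h : Mn Q H q s r) (h' : Mn Q H q' s' r) :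
    q = q' ∧ s = s' :=
  ⟨run_inj hp.q hq hq' h.1 h'.1, run_inj hp.h hs hs' h.2.1 h'.2.1⟩

theorem isSt_ps (hp : Pr Q H) {r : List α} : IsSt (Ps Q H) r ↔ ∃ q s, Rel Q H q s ∧ Mn Q H q s r := by
  constructor
  · intro h
    obtain ⟨u, hu⟩ := h.reach
    obtain ⟨q, s, h1, h2, h3⟩ := run_ps hu
    exact ⟨q, s, ⟨u, h1, h2⟩, h3⟩
  · rintro ⟨q, s, ⟨u, h1, h2⟩, h3⟩
    obtain ⟨r', h4, h5⟩ := ps_run hp h1 h2
    rw [h3.unique h5]
    exact run_isSt (isSt_nil _) h4

/-- Out-letters. -/
theorem Mn.out {q s r : List α} (hm : Mn Q H q s r) (hp : Pr Q H)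
    (a : α) : (∃ t, step (Ps Q H) r a = some t) ↔
      (∃ t, step Q q a = some t) ∧ ∃ t, step H s a = some t := by
  cases r with
  | nil =>
    obtain ⟨rfl, rfl⟩ := hm.nil_iff.1 rfl
    constructor
    · rintro ⟨t, ht⟩
      obtain ⟨l, l', e1, e2, -⟩ := ps_some ht
      exact ⟨⟨l, e1⟩, l', e2⟩
    · rintro ⟨⟨l, hl⟩, -⟩
      obtain ⟨l', v, e1, e2⟩ := hp.mn hl
      exact ⟨v, ps_of hl e1 e2⟩
  | cons b r =>
    have hb : ¬ (q = [] ∧ s = []) := fun hb => by simpa using hm.nil_iff.2 hb
    obtain ⟨q1, s1, e1, e2, -⟩ := hm.cons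
    constructor
    · rintro ⟨t, ht⟩
      obtain ⟨rfl, rfl⟩ := step_unique ht
      exact ⟨⟨q1, e1⟩, s1, e2⟩
    · rintro ⟨⟨t, ht⟩, t', ht'⟩
      have hab : a = b := by
        cases q with
        | cons c l => exact (step_unique ht).1.trans (step_unique e1).1.symm
        | nil =>
          cases s with
          | cons c l => exact (step_unique ht').1.trans (step_unique e2).1.symm
          | nil => exact (hb ⟨rfl, rfl⟩).elim
      subst hab
      exact ⟨r, step_cons_self _ _ _⟩

end D0L.Tr
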