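import Mathlib

/-!
# Partial injective automata over a free group, fibre graphs, and the extension theorem

`PAut A S` is a partial deterministic and codeterministic automaton with states `S`.
`fib M₁ M₂` is the bipartite graph on the states of `M₁` and `M₂`, with `q ~ s` iff one group
element is read from the bases to `q` and to `s`.
If `fib` is a tree and for every letter the states with this out-letter induce a connected graph,
then homomorphisms on the two groups which agree on the intersection extend to the free group.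
-/

namespace D0L.Tr

open SimpleGraph

/-! ## Cocycles on a tree -/

section cocycle

variable {V : Type*} {Γ : SimpleGraph V} {G : Type*} [Group G]

/-- The product of a cocycle along a walk (later factors on the left). -/
def wprod (t : V → V → G) : ∀ {u v : V}, Γ.Walk u v → G
  | _, _, .nil => 1
  | u, _, .cons (v := v) _ p => wprod t p * t u v

theorem wprod_concat (t : V → V → G) : ∀ {u v w : V} (p : Γ.Walk u v) (h : Γ.Adj v w),
    wprod t (p.concat h) = t v w * wprod t p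
  | u, _, w, .nil, h => by simp [Walk.concat, Walk.append, wprod]
  | u, v, w, .cons (v := x) h' p, h => by
    have := wprod_concat t p h
    rw [Walk.concat_cons]
    simp only [wprod]
    rw [this, mul_assoc]

/-- A cocycle with values in a group on a tree is a coboundary. -/
theorem exists_coboundary (hT : Γ.IsTree) (t : V → V → G)
    (ht : ∀ u v, Γ.Adj u v → t v u = (t u v)⁻¹) (r : V) :
    ∃ c : V → G, c r = 1 ∧ ∀ u v, Γ.Adj u v → c v = t u v * c u := by
  classical
  have hac : Γ.IsAcyclic := hT.2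
  choose p hp _ using fun v => hT.existsUnique_path r v
  refine ⟨fun v => wprod t (p v), ?_, ?_⟩
  · have : p r = .nil := by
      have := (hac.subsingleton_path r r).elim ⟨p r, hp r⟩ ⟨.nil, Walk.IsPath.nil⟩
      exact congrArg Subtype.val this
    simp only [this, wprod]
  · intro u v huv
    change wprod t (p v) = t u v * wprod t (p u)
    by_cases hv : v ∈ (p u).support
    · have h1 : p u = (p v).concat huv.symm :=
        hac.path_concat (hp v) (hp u) huv.symm hv
      rw [h1, wprod_concat, ht u v huv]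
      group
    · have h1 : (p u).concat huv = p v := by
        have := (hac.subsingleton_path r v).elim ⟨_, (hp u).concat hv huv⟩ ⟨p v, hp v⟩
        exact congrArg Subtype.val this
      rw [← h1, wprod_concat]

end cocycle

/-! ## Partial injective automata -/

/-- A partial deterministic and codeterministic automaton with a base state. -/
structure PAut (A : Type*) (S : Type*) where
  /-- the base state -/
  base : S
  /-- the partial step function -/
  step : S → A → Option S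
  inj : ∀ {s s' : S} {a : A} {t : S}, step s a = some t → step s' a = some t → s = s'

namespace PAut

variable {A S : Type*} (M : PAut A S)

/-- One signed step. -/
def St (s : S) (x : A × Bool) (t : S) : Prop :=
  match x with
  | (a, true) => M.step s a = some t
  | (a, false) => M.step t a = some s

/-- Reading a signed word. -/
def Rd : S → List (A × Bool) → S → Prop
  | s, [], t => s = t
  | s, x :: L, t => ∃ u, M.St s x u ∧ Rd u L t

variable {M}

theorem St.det {s : S} {x : A × Bool} {t t' : S} (h : M.St s x t) (h' : M.St s x t') : t = t' := by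
  rcases x with ⟨a, _ | _⟩
  · exact M.inj h h'
  · simp only [St] at h h'
    rw [h] at h'
    exact Option.some_injective _ h'

theorem St.symm {s : S} {a : A} {b : Bool} {t : S} (h : M.St s (a, b) t) : M.St t (a, !b) s := by
  cases b <;> exact h

theorem Rd.det {s : S} {L : List (A × Bool)} {t t' : S} (h : M.Rd s L t) (h' : M.Rd s L t') :
    t = t' := by
  induction L generalizing s with
  | nil => exact h.symm.trans h'
  | cons x L ih =>
    obtain ⟨u, hu, h⟩ := h
    obtain ⟨u', hu', h'⟩ := h'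
    obtain rfl := hu.det hu'
    exact ih h h'

theorem rd_append {s : S} {L L' : List (A × Bool)} {t : S} :
    M.Rd s (L ++ L') t ↔ ∃ u, M.Rd s L u ∧ M.Rd u L' t := by
  induction L generalizing s with
  | nil => simp [Rd]
  | cons x L ih =>
    simp only [List.cons_append, Rd, ih]
    constructor
    · rintro ⟨u, hu, v, hv, h⟩
      exact ⟨v, ⟨u, hu, hv⟩, h⟩
    · rintro ⟨v, ⟨u, hu, hv⟩, h⟩
      exact ⟨u, hu, v, hv, h⟩

theorem Rd.redStep {s : S} {L L' : List (A × Bool)} {t : S} (h : M.Rd s L t)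
    (hr : FreeGroup.Red.Step L L') : M.Rd s L' t := by
  cases hr with
  | @not L₁ L₂ x b =>
    rw [rd_append] at h ⊢
    obtain ⟨u, hu, v, hv, w, hw, h⟩ := h
    refine ⟨u, hu, ?_⟩
    have : u = w := by
      have h1 := hv.symm
      exact h1.det hw
    rw [this]
    exact h

theorem Rd.red {s : S} {L L' : List (A × Bool)} {t : S} (h : M.Rd s L t)
    (hr : FreeGroup.Red L L') : M.Rd s L' t := by
  induction hr with
  | refl => exact h
  | tail _ hs ih => exact ih.redStep hs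

theorem Rd.invRev {s : S} {L : List (A × Bool)} {t : S} (h : M.Rd s L t) :
    M.Rd t (FreeGroup.invRev L) s := by
  induction L generalizing s with
  | nil => exact (h : s = t).symm
  | cons x L ih =>
    obtain ⟨u, hu, h⟩ := h
    have h1 : FreeGroup.invRev (x :: L) = FreeGroup.invRev L ++ [(x.1, !x.2)] := by
      simp [FreeGroup.invRev]
    rw [h1, rd_append]
    refine ⟨u, ih h, s, ?_, rfl⟩
    exact hu.symm

variable (M)

/-- Reading a group element. -/
def RdG (s : S) (g : FreeGroup A) (t : S) : Prop := ∃ L, FreeGroup.mk L = g ∧ M.Rd s L t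

variable {M}

theorem RdG.det {s : S} {g : FreeGroup A} {t t' : S} (h : M.RdG s g t) (h' : M.RdG s g t') :
    t = t' := by
  obtain ⟨L, rfl, h⟩ := h
  obtain ⟨L', hL, h'⟩ := h'
  obtain ⟨L'', h1, h2⟩ := FreeGroup.Red.exact.mp hL
  exact (h.red h2).det (h'.red h1)

theorem RdG.mul {s : S} {g g' : FreeGroup A} {t u : S} (h : M.RdG s g t) (h' : M.RdG t g' u) :
    M.RdG s (g * g') u := by
  obtain ⟨L, rfl, h⟩ := h
  obtain ⟨L', rfl, h'⟩ := h'
  exact ⟨L ++ L', FreeGroup.mul_mk.symm, rd_append.2 ⟨t, h, h'⟩⟩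

theorem RdG.inv {s : S} {g : FreeGroup A} {t : S} (h : M.RdG s g t) : M.RdG t g⁻¹ s := by
  obtain ⟨L, rfl, h⟩ := h
  exact ⟨FreeGroup.invRev L, FreeGroup.inv_mk.symm, h.invRev⟩

theorem RdG.one (s : S) : M.RdG s 1 s := ⟨[], rfl, rfl⟩

theorem RdG.of {s : S} {a : A} {t : S} (h : M.step s a = some t) :
    M.RdG s (FreeGroup.of a) t := ⟨[(a, true)], rfl, t, h, rfl⟩

/-- If two automata read the same element, they read one common word. -/
theorem exists_common {S' : Type*} {M' : PAut A S'} {s : S} {g : FreeGroup A} {t : S} {s' t' : S'}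
    (h : M.RdG s g t) (h' : M'.RdG s' g t') :
    ∃ L, FreeGroup.mk L = g ∧ M.Rd s L t ∧ M'.Rd s' L t' := by
  obtain ⟨L, rfl, h⟩ := h
  obtain ⟨L', hL, h'⟩ := h'
  obtain ⟨L'', h1, h2⟩ := FreeGroup.Red.exact.mp hL
  refine ⟨L'', ?_, h.red h2, h'.red h1⟩
  exact (FreeGroup.Red.exact.2 ⟨L'', h2, Relation.ReflTransGen.refl⟩).symm

variable (M)

/-- The group of an automaton: the loops at the base. -/
def grp : Subgroup (FreeGroup A) where
  carrier := {g | M.RdG M.base g M.base}
  mul_mem' h h' := RdG.mul h h'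
  one_mem' := RdG.one _
  inv_mem' h := RdG.inv h

theorem mem_grp {g : FreeGroup A} : g ∈ M.grp ↔ M.RdG M.base g M.base := Iff.rfl

end PAut

/-! ## The fibre graph -/

variable {A S₁ S₂ : Type*} (M₁ : PAut A S₁) (M₂ : PAut A S₂)

/-- adjacency of the fibre graph, one direction -/
def Fadj : S₁ ⊕ S₂ → S₁ ⊕ S₂ → Prop
  | .inl q, .inr s => ∃ g, M₁.RdG M₁.base g q ∧ M₂.RdG M₂.base g s
  | .inr s, .inl q => ∃ g, M₁.RdG M₁.base g q ∧ M₂.RdG M₂.base g s
  | _, _ => False

/-- The fibre graph. -/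
def fib : SimpleGraph (S₁ ⊕ S₂) where
  Adj := Fadj M₁ M₂
  symm := ⟨by rintro (q | q) (s | s) h <;> exact h⟩
  loopless := ⟨by rintro (q | q) h <;> exact h⟩

/-- states with a given out-letter -/
def outS (a : A) : Set (S₁ ⊕ S₂) :=
  {v | match v with
    | .inl q => ∃ q', M₁.step q a = some q'
    | .inr s => ∃ s', M₂.step s a = some s'}

variable {M₁ M₂}

open PAut

theorem exists_read_inl (hT : (fib M₁ M₂).Preconnected) (q : S₁) :
    ∃ g, M₁.RdG M₁.base g q := by
  obtain ⟨p⟩ := hT (.inl q) (.inr M₂.base)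
  cases p with
  | @cons _ v _ h p =>
    rcases v with q' | s
    · exact absurd h (by simp [fib, Fadj])
    · obtain ⟨g, h1, _⟩ := (h : Fadj M₁ M₂ (.inl q) (.inr s))
      exact ⟨g, h1⟩

theorem exists_read_inr (hT : (fib M₁ M₂).Preconnected) (s : S₂) :
    ∃ g, M₂.RdG M₂.base g s := by
  obtain ⟨p⟩ := hT (.inr s) (.inl M₁.base)
  cases p with
  | @cons _ v _ h p =>
    rcases v with q | s'
    · obtain ⟨g, _, h1⟩ := (h : Fadj M₁ M₂ (.inr s) (.inl q))
      exact ⟨g, h1⟩
    · exact absurd h (by simp [fib, Fadj])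

theorem mem_grp_of_read {S : Type*} {M : PAut A S} {g g' : FreeGroup A} {q : S}
    (h : M.RdG M.base g q) (h' : M.RdG M.base g' q) : g * g'⁻¹ ∈ M.grp :=
  h.mul h'.inv

/-- **Extension theorem.** -/
theorem extend {G : Type*} [Group G] (hT : (fib M₁ M₂).IsTree)
    (hK : ∀ a, ((fib M₁ M₂).induce (outS M₁ M₂ a)).Preconnected)
    (ι₁ : M₁.grp →* G) (ι₂ : M₂.grp →* G)
    (hag : ∀ g (h₁ : g ∈ M₁.grp) (h₂ : g ∈ M₂.grp), ι₁ ⟨g, h₁⟩ = ι₂ ⟨g, h₂⟩) :
    ∃ ψ : FreeGroup A →* G, (∀ g : M₁.grp, ψ g = ι₁ g) ∧ ∀ g : M₂.grp, ψ g = ι₂ g := by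
  classical
  have hpre : (fib M₁ M₂).Preconnected := hT.1.preconnected
  -- representatives of the states
  have hu1 : ∀ q : S₁, ∃ g, M₁.RdG M₁.base g q ∧ (q = M₁.base → g = 1) := by
    intro q
    by_cases hq : q = M₁.base
    · subst hq
      exact ⟨1, RdG.one _, fun _ => rfl⟩
    · obtain ⟨g, hg⟩ := exists_read_inl hpre q
      exact ⟨g, hg, fun h => absurd h hq⟩
  have hu2 : ∀ s : S₂, ∃ g, M₂.RdG M₂.base g s := exists_read_inr hpre
  choose u1 hu1 hu1b using hu1
  choose u2 hu2 using hu2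
  -- transition elements
  have hτ : ∀ q s, ∃ τ : G, ∀ g (h1 : M₁.RdG M₁.base g q) (h2 : M₂.RdG M₂.base g s),
      ι₂ ⟨g * (u2 s)⁻¹, mem_grp_of_read h2 (hu2 s)⟩ * τ
        = ι₁ ⟨g * (u1 q)⁻¹, mem_grp_of_read h1 (hu1 q)⟩ := by
    intro q s
    by_cases hqs : ∃ g, M₁.RdG M₁.base g q ∧ M₂.RdG M₂.base g s
    · obtain ⟨g, h1, h2⟩ := hqs
      refine ⟨(ι₂ ⟨g * (u2 s)⁻¹, mem_grp_of_read h2 (hu2 s)⟩)⁻¹ *
        ι₁ ⟨g * (u1 q)⁻¹, mem_grp_of_read h1 (hu1 q)⟩, ?_⟩
      intro g' h1' h2'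
      have k1 : g' * g⁻¹ ∈ M₁.grp := mem_grp_of_read h1' h1
      have k2 : g' * g⁻¹ ∈ M₂.grp := mem_grp_of_read h2' h2
      have e1 : (⟨g' * (u1 q)⁻¹, mem_grp_of_read h1' (hu1 q)⟩ : M₁.grp)
          = ⟨g' * g⁻¹, k1⟩ * ⟨g * (u1 q)⁻¹, mem_grp_of_read h1 (hu1 q)⟩ := by
        apply Subtype.ext
        change g' * (u1 q)⁻¹ = g' * g⁻¹ * (g * (u1 q)⁻¹)
        group
      have e2 : (⟨g' * (u2 s)⁻¹, mem_grp_of_read h2' (hu2 s)⟩ : M₂.grp)
          = ⟨g' * g⁻¹, k2⟩ * ⟨g * (u2 s)⁻¹, mem_grp_of_read h2 (hu2 s)⟩ := by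
        apply Subtype.ext
        change g' * (u2 s)⁻¹ = g' * g⁻¹ * (g * (u2 s)⁻¹)
        group
      rw [e1, e2, map_mul, map_mul, hag _ k1 k2]
      group
    · refine ⟨1, fun g h1 h2 => absurd ⟨g, h1, h2⟩ hqs⟩
  choose τ hτ using hτ
  let t : S₁ ⊕ S₂ → S₁ ⊕ S₂ → G := fun v w =>
    match v, w with
    | .inl q, .inr s => τ q s
    | .inr s, .inl q => (τ q s)⁻¹
    | _, _ => 1
  obtain ⟨c, hc1, hc⟩ := exists_coboundary hT t (by
    rintro (q | q) (s | s) h
    · exact absurd h (by simp [fib, Fadj])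
    · rfl
    · exact (inv_inv (τ s q)).symm
    · exact absurd h (by simp [fib, Fadj])) (.inl M₁.base)
  have hcs : ∀ q s g (h1 : M₁.RdG M₁.base g q) (h2 : M₂.RdG M₂.base g s),
      ι₂ ⟨g * (u2 s)⁻¹, mem_grp_of_read h2 (hu2 s)⟩ * c (.inr s)
        = ι₁ ⟨g * (u1 q)⁻¹, mem_grp_of_read h1 (hu1 q)⟩ * c (.inl q) := by
    intro q s g h1 h2
    have : c (.inr s) = τ q s * c (.inl q) := hc (.inl q) (.inr s) ⟨g, h1, h2⟩
    rw [this, ← mul_assoc, hτ q s g h1 h2]
  -- developing maps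
  have hD1 : ∀ g : FreeGroup A, ∃ d : G, ∀ q (h : M₁.RdG M₁.base g q),
      d = ι₁ ⟨g * (u1 q)⁻¹, mem_grp_of_read h (hu1 q)⟩ * c (.inl q) := by
    intro g
    by_cases h : ∃ q, M₁.RdG M₁.base g q
    · obtain ⟨q, h⟩ := h
      refine ⟨ι₁ ⟨g * (u1 q)⁻¹, mem_grp_of_read h (hu1 q)⟩ * c (.inl q), fun q' h' => ?_⟩
      obtain rfl := h.det h'
      rfl
    · exact ⟨1, fun q h' => absurd ⟨q, h'⟩ h⟩
  have hD2 : ∀ g : FreeGroup A, ∃ d : G, ∀ q (h : M₂.RdG M₂.base g q),
      d = ι₂ ⟨g * (u2 q)⁻¹, mem_grp_of_read h (hu2 q)⟩ * c (.inr q) := by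
    intro g
    by_cases h : ∃ q, M₂.RdG M₂.base g q
    · obtain ⟨q, h⟩ := h
      refine ⟨ι₂ ⟨g * (u2 q)⁻¹, mem_grp_of_read h (hu2 q)⟩ * c (.inr q), fun q' h' => ?_⟩
      obtain rfl := h.det h'
      rfl
    · exact ⟨1, fun q h' => absurd ⟨q, h'⟩ h⟩
  choose D1 hD1 using hD1
  choose D2 hD2 using hD2
  have P1 : ∀ (k : M₁.grp) g q, M₁.RdG M₁.base g q → D1 (k * g) = ι₁ k * D1 g := by
    intro k g q h
    rw [hD1 g q h, hD1 (k * g) q (RdG.mul k.2 h), ← mul_assoc, ← map_mul]
    congr 2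
    apply Subtype.ext
    change (k : FreeGroup A) * g * (u1 q)⁻¹ = k * (g * (u1 q)⁻¹)
    group
  have P1' : ∀ (k : M₂.grp) g q, M₂.RdG M₂.base g q → D2 (k * g) = ι₂ k * D2 g := by
    intro k g q h
    rw [hD2 g q h, hD2 (k * g) q (RdG.mul k.2 h), ← mul_assoc, ← map_mul]
    congr 2
    apply Subtype.ext
    change (k : FreeGroup A) * g * (u2 q)⁻¹ = k * (g * (u2 q)⁻¹)
    group
  have P2 : ∀ g q s, M₁.RdG M₁.base g q → M₂.RdG M₂.base g s → D1 g = D2 g := by
    intro g q s h1 h2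
    rw [hD1 g q h1, hD2 g s h2, hcs q s g h1 h2]
  have P3 : D1 1 = 1 := by
    rw [hD1 1 M₁.base (RdG.one _), hc1, mul_one]
    have : (⟨1 * (u1 M₁.base)⁻¹, mem_grp_of_read (RdG.one _) (hu1 M₁.base)⟩ : M₁.grp) = 1 := by
      apply Subtype.ext
      change 1 * (u1 M₁.base)⁻¹ = (1 : FreeGroup A)
      rw [hu1b _ rfl]
      simp
    rw [this, map_one]
  have P3' : D2 1 = 1 := by rw [← P2 1 _ _ (RdG.one _) (RdG.one _), P3]
  -- the letters
  have he : ∀ a, ∃ e : G,
      (∀ g q q', M₁.RdG M₁.base g q → M₁.step q a = some q' →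
        D1 (g * FreeGroup.of a) = D1 g * e) ∧
      (∀ g q q', M₂.RdG M₂.base g q → M₂.step q a = some q' →
        D2 (g * FreeGroup.of a) = D2 g * e) := by
    intro a
    let f : S₁ ⊕ S₂ → G := fun v => match v with
      | .inl q => (D1 (u1 q))⁻¹ * D1 (u1 q * FreeGroup.of a)
      | .inr s => (D2 (u2 s))⁻¹ * D2 (u2 s * FreeGroup.of a)
    have f1 : ∀ g q q', M₁.RdG M₁.base g q → M₁.step q a = some q' →
        D1 (g * FreeGroup.of a) = D1 g * f (.inl q) := by
      intro g q q' h hs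
      have hk : g * (u1 q)⁻¹ ∈ M₁.grp := mem_grp_of_read h (hu1 q)
      have e1 := P1 ⟨_, hk⟩ (u1 q) q (hu1 q)
      have e2 := P1 ⟨_, hk⟩ (u1 q * FreeGroup.of a) q' ((hu1 q).mul (RdG.of hs))
      simp only [mul_assoc, inv_mul_cancel, mul_one, inv_mul_cancel_left] at e1 e2
      rw [e1, e2]
      simp only [f]
      group
    have f2 : ∀ g q q', M₂.RdG M₂.base g q → M₂.step q a = some q' →
        D2 (g * FreeGroup.of a) = D2 g * f (.inr q) := by
      intro g q q' h hs
      have hk : g * (u2 q)⁻¹ ∈ M₂.grp := mem_grp_of_read h (hu2 q)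
      have e1 := P1' ⟨_, hk⟩ (u2 q) q (hu2 q)
      have e2 := P1' ⟨_, hk⟩ (u2 q * FreeGroup.of a) q' ((hu2 q).mul (RdG.of hs))
      simp only [mul_assoc, inv_mul_cancel, mul_one, inv_mul_cancel_left] at e1 e2
      rw [e1, e2]
      simp only [f]
      group
    have fqs : ∀ q s, .inl q ∈ outS M₁ M₂ a → .inr s ∈ outS M₁ M₂ a →
        (∃ g, M₁.RdG M₁.base g q ∧ M₂.RdG M₂.base g s) → f (.inl q) = f (.inr s) := by
      rintro q s ⟨q', hq'⟩ ⟨s', hs'⟩ ⟨g, h1, h2⟩
      have e1 := f1 g q q' h1 hq'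
      have e2 := f2 g s s' h2 hs'
      rw [P2 g q s h1 h2, P2 (g * FreeGroup.of a) q' s' (h1.mul (RdG.of hq'))
        (h2.mul (RdG.of hs')), e2] at e1
      exact (mul_left_cancel e1).symm
    have fadj : ∀ v w : outS M₁ M₂ a, ((fib M₁ M₂).induce (outS M₁ M₂ a)).Adj v w →
        f v = f w := by
      rintro ⟨v, hv⟩ ⟨w, hw⟩ h
      rcases v with q | s <;> rcases w with q' | s'
      · exact absurd h (by simp [fib, Fadj])
      · exact fqs q s' hv hw h
      · exact (fqs q' s hw hv h).symm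
      · exact absurd h (by simp [fib, Fadj])
    have fconst : ∀ v w : outS M₁ M₂ a, f v = f w := by
      intro v w
      obtain ⟨p⟩ := hK a v w
      induction p with
      | nil => rfl
      | cons h _ ih => exact (fadj _ _ h).trans ih
    by_cases hne : ∃ v, v ∈ outS M₁ M₂ a
    · obtain ⟨v, hv⟩ := hne
      refine ⟨f v, ?_, ?_⟩
      · intro g q q' h hs
        rw [f1 g q q' h hs]
        exact congrArg (D1 g * ·) (fconst ⟨.inl q, q', hs⟩ ⟨v, hv⟩)
      · intro g q q' h hs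
        rw [f2 g q q' h hs]
        exact congrArg (D2 g * ·) (fconst ⟨.inr q, q', hs⟩ ⟨v, hv⟩)
    · refine ⟨1, ?_, ?_⟩
      · intro g q q' h hs
        exact absurd ⟨.inl q, q', hs⟩ hne
      · intro g q q' h hs
        exact absurd ⟨.inr q, q', hs⟩ hne
  choose e he1 he2 using he
  let ψ : FreeGroup A →* G := FreeGroup.lift e
  have L1 : ∀ (L : List (A × Bool)) g q q', M₁.RdG M₁.base g q → M₁.Rd q L q' →
      D1 (g * FreeGroup.mk L) = D1 g * ψ (FreeGroup.mk L) := by
    intro L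
    induction L with
    | nil =>
      intro g q q' _ _
      have : (FreeGroup.mk [] : FreeGroup A) = 1 := rfl
      rw [this, map_one, mul_one, mul_one]
    | cons x L ih =>
      rintro g q q' h ⟨v, hv, hL⟩
      have hx : (FreeGroup.mk (x :: L) : FreeGroup A) = FreeGroup.mk [x] * FreeGroup.mk L := rfl
      have hgx : M₁.RdG M₁.base (g * FreeGroup.mk [x]) v := h.mul ⟨[x], rfl, v, hv, rfl⟩
      rw [hx, ← mul_assoc, ih _ v q' hgx hL, map_mul, ← mul_assoc]
      congr 1
      rcases x with ⟨a, _ | _⟩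
      · have h3 := he1 a (g * FreeGroup.mk [(a, false)]) v q hgx hv
        have h4 : (FreeGroup.mk [(a, false)] : FreeGroup A) = (FreeGroup.of a)⁻¹ := rfl
        rw [h4] at h3 ⊢
        rw [inv_mul_cancel_right] at h3
        rw [h3, map_inv]
        simp only [ψ, FreeGroup.lift_apply_of, mul_inv_cancel_right]
      · have h3 := he1 a g q v h hv
        have h4 : (FreeGroup.mk [(a, true)] : FreeGroup A) = FreeGroup.of a := rfl
        rw [h4, h3]
        simp only [ψ, FreeGroup.lift_apply_of]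
  have L2 : ∀ (L : List (A × Bool)) g q q', M₂.RdG M₂.base g q → M₂.Rd q L q' →
      D2 (g * FreeGroup.mk L) = D2 g * ψ (FreeGroup.mk L) := by
    intro L
    induction L with
    | nil =>
      intro g q q' _ _
      have : (FreeGroup.mk [] : FreeGroup A) = 1 := rfl
      rw [this, map_one, mul_one, mul_one]
    | cons x L ih =>
      rintro g q q' h ⟨v, hv, hL⟩
      have hx : (FreeGroup.mk (x :: L) : FreeGroup A) = FreeGroup.mk [x] * FreeGroup.mk L := rfl
      have hgx : M₂.RdG M₂.base (g * FreeGroup.mk [x]) v := h.mul ⟨[x], rfl, v, hv, rfl⟩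
      rw [hx, ← mul_assoc, ih _ v q' hgx hL, map_mul, ← mul_assoc]
      congr 1
      rcases x with ⟨a, _ | _⟩
      · have h3 := he2 a (g * FreeGroup.mk [(a, false)]) v q hgx hv
        have h4 : (FreeGroup.mk [(a, false)] : FreeGroup A) = (FreeGroup.of a)⁻¹ := rfl
        rw [h4] at h3 ⊢
        rw [inv_mul_cancel_right] at h3
        rw [h3, map_inv]
        simp only [ψ, FreeGroup.lift_apply_of, mul_inv_cancel_right]
      · have h3 := he2 a g q v h hv
        have h4 : (FreeGroup.mk [(a, true)] : FreeGroup A) = FreeGroup.of a := rfl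
        rw [h4, h3]
        simp only [ψ, FreeGroup.lift_apply_of]
  refine ⟨ψ, ?_, ?_⟩
  · rintro ⟨g, hg⟩
    obtain ⟨L, hL, hr⟩ := hg
    have h1 := L1 L 1 M₁.base M₁.base (RdG.one _) hr
    rw [one_mul, P3, one_mul, hL] at h1
    have h2 := P1 ⟨g, ⟨L, hL, hr⟩⟩ 1 M₁.base (RdG.one _)
    rw [P3, mul_one, mul_one] at h2
    exact h1.symm.trans h2
  · rintro ⟨g, hg⟩
    obtain ⟨L, hL, hr⟩ := hg
    have h1 := L2 L 1 M₂.base M₂.base (RdG.one _) hr
    rw [one_mul, P3', one_mul, hL] at h1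
    have h2 := P1' ⟨g, ⟨L, hL, hr⟩⟩ 1 M₂.base (RdG.one _)
    rw [P3', mul_one, mul_one] at h2
    exact h1.symm.trans h2

end D0L.Tr
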