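import Pool.Agent.H.MP_374efc_lc.Tr.Push2

/-!
# The coset graph of two subgroups

Vertices: cosets of `Q` and cosets of `H`; a coset of `Q` and a coset of `H` are adjacent if they
have a common element. It is a forest if `Amalg Q H`, and connected if `Q ⊔ H = ⊤`.
-/

namespace D0L.Tr

open SimpleGraph

variable {F : Type*} [Group F]

/-- The vertices of the coset graph. -/
abbrev KV (Q H : Subgroup F) := (F ⧸ Q) ⊕ (F ⧸ H)

variable (Q H : Subgroup F)

/-- The vertex `gQ` (for `true`) or `gH` (for `false`). -/
def vt : Bool → F → KV Q H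
  | true, g => .inl (g : F ⧸ Q)
  | false, g => .inr (g : F ⧸ H)

variable {Q H}

theorem vt_eq {b : Bool} {g g' : F} : vt Q H b g = vt Q H b g' ↔ g⁻¹ * g' ∈ side Q H b := by
  cases b
  · simp only [vt, Sum.inr.injEq, QuotientGroup.eq, side]
  · simp only [vt, Sum.inl.injEq, QuotientGroup.eq, side]

theorem vt_ne {b b' : Bool} (h : b ≠ b') (g g' : F) : vt Q H b g ≠ vt Q H b' g' := by
  cases b <;> cases b' <;> simp_all [vt]

theorem exists_vt (v : KV Q H) : ∃ b g, v = vt Q H b g := by
  rcases v with x | x
  · obtain ⟨g, rfl⟩ := QuotientGroup.mk_surjective x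
    exact ⟨true, g, rfl⟩
  · obtain ⟨g, rfl⟩ := QuotientGroup.mk_surjective x
    exact ⟨false, g, rfl⟩

theorem smul_vt (b : Bool) (g x : F) : g • vt Q H b x = vt Q H b (g * x) := by
  cases b <;> rfl

variable (Q H) in
/-- The coset graph. -/
def KG : SimpleGraph (KV Q H) where
  Adj v w := ∃ b g, v = vt Q H b g ∧ w = vt Q H (!b) g
  symm := ⟨by
    rintro v w ⟨b, g, h1, h2⟩
    exact ⟨!b, g, h2, by simpa using h1⟩⟩
  loopless := ⟨by
    rintro v ⟨b, g, h1, h2⟩
    exact vt_ne (by cases b <;> simp) g g (h1.symm.trans h2)⟩

theorem KG_adj {v w : KV Q H} : (KG Q H).Adj v w ↔ ∃ b g, v = vt Q H b g ∧ w = vt Q H (!b) g :=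
  Iff.rfl

theorem adj_vt (b : Bool) (g : F) : (KG Q H).Adj (vt Q H b g) (vt Q H (!b) g) := ⟨b, g, rfl, rfl⟩

theorem smul_adj (g : F) {v w : KV Q H} (h : (KG Q H).Adj v w) : (KG Q H).Adj (g • v) (g • w) := by
  obtain ⟨b, x, rfl, rfl⟩ := h
  exact ⟨b, g * x, smul_vt _ _ _, smul_vt _ _ _⟩

/-- The action as graph automorphisms. -/
def smulHom (g : F) : KG Q H →g KG Q H := ⟨(g • ·), smul_adj g⟩

theorem adj_type {b b' : Bool} {g g' : F} (h : (KG Q H).Adj (vt Q H b g) (vt Q H b' g')) :
    b' = !b := by
  obtain ⟨c, x, h1, h2⟩ := h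
  have e1 : b = c := by
    by_contra hne
    exact vt_ne hne _ _ h1
  have e2 : b' = !c := by
    by_contra hne
    exact vt_ne hne _ _ h2
  rw [e1, e2]

/-- The elements of two edges at one vertex. -/
theorem adj_vt_iff {b : Bool} {g g' : F} :
    (KG Q H).Adj (vt Q H b g) (vt Q H (!b) g') ↔
      ∃ k ∈ side Q H b, vt Q H (!b) (g * k) = vt Q H (!b) g' := by
  constructor
  · rintro ⟨c, x, h1, h2⟩
    have hc : b = c := by
      by_contra hne
      exact vt_ne hne _ _ h1
    subst hc
    refine ⟨g⁻¹ * x, vt_eq.1 h1, ?_⟩
    rw [mul_inv_cancel_left]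
    exact h2.symm
  · rintro ⟨k, hk, h⟩
    refine ⟨b, g * k, ?_, h.symm⟩
    rw [vt_eq, inv_mul_cancel_left]
    exact hk

/-- A path of the coset graph gives an alternating list: here `g` is an element of the first edge
and `g * aprod l` an element of the last edge. -/
theorem path_alt {v w : KV Q H} (p : (KG Q H).Walk v w) (hp : p.IsPath) (h1 : 1 ≤ p.length) :
    ∃ (b : Bool) (g : F) (l : List (Bool × F)), v = vt Q H b g ∧ p.snd = vt Q H (!b) g ∧
      IsAlt Q H l ∧ (∀ x ∈ l.head?, x.1 = !b) ∧ l.length + 1 = p.length ∧
      w = vt Q H (!((l.getLast?.map Prod.fst).getD b)) (g * aprod F l) ∧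
      p.penultimate = vt Q H ((l.getLast?.map Prod.fst).getD b) (g * aprod F l) := by
  induction p with
  | nil => simp at h1
  | @cons v u w h p ih =>
    cases p with
    | nil =>
      obtain ⟨b, g, rfl, rfl⟩ := h
      refine ⟨b, g, [], rfl, rfl, isAlt_nil, by simp, by simp, ?_, ?_⟩
      · simp [aprod]
      · simp [aprod, Walk.penultimate]
    | @cons _ u' _ h' p' =>
      have hp' : (Walk.cons h' p').IsPath := hp.of_cons
      obtain ⟨b, g', l, e1, e2, hl, hhead, hlen, hw, hpen⟩ := ih hp' (by simp)
      obtain ⟨c, g, rfl, hu⟩ := h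
      have hc : b = !c := by
        by_contra hne
        exact vt_ne hne _ _ (e1.symm.trans hu)
      subst hc
      simp only [Bool.not_not] at e2 hhead
      simp only [Walk.snd_cons] at e2
      have hu' : vt Q H c g ≠ u' := by
        intro he
        have := hp.support_nodup
        simp only [Walk.support_cons, List.nodup_cons, List.mem_cons] at this
        apply this.1
        right
        rw [he]
        exact p'.start_mem_support
      have hk : g⁻¹ * g' ∈ side Q H (!c) := vt_eq.1 (hu.symm.trans e1)
      have hk' : g⁻¹ * g' ∉ side Q H c := by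
        intro hk'
        exact hu' ((vt_eq.2 hk').trans e2.symm)
      refine ⟨c, g, (!c, g⁻¹ * g') :: l, rfl, ?_, ?_, ?_, ?_, ?_, ?_⟩
      · simp only [Walk.snd_cons]
        exact hu
      · rw [isAlt_cons]
        refine ⟨hl, ⟨hk, by simpa using hk'⟩, ?_⟩
        intro y hy
        rw [hhead y hy]
        cases c <;> simp
      · simp
      · simp only [List.length_cons, Walk.length_cons] at hlen ⊢
        omega
      · have ha : g * aprod F ((!c, g⁻¹ * g') :: l) = g' * aprod F l := by
          simp only [aprod, List.map_cons, List.prod_cons]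
          group
        have hlast : ((((!c, g⁻¹ * g') :: l).getLast?.map Prod.fst).getD c)
            = ((l.getLast?.map Prod.fst).getD (!c)) := by
          rw [List.getLast?_cons]
          cases hl' : l.getLast? <;> simp
        rw [ha, hlast]
        exact hw
      · have ha : g * aprod F ((!c, g⁻¹ * g') :: l) = g' * aprod F l := by
          simp only [aprod, List.map_cons, List.prod_cons]
          group
        have hlast : ((((!c, g⁻¹ * g') :: l).getLast?.map Prod.fst).getD c)
            = ((l.getLast?.map Prod.fst).getD (!c)) := by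
          rw [List.getLast?_cons]
          cases hl' : l.getLast? <;> simp
        rw [ha, hlast, Walk.penultimate_cons_cons]
        exact hpen

/-- The coset graph of an amalgam is a forest. -/
theorem KG_isAcyclic (hA : Amalg Q H) : (KG Q H).IsAcyclic := by
  intro v c hc
  cases c with
  | nil => exact hc.ne_nil rfl
  | @cons _ u _ h p =>
    rw [Walk.cons_isCycle_iff] at hc
    obtain ⟨hp, hedge⟩ := hc
    have hlen : 1 ≤ p.length := by
      rcases Nat.eq_zero_or_pos p.length with h0 | h0
      · exact absurd (Walk.eq_of_length_eq_zero h0) h.ne'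
      · exact h0
    obtain ⟨b, g, l, e1, e2, hl, hhead, hlen', hw, hpen⟩ := path_alt p hp hlen
    set c := (l.getLast?.map Prod.fst).getD b with hcdef
    obtain ⟨b1, g1, h1, h2⟩ := h
    have hb : b = !b1 := by
      by_contra hne
      exact vt_ne hne _ _ (e1.symm.trans h2)
    have hcb : (!c) = b1 := by
      by_contra hne
      exact vt_ne hne _ _ (hw.symm.trans h1)
    have hcb' : c = !b1 := by rw [← hcb]; simp
    have hk1 : (g * aprod F l)⁻¹ * g1 ∈ side Q H b1 := by
      rw [hcb] at hw
      exact vt_eq.1 (hw.symm.trans h1)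
    have hk2 : g⁻¹ * g1 ∈ side Q H (!b1) := by
      rw [hb] at e1
      exact vt_eq.1 (e1.symm.trans h2)
    rcases List.eq_nil_or_concat' l with rfl | ⟨l', x, rfl⟩
    · -- length one
      simp only [List.getLast?_nil, Option.map_none, Option.getD_none] at hcdef
      have hl1 : p.length = 1 := by simpa using hlen'.symm
      apply hedge
      cases p with
      | nil => simp at hl1
      | @cons _ u' _ h' p' =>
        have : p'.length = 0 := by simpa using hl1
        obtain rfl := Walk.eq_of_length_eq_zero this
        simp [Sym2.eq_swap]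
    · have hx : x.1 = c := by
        rw [hcdef]
        simp
      have hlen2 : 2 ≤ (l' ++ [x]).length := by
        rcases l' with _ | ⟨y, l'⟩
        · exfalso
          have := hhead x (by simp)
          rw [this, hb, hcb'] at hx
          cases b1 <;> simp at hx
        · simp
      have hx2 : x.1 ≠ b1 := by rw [hx, hcb']; cases b1 <;> simp
      by_cases hk : (g * aprod F (l' ++ [x]))⁻¹ * g1 ∈ side Q H (!b1)
      · apply hl.prod_notMem_side hA hlen2 (!b1)
        have := Subgroup.mul_mem _ hk2 (Subgroup.inv_mem _ hk)
        have h5 : g⁻¹ * g1 * ((g * aprod F (l' ++ [x]))⁻¹ * g1)⁻¹ = aprod F (l' ++ [x]) := by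
          group
        rw [h5] at this
        exact this
      · have halt : IsAlt Q H ((l' ++ [x]) ++ [(b1, (g * aprod F (l' ++ [x]))⁻¹ * g1)]) := by
          rw [isAlt_concat]
          refine ⟨hl, ⟨hk1, hk⟩, ?_⟩
          intro y hy
          simp only [List.getLast?_append, List.getLast?_singleton, Option.some_or,
            Option.mem_def, Option.some.injEq] at hy
          rw [← hy]
          exact hx2
        apply halt.prod_notMem_side hA (by simp) (!b1)
        rw [aprod_concat]
        have h5 : aprod F (l' ++ [x]) * ((g * aprod F (l' ++ [x]))⁻¹ * g1) = g⁻¹ * g1 := by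
          group
        simp only [h5]
        exact hk2

/-- The coset graph is connected if the groups generate. -/
theorem KG_connected (hc : Q ⊔ H = ⊤) : (KG Q H).Connected := by
  have key : ∀ g : F, ∀ x : F, (KG Q H).Reachable (vt Q H false x) (vt Q H false (x * g)) := by
    intro g
    have hg : g ∈ Subgroup.closure ((Q : Set F) ∪ (H : Set F)) := by
      rw [Subgroup.closure_union, Subgroup.closure_eq, Subgroup.closure_eq, hc]
      trivial
    induction hg using Subgroup.closure_induction with
    | mem y hy =>
      intro x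
      rcases hy with hy | hy
      · have h1 : (KG Q H).Adj (vt Q H false x) (vt Q H true x) := adj_vt false x
        have h2 : (KG Q H).Adj (vt Q H true (x * y)) (vt Q H false (x * y)) := adj_vt true (x * y)
        have h3 : vt Q H true x = vt Q H true (x * y) := by
          rw [vt_eq, inv_mul_cancel_left]
          exact hy
        rw [h3] at h1
        exact h1.reachable.trans h2.reachable
      · have h3 : vt Q H false x = vt Q H false (x * y) := by
          rw [vt_eq, inv_mul_cancel_left]
          exact hy
        rw [← h3]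
    | one => intro x; rw [mul_one]
    | mul a b _ _ ha hb =>
      intro x
      rw [← mul_assoc]
      exact (ha x).trans (hb (x * a))
    | inv a _ ha =>
      intro x
      have := ha (x * a⁻¹)
      rw [inv_mul_cancel_right] at this
      exact this.symm
  have key2 : ∀ v : KV Q H, (KG Q H).Reachable (vt Q H false 1) v := by
    intro v
    obtain ⟨b, g, rfl⟩ := exists_vt v
    have h1 := key g 1
    rw [one_mul] at h1
    cases b
    · exact h1
    · exact h1.trans (adj_vt false g).reachable
  have : Nonempty (KV Q H) := ⟨vt Q H false 1⟩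
  exact ⟨fun v w => (key2 v).symm.trans (key2 w)⟩

theorem KG_isTree (hA : Amalg Q H) (hc : Q ⊔ H = ⊤) : (KG Q H).IsTree :=
  ⟨KG_connected hc, KG_isAcyclic hA⟩

end D0L.Tr
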