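import Pool.Agent.H.MP_374efc_lc.Tr.Push3

/-!
# Fibres of the coset graph

For two automata `M₁`, `M₂` with groups `Q`, `H` and an element `p` of the free group (a vertex of
the Cayley tree) `Kp M₁ M₂ p` is the set of the translates of the two trees which contain `p`;
`Ke M₁ M₂ p a` those which contain the edge `(p, p a)`. They are isomorphic to the fibre graph, so
they are connected, and so is the union of the `Kp` along a path of the Cayley tree.
-/

namespace D0L.Tr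

open SimpleGraph

/-! ## Connected sets in forests are convex -/

/-- In a forest a path between two vertices of a connected set stays in the set. -/
theorem convex_of_preconnected {V : Type*} {G : SimpleGraph V} (hG : G.IsAcyclic) {S : Set V}
    (hS : (G.induce S).Preconnected) {v w : V} (hv : v ∈ S) (hw : w ∈ S) (p : G.Walk v w)
    (hp : p.IsPath) : ∀ x ∈ p.support, x ∈ S := by
  classical
  obtain ⟨q, hq⟩ := (hS ⟨v, hv⟩ ⟨w, hw⟩).exists_isPath
  have h1 : (q.map (Embedding.induce (G := G) S).toHom).IsPath :=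
    Walk.IsPath.map (Embedding.induce (G := G) S).injective hq
  have h2 : p = q.map (Embedding.induce (G := G) S).toHom :=
    congrArg Subtype.val ((hG.subsingleton_path v w).elim ⟨p, hp⟩ ⟨_, h1⟩)
  intro x hx
  have hx1 : x ∈ (q.map (Embedding.induce (G := G) S).toHom).support := by
    rw [h2] at hx
    exact hx
  have hx2 : x ∈ q.support.map (Embedding.induce (G := G) S).toHom := by
    rw [← Walk.support_map]
    exact hx1
  obtain ⟨y, _, rfl⟩ := List.mem_map.1 hx2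
  exact y.2

/-- The union of two connected sets with a common vertex is connected. -/
theorem preconnected_union {V : Type*} {G : SimpleGraph V} {S T : Set V}
    (hS : (G.induce S).Preconnected) (hT : (G.induce T).Preconnected) (hST : (S ∩ T).Nonempty) :
    (G.induce (S ∪ T)).Preconnected := by
  obtain ⟨z, hz1, hz2⟩ := hST
  have h1 : ∀ x (hx : x ∈ S), (G.induce (S ∪ T)).Reachable ⟨x, Or.inl hx⟩ ⟨z, Or.inl hz1⟩ := by
    intro x hx
    exact (hS ⟨x, hx⟩ ⟨z, hz1⟩).map (induceHomOfLE G Set.subset_union_left).toHom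
  have h2 : ∀ x (hx : x ∈ T), (G.induce (S ∪ T)).Reachable ⟨x, Or.inr hx⟩ ⟨z, Or.inr hz2⟩ := by
    intro x hx
    exact (hT ⟨x, hx⟩ ⟨z, hz2⟩).map (induceHomOfLE G Set.subset_union_right).toHom
  have h3 : ∀ x : (S ∪ T : Set V), (G.induce (S ∪ T)).Reachable x ⟨z, Or.inl hz1⟩ := by
    rintro ⟨x, hx | hx⟩
    · exact h1 x hx
    · exact h2 x hx
  intro x y
  exact (h3 x).trans (h3 y).symm

/-! ## The fibres -/

variable {A S₁ S₂ : Type*} (M₁ : PAut A S₁) (M₂ : PAut A S₂)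

/-- The automaton of a side reads `g` from its base. -/
def Rdb : Bool → FreeGroup A → Prop
  | true, g => ∃ q, M₁.RdG M₁.base g q
  | false, g => ∃ s, M₂.RdG M₂.base g s

/-- The automaton of a side reads `g` and then `a` from its base. -/
def Rde : Bool → FreeGroup A → A → Prop
  | true, g, a => ∃ q q', M₁.RdG M₁.base g q ∧ M₁.step q a = some q'
  | false, g, a => ∃ s s', M₂.RdG M₂.base g s ∧ M₂.step s a = some s'

/-- The translates which contain the vertex `p` of the Cayley tree. -/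
def Kp (p : FreeGroup A) : Set (KV M₁.grp M₂.grp) :=
  {v | ∃ b g, v = vt M₁.grp M₂.grp b g ∧ Rdb M₁ M₂ b (g⁻¹ * p)}

/-- The translates which contain the edge `(p, p a)` of the Cayley tree. -/
def Ke (p : FreeGroup A) (a : A) : Set (KV M₁.grp M₂.grp) :=
  {v | ∃ b g, v = vt M₁.grp M₂.grp b g ∧ Rde M₁ M₂ b (g⁻¹ * p) a}

variable {M₁ M₂}

theorem Rdb.mul {b : Bool} {k g : FreeGroup A} (hk : k ∈ side M₁.grp M₂.grp b)
    (h : Rdb M₁ M₂ b g) : Rdb M₁ M₂ b (k * g) := by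
  cases b
  · obtain ⟨s, hs⟩ := h
    exact ⟨s, PAut.RdG.mul hk hs⟩
  · obtain ⟨s, hs⟩ := h
    exact ⟨s, PAut.RdG.mul hk hs⟩

theorem Rde.mul {b : Bool} {k g : FreeGroup A} {a : A} (hk : k ∈ side M₁.grp M₂.grp b)
    (h : Rde M₁ M₂ b g a) : Rde M₁ M₂ b (k * g) a := by
  cases b
  · obtain ⟨s, s', hs, h'⟩ := h
    exact ⟨s, s', PAut.RdG.mul hk hs, h'⟩
  · obtain ⟨s, s', hs, h'⟩ := h
    exact ⟨s, s', PAut.RdG.mul hk hs, h'⟩

theorem vt_mem_Kp {b : Bool} {g p : FreeGroup A} :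
    vt M₁.grp M₂.grp b g ∈ Kp M₁ M₂ p ↔ Rdb M₁ M₂ b (g⁻¹ * p) := by
  constructor
  · rintro ⟨b', g', h1, h2⟩
    have hb : b = b' := by
      by_contra hne
      exact vt_ne hne _ _ h1
    subst hb
    have h3 := h2.mul (vt_eq.1 h1)
    have h4 : g⁻¹ * g' * (g'⁻¹ * p) = g⁻¹ * p := by group
    rwa [h4] at h3
  · intro h
    exact ⟨b, g, rfl, h⟩

theorem vt_mem_Ke {b : Bool} {g p : FreeGroup A} {a : A} :
    vt M₁.grp M₂.grp b g ∈ Ke M₁ M₂ p a ↔ Rde M₁ M₂ b (g⁻¹ * p) a := by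
  constructor
  · rintro ⟨b', g', h1, h2⟩
    have hb : b = b' := by
      by_contra hne
      exact vt_ne hne _ _ h1
    subst hb
    have h3 := h2.mul (vt_eq.1 h1)
    have h4 : g⁻¹ * g' * (g'⁻¹ * p) = g⁻¹ * p := by group
    rwa [h4] at h3
  · intro h
    exact ⟨b, g, rfl, h⟩

theorem smul_mem_Kp {g p : FreeGroup A} {v : KV M₁.grp M₂.grp} :
    g • v ∈ Kp M₁ M₂ (g * p) ↔ v ∈ Kp M₁ M₂ p := by
  obtain ⟨b, x, rfl⟩ := exists_vt v
  rw [smul_vt, vt_mem_Kp, vt_mem_Kp]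
  have : (g * x)⁻¹ * (g * p) = x⁻¹ * p := by group
  rw [this]

theorem smul_mem_Ke {g p : FreeGroup A} {a : A} {v : KV M₁.grp M₂.grp} :
    g • v ∈ Ke M₁ M₂ (g * p) a ↔ v ∈ Ke M₁ M₂ p a := by
  obtain ⟨b, x, rfl⟩ := exists_vt v
  rw [smul_vt, vt_mem_Ke, vt_mem_Ke]
  have : (g * x)⁻¹ * (g * p) = x⁻¹ * p := by group
  rw [this]

theorem Rde.left {b : Bool} {g : FreeGroup A} {a : A} (h : Rde M₁ M₂ b g a) :
    Rdb M₁ M₂ b g := by
  cases b
  · obtain ⟨s, _, h1, _⟩ := h; exact ⟨s, h1⟩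
  · obtain ⟨s, _, h1, _⟩ := h; exact ⟨s, h1⟩

theorem Rde.right {b : Bool} {g : FreeGroup A} {a : A} (h : Rde M₁ M₂ b g a) :
    Rdb M₁ M₂ b (g * FreeGroup.of a) := by
  cases b
  · obtain ⟨s, s', h1, h2⟩ := h; exact ⟨s', h1.mul (PAut.RdG.of h2)⟩
  · obtain ⟨s, s', h1, h2⟩ := h; exact ⟨s', h1.mul (PAut.RdG.of h2)⟩

theorem Ke_subset_left (p : FreeGroup A) (a : A) : Ke M₁ M₂ p a ⊆ Kp M₁ M₂ p := by
  rintro v ⟨b, g, rfl, h⟩
  exact ⟨b, g, rfl, h.left⟩

theorem Ke_subset_right (p : FreeGroup A) (a : A) :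
    Ke M₁ M₂ p a ⊆ Kp M₁ M₂ (p * FreeGroup.of a) := by
  rintro v ⟨b, g, rfl, h⟩
  refine ⟨b, g, rfl, ?_⟩
  rw [← mul_assoc]
  exact h.right

/-- Preconnectedness is transported along a surjective adjacency preserving map. -/
theorem preconnected_of_surj {V W : Type*} {G : SimpleGraph V} {G' : SimpleGraph W}
    (hG : G.Preconnected) (f : V → W) (hf : ∀ v w, G.Adj v w → G'.Adj (f v) (f w))
    (hs : Function.Surjective f) : G'.Preconnected := by
  intro x y
  obtain ⟨v, rfl⟩ := hs x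
  obtain ⟨w, rfl⟩ := hs y
  obtain ⟨p⟩ := hG v w
  clear hs
  induction p with
  | nil => exact Reachable.refl _
  | cons h _ ih => exact (hf _ _ h).reachable.trans ih

/-- **Fibres are connected.** -/
theorem Kp_preconnected (hT : (fib M₁ M₂).Preconnected) (p : FreeGroup A) :
    ((KG M₁.grp M₂.grp).induce (Kp M₁ M₂ p)).Preconnected := by
  choose u1 hu1 using exists_read_inl hT
  choose u2 hu2 using exists_read_inr hT
  let f : S₁ ⊕ S₂ → Kp M₁ M₂ p := fun v => match v with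
    | .inl q => ⟨vt _ _ true (p * (u1 q)⁻¹), vt_mem_Kp.2 ⟨q, by
        have : (p * (u1 q)⁻¹)⁻¹ * p = u1 q := by group
        rw [this]; exact hu1 q⟩⟩
    | .inr s => ⟨vt _ _ false (p * (u2 s)⁻¹), vt_mem_Kp.2 ⟨s, by
        have : (p * (u2 s)⁻¹)⁻¹ * p = u2 s := by group
        rw [this]; exact hu2 s⟩⟩
  have key : ∀ q s, (∃ g, M₁.RdG M₁.base g q ∧ M₂.RdG M₂.base g s) →
      (KG M₁.grp M₂.grp).Adj (vt _ _ true (p * (u1 q)⁻¹)) (vt _ _ false (p * (u2 s)⁻¹)) := by
    rintro q s ⟨g, h1, h2⟩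
    refine ⟨true, p * g⁻¹, ?_, ?_⟩
    · rw [vt_eq]
      have : (p * (u1 q)⁻¹)⁻¹ * (p * g⁻¹) = u1 q * g⁻¹ := by group
      rw [this]
      exact mem_grp_of_read (hu1 q) h1
    · change _ = vt _ _ false (p * g⁻¹)
      rw [vt_eq]
      have : (p * (u2 s)⁻¹)⁻¹ * (p * g⁻¹) = u2 s * g⁻¹ := by group
      rw [this]
      exact mem_grp_of_read (hu2 s) h2
  apply preconnected_of_surj hT f
  · rintro (q | s) (q' | s') h
    · exact absurd h (by simp [fib, Fadj])
    · exact key q s' h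
    · exact (key q' s h).symm
    · exact absurd h (by simp [fib, Fadj])
  · rintro ⟨v, b, g, rfl, h⟩
    cases b
    · obtain ⟨s, hs⟩ := h
      refine ⟨.inr s, Subtype.ext ?_⟩
      change vt _ _ false (p * (u2 s)⁻¹) = _
      rw [vt_eq]
      have : (p * (u2 s)⁻¹)⁻¹ * g = u2 s * (g⁻¹ * p)⁻¹ := by group
      rw [this]
      exact mem_grp_of_read (hu2 s) hs
    · obtain ⟨s, hs⟩ := h
      refine ⟨.inl s, Subtype.ext ?_⟩
      change vt _ _ true (p * (u1 s)⁻¹) = _
      rw [vt_eq]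
      have : (p * (u1 s)⁻¹)⁻¹ * g = u1 s * (g⁻¹ * p)⁻¹ := by group
      rw [this]
      exact mem_grp_of_read (hu1 s) hs

/-- **Edge fibres are connected.** -/
theorem Ke_preconnected (hT : (fib M₁ M₂).Preconnected) {a : A}
    (hK : ((fib M₁ M₂).induce (outS M₁ M₂ a)).Preconnected) (p : FreeGroup A) :
    ((KG M₁.grp M₂.grp).induce (Ke M₁ M₂ p a)).Preconnected := by
  choose u1 hu1 using exists_read_inl hT
  choose u2 hu2 using exists_read_inr hT
  let f : outS M₁ M₂ a → Ke M₁ M₂ p a := fun v => match v with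
    | ⟨.inl q, hq⟩ => ⟨vt _ _ true (p * (u1 q)⁻¹), vt_mem_Ke.2 (by
        obtain ⟨q', hq'⟩ := hq
        have : (p * (u1 q)⁻¹)⁻¹ * p = u1 q := by group
        rw [this]; exact ⟨q, q', hu1 q, hq'⟩)⟩
    | ⟨.inr s, hs⟩ => ⟨vt _ _ false (p * (u2 s)⁻¹), vt_mem_Ke.2 (by
        obtain ⟨s', hs'⟩ := hs
        have : (p * (u2 s)⁻¹)⁻¹ * p = u2 s := by group
        rw [this]; exact ⟨s, s', hu2 s, hs'⟩)⟩
  have key : ∀ q s, (∃ g, M₁.RdG M₁.base g q ∧ M₂.RdG M₂.base g s) →
      (KG M₁.grp M₂.grp).Adj (vt _ _ true (p * (u1 q)⁻¹)) (vt _ _ false (p * (u2 s)⁻¹)) := by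
    rintro q s ⟨g, h1, h2⟩
    refine ⟨true, p * g⁻¹, ?_, ?_⟩
    · rw [vt_eq]
      have : (p * (u1 q)⁻¹)⁻¹ * (p * g⁻¹) = u1 q * g⁻¹ := by group
      rw [this]
      exact mem_grp_of_read (hu1 q) h1
    · change _ = vt _ _ false (p * g⁻¹)
      rw [vt_eq]
      have : (p * (u2 s)⁻¹)⁻¹ * (p * g⁻¹) = u2 s * g⁻¹ := by group
      rw [this]
      exact mem_grp_of_read (hu2 s) h2
  apply preconnected_of_surj hK f
  · rintro ⟨q | s, hv⟩ ⟨q' | s', hw⟩ h
    · exact absurd h (by simp [fib, Fadj])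
    · exact key q s' h
    · exact (key q' s h).symm
    · exact absurd h (by simp [fib, Fadj])
  · rintro ⟨v, b, g, rfl, h⟩
    cases b
    · obtain ⟨s, s', hs, hs'⟩ := h
      refine ⟨⟨.inr s, s', hs'⟩, Subtype.ext ?_⟩
      change vt _ _ false (p * (u2 s)⁻¹) = _
      rw [vt_eq]
      have : (p * (u2 s)⁻¹)⁻¹ * g = u2 s * (g⁻¹ * p)⁻¹ := by group
      rw [this]
      exact mem_grp_of_read (hu2 s) hs
    · obtain ⟨s, s', hs, hs'⟩ := h
      refine ⟨⟨.inl s, s', hs'⟩, Subtype.ext ?_⟩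
      change vt _ _ true (p * (u1 s)⁻¹) = _
      rw [vt_eq]
      have : (p * (u1 s)⁻¹)⁻¹ * g = u1 s * (g⁻¹ * p)⁻¹ := by group
      rw [this]
      exact mem_grp_of_read (hu1 s) hs

/-! ## Unions along a path of the Cayley tree -/

variable (M₁ M₂)

/-- The union of the fibres along the signed word `L` starting at `p`. -/
def Ks : FreeGroup A → List (A × Bool) → Set (KV M₁.grp M₂.grp)
  | p, [] => Kp M₁ M₂ p
  | p, x :: L => Kp M₁ M₂ p ∪ Ks (p * FreeGroup.mk [x]) L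

variable {M₁ M₂}

theorem Kp_subset_Ks (p : FreeGroup A) (L : List (A × Bool)) : Kp M₁ M₂ p ⊆ Ks M₁ M₂ p L := by
  cases L with
  | nil => exact subset_rfl
  | cons x L => exact Set.subset_union_left

theorem mem_Ks {p : FreeGroup A} {L : List (A × Bool)} {v : KV M₁.grp M₂.grp} :
    v ∈ Ks M₁ M₂ p L ↔ ∃ L' L'', L = L' ++ L'' ∧ v ∈ Kp M₁ M₂ (p * FreeGroup.mk L') := by
  induction L generalizing p with
  | nil =>
    simp only [Ks]
    constructor
    · intro h
      refine ⟨[], [], rfl, ?_⟩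
      have : (FreeGroup.mk [] : FreeGroup A) = 1 := rfl
      rwa [this, mul_one]
    · rintro ⟨L', L'', h, hv⟩
      obtain ⟨rfl, rfl⟩ := List.append_eq_nil_iff.1 h.symm
      have : (FreeGroup.mk [] : FreeGroup A) = 1 := rfl
      rwa [this, mul_one] at hv
  | cons x L ih =>
    simp only [Ks, Set.mem_union, ih]
    constructor
    · rintro (h | ⟨L', L'', rfl, hv⟩)
      · refine ⟨[], x :: L, rfl, ?_⟩
        have : (FreeGroup.mk [] : FreeGroup A) = 1 := rfl
        rwa [this, mul_one]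
      · refine ⟨x :: L', L'', rfl, ?_⟩
        have : (FreeGroup.mk (x :: L') : FreeGroup A) = FreeGroup.mk [x] * FreeGroup.mk L' := rfl
        rwa [this, ← mul_assoc]
    · rintro ⟨L', L'', h, hv⟩
      cases L' with
      | nil =>
        left
        have : (FreeGroup.mk [] : FreeGroup A) = 1 := rfl
        rwa [this, mul_one] at hv
      | cons y L' =>
        right
        simp only [List.cons_append, List.cons.injEq] at h
        obtain ⟨rfl, rfl⟩ := h
        refine ⟨L', L'', rfl, ?_⟩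
        have : (FreeGroup.mk (x :: L') : FreeGroup A) = FreeGroup.mk [x] * FreeGroup.mk L' := rfl
        rwa [this, ← mul_assoc] at hv

/-- Consecutive fibres meet if every letter is the out-letter of a state. -/
theorem Kp_inter (hT : (fib M₁ M₂).Preconnected) (hO : ∀ a, (outS M₁ M₂ a).Nonempty)
    (p : FreeGroup A) (x : A × Bool) :
    (Kp M₁ M₂ p ∩ Kp M₁ M₂ (p * FreeGroup.mk [x])).Nonempty := by
  have key : ∀ (p : FreeGroup A) (a : A), (Ke M₁ M₂ p a).Nonempty := by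
    intro p a
    obtain ⟨v, hv⟩ := hO a
    rcases v with q | s
    · obtain ⟨q', hq'⟩ := hv
      obtain ⟨u, hu⟩ := exists_read_inl hT q
      refine ⟨vt _ _ true (p * u⁻¹), vt_mem_Ke.2 ?_⟩
      have : (p * u⁻¹)⁻¹ * p = u := by group
      rw [this]
      exact ⟨q, q', hu, hq'⟩
    · obtain ⟨s', hs'⟩ := hv
      obtain ⟨u, hu⟩ := exists_read_inr hT s
      refine ⟨vt _ _ false (p * u⁻¹), vt_mem_Ke.2 ?_⟩
      have : (p * u⁻¹)⁻¹ * p = u := by group
      rw [this]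
      exact ⟨s, s', hu, hs'⟩
  rcases x with ⟨a, _ | _⟩
  · obtain ⟨v, hv⟩ := key (p * FreeGroup.mk [(a, false)]) a
    refine ⟨v, ?_, Ke_subset_left _ _ hv⟩
    have h1 := Ke_subset_right _ _ hv
    have h2 : (FreeGroup.mk [(a, false)] : FreeGroup A) = (FreeGroup.of a)⁻¹ := rfl
    rw [h2, inv_mul_cancel_right] at h1
    exact h1
  · obtain ⟨v, hv⟩ := key p a
    exact ⟨v, Ke_subset_left _ _ hv, Ke_subset_right _ _ hv⟩

/-- **The union of the fibres along a path of the Cayley tree is connected.** -/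
theorem Ks_preconnected (hT : (fib M₁ M₂).Preconnected) (hO : ∀ a, (outS M₁ M₂ a).Nonempty)
    (p : FreeGroup A) (L : List (A × Bool)) :
    ((KG M₁.grp M₂.grp).induce (Ks M₁ M₂ p L)).Preconnected := by
  induction L generalizing p with
  | nil => exact Kp_preconnected hT p
  | cons x L ih =>
    apply preconnected_union (Kp_preconnected hT p) (ih _)
    obtain ⟨v, h1, h2⟩ := Kp_inter hT hO p x
    exact ⟨v, h1, Kp_subset_Ks _ _ h2⟩

end D0L.Tr
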