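import Pool.Agent.H.MP_374efc_lc.Tr.Fib

/-!
# First returns, and backward steps

For a pair `Pr Q H`: the rose `P` of the first return words `(Fst Q H)`, it is bimarked, and the
relation `Rel Q H` is closed under backward steps (finite alphabet).
-/

set_option autoImplicit false

namespace D0L.Tr

variable {α : Type*} [DecidableEq α] {Q H : Rose α}

/-! ### In-letters -/

/-- If `s` is moved to `t` by `a` then `a :: t` is the end of a petal. -/
theorem step_petal {R : Rose α} {s t : List α} {a : α} (hs : IsSt R s) (h : step R s a = some t) :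
    ∃ c l, R c = some l ∧ a :: t <:+ c :: l := by
  cases s with
  | nil => exact ⟨a, t, h, List.suffix_refl _⟩
  | cons b r =>
    obtain ⟨rfl, rfl⟩ := step_unique h
    rcases hs with hs | ⟨c, l, hc, hl⟩
    · simp at hs
    · exact ⟨c, l, hc, hl.trans (List.suffix_cons c l)⟩

omit [DecidableEq α] in
theorem getLast?_suffix {x y : List α} (h : x <:+ y) (hx : x ≠ []) : x.getLast? = y.getLast? := by
  obtain ⟨p, rfl⟩ := h
  rw [List.getLast?_append]
  cases hx' : x.getLast? with
  | none => exact (hx (List.getLast?_eq_none_iff.1 hx')).elim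
  | some c => rfl

/-- The in-letter of a state which is not the base is unique. -/
theorem in_unique {R : Rose α} (hR : Bim R) {s s' t : List α} {a b : α} (hs : IsSt R s)
    (hs' : IsSt R s') (h : step R s a = some t) (h' : step R s' b = some t) (ht : t ≠ []) :
    a = b := by
  obtain ⟨c, l, hc, hl⟩ := step_petal hs h
  obtain ⟨c', l', hc', hl'⟩ := step_petal hs' h'
  have e1 : (c :: l).getLast? = (c' :: l').getLast? := by
    rw [← getLast?_suffix hl (by simp), ← getLast?_suffix hl' (by simp)]
    rw [← getLast?_suffix (List.suffix_cons a t) ht, ← getLast?_suffix (List.suffix_cons b t) ht]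
  obtain rfl := hR c c' l l' hc hc' e1
  rw [hc] at hc'
  obtain rfl : l = l' := by simpa using hc'
  have h1 := List.suffix_of_suffix_length_le hl hl' (by simp)
  have h2 := h1.eq_of_length (by simp)
  simpa using congrArg List.head? h2

/-! ### First returns -/

/-- The words which start with `a` and return to the pair of the bases. -/
def Rtn (Q H : Rose α) (a : α) (v : List α) : Prop :=
  run Q [] (a :: v) = some [] ∧ run H [] (a :: v) = some []

open Classical in
/-- The rose of the first return words. -/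
noncomputable def Fst (Q H : Rose α) : Rose α := fun a =>
  if h : ∃ n, ∃ v : List α, v.length = n ∧ Rtn Q H a v then some (Nat.find_spec h).choose else none

theorem fst_spec {a : α} {v : List α} (h : Fst Q H a = some v) :
    Rtn Q H a v ∧ ∀ w, Rtn Q H a w → v.length ≤ w.length := by
  classical
  unfold Fst at h
  split_ifs at h with h0
  have h1 := (Nat.find_spec h0).choose_spec
  have h2 : (Nat.find_spec h0).choose = v := by simpa using h
  rw [h2] at h1
  refine ⟨h1.2, fun w hw => ?_⟩
  rw [h1.1]
  exact Nat.find_min' h0 ⟨w, rfl, hw⟩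

theorem fst_some {a : α} {w : List α} (h : Rtn Q H a w) : ∃ v, Fst Q H a = some v := by
  classical
  have h0 : ∃ n, ∃ v : List α, v.length = n ∧ Rtn Q H a v := ⟨_, w, rfl, h⟩
  exact ⟨_, dif_pos h0⟩

/-- `P` has the same out-letters as `Q`. -/
theorem fst_out (hp : Pr Q H) (a : α) : (∃ v, Fst Q H a = some v) ↔ ∃ l, Q a = some l := by
  constructor
  · rintro ⟨v, hv⟩
    have h := (fst_spec hv).1.1
    rw [run_cons, step_nil] at h
    cases hq : Q a with
    | none => rw [hq] at h; simp at h
    | some l => exact ⟨l, rfl⟩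
  · rintro ⟨l, hl⟩
    obtain ⟨v, hv1, hv2⟩ := hp.pure a l hl
    exact fst_some ⟨hv1, hv2⟩

/-- Two readings from a pair which is not the pair of the bases: one is the beginning of the other
up to the first return. -/
theorem compare (hp : Pr Q H) : ∀ (u w q0 s0 q s : List α), run Q q0 w = some [] →
    run H s0 w = some [] → run Q q0 u = some q → run H s0 u = some s →
    (∃ u', u ++ u' = w ∧ run Q q u' = some [] ∧ run H s u' = some []) ∨
    (∃ w' w'', w' ++ w'' = w ∧ w' <+: u ∧ run Q q0 w' = some [] ∧ run H s0 w' = some []) := by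
  intro u
  induction u with
  | nil =>
    intro w q0 s0 q s h1 h2 h3 h4
    rw [run_nil] at h3 h4
    obtain rfl : q0 = q := by simpa using h3
    obtain rfl : s0 = s := by simpa using h4
    exact Or.inl ⟨w, rfl, h1, h2⟩
  | cons a u ih =>
    intro w q0 s0 q s h1 h2 h3 h4
    by_cases hb : q0 = [] ∧ s0 = []
    · obtain ⟨rfl, rfl⟩ := hb
      exact Or.inr ⟨[], w, rfl, List.nil_prefix, run_nil _ _, run_nil _ _⟩
    · cases w with
      | nil =>
        rw [run_nil] at h1 h2
        exact (hb ⟨by simpa using h1, by simpa using h2⟩).elim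
      | cons b w =>
        rw [run_cons] at h1 h2 h3 h4
        cases hq : step Q q0 a with
        | none => rw [hq] at h3; simp at h3
        | some q1 =>
        cases hs : step H s0 a with
        | none => rw [hs] at h4; simp at h4
        | some s1 =>
        cases hq' : step Q q0 b with
        | none => rw [hq'] at h1; simp at h1
        | some q1' =>
        cases hs' : step H s0 b with
        | none => rw [hs'] at h2; simp at h2
        | some s1' =>
        have hab : a = b := by
          cases q0 with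
          | cons c r => exact (step_unique hq).1.trans (step_unique hq').1.symm
          | nil =>
            cases s0 with
            | cons c r => exact (step_unique hs).1.trans (step_unique hs').1.symm
            | nil => exact (hb ⟨rfl, rfl⟩).elim
        subst hab
        rw [hq] at h3 hq'
        rw [hs] at h4 hs'
        obtain rfl : q1 = q1' := by simpa using hq'
        obtain rfl : s1 = s1' := by simpa using hs'
        rw [hq] at h1
        rw [hs] at h2
        rcases ih w q1 s1 q s (by simpa using h1) (by simpa using h2) (by simpa using h3)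
          (by simpa using h4) with ⟨u', e, h5, h6⟩ | ⟨w', w'', e, hpre, h5, h6⟩
        · exact Or.inl ⟨u', by rw [List.cons_append, e], h5, h6⟩
        · refine Or.inr ⟨a :: w', w'', by rw [List.cons_append, e], ?_, ?_, ?_⟩
          · exact (List.cons_prefix_cons).2 ⟨rfl, hpre⟩
          · rw [run_cons, hq]; simpa using h5
          · rw [run_cons, hs]; simpa using h6

/-- First returns have no base pair in between. -/
theorem fst_first (hp : Pr Q H) {a : α} {v v1 v2 : List α} (h : Fst Q H a = some v)
    (hv : v = v1 ++ v2) (h1 : run Q [] (a :: v1) = some []) (h2 : run H [] (a :: v1) = some []) :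
    v2 = [] := by
  have h3 := (fst_spec h).2 v1 ⟨h1, h2⟩
  rw [hv, List.length_append] at h3
  exact List.length_eq_zero_iff.1 (by omega)


/-! ### Backward steps -/

theorem run_snoc {R : Rose α} {s t u : List α} {b : α} :
    run R s (u ++ [b]) = some t ↔ ∃ r, run R s u = some r ∧ step R r b = some t := by
  rw [run_append]
  cases h : run R s u with
  | none => simp
  | some r => simp [Option.bind_eq_some_iff]

/-- The word returns to the pair of the bases only at its ends. -/
def Nb (Q H : Rose α) (u : List α) : Prop :=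
  ∀ u1 u2, u = u1 ++ u2 → run Q [] u1 = some [] → run H [] u1 = some [] → u1 = [] ∨ u2 = []

theorem Nb.pre {u v : List α} (h : Nb Q H (u ++ v)) : Nb Q H u := by
  intro u1 u2 e h1 h2
  rcases h u1 (u2 ++ v) (by rw [e, List.append_assoc]) h1 h2 with h | h
  · exact Or.inl h
  · exact Or.inr (List.append_eq_nil_iff.1 h).1

theorem fst_nb (hp : Pr Q H) {a : α} {v : List α} (h : Fst Q H a = some v) : Nb Q H (a :: v) := by
  intro u1 u2 e h1 h2
  cases u1 with
  | nil => exact Or.inl rfl
  | cons b u1 =>
    right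
    rw [List.cons_append, List.cons.injEq] at e
    obtain ⟨rfl, e⟩ := e
    exact fst_first hp h e h1 h2

theorem back_unique (hp : Pr Q H) : ∀ (n : ℕ) (u w q s : List α), u.length = n →
    run Q [] u = some q → run H [] u = some s → run Q [] w = some q → run H [] w = some s →
    Nb Q H u → Nb Q H w → u.getLast? = w.getLast? → u = w := by
  intro n
  induction n with
  | zero =>
    intro u w q s hu _ _ _ _ _ _ hl
    rw [List.length_eq_zero_iff] at hu
    subst hu
    exact (List.getLast?_eq_none_iff.1 hl.symm).symm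
  | succ n ih =>
    intro u w q s hu h1 h2 h3 h4 hu' hw' hl
    rcases List.eq_nil_or_concat' u with rfl | ⟨u, b, rfl⟩
    · simp at hu
    rcases List.eq_nil_or_concat' w with rfl | ⟨w, c, rfl⟩
    · simp at hl
    obtain rfl : b = c := by simpa using hl
    obtain ⟨q1, h1a, h1b⟩ := run_snoc.1 h1
    obtain ⟨s1, h2a, h2b⟩ := run_snoc.1 h2
    obtain ⟨q2, h3a, h3b⟩ := run_snoc.1 h3
    obtain ⟨s2, h4a, h4b⟩ := run_snoc.1 h4
    obtain rfl : q1 = q2 := step_inj hp.q (run_isSt (isSt_nil Q) h1a) (run_isSt (isSt_nil Q) h3a)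
      h1b h3b
    obtain rfl : s1 = s2 := step_inj hp.h (run_isSt (isSt_nil H) h2a) (run_isSt (isSt_nil H) h4a)
      h2b h4b
    congr 1
    by_cases hb : q1 = [] ∧ s1 = []
    · obtain ⟨rfl, rfl⟩ := hb
      rcases hu' u [b] rfl h1a h2a with h5 | h5
      · rcases hw' w [b] rfl h3a h4a with h6 | h6
        · rw [h5, h6]
        · simp at h6
      · simp at h5
    · refine ih u w q1 s1 (by simpa using hu) h1a h2a h3a h4a hu'.pre hw'.pre ?_
      rcases List.eq_nil_or_concat' u with rfl | ⟨u, d, rfl⟩
      · rw [run_nil] at h1a h2a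
        exact (hb ⟨by simpa using h1a.symm, by simpa using h2a.symm⟩).elim
      rcases List.eq_nil_or_concat' w with rfl | ⟨w, e, rfl⟩
      · rw [run_nil] at h3a h4a
        exact (hb ⟨by simpa using h3a.symm, by simpa using h4a.symm⟩).elim
      obtain ⟨q3, h1c, h1d⟩ := run_snoc.1 h1a
      obtain ⟨s3, h2c, h2d⟩ := run_snoc.1 h2a
      obtain ⟨q4, h3c, h3d⟩ := run_snoc.1 h3a
      obtain ⟨s4, h4c, h4d⟩ := run_snoc.1 h4a
      have hde : d = e := by
        by_cases hq : q1 = []
        · have hs : s1 ≠ [] := fun h => hb ⟨hq, h⟩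
          exact in_unique hp.h (run_isSt (isSt_nil H) h2c) (run_isSt (isSt_nil H) h4c) h2d h4d hs
        · exact in_unique hp.q (run_isSt (isSt_nil Q) h1c) (run_isSt (isSt_nil Q) h3c) h1d h3d hq
      simp [hde]

/-- The rose of the first returns is bimarked. -/
theorem fst_bim (hp : Pr Q H) : Bim (Fst Q H) := by
  intro a a' l l' h h' hl
  have := back_unique hp _ (a :: l) (a' :: l') [] [] rfl (fst_spec h).1.1 (fst_spec h).1.2
    (fst_spec h').1.1 (fst_spec h').1.2 (fst_nb hp h) (fst_nb hp h') hl
  simpa using congrArg List.head? this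

/-- The last letter of the petal at `a`. -/
def lst (R : Rose α) (a : α) : α := (a :: (R a).getD []).getLast (by simp)

omit [DecidableEq α] in
theorem lst_of {R : Rose α} {a : α} {l : List α} (h : R a = some l) :
    (a :: l).getLast? = some (lst R a) := by
  obtain rfl : l = (R a).getD [] := by simp [h]
  exact List.getLast?_eq_getLast_of_ne_nil _

theorem in_last {R : Rose α} {s : List α} {b : α} (hs : IsSt R s) (h : step R s b = some []) :
    ∃ a l, R a = some l ∧ lst R a = b := by
  obtain ⟨c, l, hc, hl⟩ := step_petal hs h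
  refine ⟨c, l, hc, ?_⟩
  have h1 := getLast?_suffix hl (by simp)
  rw [lst_of hc] at h1
  simpa using h1.symm

/-- Every in-letter of the base of `Q` is the last letter of a petal of `P`. -/
theorem in_fst [Fintype α] (hp : Pr Q H) {q : List α} {b : α} (hq : IsSt Q q)
    (h : step Q q b = some []) : ∃ a l, Fst Q H a = some l ∧ lst (Fst Q H) a = b := by
  classical
  set A : Finset α := Finset.univ.filter fun a => ∃ l, Q a = some l with hA
  have memA : ∀ a, a ∈ A ↔ ∃ l, Q a = some l := fun a => by simp [hA]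
  have hsub : A.image (lst (Fst Q H)) ⊆ A.image (lst Q) := by
    intro c hc
    obtain ⟨a, ha, rfl⟩ := Finset.mem_image.1 hc
    obtain ⟨v, hv⟩ := (fst_out hp a).2 ((memA a).1 ha)
    have h1 := (fst_spec hv).1.1
    have h2 := lst_of hv
    rcases List.eq_nil_or_concat' (a :: v) with h3 | ⟨u, d, h3⟩
    · simp at h3
    · rw [h3] at h1 h2
      obtain ⟨q1, h4, h5⟩ := run_snoc.1 h1
      obtain ⟨a', l, ha', hl⟩ := in_last (run_isSt (isSt_nil Q) h4) h5
      refine Finset.mem_image.2 ⟨a', (memA a').2 ⟨l, ha'⟩, ?_⟩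
      rw [hl]
      simpa using h2
  have hinj1 : Set.InjOn (lst Q) A := by
    intro a ha a' ha' hl
    obtain ⟨l, h1⟩ := (memA a).1 ha
    obtain ⟨l', h2⟩ := (memA a').1 ha'
    exact hp.q a a' l l' h1 h2 (by rw [lst_of h1, lst_of h2, hl])
  have hinj2 : Set.InjOn (lst (Fst Q H)) A := by
    intro a ha a' ha' hl
    obtain ⟨l, h1⟩ := (fst_out hp a).2 ((memA a).1 ha)
    obtain ⟨l', h2⟩ := (fst_out hp a').2 ((memA a').1 ha')
    exact fst_bim hp a a' l l' h1 h2 (by rw [lst_of h1, lst_of h2, hl])
  have heq := Finset.eq_of_subset_of_card_le hsub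
    (by rw [Finset.card_image_of_injOn hinj1, Finset.card_image_of_injOn hinj2])
  obtain ⟨a, l, ha, hl⟩ := in_last hq h
  have hb : b ∈ A.image (lst Q) := Finset.mem_image.2 ⟨a, (memA a).2 ⟨l, ha⟩, hl⟩
  rw [← heq] at hb
  obtain ⟨c, hc, hcl⟩ := Finset.mem_image.1 hb
  obtain ⟨v, hv⟩ := (fst_out hp c).2 ((memA c).1 hc)
  exact ⟨c, v, hv, hcl⟩

/-- The relation is closed under backward steps. -/
theorem rel_back [Fintype α] (hp : Pr Q H) {q s q' s' : List α} {a : α} (hq : IsSt Q q)
    (hs : IsSt H s) (h1 : step Q q a = some q') (h2 : step H s a = some s') (h : Rel Q H q' s') :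
    Rel Q H q s := by
  obtain ⟨v, h3, h4⟩ := h
  by_cases hb : q' = [] ∧ s' = []
  · obtain ⟨rfl, rfl⟩ := hb
    obtain ⟨c, l, hc, hl⟩ := in_fst hp hq h1
    have h5 := (fst_spec hc).1
    have h6 := lst_of hc
    rcases List.eq_nil_or_concat' (c :: l) with h7 | ⟨u, d, h7⟩
    · simp at h7
    · obtain ⟨h8, h9⟩ := h5
      rw [h7] at h6 h8 h9
      obtain rfl : d = a := by
        have : d = lst (Fst Q H) c := by simpa using h6
        rw [this, hl]
      obtain ⟨q1, h10, h11⟩ := run_snoc.1 h8
      obtain ⟨s1, h12, h13⟩ := run_snoc.1 h9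
      obtain rfl := step_inj hp.q hq (run_isSt (isSt_nil Q) h10) h1 h11
      obtain rfl := step_inj hp.h hs (run_isSt (isSt_nil H) h12) h2 h13
      exact ⟨u, h10, h12⟩
  · rcases List.eq_nil_or_concat' v with rfl | ⟨u, d, rfl⟩
    · rw [run_nil] at h3 h4
      exact (hb ⟨by simpa using h3.symm, by simpa using h4.symm⟩).elim
    · obtain ⟨q1, h5, h6⟩ := run_snoc.1 h3
      obtain ⟨s1, h7, h8⟩ := run_snoc.1 h4
      have had : a = d := by
        by_cases hq' : q' = []
        · exact in_unique hp.h hs (run_isSt (isSt_nil H) h7) h2 h8 fun h => hb ⟨hq', h⟩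
        · exact in_unique hp.q hq (run_isSt (isSt_nil Q) h5) h1 h6 hq'
      subst had
      obtain rfl := step_inj hp.q hq (run_isSt (isSt_nil Q) h5) h1 h6
      obtain rfl := step_inj hp.h hs (run_isSt (isSt_nil H) h7) h2 h8
      exact ⟨u, h5, h7⟩

/-- Backward reading of words. -/
theorem rel_run_back [Fintype α] (hp : Pr Q H) {q s q' s' u : List α} (hq : IsSt Q q)
    (hs : IsSt H s) (h1 : run Q q u = some q') (h2 : run H s u = some s') (h : Rel Q H q' s') :
    Rel Q H q s := by
  induction u generalizing q s with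
  | nil =>
    rw [run_nil] at h1 h2
    obtain rfl : q = q' := by simpa using h1
    obtain rfl : s = s' := by simpa using h2
    exact h
  | cons a u ih =>
    rw [run_cons, Option.bind_eq_some_iff] at h1 h2
    obtain ⟨q1, h3, h4⟩ := h1
    obtain ⟨s1, h5, h6⟩ := h2
    exact rel_back hp hq hs h3 h5 (ih (step_isSt hq h3) (step_isSt hs h5) h4 h6)


/-! ### The states of `P` are the pairs of related states -/

/-- `t` leads from the pair `(q, s)` to the pair of the bases, and only at its end. -/
def Rest (Q H : Rose α) (q s t : List α) : Prop :=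
  run Q q t = some [] ∧ run H s t = some [] ∧
    ∀ t1 t2, t = t1 ++ t2 → run Q q t1 = some [] → run H s t1 = some [] → t2 = []

theorem Rest.unique (hp : Pr Q H) {q s t t' : List α} (h : Rest Q H q s t) (h' : Rest Q H q s t') :
    t = t' := by
  rcases compare hp t' t q s [] [] h.1 h.2.1 h'.1 h'.2.1 with ⟨u, e, _, _⟩ | ⟨w, w', e, hw, h5, h6⟩
  · have := h.2.2 t' u e.symm h'.1 h'.2.1
    rw [this, List.append_nil] at e
    exact e.symm
  · have h7 := h.2.2 w w' e.symm h5 h6
    obtain ⟨r, hr⟩ := hw
    have h8 := h'.2.2 w r hr.symm h5 h6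
    rw [h7, List.append_nil] at e
    rw [h8, List.append_nil] at hr
    rw [← e, ← hr]

theorem Rest.inj (hp : Pr Q H) {q s q' s' t : List α} (h : Rest Q H q s t)
    (h' : Rest Q H q' s' t) (hq : IsSt Q q) (hq' : IsSt Q q') (hs : IsSt H s) (hs' : IsSt H s') :
    q = q' ∧ s = s' :=
  ⟨run_inj hp.q hq hq' h.1 h'.1, run_inj hp.h hs hs' h.2.1 h'.2.1⟩

theorem Rest.nil_iff {q s t : List α} (h : Rest Q H q s t) : t = [] ↔ q = [] ∧ s = [] := by
  constructor
  · rintro rfl
    have h1 := h.1
    have h2 := h.2.1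
    rw [run_nil] at h1 h2
    exact ⟨by simpa using h1, by simpa using h2⟩
  · rintro ⟨rfl, rfl⟩
    exact h.2.2 [] t rfl (run_nil _ _) (run_nil _ _)

theorem rest_nil : Rest Q H [] [] [] :=
  ⟨run_nil _ _, run_nil _ _, fun _ _ e _ _ => (List.append_eq_nil_iff.1 e.symm).2⟩

theorem rest_fst (hp : Pr Q H) {b : α} {l q s : List α} (h : Fst Q H b = some l)
    (hq : step Q [] b = some q) (hs : step H [] b = some s) : Rest Q H q s l := by
  obtain ⟨h1, h2⟩ := (fst_spec h).1
  refine ⟨?_, ?_, ?_⟩
  · rw [run_cons, hq] at h1; simpa using h1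
  · rw [run_cons, hs] at h2; simpa using h2
  · intro t1 t2 e h3 h4
    refine fst_first hp h e ?_ ?_
    · rw [run_cons, hq]; simpa using h3
    · rw [run_cons, hs]; simpa using h4

theorem Rest.tail {q s q' s' t : List α} {b : α} (h : Rest Q H q s (b :: t))
    (hq : step Q q b = some q') (hs : step H s b = some s') : Rest Q H q' s' t := by
  obtain ⟨h1, h2, h3⟩ := h
  refine ⟨?_, ?_, ?_⟩
  · rw [run_cons, hq] at h1; simpa using h1
  · rw [run_cons, hs] at h2; simpa using h2
  · intro t1 t2 e h4 h5
    refine h3 (b :: t1) t2 (by rw [List.cons_append, e]) ?_ ?_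
    · rw [run_cons, hq]; simpa using h4
    · rw [run_cons, hs]; simpa using h5

/-- If a pair is read then it is read in `P`. -/
theorem run_to_fst (hp : Pr Q H) : ∀ (v q s : List α), run Q [] v = some q → run H [] v = some s →
    ∃ t, run (Fst Q H) [] v = some t ∧ Rest Q H q s t := by
  intro v
  induction v using List.reverseRecOn with
  | nil =>
    intro q s h1 h2
    rw [run_nil] at h1 h2
    obtain rfl : [] = q := by simpa using h1
    obtain rfl : [] = s := by simpa using h2
    exact ⟨[], run_nil _ _, rest_nil⟩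
  | append_singleton v b ih =>
    intro q s h1 h2
    obtain ⟨q1, h3, h4⟩ := run_snoc.1 h1
    obtain ⟨s1, h5, h6⟩ := run_snoc.1 h2
    obtain ⟨t1, h7, h8⟩ := ih q1 s1 h3 h5
    by_cases hb : q1 = [] ∧ s1 = []
    · have ht := h8.nil_iff.2 hb
      obtain ⟨rfl, rfl⟩ := hb
      subst ht
      obtain ⟨l, hl⟩ := (fst_out hp b).2 ⟨q, h4⟩
      exact ⟨l, run_snoc.2 ⟨[], h7, hl⟩, rest_fst hp hl h4 h6⟩
    · cases t1 with
      | nil => exact (hb (h8.nil_iff.1 rfl)).elim
      | cons c t =>
        have hcb : c = b := by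
          have h9 := h8.1
          have h10 := h8.2.1
          rw [run_cons, Option.bind_eq_some_iff] at h9 h10
          obtain ⟨q2, h11, _⟩ := h9
          obtain ⟨s2, h12, _⟩ := h10
          cases q1 with
          | cons d r => exact (step_unique h11).1.trans (step_unique h4).1.symm
          | nil =>
            cases s1 with
            | cons d r => exact (step_unique h12).1.trans (step_unique h6).1.symm
            | nil => exact (hb ⟨rfl, rfl⟩).elim
        subst hcb
        exact ⟨t, run_snoc.2 ⟨c :: t, h7, step_cons_self _ _ _⟩, h8.tail h4 h6⟩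

/-- If a word is read in `P` then it is read in `Q` and `H`. -/
theorem fst_to_run (hp : Pr Q H) : ∀ (v t : List α), run (Fst Q H) [] v = some t →
    ∃ q s, run Q [] v = some q ∧ run H [] v = some s ∧ Rest Q H q s t := by
  intro v
  induction v using List.reverseRecOn with
  | nil =>
    intro t h
    rw [run_nil] at h
    obtain rfl : [] = t := by simpa using h
    exact ⟨[], [], run_nil _ _, run_nil _ _, rest_nil⟩
  | append_singleton v b ih =>
    intro t h
    obtain ⟨t1, h1, h2⟩ := run_snoc.1 h
    obtain ⟨q1, s1, h3, h4, h5⟩ := ih t1 h1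
    cases t1 with
    | nil =>
      obtain ⟨rfl, rfl⟩ := h5.nil_iff.1 rfl
      rw [step_nil] at h2
      obtain ⟨h6, h7⟩ := (fst_spec h2).1
      rw [run_cons, Option.bind_eq_some_iff] at h6 h7
      obtain ⟨q, h8, _⟩ := h6
      obtain ⟨s, h9, _⟩ := h7
      exact ⟨q, s, run_snoc.2 ⟨_, h3, h8⟩, run_snoc.2 ⟨_, h4, h9⟩, rest_fst hp h2 h8 h9⟩
    | cons c r =>
      obtain ⟨rfl, rfl⟩ := step_unique h2
      have h6 := h5.1
      have h7 := h5.2.1
      rw [run_cons, Option.bind_eq_some_iff] at h6 h7
      obtain ⟨q, h8, _⟩ := h6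
      obtain ⟨s, h9, _⟩ := h7
      exact ⟨q, s, run_snoc.2 ⟨_, h3, h8⟩, run_snoc.2 ⟨_, h4, h9⟩, h5.tail h8 h9⟩

theorem Rel.rest (hp : Pr Q H) {q s : List α} (h : Rel Q H q s) :
    ∃ t, IsSt (Fst Q H) t ∧ Rest Q H q s t := by
  obtain ⟨v, h1, h2⟩ := h
  obtain ⟨t, h3, h4⟩ := run_to_fst hp v q s h1 h2
  exact ⟨t, run_isSt (isSt_nil _) h3, h4⟩

theorem fst_rel (hp : Pr Q H) {t : List α} (h : IsSt (Fst Q H) t) :
    ∃ q s, Rel Q H q s ∧ IsSt Q q ∧ IsSt H s ∧ Rest Q H q s t := by
  obtain ⟨v, hv⟩ := h.reach
  obtain ⟨q, s, h1, h2, h3⟩ := fst_to_run hp v t hv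
  exact ⟨q, s, ⟨v, h1, h2⟩, run_isSt (isSt_nil _) h1, run_isSt (isSt_nil _) h2, h3⟩

/-- The out-letters of a state of `P`. -/
theorem Rest.out (hp : Pr Q H) {q s t : List α} (h : Rest Q H q s t) (a : α) :
    (∃ t', step (Fst Q H) t a = some t') ↔
      (∃ q', step Q q a = some q') ∧ ∃ s', step H s a = some s' := by
  cases t with
  | nil =>
    obtain ⟨rfl, rfl⟩ := h.nil_iff.1 rfl
    simp only [step_nil]
    rw [fst_out hp a]
    exact ⟨fun h => ⟨h, hp.full a⟩, fun h => h.1⟩
  | cons c r =>
    have h1 := h.1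
    have h2 := h.2.1
    rw [run_cons, Option.bind_eq_some_iff] at h1 h2
    obtain ⟨q1, h3, _⟩ := h1
    obtain ⟨s1, h4, _⟩ := h2
    constructor
    · rintro ⟨t', ht⟩
      obtain ⟨rfl, _⟩ := step_unique ht
      exact ⟨⟨q1, h3⟩, ⟨s1, h4⟩⟩
    · rintro ⟨⟨q', h5⟩, ⟨s', h6⟩⟩
      have hac : a = c := by
        by_cases hb : q = [] ∧ s = []
        · have := h.nil_iff.2 hb
          simp at this
        · cases q with
          | cons d r => exact (step_unique h5).1.trans (step_unique h3).1.symm
          | nil =>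
            cases s with
            | cons d r => exact (step_unique h6).1.trans (step_unique h4).1.symm
            | nil => exact (hb ⟨rfl, rfl⟩).elim
      subst hac
      exact ⟨r, step_cons_self _ _ _⟩

end D0L.Tr
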