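import Pool.Agent.H.MP_374efc_lc.Tr.Exact

/-!
# Root closure, the linear algebra core (BIMFULL 4.1)

`R` is a full rose with different last letters. A primitive cyclic word `y : ZMod L → α` is read
`m` times around a loop `s : ZMod (m L) → states`, `m` minimal. If a prime `p` divides `m` and the
letter counts of the petals span modulo `p`, we have a contradiction.

`ZP z`: the vector `z` on the edges `ZMod (m L)` is a cycle of the bipartite graph with the edges
`s i -- i mod L`.
-/

set_option autoImplicit false

namespace D0L.Tr

variable {α : Type*} [DecidableEq α] {R : Rose α}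

/-- the reduction of the edges to the circle -/
abbrev pr (L m : ℕ) : ZMod (m * L) →+* ZMod L := ZMod.castHom (Dvd.intro_left m rfl) (ZMod L)

/-- The data of a loop. -/
structure Lp (R : Rose α) (L m : ℕ) (y : ZMod L → α) (s : ZMod (m * L) → List α) : Prop where
  st : ∀ i, IsSt R (s i)
  zero : s 0 = []
  step : ∀ i, Tr.step R (s i) (y (pr L m i)) = some (s (i + 1))
  min : ∀ i, pr L m i = 0 → s i = [] → i = 0
  prim : ∀ j j' : ZMod L, (∀ t : ℕ, y (j + t) = y (j' + t)) → j = j'

section

variable {L m : ℕ} {y : ZMod L → α} {s : ZMod (m * L) → List α} {k : Type*} [Field k]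
  [NeZero L] [NeZero (m * L)]

/-- Cycle vectors. -/
def ZP (R : Rose α) (L m : ℕ) (s : ZMod (m * L) → List α) [NeZero (m * L)]
    (z : ZMod (m * L) → k) : Prop :=
  (∀ φ : List α → k, ∑ i, z i * φ (s i) = 0) ∧ ∀ ψ : ZMod L → k, ∑ i, z i * ψ (pr L m i) = 0

/-- Restriction to a letter. -/
theorem ZP.letter (h : Lp R L m y s) {z : ZMod (m * L) → k} (hz : ZP R L m s z) (a : α) :
    ZP R L m s (fun i => if y (pr L m i) = a then z i else 0) := by
  obtain ⟨hA, hB⟩ := hz
  have hB' : ∀ ψ : ZMod L → k,
      ∑ i, (if y (pr L m i) = a then z i else 0) * ψ (pr L m i) = 0 := by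
    intro ψ
    refine Eq.trans ?_ (hB fun j => if y j = a then ψ j else 0)
    apply Finset.sum_congr rfl
    intro i _
    by_cases hc : y (pr L m i) = a
    · simp only [if_pos hc]
    · simp only [if_neg hc, zero_mul, mul_zero]
  refine ⟨?_, hB'⟩
  intro φ
  have h1 : ∑ i, (if y (pr L m i) = a then z i else 0) * φ (s i)
      = ∑ i, z i * (if (s i).head? = some a then φ (s i) - φ [] else 0)
        + ∑ i, (if y (pr L m i) = a then z i else 0) * φ [] := by
    rw [← Finset.sum_add_distrib]
    apply Finset.sum_congr rfl
    intro i _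
    have hs := h.step i
    cases hsi : s i with
    | nil =>
      simp
    | cons b r =>
      rw [hsi] at hs
      obtain ⟨hb, _⟩ := step_unique hs
      rw [hb]
      simp only [List.head?_cons, Option.some.injEq]
      split_ifs
      · ring
      · simp
  rw [h1, hA fun w => if w.head? = some a then φ w - φ [] else 0, hB' fun _ => φ [], add_zero]

/-- The shift. -/
theorem ZP.shift (h : Lp R L m y s) {z : ZMod (m * L) → k} (hz : ZP R L m s z) [Fintype α] :
    ZP R L m s (fun i => z (i - 1)) := by
  constructor
  · intro φ
    have h1 : ∑ i, z (i - 1) * φ (s i) = ∑ i, z i * φ (s (i + 1)) :=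
      Fintype.sum_equiv (Equiv.subRight (1 : ZMod (m * L))) _ _ fun i => by
        simp only [Equiv.subRight_apply, sub_add_cancel]
    rw [h1]
    have h2 : ∀ i, z i * φ (s (i + 1)) =
        ∑ a, (if y (pr L m i) = a then z i else 0) * ((step R (s i) a).elim 0 φ) := by
      intro i
      rw [Finset.sum_eq_single (y (pr L m i))]
      · rw [if_pos rfl, h.step i]
        rfl
      · intro b _ hb
        rw [if_neg hb.symm, zero_mul]
      · intro hn
        exact absurd (Finset.mem_univ _) hn
    rw [Finset.sum_congr rfl fun i _ => h2 i, Finset.sum_comm]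
    apply Finset.sum_eq_zero
    intro a _
    exact (hz.letter h a).1 fun w => (step R w a).elim 0 φ
  · intro ψ
    have h1 : ∑ i, z (i - 1) * ψ (pr L m i) = ∑ i, z i * ψ (pr L m i + 1) :=
      Fintype.sum_equiv (Equiv.subRight (1 : ZMod (m * L))) _ _ fun i => by
        simp only [Equiv.subRight_apply, map_sub, map_one, sub_add_cancel]
    rw [h1]
    exact hz.2 fun j => ψ (j + 1)

theorem ZP.shift_nat (h : Lp R L m y s) [Fintype α] (t : ℕ) {z : ZMod (m * L) → k}
    (hz : ZP R L m s z) : ZP R L m s (fun i => z (i - t)) := by
  induction t with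
  | zero => simpa using hz
  | succ t ih =>
    have := ih.shift h
    have h1 : (fun i => z (i - (t + 1 : ℕ))) = fun i => z (i - 1 - t) := by
      funext i
      congr 1
      push_cast
      ring
    rw [h1]
    exact this

/-- Restriction to a letter at distance `t`. -/
theorem ZP.letter_at (h : Lp R L m y s) [Fintype α] (t : ℕ) (a : α) {z : ZMod (m * L) → k}
    (hz : ZP R L m s z) : ZP R L m s (fun i => if y (pr L m i + t) = a then z i else 0) := by
  -- shift by `t`, restrict, shift by `N t - t`
  have h1 := (hz.shift_nat h t).letter h a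
  have h2 := h1.shift_nat h (m * L * t - t)
  have h3 : ((m * L * t - t : ℕ) : ZMod (m * L)) = - (t : ZMod (m * L)) := by
    have hN : 1 ≤ m * L := Nat.one_le_iff_ne_zero.2 (NeZero.ne _)
    have h4 : t ≤ m * L * t := Nat.le_mul_of_pos_left t hN
    rw [Nat.cast_sub h4, Nat.cast_mul]
    rw [ZMod.natCast_self]
    ring
  rw [h3] at h2
  have h5 : (fun i => if y (pr L m (i - -(t : ZMod (m * L)))) = a then
      z (i - -(t : ZMod (m * L)) - t) else 0) = fun i => if y (pr L m i + t) = a then z i else 0 := by
    funext i
    have e1 : i - -(t : ZMod (m * L)) - t = i := by ring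
    have e2 : pr L m (i - -(t : ZMod (m * L))) = pr L m i + t := by
      rw [sub_neg_eq_add, map_add, map_natCast]
    rw [e1, e2]
  rw [h5] at h2
  exact h2

/-- Restriction to a class of the circle. -/
theorem ZP.cls (h : Lp R L m y s) [Fintype α] (j : ZMod L) {z : ZMod (m * L) → k}
    (hz : ZP R L m s z) : ZP R L m s (fun i => if pr L m i = j then z i else 0) := by
  have key : ∀ T : ℕ, ZP R L m s
      (fun i => if ∀ t < T, y (pr L m i + t) = y (j + t) then z i else 0) := by
    intro T
    induction T with
    | zero => simpa using hz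
    | succ T ih =>
      have h1 := ih.letter_at h T (y (j + T))
      have h2 : (fun i => if ∀ t < T + 1, y (pr L m i + t) = y (j + t) then z i else 0)
          = fun i => if y (pr L m i + T) = y (j + T) then
              (if ∀ t < T, y (pr L m i + t) = y (j + t) then z i else 0) else 0 := by
        funext i
        rw [← ite_and]
        congr 1
        apply propext
        constructor
        · intro hh
          exact ⟨hh T (Nat.lt_succ_self T), fun t ht => hh t (Nat.lt_succ_of_lt ht)⟩
        · rintro ⟨h3, h4⟩ t ht
          rcases Nat.lt_succ_iff_lt_or_eq.1 ht with h5 | rfl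
          · exact h4 t h5
          · exact h3
      rw [h2]
      exact h1
  have h3 := key L
  have h4 : (fun i => if ∀ t < L, y (pr L m i + t) = y (j + t) then z i else 0)
      = fun i => if pr L m i = j then z i else 0 := by
    funext i
    congr 1
    apply propext
    constructor
    · intro hh
      apply h.prim
      intro t
      have e1 : ((t % L : ℕ) : ZMod L) = (t : ZMod L) := ZMod.natCast_mod t L
      rw [← e1]
      exact hh (t % L) (Nat.mod_lt _ (Nat.pos_of_ne_zero (NeZero.ne L)))
    · intro hh t _
      rw [hh]
  rw [h4] at h3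
  exact h3

/-- The states in a class are different. -/
theorem Lp.inj (h : Lp R L m y s) (hR : Bim R) {i i' : ZMod (m * L)}
    (hi : pr L m i = pr L m i') (hs : s i = s i') : i = i' := by
  have key : ∀ t : ℕ, s (i - t) = s (i' - t) := by
    intro t
    induction t with
    | zero => simpa using hs
    | succ t ih =>
      have e1 := h.step (i - (t + 1 : ℕ))
      have e2 := h.step (i' - (t + 1 : ℕ))
      have e3 : i - ((t + 1 : ℕ) : ZMod (m * L)) + 1 = i - t := by push_cast; ring
      have e4 : i' - ((t + 1 : ℕ) : ZMod (m * L)) + 1 = i' - t := by push_cast; ring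
      rw [e3] at e1
      rw [e4] at e2
      have e5 : pr L m (i - (t + 1 : ℕ)) = pr L m (i' - (t + 1 : ℕ)) := by
        rw [map_sub, map_sub, hi]
      rw [e5, ih] at e1
      exact step_inj hR (h.st _) (h.st _) e1 e2
  have h1 := key i.val
  have h2 : ((i.val : ℕ) : ZMod (m * L)) = i := ZMod.natCast_zmod_val i
  rw [h2, sub_self, h.zero] at h1
  have h3 := h.min (i' - i) (by rw [map_sub, hi, sub_self]) h1.symm
  exact (sub_eq_zero.1 h3).symm

/-- There are no cycle vectors. -/
theorem ZP.eq_zero (h : Lp R L m y s) (hR : Bim R) [Fintype α] {z : ZMod (m * L) → k}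
    (hz : ZP R L m s z) : z = 0 := by
  classical
  funext i0
  have h1 := (hz.cls h (pr L m i0)).1 fun w => if w = s i0 then 1 else 0
  rw [Finset.sum_eq_single i0] at h1
  · simpa using h1
  · intro i _ hi
    by_cases h2 : pr L m i = pr L m i0
    · have h3 : s i ≠ s i0 := fun h4 => hi (h.inj hR h2 h4)
      rw [if_neg h3, mul_zero]
    · simp only [if_neg h2, zero_mul]
  · intro hn
    exact absurd (Finset.mem_univ _) hn

end

end D0L.Tr
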