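import Pool.Agent.H.MP_374efc_lc.Tr.Root1

/-!
# Root closure, the count (BIMFULL 4.1 (b), (c))

`no_lp`: there is no loop `Lp R L m y s` with `p ∣ m` if the letter counts of the petals of the full
rose `R` span modulo the prime `p`.
-/

set_option autoImplicit false

namespace D0L.Tr

open Module

/-! ### Linear algebra -/

section LA

variable {k : Type*} [Field k]

/-- A family of functions is surjective if no functional vanishes on it. -/
theorem surj_of {E V : Type*} [Fintype E] [DecidableEq E] [AddCommGroup V] [Module k V]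
    (d : V →ₗ[k] (E → k)) (h : ∀ z : E → k, (∀ v, ∑ i, z i * d v i = 0) → z = 0) :
    Function.Surjective d := by
  rw [← LinearMap.range_eq_top]
  by_contra hne
  obtain ⟨f, hf, hle⟩ := Submodule.exists_le_ker_of_lt_top _ (lt_top_iff_ne_top.2 hne)
  apply hf
  have h1 : (fun i => f fun j => if i = j then 1 else 0) = (0 : E → k) := by
    apply h
    intro v
    have h2 : f (d v) = 0 := hle (LinearMap.mem_range_self d v)
    rw [LinearMap.pi_apply_eq_sum_univ f (d v)] at h2
    refine Eq.trans ?_ h2
    apply Finset.sum_congr rfl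
    intro i _
    rw [smul_eq_mul, mul_comm]
  apply LinearMap.ext
  intro w
  rw [LinearMap.pi_apply_eq_sum_univ f w]
  apply Finset.sum_eq_zero
  intro i _
  have h3 := congrFun h1 i
  simp only [Pi.zero_apply] at h3
  rw [h3, smul_zero]

/-- The dimension count. -/
theorem dimCount {V₁ V₂ W : Type*} [AddCommGroup V₁] [Module k V₁] [AddCommGroup V₂] [Module k V₂]
    [AddCommGroup W] [Module k W] [FiniteDimensional k V₁] [FiniteDimensional k V₂]
    [FiniteDimensional k W] (d : V₁ →ₗ[k] W) (D : V₂ →ₗ[k] W) (Ψ : V₁ →ₗ[k] V₂)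
    (g : V₁ →ₗ[k] k) (hd : Function.Surjective d) (hD : Function.Surjective D)
    (h1 : ∀ v, d v = 0 → D (Ψ v) = 0) (h2 : ∀ v, d v = 0 → Ψ v = 0 → g v = 0 → v = 0)
    (hc : finrank k V₂ + 1 ≤ finrank k V₁) {w : V₂} (hw : D w = 0) : ∃ v, d v = 0 ∧ Ψ v = w := by
  let f : LinearMap.ker d →ₗ[k] (LinearMap.ker D) × k :=
    LinearMap.prod ((Ψ.domRestrict (LinearMap.ker d)).codRestrict (LinearMap.ker D)
      fun v => h1 v.1 v.2) (g.domRestrict (LinearMap.ker d))
  have hinj : Function.Injective f := by
    rw [injective_iff_map_eq_zero]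
    intro v hv
    have e1 : Ψ v.1 = 0 := congrArg Subtype.val (congrArg Prod.fst hv)
    have e2 : g v.1 = 0 := congrArg Prod.snd hv
    exact Subtype.ext (h2 v.1 v.2 e1 e2)
  have e1 := d.finrank_range_add_finrank_ker
  rw [LinearMap.range_eq_top.2 hd, finrank_top] at e1
  have e2 := D.finrank_range_add_finrank_ker
  rw [LinearMap.range_eq_top.2 hD, finrank_top] at e2
  have e3 : finrank k ((LinearMap.ker D) × k) = finrank k (LinearMap.ker D) + 1 := by
    rw [finrank_prod, finrank_self]
  have e4 := LinearMap.finrank_le_finrank_of_injective hinj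
  have e5 : finrank k (LinearMap.ker d) = finrank k ((LinearMap.ker D) × k) := by omega
  have hs := (LinearMap.injective_iff_surjective_of_finrank_eq_finrank e5).1 hinj
  obtain ⟨v, hv⟩ := hs (⟨w, hw⟩, 0)
  exact ⟨v.1, v.2, congrArg Subtype.val (congrArg Prod.fst hv)⟩

end LA

variable {α : Type*} [DecidableEq α]

/-! ### Transitions -/

/-- The states. -/
abbrev StT (R : Rose α) := {w : List α // IsSt R w}

/-- The base. -/
def stNil (R : Rose α) : StT R := ⟨[], isSt_nil R⟩

/-- The transitions. -/
abbrev TrT (R : Rose α) := {w : StT R // w ≠ stNil R} ⊕ α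

omit [DecidableEq α] in
theorem IsSt.tail {R : Rose α} {w : List α} (h : IsSt R w) : IsSt R w.tail := by
  rcases h with rfl | ⟨a, l, h1, h2⟩
  · exact isSt_nil R
  · exact Or.inr ⟨a, l, h1, (List.tail_suffix w).trans h2⟩

omit [DecidableEq α] in
theorem isSt_getD (R : Rose α) (a : α) : IsSt R ((R a).getD []) := by
  cases h : R a with
  | none => exact isSt_nil R
  | some l => exact Or.inr ⟨a, l, h, List.suffix_refl l⟩

/-- The target of a transition. -/
def tgt (R : Rose α) : TrT R → StT R
  | Sum.inl w => ⟨w.1.1.tail, w.1.2.tail⟩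
  | Sum.inr a => ⟨(R a).getD [], isSt_getD R a⟩

/-- The source of a transition. -/
def srcT (R : Rose α) : TrT R → StT R
  | Sum.inl w => w.1
  | Sum.inr _ => stNil R

/-- The letter of a transition. -/
def ltr (R : Rose α) : TrT R → α
  | Sum.inl w => w.1.1.head fun h => w.2 (Subtype.ext h)
  | Sum.inr a => a

omit [DecidableEq α] in
/-- A potential: the differences along the transitions are given by the letters. -/
theorem pot {R : Rose α} (hfull : ∀ a, ∃ l, R a = some l) {k : Type*} [Field k] {φ : StT R → k}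
    {c : α → k} (h : ∀ t, φ (tgt R t) - φ (srcT R t) = c (ltr R t))
    (hspan : ∀ c : α → k, (∀ a l, R a = some l → ((a :: l).map c).sum = 0) → c = 0) :
    c = 0 ∧ ∀ w, φ w = φ (stNil R) := by
  have key : ∀ (w : List α) (hw : IsSt R w), φ ⟨w, hw⟩ = φ (stNil R) - (w.map c).sum := by
    intro w
    induction w with
    | nil =>
      intro hw
      rw [List.map_nil, List.sum_nil, sub_zero]
      rfl
    | cons b r ih =>
      intro hw
      have hne : (⟨b :: r, hw⟩ : StT R) ≠ stNil R := by
        intro hh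
        exact List.cons_ne_nil b r (congrArg Subtype.val hh)
      have h1 : φ ⟨r, hw.tail⟩ - φ ⟨b :: r, hw⟩ = c b := h (Sum.inl ⟨⟨b :: r, hw⟩, hne⟩)
      rw [ih hw.tail] at h1
      rw [List.map_cons, List.sum_cons]
      linear_combination -h1
  have hc : c = 0 := by
    apply hspan
    intro a l hal
    have h1 : φ ⟨(R a).getD [], isSt_getD R a⟩ - φ (stNil R) = c a := h (Sum.inr a)
    rw [key, hal] at h1
    rw [List.map_cons, List.sum_cons]
    simp only [Option.getD_some] at h1
    linear_combination -h1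
  refine ⟨hc, fun w => ?_⟩
  have h1 := key w.1 w.2
  have h2 : (w.1.map (0 : α → k)).sum = 0 := by
    apply List.sum_eq_zero
    intro x hx
    obtain ⟨a, _, rfl⟩ := List.mem_map.1 hx
    rfl
  rw [h1, hc, h2, sub_zero]

variable {R : Rose α} {L m : ℕ} {y : ZMod L → α} {s : ZMod (m * L) → List α}

theorem head_of_step {w t : List α} {a : α} (h : step R w a = some t) (hne : w ≠ []) :
    w.head hne = a ∧ w.tail = t := by
  cases w with
  | nil => exact (hne rfl).elim
  | cons b r => exact ⟨(step_unique h).1.symm, (step_unique h).2.symm⟩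

/-- The transition of an edge. -/
noncomputable def trE (h : Lp R L m y s) (i : ZMod (m * L)) : TrT R := by
  classical
  exact if hs : (⟨s i, h.st i⟩ : StT R) = stNil R then Sum.inr (y (pr L m i))
    else Sum.inl ⟨⟨s i, h.st i⟩, hs⟩

theorem src_trE (h : Lp R L m y s) (i : ZMod (m * L)) : srcT R (trE h i) = ⟨s i, h.st i⟩ := by
  unfold trE
  split_ifs with hs
  · exact hs.symm
  · rfl

theorem ltr_trE (h : Lp R L m y s) (i : ZMod (m * L)) : ltr R (trE h i) = y (pr L m i) := by
  unfold trE
  split_ifs with hs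
  · rfl
  · exact (head_of_step (h.step i) fun hh => hs (Subtype.ext hh)).1

theorem tgt_trE (h : Lp R L m y s) (i : ZMod (m * L)) :
    tgt R (trE h i) = ⟨s (i + 1), h.st (i + 1)⟩ := by
  unfold trE
  have h1 := h.step i
  split_ifs with hs
  · have h2 : s i = [] := congrArg Subtype.val hs
    rw [h2, step_nil] at h1
    apply Subtype.ext
    change (R (y (pr L m i))).getD [] = s (i + 1)
    rw [h1]
    rfl
  · apply Subtype.ext
    exact (head_of_step h1 fun hh => hs (Subtype.ext hh)).2

/-! ### The two graphs -/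

section

variable {k : Type*} [Field k]

/-- Vertex functions to edge functions. -/
noncomputable def dV (h : Lp R L m y s) (k : Type*) [Field k] :
    (((StT R → k) × (ZMod L → k)) × (α → k)) →ₗ[k] (ZMod (m * L) → k) where
  toFun f i := f.1.1 ⟨s i, h.st i⟩ - f.1.2 (pr L m i)
  map_add' f g := by
    funext i
    simp only [Prod.fst_add, Prod.snd_add, Pi.add_apply]
    ring
  map_smul' c f := by
    funext i
    simp only [Prod.smul_fst, Prod.smul_snd, Pi.smul_apply, smul_eq_mul, RingHom.id_apply]
    ring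

/-- Transition functions to edge functions. -/
noncomputable def dT (h : Lp R L m y s) (k : Type*) [Field k] :
    ((TrT R → k) × (ZMod L → k)) →ₗ[k] (ZMod (m * L) → k) where
  toFun f i := f.1 (trE h i) - f.2 (pr L m i)
  map_add' f g := by
    funext i
    simp only [Prod.fst_add, Prod.snd_add, Pi.add_apply]
    ring
  map_smul' c f := by
    funext i
    simp only [Prod.smul_fst, Prod.smul_snd, Pi.smul_apply, smul_eq_mul, RingHom.id_apply]
    ring

/-- Differences and letters. -/
noncomputable def dl (R : Rose α) {L : ℕ} (y : ZMod L → α) (k : Type*) [Field k] :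
    (((StT R → k) × (ZMod L → k)) × (α → k)) →ₗ[k] ((TrT R → k) × (ZMod L → k)) where
  toFun f := (fun t => f.1.1 (tgt R t) - f.1.1 (srcT R t) + f.2 (ltr R t),
    fun j => f.1.2 (j + 1) - f.1.2 j + f.2 (y j))
  map_add' f g := by
    ext x
    · simp only [Prod.fst_add, Prod.snd_add, Pi.add_apply]
      ring
    · simp only [Prod.fst_add, Prod.snd_add, Pi.add_apply]
      ring
  map_smul' c f := by
    ext x
    · simp only [Prod.smul_fst, Prod.smul_snd, Pi.smul_apply, smul_eq_mul, RingHom.id_apply]
      ring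
    · simp only [Prod.smul_fst, Prod.smul_snd, Pi.smul_apply, smul_eq_mul, RingHom.id_apply]
      ring

theorem dT_dl (h : Lp R L m y s) (f : ((StT R → k) × (ZMod L → k)) × (α → k))
    (i : ZMod (m * L)) : dT h k (dl R y k f) i = dV h k f (i + 1) - dV h k f i := by
  change f.1.1 (tgt R (trE h i)) - f.1.1 (srcT R (trE h i)) + f.2 (ltr R (trE h i))
    - (f.1.2 (pr L m i + 1) - f.1.2 (pr L m i) + f.2 (y (pr L m i)))
    = f.1.1 ⟨s (i + 1), h.st (i + 1)⟩ - f.1.2 (pr L m (i + 1))
      - (f.1.1 ⟨s i, h.st i⟩ - f.1.2 (pr L m i))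
  rw [tgt_trE, src_trE, ltr_trE, map_add, map_one]
  ring

variable [NeZero L] [NeZero (m * L)] [Fintype α]

theorem dV_surj (h : Lp R L m y s) (hR : Bim R) : Function.Surjective (dV h k) := by
  apply surj_of
  intro z hz
  apply ZP.eq_zero h hR
  constructor
  · intro φ
    have h1 := hz ((fun w => φ w.1, 0), 0)
    simpa [dV] using h1
  · intro ψ
    have h1 := hz ((0, fun j => - ψ j), 0)
    simpa [dV] using h1

theorem dT_surj (h : Lp R L m y s) (hR : Bim R) : Function.Surjective (dT h k) := by
  apply surj_of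
  intro z hz
  apply ZP.eq_zero h hR
  constructor
  · intro φ
    have h1 := hz (fun t => φ (srcT R t).1, 0)
    simpa [dT, src_trE] using h1
  · intro ψ
    have h1 := hz (0, fun j => - ψ j)
    simpa [dT] using h1

omit [DecidableEq α] [NeZero L] [NeZero (m * L)] in
instance finite_stT (R : Rose α) : Finite (StT R) := (finite_isSt R).to_subtype

/-- The floor of an edge. -/
theorem floor_succ (hm : (m : k) = 0) (i : ZMod (m * L)) :
    (((i + 1).val / L : ℕ) : k) - ((i.val / L : ℕ) : k)
      = if pr L m i = -1 then 1 else 0 := by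
  have hL : 0 < L := Nat.pos_of_ne_zero (NeZero.ne L)
  have hN : 0 < m * L := Nat.pos_of_ne_zero (NeZero.ne _)
  have h1 : (i + 1).val = (i.val + 1) % (m * L) := by
    rw [ZMod.val_add, ZMod.val_one_eq_one_mod, Nat.add_mod_mod]
  have hv : i.val < m * L := ZMod.val_lt i
  have h2 : pr L m i = -1 ↔ L ∣ i.val + 1 := by
    rw [eq_neg_iff_add_eq_zero, ← ZMod.natCast_eq_zero_iff]
    have h3 : ((i.val : ℕ) : ZMod (m * L)) = i := ZMod.natCast_zmod_val i
    have h4 : pr L m i = ((i.val : ℕ) : ZMod L) := by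
      conv_lhs => rw [← h3]
      exact map_natCast _ _
    rw [h4]
    push_cast
    rfl
  have h5 : (((i + 1).val / L : ℕ) : k) = (((i.val + 1) / L : ℕ) : k) := by
    rcases Nat.lt_or_ge (i.val + 1) (m * L) with h3 | h3
    · rw [h1, Nat.mod_eq_of_lt h3]
    · have h4 : i.val + 1 = m * L := by omega
      rw [h1, h4, Nat.mod_self, Nat.zero_div, Nat.mul_div_cancel m hL, hm, Nat.cast_zero]
  rw [h5, Nat.succ_div]
  by_cases h6 : L ∣ i.val + 1
  · rw [if_pos h6, if_pos (h2.2 h6)]
    push_cast
    ring
  · rw [if_neg h6, if_neg fun h7 => h6 (h2.1 h7), add_zero, sub_self]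

/-- **The count**: the power of a root is not a loop. -/
theorem no_lp (h : Lp R L m y s) (hR : Bim R) (hfull : ∀ a, ∃ l, R a = some l)
    (hm : (m : k) = 0)
    (hspan : ∀ c : α → k, (∀ a l, R a = some l → ((a :: l).map c).sum = 0) → c = 0) : False := by
  classical
  haveI : Fintype (StT R) := Fintype.ofFinite _
  -- a potential of the floor
  obtain ⟨⟨⟨φ, ψ⟩, c0⟩, hφ⟩ := dV_surj (k := k) h hR fun i => ((i.val / L : ℕ) : k)
  have hφ' : ∀ i, φ ⟨s i, h.st i⟩ - ψ (pr L m i) = ((i.val / L : ℕ) : k) := fun i =>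
    congrFun hφ i
  -- the cocycle
  let θ : (TrT R → k) × (ZMod L → k) := (fun t => φ (tgt R t) - φ (srcT R t),
    fun j => ψ (j + 1) - ψ j + if j = -1 then 1 else 0)
  have hθ : dT h k θ = 0 := by
    funext i
    change φ (tgt R (trE h i)) - φ (srcT R (trE h i))
      - (ψ (pr L m i + 1) - ψ (pr L m i) + if pr L m i = -1 then 1 else 0) = 0
    rw [tgt_trE, src_trE, ← floor_succ hm i, ← hφ' i, ← hφ' (i + 1), map_add, map_one]
    ring
  have hcard : Fintype.card (TrT R) + 1 = Fintype.card (StT R) + Fintype.card α := by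
    have h1 : Fintype.card (Option {w : StT R // w ≠ stNil R}) = Fintype.card (StT R) :=
      Fintype.card_congr (Equiv.optionSubtypeNe (stNil R))
    rw [Fintype.card_option] at h1
    rw [Fintype.card_sum]
    omega
  let g : (((StT R → k) × (ZMod L → k)) × (α → k)) →ₗ[k] k :=
    { toFun := fun f => f.1.1 (stNil R)
      map_add' := fun _ _ => rfl
      map_smul' := fun _ _ => rfl }
  obtain ⟨⟨⟨φ', ψ'⟩, c⟩, h1, h2⟩ := dimCount (dV h k) (dT h k) (dl R y k) g (dV_surj h hR)
    (dT_surj h hR) (by
      intro v hv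
      funext i
      rw [dT_dl, hv]
      simp) (by
      rintro ⟨⟨φ', ψ'⟩, c⟩ h1 h2 h3
      have h3' : φ' (stNil R) = 0 := h3
      have h4 : ∀ t, φ' (tgt R t) - φ' (srcT R t) + c (ltr R t) = 0 := fun t =>
        congrFun (congrArg Prod.fst h2) t
      have h5 : ∀ j, ψ' (j + 1) - ψ' j + c (y j) = 0 := fun j =>
        congrFun (congrArg Prod.snd h2) j
      obtain ⟨hc, hφc⟩ := pot (c := -c) hfull (fun t => by
        rw [Pi.neg_apply]
        linear_combination h4 t) hspan
      have hc0 : c = 0 := neg_eq_zero.1 hc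
      have hφ0 : φ' = 0 := funext fun w => (hφc w).trans h3'
      have h6 : ∀ n : ℕ, ψ' n = 0 := by
        intro n
        induction n with
        | zero =>
          have h7 : φ' ⟨s 0, h.st 0⟩ - ψ' (pr L m 0) = 0 := congrFun h1 0
          rw [hφ0, map_zero, Pi.zero_apply, zero_sub, neg_eq_zero] at h7
          rw [Nat.cast_zero]
          exact h7
        | succ n ih =>
          have h7 := h5 n
          rw [ih, hc0, Pi.zero_apply, add_zero, sub_zero] at h7
          rw [Nat.cast_succ]
          exact h7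
      have hψ0 : ψ' = 0 := by
        funext j
        have h7 := h6 j.val
        rwa [ZMod.natCast_zmod_val] at h7
      rw [hφ0, hψ0, hc0]
      rfl) (by
      rw [finrank_prod, finrank_prod, finrank_prod, finrank_fintype_fun_eq_card,
        finrank_fintype_fun_eq_card, finrank_fintype_fun_eq_card, finrank_fintype_fun_eq_card]
      omega) hθ
  have h4 : ∀ t, φ' (tgt R t) - φ' (srcT R t) + c (ltr R t) = φ (tgt R t) - φ (srcT R t) :=
    fun t => congrFun (congrArg Prod.fst h2) t
  have h5 : ∀ j, ψ' (j + 1) - ψ' j + c (y j) = ψ (j + 1) - ψ j + if j = -1 then 1 else 0 :=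
    fun j => congrFun (congrArg Prod.snd h2) j
  obtain ⟨hc, -⟩ := pot (φ := fun w => φ w - φ' w) (c := c) hfull (fun t => by
    linear_combination -(h4 t)) hspan
  have h6 : ∑ j, (ψ' (j + 1) - ψ' j + c (y j))
      = ∑ j, (ψ (j + 1) - ψ j + if j = -1 then 1 else 0) := Finset.sum_congr rfl fun j _ => h5 j
  have h7 : ∀ ρ : ZMod L → k, ∑ j, ρ (j + 1) = ∑ j, ρ j := fun ρ =>
    Fintype.sum_equiv (Equiv.addRight (1 : ZMod L)) _ _ fun j => rfl
  rw [Finset.sum_add_distrib, Finset.sum_add_distrib, Finset.sum_sub_distrib,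
    Finset.sum_sub_distrib, h7, h7, sub_self, sub_self, zero_add, zero_add, hc,
    Finset.sum_ite_eq' Finset.univ (-1 : ZMod L) fun _ => (1 : k), if_pos (Finset.mem_univ _)] at h6
  simp at h6

end

end D0L.Tr
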