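import Mathlib

/-!
# Roses: partial maps from letters to words, their states, and the fibre graph of a pair

A rose `R` is a partial map from letters to words; the petal at the letter `a` is `a :: l` if
`R a = some l`. A state is the word that remains to be read in the current petal (`[]` is the base);
if different petals have different last letters, a state determines its petal and its place.
The fibre graph `KK Q H` of two roses has as vertices the states of `Q` and the states of `H`;
`q` and `s` are adjacent if some word leads from the bases to `q` in `Q` and to `s` in `H`.
`KKa Q H a` is the subgraph of the vertices (and edges) which have the out-letter `a`.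
-/

set_option autoImplicit false

namespace D0L.Tr

variable {α : Type*} [DecidableEq α]

/-- A rose: the petal at the letter `a` is the word `a :: l` if `R a = some l`. -/
abbrev Rose (α : Type*) := α → Option (List α)

/-- The states of a rose: the words that remain to be read in a petal. -/
def IsSt (R : Rose α) (s : List α) : Prop := s = [] ∨ ∃ a l, R a = some l ∧ s <:+ l

/-- One letter is read. -/
def step (R : Rose α) : List α → α → Option (List α)
  | [], a => R a
  | b :: r, a => if a = b then some r else none

/-- A word is read. -/
def run (R : Rose α) : List α → List α → Option (List α)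
  | s, [] => some s
  | s, a :: u => (step R s a).bind fun t => run R t u

/-- Different petals have different last letters. -/
def Bim (R : Rose α) : Prop :=
  ∀ a a' l l', R a = some l → R a' = some l' → (a :: l).getLast? = (a' :: l').getLast? → a = a'

/-! ### Reading -/

@[simp] theorem run_nil (R : Rose α) (s : List α) : run R s [] = some s := by
  cases s <;> rfl

@[simp] theorem run_cons (R : Rose α) (s : List α) (a : α) (u : List α) :
    run R s (a :: u) = (step R s a).bind fun t => run R t u := by
  cases s <;> rfl

@[simp] theorem step_nil (R : Rose α) (a : α) : step R [] a = R a := rfl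

@[simp] theorem step_cons (R : Rose α) (b : α) (r : List α) (a : α) :
    step R (b :: r) a = if a = b then some r else none := rfl

theorem step_cons_self (R : Rose α) (b : α) (r : List α) : step R (b :: r) b = some r := by simp

theorem run_append (R : Rose α) (s u v : List α) :
    run R s (u ++ v) = (run R s u).bind fun t => run R t v := by
  induction u generalizing s with
  | nil => simp
  | cons a u ih =>
    rw [List.cons_append, run_cons, run_cons]
    cases h : step R s a with
    | none => simp
    | some t => simp [ih]

theorem run_append_some {R : Rose α} {s t u v w : List α} (h1 : run R s u = some t)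
    (h2 : run R t v = some w) : run R s (u ++ v) = some w := by
  rw [run_append, h1]; simpa using h2

/-- The rest of a petal is read. -/
theorem run_self_append (R : Rose α) (s t : List α) : run R (s ++ t) s = some t := by
  induction s with
  | nil => simp
  | cons a s ih => rw [List.cons_append, run_cons, step_cons_self]; simpa using ih

theorem run_self (R : Rose α) (s : List α) : run R s s = some [] := by
  have := run_self_append R s []
  rwa [List.append_nil] at this

/-- A petal is read. -/
theorem run_petal {R : Rose α} {a : α} {l : List α} (h : R a = some l) :
    run R [] (a :: l) = some [] := by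
  rw [run_cons, step_nil, h]; simpa using run_self R l

omit [DecidableEq α] in
theorem isSt_nil (R : Rose α) : IsSt R [] := Or.inl rfl

theorem step_isSt {R : Rose α} {s t : List α} {a : α} (hs : IsSt R s) (h : step R s a = some t) :
    IsSt R t := by
  cases s with
  | nil => exact Or.inr ⟨a, t, h, List.suffix_refl t⟩
  | cons b r =>
    rw [step_cons] at h
    split_ifs at h with hab
    obtain rfl : r = t := by simpa using h
    rcases hs with hs | ⟨c, l, hc, hl⟩
    · simp at hs
    · exact Or.inr ⟨c, l, hc, (List.suffix_cons b r).trans hl⟩

theorem run_isSt {R : Rose α} {s t u : List α} (hs : IsSt R s) (h : run R s u = some t) :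
    IsSt R t := by
  induction u generalizing s with
  | nil => rw [run_nil] at h; obtain rfl : s = t := by simpa using h
           exact hs
  | cons a u ih =>
    rw [run_cons] at h
    cases h1 : step R s a with
    | none => rw [h1] at h; simp at h
    | some r =>
      rw [h1] at h
      exact ih (step_isSt hs h1) (by simpa using h)

/-- A state which is not the base has exactly one out-letter, its first letter. -/
theorem step_unique {R : Rose α} {b : α} {r t : List α} {a : α}
    (h : step R (b :: r) a = some t) : a = b ∧ t = r := by
  rw [step_cons] at h
  split_ifs at h with hab
  exact ⟨hab, by simpa using h.symm⟩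

/-- Co-determinism: reading a letter is injective on states. -/
theorem step_inj {R : Rose α} (hR : Bim R) {s s' t : List α} {a : α} (hs : IsSt R s)
    (hs' : IsSt R s') (h : step R s a = some t) (h' : step R s' a = some t) : s = s' := by
  have key : ∀ r : List α, IsSt R (a :: r) → R a = some r → False := by
    intro r hr hra
    rcases hr with hr | ⟨c, l, hc, hl⟩
    · simp at hr
    · obtain ⟨p, hp⟩ := hl
      have h1 : (a :: r).getLast? = (c :: l).getLast? := by
        have h0 : c :: l = (c :: p) ++ (a :: r) := by rw [← hp]; rfl
        rw [h0, List.getLast?_append, List.getLast?_cons]
        simp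
      have h2 := hR a c r l hra hc h1
      subst h2
      rw [hra] at hc
      obtain rfl : r = l := by simpa using hc
      have := congrArg List.length hp
      simp at this
      omega
  cases s with
  | nil =>
    cases s' with
    | nil => rfl
    | cons b' r' =>
      obtain ⟨rfl, rfl⟩ := step_unique h'
      exact (key _ hs' h).elim
  | cons b r =>
    obtain ⟨rfl, rfl⟩ := step_unique h
    cases s' with
    | nil => exact (key _ hs h').elim
    | cons b' r' =>
      obtain ⟨rfl, rfl⟩ := step_unique h'
      rfl

theorem run_inj {R : Rose α} (hR : Bim R) {s s' t u : List α} (hs : IsSt R s)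
    (hs' : IsSt R s') (h : run R s u = some t) (h' : run R s' u = some t) : s = s' := by
  induction u generalizing s s' with
  | nil => rw [run_nil] at h h'; rw [← h'] at h; simpa using h
  | cons a u ih =>
    rw [run_cons] at h h'
    cases h1 : step R s a with
    | none => rw [h1] at h; simp at h
    | some r =>
      cases h2 : step R s' a with
      | none => rw [h2] at h'; simp at h'
      | some r' =>
        rw [h1] at h; rw [h2] at h'
        have := ih (step_isSt hs h1) (step_isSt hs' h2) (by simpa using h) (by simpa using h')
        subst this
        exact step_inj hR hs hs' h1 h2

/-! ### Pairs of roses and the fibre graph -/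

/-- `q` and `s` are reached by the same word from the bases. -/
def Rel (Q H : Rose α) (q s : List α) : Prop := ∃ v, run Q [] v = some q ∧ run H [] v = some s

/-- The vertices of the fibre graph. -/
abbrev Vx (Q H : Rose α) := {q : List α // IsSt Q q} ⊕ {s : List α // IsSt H s}

/-- The vertex has the out-letter `a`. -/
def has (Q H : Rose α) : Vx Q H → α → Prop
  | Sum.inl q, a => ∃ t, step Q q.1 a = some t
  | Sum.inr s, a => ∃ t, step H s.1 a = some t

/-- The fibre graph. -/
def KK (Q H : Rose α) : SimpleGraph (Vx Q H) where
  Adj v w := match v, w with
    | Sum.inl q, Sum.inr s => Rel Q H q.1 s.1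
    | Sum.inr s, Sum.inl q => Rel Q H q.1 s.1
    | _, _ => False
  symm := ⟨by rintro (q | s) (q' | s') h <;> exact h⟩
  loopless := ⟨by rintro (q | s) h <;> exact h⟩

/-- The fibre graph over the letter `a`. -/
def KKa (Q H : Rose α) (a : α) : SimpleGraph (Vx Q H) where
  Adj v w := (KK Q H).Adj v w ∧ has Q H v a ∧ has Q H w a
  symm := ⟨fun _ _ h => ⟨h.1.symm, h.2.2, h.2.1⟩⟩
  loopless := ⟨fun _ h => h.1.ne rfl⟩

/-- The base vertices. -/
def bQ (Q H : Rose α) : Vx Q H := Sum.inl ⟨[], isSt_nil Q⟩

/-- The base vertices. -/
def bH (Q H : Rose α) : Vx Q H := Sum.inr ⟨[], isSt_nil H⟩

/-- A pair of bimarked roses: every letter is the first letter of a petal of `H`, and from every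
out-letter of the base of `Q` a common path returns to the pair of the bases (the petals of the
rose `P` of the intersection). -/
structure Pr (Q H : Rose α) : Prop where
  q : Bim Q
  h : Bim H
  full : ∀ a, ∃ l, H a = some l
  pure : ∀ a l, Q a = some l → ∃ v, run Q [] (a :: v) = some [] ∧ run H [] (a :: v) = some []

/-- `H` is malnormal: two different states never read a nonempty word periodically. -/
def Mal (H : Rose α) : Prop :=
  ∀ s s' u : List α, IsSt H s → IsSt H s' → u ≠ [] → run H s u = some s → run H s' u = some s' →
    s = s'

end D0L.Tr
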