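import Pool.Agent.H.MP_374efc_lc.Tr.Root3

/-!
# Rotations of powers of primitive words

`rot_split`: if `d ++ g = (A ++ B)^e`, `g ++ d = (B ++ A)^e'`, `A ++ B` is primitive and `B ≠ []`,
then `d = (A ++ B)^i ++ A`.
-/

set_option autoImplicit false

namespace D0L.Tr

variable {α : Type*}

/-- Primitive words. -/
def Prim (X : List α) : Prop := ∀ z d, X = wpow z d → d = 1

theorem Prim.ne_nil {X : List α} (h : Prim X) : X ≠ [] := by
  rintro rfl
  have := h [] 0 (by simp [wpow])
  omega

/-- The letters of the infinite power. -/
def iw (X : List α) (n : ℕ) : Option α := X[n % X.length]?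

theorem iw_wpow {X : List α} {e : ℕ} (he : 0 < e) (n : ℕ) : iw (wpow X e) n = iw X n := by
  unfold iw
  rcases Nat.eq_zero_or_pos X.length with h0 | h0
  · rw [List.length_eq_zero_iff] at h0
    subst h0
    simp [wpow]
  · rw [wpow_length]
    have h1 : n % (e * X.length) < e * X.length := Nat.mod_lt _ (Nat.mul_pos he h0)
    rw [wpow_getElem? _ _ _ h1, Nat.mod_mul_left_mod]

theorem iw_rot (d g : List α) (n : ℕ) : iw (d ++ g) (d.length + n) = iw (g ++ d) n := by
  unfold iw
  rw [List.length_append, List.length_append, Nat.add_comm g.length d.length]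
  rcases Nat.eq_zero_or_pos (d.length + g.length) with h0 | h0
  · have h1 : d = [] := List.length_eq_zero_iff.1 (by omega)
    have h2 : g = [] := List.length_eq_zero_iff.1 (by omega)
    rw [h1, h2]
    simp
  · rcases Nat.eq_zero_or_pos g.length with hg | hg
    · have h2 : g = [] := List.length_eq_zero_iff.1 hg
      rw [h2, List.append_nil, List.nil_append, List.length_nil, Nat.add_zero, Nat.add_mod_left]
    have hm : n % (d.length + g.length) < d.length + g.length := Nat.mod_lt _ h0
    rcases Nat.lt_or_ge (n % (d.length + g.length)) g.length with h1 | h1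
    · have h2 : (d.length + n) % (d.length + g.length)
          = d.length + n % (d.length + g.length) := by
        rw [Nat.add_mod, Nat.mod_eq_of_lt (a := d.length) (by omega), Nat.mod_eq_of_lt (by omega)]
      rw [h2, List.getElem?_append_right (by omega), List.getElem?_append_left h1]
      congr 1
      omega
    · have h3 : d.length % (d.length + g.length) + n % (d.length + g.length)
          = (n % (d.length + g.length) - g.length) + (d.length + g.length) := by
        rw [Nat.mod_eq_of_lt (a := d.length) (by omega)]
        omega
      have h2 : (d.length + n) % (d.length + g.length)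
          = n % (d.length + g.length) - g.length := by
        rw [Nat.add_mod, h3, Nat.add_mod_right, Nat.mod_eq_of_lt (by omega)]
      rw [h2, List.getElem?_append_left (by omega), List.getElem?_append_right h1]

theorem iw_cyc {X : List α} [NeZero X.length] (n : ℕ) : iw X n = some (cyc X n) := by
  unfold iw cyc
  have h : n % X.length < X.length := Nat.mod_lt _ (Nat.pos_of_ne_zero (NeZero.ne _))
  rw [List.getElem?_eq_getElem h]
  congr 1
  congr 1
  rw [ZMod.val_natCast]

/-- Two shifts of a primitive word which agree are equal modulo the length. -/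
theorem Prim.shift {X : List α} (hX : Prim X) {i j : ℕ} (h : ∀ n, iw X (i + n) = iw X (j + n)) :
    i % X.length = j % X.length := by
  have h0 : X.length ≠ 0 := fun h0 => hX.ne_nil (List.length_eq_zero_iff.1 h0)
  haveI : NeZero X.length := ⟨h0⟩
  by_contra hne
  have hD : (i : ZMod X.length) - (j : ZMod X.length) ≠ 0 := by
    intro h1
    rw [sub_eq_zero, ZMod.natCast_eq_natCast_iff'] at h1
    exact hne h1
  obtain ⟨z, d, h1, h2, h3⟩ := eq_wpow_of_period X hD (by
    intro x
    have h2 := h (x - (j : ZMod X.length)).val
    rw [iw_cyc, iw_cyc] at h2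
    have h3 := Option.some.inj h2
    rw [Nat.cast_add, Nat.cast_add, ZMod.natCast_zmod_val] at h3
    have e1 : (i : ZMod X.length) + (x - (j : ZMod X.length)) = x + (i - j) := by ring
    have e2 : (j : ZMod X.length) + (x - (j : ZMod X.length)) = x := by ring
    rw [e1, e2] at h3
    exact h3)
  have h4 := hX z d h1
  rw [h4, wpow_one] at h1
  rw [← h1] at h2
  exact lt_irrefl _ h2

/-- Rotations of powers. -/
theorem rot_split {A B d g : List α} {e e' : ℕ} (hX : Prim (A ++ B)) (hB : B ≠ []) (he : 0 < e)
    (h1 : d ++ g = wpow (A ++ B) e) (h2 : g ++ d = wpow (B ++ A) e') :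
    ∃ i, d = wpow (A ++ B) i ++ A := by
  have hBl : 0 < B.length := List.length_pos_of_ne_nil hB
  have hlen1 := congrArg List.length h1
  have hlen2 := congrArg List.length h2
  rw [wpow_length, List.length_append, List.length_append] at hlen1 hlen2
  have he' : 0 < e' := by
    rcases Nat.eq_zero_or_pos e' with h0 | h0
    · exfalso
      rw [h0, Nat.zero_mul] at hlen2
      have : 0 < e * (A.length + B.length) := Nat.mul_pos he (by omega)
      omega
    · exact h0
  have h3 : ∀ n, iw (A ++ B) (d.length + n) = iw (A ++ B) (A.length + n) := by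
    intro n
    rw [← iw_wpow he, ← h1, iw_rot, h2, iw_wpow he', iw_rot]
  have h4 := hX.shift h3
  rw [List.length_append, Nat.mod_eq_of_lt (a := A.length) (by omega)] at h4
  refine ⟨d.length / (A.length + B.length), ?_⟩
  -- `d` is a prefix of the power
  have h5 : d = (wpow (A ++ B) e).take d.length := by rw [← h1, List.take_left]
  have h6 : d.length = d.length / (A.length + B.length) * (A.length + B.length) + A.length := by
    have := Nat.div_add_mod d.length (A.length + B.length)
    rw [h4, Nat.mul_comm] at this
    exact this.symm
  obtain ⟨i, hi⟩ : ∃ i, i = d.length / (A.length + B.length) := ⟨_, rfl⟩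
  rw [← hi] at h6 ⊢
  rcases Nat.lt_or_ge i e with h7 | h7
  swap
  · have h8 : e * (A.length + B.length) ≤ i * (A.length + B.length) :=
      Nat.mul_le_mul_right _ h7
    have hA : A.length = 0 := by omega
    have hg : g.length = 0 := by omega
    have hie : i = e := by
      have h9 : i * (A.length + B.length) = e * (A.length + B.length) := by omega
      exact Nat.eq_of_mul_eq_mul_right (by omega) h9
    rw [List.length_eq_zero_iff.1 hg, List.append_nil] at h1
    rw [hie, h1, List.length_eq_zero_iff.1 hA]
    simp
  obtain ⟨k, hk⟩ : ∃ k, e = i + (1 + k) := ⟨e - i - 1, by omega⟩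
  rw [h5, h6, hk, wpow_add, wpow_add, wpow_one]
  have h8 : i * (A.length + B.length) + A.length
      = (wpow (A ++ B) i ++ A).length := by
    rw [List.length_append, wpow_length, List.length_append]
  rw [h8]
  have h9 : wpow (A ++ B) i ++ (A ++ B ++ wpow (A ++ B) k)
      = (wpow (A ++ B) i ++ A) ++ (B ++ wpow (A ++ B) k) := by simp
  rw [h9, List.take_left]

end D0L.Tr
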