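import Pool.Agent.H.MP_374efc_lc.Tr.Ret

/-!
# Lemma Z, part 1: two states which read the same word (parallel paths)

`Par H m z x y`: the states `x i`, `y i` (`i ≤ m`) of the rose `H` are different and read the letters
`z 0, …, z (m-1)`. If `x t` and `y t` are connected by pairs `x j, y j` with `j > t` and the same
out-letter, then there is `q > t` such that the word `z 0 … z t` is also read at the place `q`.
-/

set_option autoImplicit false

namespace D0L.Tr

open Relation

variable {α : Type*} [DecidableEq α] {H : Rose α} {m : ℕ} {z : ℕ → α} {x y : ℕ → List α}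

/-- Parallel paths. -/
structure Par (H : Rose α) (m : ℕ) (z : ℕ → α) (x y : ℕ → List α) : Prop where
  xs : ∀ i, i ≤ m → IsSt H (x i)
  ys : ∀ i, i ≤ m → IsSt H (y i)
  xst : ∀ i, i < m → step H (x i) (z i) = some (x (i + 1))
  yst : ∀ i, i < m → step H (y i) (z i) = some (y (i + 1))
  ne : ∀ i, i ≤ m → x i ≠ y i

theorem Par.symm (h : Par H m z x y) : Par H m z y x :=
  ⟨h.ys, h.xs, h.yst, h.xst, fun i hi => (h.ne i hi).symm⟩

/-- The edges at the place `p`: pairs at a later place `p + q` where the word `z p … z (p+d)` is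
read again. -/
def Ed (m : ℕ) (z : ℕ → α) (x y : ℕ → List α) (p d : ℕ) (σ σ' : List α) : Prop :=
  ∃ q, 1 ≤ q ∧ p + d + q < m ∧ (∀ i, i ≤ d → z (p + q + i) = z (p + i)) ∧
    ((σ = x (p + q) ∧ σ' = y (p + q)) ∨ (σ = y (p + q) ∧ σ' = x (p + q)))

omit [DecidableEq α] in
theorem Ed.symm {p d : ℕ} {σ σ' : List α} (h : Ed m z x y p d σ σ') : Ed m z x y p d σ' σ := by
  obtain ⟨q, h1, h2, h3, h4⟩ := h
  exact ⟨q, h1, h2, h3, h4.elim (fun h => Or.inr ⟨h.2, h.1⟩) fun h => Or.inl ⟨h.2, h.1⟩⟩

omit [DecidableEq α] in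
theorem Ed.swap {p d : ℕ} {σ σ' : List α} (h : Ed m z x y p d σ σ') : Ed m z y x p d σ σ' := by
  obtain ⟨q, h1, h2, h3, h4⟩ := h
  exact ⟨q, h1, h2, h3, h4.elim Or.inr Or.inl⟩

/-- The edges at the place `p + 1` which can be moved to the place `p`. -/
def Eb (m : ℕ) (z : ℕ → α) (x y : ℕ → List α) (p d : ℕ) (σ σ' : List α) : Prop :=
  ∃ q, 1 ≤ q ∧ p + 1 + d + q < m ∧ (∀ i, i ≤ d + 1 → z (p + q + i) = z (p + i)) ∧
    ((σ = x (p + q + 1) ∧ σ' = y (p + q + 1)) ∨ (σ = y (p + q + 1) ∧ σ' = x (p + q + 1)))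

omit [DecidableEq α] in
theorem Eb.symm {p d : ℕ} {σ σ' : List α} (h : Eb m z x y p d σ σ') : Eb m z x y p d σ' σ := by
  obtain ⟨q, h1, h2, h3, h4⟩ := h
  exact ⟨q, h1, h2, h3, h4.elim (fun h => Or.inr ⟨h.2, h.1⟩) fun h => Or.inl ⟨h.2, h.1⟩⟩

omit [DecidableEq α] in
theorem Eb.swap {p d : ℕ} {σ σ' : List α} (h : Eb m z x y p d σ σ') : Eb m z y x p d σ σ' := by
  obtain ⟨q, h1, h2, h3, h4⟩ := h
  exact ⟨q, h1, h2, h3, h4.elim Or.inr Or.inl⟩

omit [DecidableEq α] in
theorem rtg_symm {A : Type*} {r : A → A → Prop} (hr : ∀ a b, r a b → r b a) {a b : A}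
    (h : ReflTransGen r a b) : ReflTransGen r b a := by
  induction h with
  | refl => exact ReflTransGen.refl
  | tail _ h2 ih => exact ReflTransGen.head (hr _ _ h2) ih

/-- Moving a chain one place back. -/
theorem eb_lift (hB : Bim H) (hP : Par H m z x y) {p d : ℕ} (hp : p < m) {σ : List α}
    (h : ReflTransGen (Eb m z x y p d) (x (p + 1)) σ) :
    ∃ ρ, IsSt H ρ ∧ step H ρ (z p) = some σ ∧ ReflTransGen (Ed m z x y p (d + 1)) (x p) ρ := by
  induction h with
  | refl => exact ⟨x p, hP.xs p hp.le, hP.xst p hp, ReflTransGen.refl⟩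
  | tail _ h2 ih =>
    obtain ⟨ρ, hρ, hst, hch⟩ := ih
    obtain ⟨q, hq, hlt, hz, hc⟩ := h2
    have hz0 : z (p + q) = z p := by simpa using hz 0 (by omega)
    have hx := hP.xst (p + q) (by omega)
    have hy := hP.yst (p + q) (by omega)
    rw [hz0] at hx hy
    have hed : ∀ i, i ≤ d + 1 → z (p + q + i) = z (p + i) := hz
    rcases hc with ⟨rfl, rfl⟩ | ⟨rfl, rfl⟩
    · have e := step_inj hB hρ (hP.xs _ (by omega)) hst hx
      subst e
      exact ⟨y (p + q), hP.ys _ (by omega), hy,
        hch.tail ⟨q, hq, by omega, hed, Or.inl ⟨rfl, rfl⟩⟩⟩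
    · have e := step_inj hB hρ (hP.ys _ (by omega)) hst hy
      subst e
      exact ⟨x (p + q), hP.xs _ (by omega), hx,
        hch.tail ⟨q, hq, by omega, hed, Or.inr ⟨rfl, rfl⟩⟩⟩

/-- If the base is not reached, all edges can be moved back. -/
theorem ed_eb (hB : Bim H) (hP : Par H m z x y) {p d : ℕ} (hp : p < m)
    (hno : ¬ ReflTransGen (Eb m z x y p d) (x (p + 1)) []) {σ : List α}
    (h : ReflTransGen (Ed m z x y (p + 1) d) (x (p + 1)) σ) :
    ReflTransGen (Eb m z x y p d) (x (p + 1)) σ := by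
  induction h with
  | refl => exact ReflTransGen.refl
  | @tail b c _ h2 ih =>
    obtain ⟨ρ, hρ, hst, -⟩ := eb_lift hB hP hp ih
    have hne : b ≠ [] := fun e => hno (e ▸ ih)
    obtain ⟨q, hq, hlt, hz, hc⟩ := h2
    have e1 : p + 1 + q = p + q + 1 := by omega
    rw [e1] at hc
    have hx := hP.xst (p + q) (by omega)
    have hy := hP.yst (p + q) (by omega)
    have hz0 : z (p + q) = z p := by
      rcases hc with ⟨hb, -⟩ | ⟨hb, -⟩
      · rw [← hb] at hx
        exact in_unique hB (hP.xs _ (by omega)) hρ hx hst hne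
      · rw [← hb] at hy
        exact in_unique hB (hP.ys _ (by omega)) hρ hy hst hne
    refine ih.tail ⟨q, hq, by omega, ?_, hc⟩
    intro i hi
    cases i with
    | zero => simpa using hz0
    | succ j =>
      have h3 := hz j (by omega)
      have e2 : p + 1 + q + j = p + q + (j + 1) := by omega
      have e3 : p + 1 + j = p + (j + 1) := by omega
      rwa [e2, e3] at h3

/-- One step back. -/
theorem ed_down (hB : Bim H) (hP : Par H m z x y) {p d : ℕ} (hp : p < m)
    (h : ReflTransGen (Ed m z x y (p + 1) d) (x (p + 1)) (y (p + 1))) :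
    ReflTransGen (Ed m z x y p (d + 1)) (x p) (y p) := by
  have key : ReflTransGen (Eb m z x y p d) (x (p + 1)) (y (p + 1)) := by
    by_cases h1 : ReflTransGen (Eb m z x y p d) (x (p + 1)) []
    · by_cases h2 : ReflTransGen (Eb m z y x p d) (y (p + 1)) []
      · have h3 : ReflTransGen (Eb m z x y p d) (y (p + 1)) [] :=
          h2.lift id fun _ _ h => h.swap
        exact h1.trans (rtg_symm (fun _ _ h => h.symm) h3)
      · have h3 : ReflTransGen (Ed m z y x (p + 1) d) (y (p + 1)) (x (p + 1)) :=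
          (rtg_symm (fun _ _ h => h.symm) h).lift id fun _ _ h => h.swap
        have h4 := ed_eb hB hP.symm hp h2 h3
        exact rtg_symm (fun _ _ h => h.symm) (h4.lift id fun _ _ h => h.swap)
    · exact ed_eb hB hP hp h1 h
  obtain ⟨ρ, hρ, hst, hch⟩ := eb_lift hB hP hp key
  have e := step_inj hB hρ (hP.ys p hp.le) hst (hP.yst p hp)
  rwa [e] at hch

/-- Back to the place `0`. -/
theorem ed_zero (hB : Bim H) (hP : Par H m z x y) {p d : ℕ} (hp : p < m)
    (h : ReflTransGen (Ed m z x y p d) (x p) (y p)) :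
    ReflTransGen (Ed m z x y 0 (d + p)) (x 0) (y 0) := by
  induction p generalizing d with
  | zero => exact h
  | succ p ih =>
    have h1 := ih (d := d + 1) (by omega) (ed_down hB hP (by omega) h)
    have e : d + 1 + p = d + (p + 1) := by omega
    rwa [e] at h1

/-! ### Words read along the path -/

/-- The word `z i … z (i+n-1)`. -/
def wd (z : ℕ → α) (i n : ℕ) : List α := (List.range n).map fun k => z (i + k)

omit [DecidableEq α] in
theorem wd_length (z : ℕ → α) (i n : ℕ) : (wd z i n).length = n := by simp [wd]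

omit [DecidableEq α] in
theorem wd_succ (z : ℕ → α) (i n : ℕ) : wd z i (n + 1) = wd z i n ++ [z (i + n)] := by
  simp [wd, List.range_succ]

theorem Par.run_x (hP : Par H m z x y) {i n : ℕ} (h : i + n ≤ m) :
    run H (x i) (wd z i n) = some (x (i + n)) := by
  induction n with
  | zero => simp [wd]
  | succ n ih =>
    rw [wd_succ]
    refine run_append_some (ih (by omega)) ?_
    rw [run_cons, hP.xst (i + n) (by omega)]
    simp [Nat.add_assoc]

/-- `k` copies of the word `z 0 … z (e-1)`. -/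
def pw (z : ℕ → α) (e : ℕ) : ℕ → List α
  | 0 => []
  | k + 1 => pw z e k ++ wd z 0 e

omit [DecidableEq α] in
theorem pw_length (z : ℕ → α) (e k : ℕ) : (pw z e k).length = k * e := by
  induction k with
  | zero => simp [pw]
  | succ k ih => rw [pw, List.length_append, ih, wd_length]; ring

omit [DecidableEq α] in
theorem pw_add (z : ℕ → α) (e k l : ℕ) : pw z e (k + l) = pw z e k ++ pw z e l := by
  induction l with
  | zero => simp [pw]
  | succ l ih => rw [← Nat.add_assoc, pw, ih, pw, List.append_assoc]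

omit [DecidableEq α] in
/-- If the word is periodic, `pw z e k` is read. -/
theorem pw_eq {z : ℕ → α} {e k : ℕ} (h : ∀ i, i < k * e → z i = z (i % e)) :
    pw z e k = wd z 0 (k * e) := by
  induction k with
  | zero => simp [pw, wd]
  | succ k ih =>
    rw [pw, ih fun i hi => h i (by rw [Nat.succ_mul]; omega)]
    have h1 : wd z 0 ((k + 1) * e) = wd z 0 (k * e) ++ wd z (k * e) e := by
      have e1 : (k + 1) * e = k * e + e := by ring
      rw [e1]
      unfold wd
      rw [List.range_add, List.map_append, List.map_map]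
      simp [Function.comp_def]
    rw [h1]
    congr 1
    unfold wd
    refine List.map_congr_left fun j hj => ?_
    rw [List.mem_range] at hj
    have h2 := h (k * e + j) (by rw [Nat.succ_mul]; omega)
    rw [Nat.zero_add, h2, Nat.add_comm (k * e), Nat.mul_comm, Nat.add_mul_mod_self_left,
      Nat.mod_eq_of_lt hj]

theorem run_pw_mul {s : List α} {e k : ℕ} (h : run H s (pw z e k) = some s) (l : ℕ) :
    run H s (pw z e (k * l)) = some s := by
  induction l with
  | zero => simp [pw]
  | succ l ih =>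
    rw [Nat.mul_succ, pw_add]
    exact run_append_some ih h

omit [DecidableEq α] in
/-- The periodicity lemma for a word which occurs at the places `0`, `a`, `b`. -/
theorem per_gcd {z : ℕ → α} {t a b : ℕ} (ha : 1 ≤ a) (hab : a ≤ b) (hbt : b ≤ t)
    (h1 : ∀ i, i ≤ t → z (a + i) = z i) (h2 : ∀ i, i ≤ t → z (b + i) = z i) :
    ∀ i, i ≤ t → z i = z (i % Nat.gcd a b) := by
  have hlen : (wd z 0 (t + 1)).length = t + 1 := wd_length _ _ _
  have hget : ∀ i, i < t + 1 → (wd z 0 (t + 1))[i]? = some (z i) := by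
    intro i hi
    unfold wd
    rw [List.getElem?_map, List.getElem?_range hi]
    simp
  have p1 : (wd z 0 (t + 1)).HasPeriod a := by
    rw [List.hasPeriod_iff_getElem?, hlen]
    intro i hi
    rw [hget i (by omega), hget (i + a) (by omega), Nat.add_comm i a, h1 i (by omega)]
  have p2 : (wd z 0 (t + 1)).HasPeriod (b - a) := by
    rw [List.hasPeriod_iff_getElem?, hlen]
    intro i hi
    rw [hget i (by omega), hget (i + (b - a)) (by omega)]
    have h3 := h1 (i + (b - a)) (by omega)
    have h4 := h2 i (by omega)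
    have e : a + (i + (b - a)) = b + i := by omega
    rw [e, h4] at h3
    rw [h3]
  have p3 := p1.gcd p2 (by rw [hlen]; omega)
  have e : Nat.gcd a (b - a) = Nat.gcd a b := Nat.gcd_sub_self_right hab
  rw [e] at p3
  intro i hi
  have h5 := p3.getElem?_mod _ i _ (by rw [hlen]; omega)
  have h6 : i % Nat.gcd a b ≤ i := Nat.mod_le _ _
  rw [hget i (by omega), hget _ (by omega)] at h5
  exact (Option.some.inj h5).symm

/-- Two offsets `a, b ≤ t` give a loop at the pair `x 0, y 0`. -/
theorem two_off (hP : Par H m z x y)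
    (hF : ∀ v, v ≠ [] → run H (x 0) v = some (x 0) → run H (y 0) v = some (y 0) → False)
    {t a b : ℕ} (ha : 1 ≤ a) (hb : 1 ≤ b)
    (hat : a ≤ t) (hbt : b ≤ t) (hma : t + a < m) (hmb : t + b < m)
    (h1 : ∀ i, i ≤ t → z (a + i) = z i) (h2 : ∀ i, i ≤ t → z (b + i) = z i)
    (hx : x 0 = x a ∨ x 0 = y a) (hy : y 0 = y b ∨ y 0 = x b) : False := by
  have hg : ∀ i, i ≤ t → z i = z (i % Nat.gcd a b) := by
    rcases Nat.le_total a b with h | h
    · exact per_gcd ha h hbt h1 h2
    · have := per_gcd hb h hat h2 h1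
      rwa [Nat.gcd_comm] at this
  obtain ⟨e, he⟩ : ∃ e, e = Nat.gcd a b := ⟨_, rfl⟩
  rw [← he] at hg
  have he1 : 1 ≤ e := by rw [he]; exact Nat.gcd_pos_of_pos_left b ha
  obtain ⟨k, hk⟩ : ∃ k, a = k * e := by
    obtain ⟨c, hc⟩ := Nat.gcd_dvd_left a b
    exact ⟨c, by rw [he, Nat.mul_comm]; exact hc⟩
  obtain ⟨l, hl⟩ : ∃ l, b = l * e := by
    obtain ⟨c, hc⟩ := Nat.gcd_dvd_right a b
    exact ⟨c, by rw [he, Nat.mul_comm]; exact hc⟩
  have hk1 : 1 ≤ k := by
    rcases Nat.eq_zero_or_pos k with h | h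
    · rw [h, Nat.zero_mul] at hk; omega
    · exact h
  have hl1 : 1 ≤ l := by
    rcases Nat.eq_zero_or_pos l with h | h
    · rw [h, Nat.zero_mul] at hl; omega
    · exact h
  have wk : pw z e k = wd z 0 a := by
    rw [pw_eq fun i hi => hg i (by omega), ← hk]
  have wl : pw z e l = wd z 0 b := by
    rw [pw_eq fun i hi => hg i (by omega), ← hl]
  have rxk : run H (x 0) (pw z e k) = some (x a) := by
    rw [wk]; simpa using hP.run_x (i := 0) (n := a) (by omega)
  have ryk : run H (y 0) (pw z e k) = some (y a) := by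
    rw [wk]; simpa using hP.symm.run_x (i := 0) (n := a) (by omega)
  have rxl : run H (x 0) (pw z e l) = some (x b) := by
    rw [wl]; simpa using hP.run_x (i := 0) (n := b) (by omega)
  have ryl : run H (y 0) (pw z e l) = some (y b) := by
    rw [wl]; simpa using hP.symm.run_x (i := 0) (n := b) (by omega)
  have fin : ∀ c, 1 ≤ c → run H (x 0) (pw z e c) = some (x 0) →
      run H (y 0) (pw z e c) = some (y 0) → False := by
    intro c hc hcx hcy
    refine hF (pw z e c) ?_ hcx hcy
    intro h0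
    have h3 := congrArg List.length h0
    rw [pw_length, List.length_nil] at h3
    have h4 : 0 < c * e := Nat.mul_pos hc he1
    omega
  rcases hx with hx | hx <;> rcases hy with hy | hy
  · rw [← hx] at rxk
    rw [← hy] at ryl
    refine fin (k * l) (Nat.mul_pos hk1 hl1) (run_pw_mul rxk l) ?_
    rw [Nat.mul_comm]
    exact run_pw_mul ryl k
  · rw [← hx] at rxk
    rw [← hy] at rxl
    refine fin k hk1 rxk ?_
    have h3 : run H (x 0) (pw z e (k + l)) = some (y 0) := by
      rw [pw_add]; exact run_append_some rxk rxl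
    rw [Nat.add_comm, pw_add, run_append, rxl] at h3
    simpa using h3
  · rw [← hx] at ryk
    rw [← hy] at ryl
    refine fin l hl1 ?_ ryl
    have h3 : run H (y 0) (pw z e (l + k)) = some (x 0) := by
      rw [pw_add]; exact run_append_some ryl ryk
    rw [Nat.add_comm, pw_add, run_append, ryk] at h3
    simpa using h3
  · rw [← hx] at ryk
    rw [← hy] at rxl
    refine fin (l + k) (by omega) ?_ ?_
    · rw [pw_add]; exact run_append_some rxl ryk
    · rw [Nat.add_comm, pw_add]; exact run_append_some ryk rxl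

/-- If the place `t` is redundant, the word `z 0 … z t` is read again at a place `q > t`. -/
theorem far (hB : Bim H) (hP : Par H m z x y)
    (hF : ∀ v, v ≠ [] → run H (x 0) v = some (x 0) → run H (y 0) v = some (y 0) → False)
    {t : ℕ} (ht : t < m)
    (h : ReflTransGen (Ed m z x y t 0) (x t) (y t)) :
    ∃ q, t < q ∧ t + q < m ∧ ∀ i, i ≤ t → z (q + i) = z i := by
  have h0 := ed_zero hB hP ht h
  rw [Nat.zero_add] at h0
  have hne := hP.ne 0 (Nat.zero_le _)
  obtain ⟨a, ha, hma, hza, hxa⟩ : ∃ a, 1 ≤ a ∧ t + a < m ∧ (∀ i, i ≤ t → z (a + i) = z i) ∧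
      (x 0 = x a ∨ x 0 = y a) := by
    rcases h0.cases_head with h1 | ⟨c, ⟨q, h1, h2, h3, h4⟩, -⟩
    · exact (hne h1).elim
    · refine ⟨q, h1, by simpa using h2, fun i hi => by simpa using h3 i hi, ?_⟩
      rcases h4 with h4 | h4
      · left; simpa using h4.1
      · right; simpa using h4.1
  obtain ⟨b, hb, hmb, hzb, hyb⟩ : ∃ b, 1 ≤ b ∧ t + b < m ∧ (∀ i, i ≤ t → z (b + i) = z i) ∧
      (y 0 = y b ∨ y 0 = x b) := by
    rcases h0.cases_tail with h1 | ⟨c, -, ⟨q, h1, h2, h3, h4⟩⟩
    · exact (hne h1.symm).elim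
    · refine ⟨q, h1, by simpa using h2, fun i hi => by simpa using h3 i hi, ?_⟩
      rcases h4 with h4 | h4
      · left; simpa using h4.2
      · right; simpa using h4.2
  by_cases h5 : t < a
  · exact ⟨a, h5, hma, hza⟩
  · by_cases h6 : t < b
    · exact ⟨b, h6, hmb, hzb⟩
    · exact (two_off hP hF ha hb (by omega) (by omega) hma hmb hza hzb hxa hyb).elim

end D0L.Tr
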